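import Pool.Agent.H643R2.ChainTwins

/-!
# Glueing decompositions along antichains with `k` elements
-/

namespace Pool.Agent.H643R2.ChainDec

open Classical

variable {α : Type*} [PartialOrder α] {k : ℕ}

/-- An antichain with `k` elements, listed by the colours of the decomposition `f`. -/
structure Sec (f : α → Fin k) (c : Fin k → α) : Prop where
  col : ∀ i, f (c i) = i
  anti : ∀ i j, c i ≤ c j → i = j

theorem perm_bij {f : α → Fin k} {c : Fin k → α} (hc : Sec f c) {g : α → Fin k}
    (hg : g ∈ CDec α k) : Function.Bijective fun i => g (c i) := by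
  apply Finite.injective_iff_bijective.mp
  intro i j hij
  rcases hg _ _ hij with h | h
  · exact hc.anti _ _ h
  · exact (hc.anti _ _ h).symm

/-- The permutation of the colours given by `g` on the antichain `c`. -/
noncomputable def pm {f : α → Fin k} {c : Fin k → α} (hc : Sec f c) {g : α → Fin k}
    (hg : g ∈ CDec α k) : Equiv.Perm (Fin k) := Equiv.ofBijective _ (perm_bij hc hg)

theorem pm_apply {f : α → Fin k} {c : Fin k → α} (hc : Sec f c) {g : α → Fin k}
    (hg : g ∈ CDec α k) (i : Fin k) : pm hc hg i = g (c i) := rfl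

/-- `g` below `c` and `σ ∘ h` strictly above `c`. -/
noncomputable def glue (f : α → Fin k) (c : Fin k → α) (σ : Equiv.Perm (Fin k)) (g h : α → Fin k) :
    α → Fin k := fun a => if c (f a) < a then σ (h a) else g a

theorem glue_up {f : α → Fin k} {c : Fin k → α} {σ : Equiv.Perm (Fin k)} {g h : α → Fin k} {a : α}
    (ha : c (f a) < a) : glue f c σ g h a = σ (h a) := if_pos ha

theorem glue_dn {f : α → Fin k} {c : Fin k → α} {σ : Equiv.Perm (Fin k)} {g h : α → Fin k} {a : α}
    (ha : ¬ c (f a) < a) : glue f c σ g h a = g a := if_neg ha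

theorem glue_sec {f : α → Fin k} {c : Fin k → α} (hc : Sec f c) {σ : Equiv.Perm (Fin k)}
    {g h : α → Fin k} (i : Fin k) : glue f c σ g h (c i) = g (c i) := by
  apply glue_dn
  rw [hc.col]
  exact lt_irrefl _

theorem glue_mem {f : α → Fin k} (hf : f ∈ CDec α k) {c : Fin k → α} (hc : Sec f c)
    {σ : Equiv.Perm (Fin k)} {g h : α → Fin k} (hg : g ∈ CDec α k) (hh : h ∈ CDec α k)
    (hσ : ∀ i, σ (h (c i)) = g (c i)) : glue f c σ g h ∈ CDec α k := by
  have key : ∀ a b, ¬ c (f a) < a → c (f b) < b → g a = σ (h b) → a ≤ b := by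
    intro a b ha hb hab
    obtain ⟨i, hi⟩ := (perm_bij hc hg).2 (g a)
    have hi' : g (c i) = g a := hi
    have hb' : h (c i) = h b := by
      apply σ.injective
      rw [hσ, hi', hab]
    have hca : a ≤ c (f a) := by
      rcases hf a (c (f a)) (hc.col _).symm with h1 | h1
      · exact h1
      · by_contra hcon
        exact ha (lt_of_le_not_ge h1 hcon)
    have h1 : a ≤ c i := by
      rcases hg a (c i) hi'.symm with h2 | h2
      · exact h2
      · have h3 := hc.anti _ _ (h2.trans hca)
        rw [h3]; exact hca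
    have h2 : c i ≤ b := by
      rcases hh (c i) b hb' with h2 | h2
      · exact h2
      · have h3 := hc.anti _ _ (hb.le.trans h2)
        rw [← h3]; exact hb.le
    exact h1.trans h2
  intro a b hab
  by_cases ha : c (f a) < a <;> by_cases hb : c (f b) < b
  · rw [glue_up ha, glue_up hb] at hab
    exact hh a b (σ.injective hab)
  · rw [glue_up ha, glue_dn hb] at hab
    exact Or.inr (key b a hb ha hab.symm)
  · rw [glue_dn ha, glue_up hb] at hab
    exact Or.inl (key a b ha hb hab)
  · rw [glue_dn ha, glue_dn hb] at hab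
    exact hg a b hab

section Seq

variable {f : α → Fin k} (hf : f ∈ CDec α k) {c : ℕ → Fin k → α} (hc : ∀ n, Sec f (c n))
  (hmono : ∀ n i, c n i ≤ c (n + 1) i) {g : ℕ → α → Fin k} (hg : ∀ n, g n ∈ CDec α k)
  (hne : ∀ n, ∃ i, g n (c n i) ≠ g n (c (n + 1) i))

/-- the choices -/
def uu (f : α → Fin k) (g : ℕ → α → Fin k) (ε : ℕ → Bool) (n : ℕ) : α → Fin k :=
  if ε n then g n else f

include hf hg in
theorem uu_mem (ε : ℕ → Bool) (n : ℕ) : uu f g ε n ∈ CDec α k := by
  unfold uu
  split_ifs
  · exact hg n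
  · exact hf

/-- The decompositions glued from the first choices. -/
noncomputable def GG (hf : f ∈ CDec α k) (hc : ∀ n, Sec f (c n)) (hg : ∀ n, g n ∈ CDec α k)
    (ε : ℕ → Bool) : ℕ → {h : α → Fin k // h ∈ CDec α k}
  | 0 => ⟨uu f g ε 0, uu_mem hf hg ε 0⟩
  | n + 1 => ⟨glue f (c (n + 1))
      (pm (hc (n + 1)) (GG hf hc hg ε n).2 * (pm (hc (n + 1)) (uu_mem hf hg ε (n + 1)))⁻¹)
      (GG hf hc hg ε n).1 (uu f g ε (n + 1)), glue_mem hf (hc (n + 1)) (GG hf hc hg ε n).2
        (uu_mem hf hg ε (n + 1)) (by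
          intro i
          rw [Equiv.Perm.mul_apply, ← pm_apply (hc (n + 1)) (uu_mem hf hg ε (n + 1)),
            Equiv.Perm.inv_def, Equiv.symm_apply_apply, pm_apply])⟩

/-- Followed by `f` above the last antichain. -/
noncomputable def HH (hf : f ∈ CDec α k) (hc : ∀ n, Sec f (c n)) (hg : ∀ n, g n ∈ CDec α k)
    (ε : ℕ → Bool) (n : ℕ) : α → Fin k :=
  glue f (c (n + 1)) (pm (hc (n + 1)) (GG hf hc hg ε n).2) (GG hf hc hg ε n).1 f

theorem HH_mem (ε : ℕ → Bool) (n : ℕ) : HH hf hc hg ε n ∈ CDec α k := by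
  apply glue_mem hf (hc (n + 1)) (GG hf hc hg ε n).2 hf
  intro i
  rw [(hc (n + 1)).col, pm_apply]

include hmono in
theorem mono_le {m n : ℕ} (hmn : m ≤ n) (i : Fin k) : c m i ≤ c n i := by
  induction n, hmn using Nat.le_induction with
  | base => exact le_rfl
  | succ n _ ih => exact ih.trans (hmono n i)

include hmono in
theorem GG_stable (ε : ℕ → Bool) {m n : ℕ} (hmn : m ≤ n) {a : α} (ha : ¬ c (m + 1) (f a) < a) :
    (GG hf hc hg ε n).1 a = (GG hf hc hg ε m).1 a := by
  induction n, hmn using Nat.le_induction with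
  | base => rfl
  | succ n hn ih =>
    rw [← ih]
    change glue f (c (n + 1)) _ _ _ a = _
    rw [glue_dn]
    intro h
    exact ha ((mono_le hmono (by omega) _).trans_lt h)

include hmono in
theorem HH_stable (ε : ℕ → Bool) {m n : ℕ} (hmn : m ≤ n) {a : α} (ha : ¬ c (m + 1) (f a) < a) :
    HH hf hc hg ε n a = (GG hf hc hg ε m).1 a := by
  rw [← GG_stable hf hc hmono hg ε hmn ha]
  unfold HH
  rw [glue_dn]
  intro h
  exact ha ((mono_le hmono (by omega) _).trans_lt h)

include hmono in
/-- The final decomposition. -/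
theorem exists_limit (ε : ℕ → Bool) : ∃ h ∈ CDec α k, ∀ m a, ¬ c (m + 1) (f a) < a →
    h a = (GG hf hc hg ε m).1 a := by
  obtain ⟨σ, hσ⟩ := Finite.exists_infinite_fiber
    (fun n => pm (hc (n + 1)) (GG hf hc hg ε n).2)
  have hinf : ∀ N, ∃ n, N ≤ n ∧ pm (hc (n + 1)) (GG hf hc hg ε n).2 = σ := by
    intro N
    have h1 : ((fun n => pm (hc (n + 1)) (GG hf hc hg ε n).2) ⁻¹' {σ}).Infinite :=
      Set.infinite_coe_iff.mp hσ
    obtain ⟨n, hn, hN⟩ := h1.exists_gt N
    exact ⟨n, hN.le, hn⟩
  let h : α → Fin k := fun a => if ha : ∃ m, ¬ c (m + 1) (f a) < a then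
    (GG hf hc hg ε ha.choose).1 a else σ (f a)
  have key : ∀ m a, ¬ c (m + 1) (f a) < a → h a = (GG hf hc hg ε m).1 a := by
    intro m a ha
    have hex : ∃ m, ¬ c (m + 1) (f a) < a := ⟨m, ha⟩
    simp only [h]
    rw [dif_pos hex]
    have h1 := hex.choose_spec
    rcases le_total m hex.choose with h2 | h2
    · exact GG_stable hf hc hmono hg ε h2 ha
    · exact (GG_stable hf hc hmono hg ε h2 h1).symm
  have key2 : ∀ a, ∃ N, ∀ n, N ≤ n → pm (hc (n + 1)) (GG hf hc hg ε n).2 = σ →
      HH hf hc hg ε n a = h a := by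
    intro a
    by_cases hex : ∃ m, ¬ c (m + 1) (f a) < a
    · obtain ⟨m, hm⟩ := hex
      refine ⟨m, fun n hn _ => ?_⟩
      rw [key m a hm, HH_stable hf hc hmono hg ε hn hm]
    · refine ⟨0, fun n _ hn => ?_⟩
      have h1 : h a = σ (f a) := by
        simp only [h]
        rw [dif_neg hex]
      push Not at hex
      rw [h1]
      unfold HH
      rw [glue_up (hex n), hn]
  refine ⟨h, ?_, key⟩
  intro a b hab
  obtain ⟨N1, h1⟩ := key2 a
  obtain ⟨N2, h2⟩ := key2 b
  obtain ⟨n, hn, hs⟩ := hinf (max N1 N2)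
  refine HH_mem hf hc hg ε n a b ?_
  rw [h1 n ((le_max_left _ _).trans hn) hs, h2 n ((le_max_right _ _).trans hn) hs, hab]

include hf hc hmono hg hne in
/-- An increasing sequence of antichains with nontrivial transitions gives uncountably many
decompositions. -/
theorem uncountable_of_seq : ¬ (CDec α k).Countable := by
  choose L hL1 hL2 using exists_limit hf hc hmono hg
  -- transitions of `GG`
  have htr : ∀ (ε : ℕ → Bool) (n : ℕ),
      (∀ i, (GG hf hc hg ε n).1 (c n i) = (GG hf hc hg ε n).1 (c (n + 1) i)) ↔ ε n = false := by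
    intro ε n
    have hu : (∀ i, uu f g ε n (c n i) = uu f g ε n (c (n + 1) i)) ↔ ε n = false := by
      unfold uu
      cases hε : ε n
      · simp [(hc n).col, (hc (n + 1)).col]
      · simp only [if_true, Bool.true_eq_false, iff_false, not_forall]
        exact hne n
    rw [← hu]
    cases n with
    | zero => rfl
    | succ n =>
      change (∀ i, glue f (c (n + 1)) _ _ _ (c (n + 1) i) =
        glue f (c (n + 1)) _ _ _ (c (n + 1 + 1) i)) ↔ _
      set σ := pm (hc (n + 1)) (GG hf hc hg ε n).2 *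
        (pm (hc (n + 1)) (uu_mem hf hg ε (n + 1)))⁻¹ with hσ
      have hσ' : ∀ i, σ (uu f g ε (n + 1) (c (n + 1) i)) = (GG hf hc hg ε n).1 (c (n + 1) i) := by
        intro i
        rw [hσ, Equiv.Perm.mul_apply, ← pm_apply (hc (n + 1)) (uu_mem hf hg ε (n + 1)),
            Equiv.Perm.inv_def, Equiv.symm_apply_apply, pm_apply]
      have h1 : ∀ i, glue f (c (n + 1)) σ (GG hf hc hg ε n).1 (uu f g ε (n + 1)) (c (n + 1) i) =
          σ (uu f g ε (n + 1) (c (n + 1) i)) := by
        intro i
        rw [glue_sec (hc (n + 1)), hσ']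
      have h2 : ∀ i, glue f (c (n + 1)) σ (GG hf hc hg ε n).1 (uu f g ε (n + 1))
          (c (n + 1 + 1) i) = σ (uu f g ε (n + 1) (c (n + 1 + 1) i)) := by
        intro i
        by_cases h : c (n + 1) (f (c (n + 1 + 1) i)) < c (n + 1 + 1) i
        · rw [glue_up h]
        · rw [(hc (n + 1 + 1)).col] at h
          have h3 : c (n + 1 + 1) i = c (n + 1) i := by
            have h4 := hmono (n + 1) i
            by_contra hcon
            exact h (lt_of_le_of_ne h4 (Ne.symm hcon))
          rw [h3, h1]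
      constructor
      · intro h i
        have h3 := h i
        rw [h1, h2] at h3
        exact σ.injective h3
      · intro h i
        rw [h1, h2, h i]
  have hinj : Function.Injective L := by
    intro ε δ hεδ
    funext n
    have h1 : ∀ ε : ℕ → Bool, (∀ i, L ε (c n i) = L ε (c (n + 1) i)) ↔ ε n = false := by
      intro ε
      rw [← htr ε n]
      have h2 : ∀ i, L ε (c n i) = (GG hf hc hg ε n).1 (c n i) := by
        intro i
        apply hL2 ε n
        rw [(hc n).col]
        intro h
        exact absurd (hmono n i) h.not_ge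
      have h3 : ∀ i, L ε (c (n + 1) i) = (GG hf hc hg ε n).1 (c (n + 1) i) := by
        intro i
        apply hL2 ε n
        rw [(hc (n + 1)).col]
        exact lt_irrefl _
      constructor
      · intro h i; rw [← h2, ← h3, h]
      · intro h i; rw [h2, h3, h]
    have h2 := h1 ε
    have h3 := h1 δ
    rw [hεδ] at h2
    have h4 : ε n = false ↔ δ n = false := h2.symm.trans h3
    cases hε : ε n <;> cases hδ : δ n <;> simp_all
  intro hcount
  have hc' : Countable (CDec α k) := hcount.to_subtype
  have h2 : Countable (Set ℕ) := by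
    refine Function.Injective.countable
      (f := fun Z : Set ℕ => (⟨L (fun n => decide (n ∈ Z)), hL1 _⟩ : CDec α k)) ?_
    intro Z W h
    have h3 := hinj (congrArg Subtype.val h)
    ext n
    have h4 := congrFun h3 n
    simpa using h4
  exact not_countable_set ℕ h2

end Seq

end Pool.Agent.H643R2.ChainDec
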