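import Pool.Agent.H643R2.ChainGlue

/-!
# The number of decompositions into `k` chains is finite or uncountable: conclusion
-/

namespace Pool.Agent.H643R2.ChainDec

open Classical

theorem finite_of_factor {β γ δ : Type*} {D : Set β} {φ : β → γ} {ψ : β → δ}
    (hφ : (φ '' D).Finite) (h : ∀ g ∈ D, ∀ g' ∈ D, φ g = φ g' → ψ g = ψ g') :
    (ψ '' D).Finite := by
  rcases D.eq_empty_or_nonempty with rfl | ⟨d, hd⟩
  · simp
  have : Nonempty β := ⟨d⟩
  refine (hφ.image (fun t => ψ (Function.invFunOn φ D t))).subset ?_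
  rintro _ ⟨g, hg, rfl⟩
  refine ⟨φ g, ⟨g, hg, rfl⟩, ?_⟩
  have hex : ∃ a ∈ D, φ a = φ g := ⟨g, hg, rfl⟩
  exact h _ (Function.invFunOn_mem hex) g hg (Function.invFunOn_eq hex)

variable {α : Type*} [PartialOrder α] {k : ℕ}

/-- Infinitely many restrictions to `X`. -/
def Rich (k : ℕ) (X : Set α) : Prop :=
  ¬ ((fun g : α → Fin k => X.domRestrict g) '' CDec α k).Finite

theorem exists_pair {X : Set α} (hX : Rich k X) {T : Type*} [Finite T] (φ : (α → Fin k) → T) :
    ∃ g ∈ CDec α k, ∃ h ∈ CDec α k, φ g = φ h ∧ ∃ a ∈ X, g a ≠ h a := by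
  by_contra hcon
  push Not at hcon
  apply hX
  refine finite_of_factor (φ := φ) (Set.toFinite _) ?_
  intro g hg h hh hgh
  funext ⟨a, ha⟩
  exact hcon g hg h hh hgh a ha

theorem rich_split {X Y Z : Set α} (h : X ⊆ Y ∪ Z) (hX : Rich k X) : Rich k Y ∨ Rich k Z := by
  by_contra hcon
  push Not at hcon
  obtain ⟨h1, h2⟩ := hcon
  unfold Rich at h1 h2
  rw [not_not] at h1 h2
  apply hX
  refine finite_of_factor
    (φ := fun g : α → Fin k => ((Y.domRestrict g : Y → Fin k), (Z.domRestrict g : Z → Fin k))) ?_ ?_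
  · refine (h1.prod h2).subset ?_
    rintro _ ⟨g, hg, rfl⟩
    exact ⟨⟨g, hg, rfl⟩, ⟨g, hg, rfl⟩⟩
  · intro g _ h' _ hgh
    have e1 : Y.domRestrict g = Y.domRestrict h' := congrArg Prod.fst hgh
    have e2 : Z.domRestrict g = Z.domRestrict h' := congrArg Prod.snd hgh
    funext ⟨a, ha⟩
    rcases h ha with hy | hz
    · exact congrFun e1 ⟨a, hy⟩
    · exact congrFun e2 ⟨a, hz⟩

/-- join -/
noncomputable def jn (x c : Fin k → α) : Fin k → α := fun i => if x i ≤ c i then c i else x i

/-- meet -/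
noncomputable def mt (x c : Fin k → α) : Fin k → α := fun i => if x i ≤ c i then x i else c i

section

variable {f : α → Fin k} (hf : f ∈ CDec α k)

include hf

theorem cmp {a b : α} (h : f a = f b) (h' : ¬ a ≤ b) : b ≤ a := (hf a b h).resolve_left h'

theorem jn_sec {x c : Fin k → α} (hx : Sec f x) (hc : Sec f c) : Sec f (jn x c) := by
  refine ⟨fun i => ?_, fun i j hij => ?_⟩
  · unfold jn; split_ifs
    · exact hc.col i
    · exact hx.col i
  · have hcmp : ∀ i, ¬ x i ≤ c i → c i ≤ x i := fun i h =>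
      cmp hf ((hx.col i).trans (hc.col i).symm) h
    unfold jn at hij
    split_ifs at hij with h1 h2 h2
    · exact hc.anti _ _ hij
    · exact hx.anti _ _ (h1.trans hij)
    · exact hc.anti _ _ ((hcmp i h1).trans hij)
    · exact hx.anti _ _ hij

theorem mt_sec {x c : Fin k → α} (hx : Sec f x) (hc : Sec f c) : Sec f (mt x c) := by
  refine ⟨fun i => ?_, fun i j hij => ?_⟩
  · unfold mt; split_ifs
    · exact hx.col i
    · exact hc.col i
  · have hcmp : ∀ i, ¬ x i ≤ c i → c i ≤ x i := fun i h =>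
      cmp hf ((hx.col i).trans (hc.col i).symm) h
    unfold mt at hij
    split_ifs at hij with h1 h2 h2
    · exact hx.anti _ _ hij
    · exact hx.anti _ _ (hij.trans (hcmp j h2))
    · exact hc.anti _ _ (hij.trans h2)
    · exact hc.anti _ _ hij

theorem le_jn {x c : Fin k → α} (hx : Sec f x) (hc : Sec f c) (i : Fin k) : c i ≤ jn x c i := by
  unfold jn; split_ifs with h
  · exact le_rfl
  · exact cmp hf ((hx.col i).trans (hc.col i).symm) h

omit hf in
theorem mt_le {x c : Fin k → α} (i : Fin k) : mt x c i ≤ c i := by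
  unfold mt; split_ifs with h
  · exact h
  · exact le_rfl

omit hf in
theorem le_mt {x c d : Fin k → α} (hx : ∀ i, d i ≤ x i) (hc : ∀ i, d i ≤ c i) (i : Fin k) :
    d i ≤ mt x c i := by
  unfold mt; split_ifs
  · exact hx i
  · exact hc i

omit hf in
theorem jn_at {x c : Fin k → α} {a : α} (hx : x (f a) = a) (hc : c (f a) ≤ a) :
    jn x c (f a) = a := by
  unfold jn; split_ifs with h
  · exact le_antisymm hc (hx.ge.trans h)
  · exact hx

omit hf in
theorem mt_at {x c : Fin k → α} {a : α} (hx : x (f a) = a) (hc : a ≤ c (f a)) :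
    mt x c (f a) = a := by
  unfold mt; split_ifs with h
  · exact hx
  · exact absurd (hx.symm ▸ hc) h

/-- An antichain through an element that is not free. -/
theorem exists_sec {a : α} (ha : a ∉ Free α k) : ∃ x, Sec f x ∧ x (f a) = a := by
  have h1 : ∃ S : Finset α, IsAC S ∧ S.card = k ∧ a ∈ S := by
    by_contra hcon
    push Not at hcon
    exact ha fun S hS hc => hcon S hS hc
  obtain ⟨S, hS, hc, haS⟩ := h1
  have hinj : Set.InjOn f (S : Set α) := by
    intro b hb c hc' hbc
    rcases hf b c hbc with h | h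
    · exact hS b hb c hc' h
    · exact (hS c hc' b hb h).symm
  have him : S.image f = Finset.univ := by
    apply Finset.eq_univ_of_card
    rw [Finset.card_image_of_injOn hinj, hc, Fintype.card_fin]
  have hex : ∀ i, ∃ x ∈ S, f x = i := by
    intro i
    have : i ∈ S.image f := by rw [him]; exact Finset.mem_univ _
    obtain ⟨x, hx, h⟩ := Finset.mem_image.mp this
    exact ⟨x, hx, h⟩
  choose x hx1 hx2 using hex
  refine ⟨x, ⟨hx2, fun i j hij => ?_⟩, ?_⟩
  · have := hS _ (hx1 i) _ (hx1 j) hij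
    rw [← hx2 i, ← hx2 j, this]
  · exact hinj (hx1 _) haS (hx2 _)

end

/-- A nontrivial transition. -/
def NT (f : α → Fin k) (c d : {c : Fin k → α // Sec f c}) : Prop :=
  (∀ i, c.1 i ≤ d.1 i) ∧ ∃ g ∈ CDec α k, ∃ i, g (c.1 i) ≠ g (d.1 i)

/-- Two decompositions that agree on `c` but differ at an element of `d`. -/
theorem nt_of {f : α → Fin k} {c d : {c : Fin k → α // Sec f c}} (hcd : ∀ i, c.1 i ≤ d.1 i)
    {g h : α → Fin k} (hg : g ∈ CDec α k) (hh : h ∈ CDec α k) (hc : ∀ i, g (c.1 i) = h (c.1 i))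
    {i : Fin k} (hd : g (d.1 i) ≠ h (d.1 i)) : NT f c d := by
  refine ⟨hcd, ?_⟩
  by_contra hcon
  push Not at hcon
  apply hd
  rw [← hcon g hg i, ← hcon h hh i, hc]

theorem nt_of' {f : α → Fin k} {c d : {c : Fin k → α // Sec f c}} (hcd : ∀ i, c.1 i ≤ d.1 i)
    {g h : α → Fin k} (hg : g ∈ CDec α k) (hh : h ∈ CDec α k) (hc : ∀ i, g (d.1 i) = h (d.1 i))
    {i : Fin k} (hd : g (c.1 i) ≠ h (c.1 i)) : NT f c d := by
  refine ⟨hcd, ?_⟩
  by_contra hcon
  push Not at hcon
  apply hd
  rw [hcon g hg i, hcon h hh i, hc]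

/-- The region between two antichains. -/
def Reg (f : α → Fin k) (c d : Fin k → α) : Set α := {a | c (f a) ≤ a ∧ a ≤ d (f a)}

theorem not_rich_reg {f : α → Fin k} (hf : f ∈ CDec α k) (hF : (Free α k).Finite)
    (hup : WellFounded (fun d c : {c : Fin k → α // Sec f c} => NT f c d))
    (hdn : WellFounded (fun c d : {c : Fin k → α // Sec f c} => NT f c d)) :
    ∀ c d : {c : Fin k → α // Sec f c}, (∀ i, c.1 i ≤ d.1 i) → ¬ Rich k (Reg f c.1 d.1) := by
  have : Finite (Free α k) := hF
  intro c
  induction c using hup.induction with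
  | _ c ih =>
    intro d
    induction d using hdn.induction with
    | _ d ih2 =>
      intro hcd hR
      obtain ⟨g, hg, h, hh, hgh, a, ha, hne⟩ := exists_pair hR
        (fun g : α → Fin k => ((fun i => g (c.1 i)), (fun i => g (d.1 i)),
          (fun x : Free α k => g x)))
      have e1 : ∀ i, g (c.1 i) = h (c.1 i) := fun i => congrFun (congrArg Prod.fst hgh) i
      have e2 : ∀ i, g (d.1 i) = h (d.1 i) :=
        fun i => congrFun (congrArg (fun x => x.2.1) hgh) i
      have e3 : ∀ x : Free α k, g x = h x := fun x => congrFun (congrArg (fun x => x.2.2) hgh) x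
      have haF : a ∉ Free α k := fun hF' => hne (e3 ⟨a, hF'⟩)
      obtain ⟨x, hx, hxa⟩ := exists_sec hf haF
      have hjs := jn_sec hf hx c.2
      let e : {c : Fin k → α // Sec f c} := ⟨mt (jn x c.1) d.1, mt_sec hf hjs d.2⟩
      have hea : e.1 (f a) = a := mt_at (jn_at hxa ha.1) ha.2
      have hce : ∀ i, c.1 i ≤ e.1 i := le_mt (le_jn hf hx c.2) hcd
      have hed : ∀ i, e.1 i ≤ d.1 i := mt_le (x := jn x c.1) (c := d.1)
      have hne' : g (e.1 (f a)) ≠ h (e.1 (f a)) := by rw [hea]; exact hne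
      have n1 : NT f c e := nt_of hce hg hh e1 hne'
      have n2 : NT f e d := nt_of' hed hg hh e2 hne'
      have hsub : Reg f c.1 d.1 ⊆ Reg f c.1 e.1 ∪ Reg f e.1 d.1 := by
        intro b hb
        rcases hf b (e.1 (f b)) (e.2.col _).symm with h1 | h1
        · exact Or.inl ⟨hb.1, h1⟩
        · exact Or.inr ⟨h1, hb.2⟩
      rcases rich_split hsub hR with h1 | h1
      · exact ih2 e n2 hce h1
      · exact ih e n1 d hed h1

theorem not_rich_up {f : α → Fin k} (hf : f ∈ CDec α k) (hF : (Free α k).Finite)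
    (hup : WellFounded (fun d c : {c : Fin k → α // Sec f c} => NT f c d))
    (hdn : WellFounded (fun c d : {c : Fin k → α // Sec f c} => NT f c d)) :
    ∀ c : {c : Fin k → α // Sec f c}, ¬ Rich k {a | c.1 (f a) ≤ a} := by
  have : Finite (Free α k) := hF
  intro c
  induction c using hup.induction with
  | _ c ih =>
    intro hR
    obtain ⟨g, hg, h, hh, hgh, a, ha, hne⟩ := exists_pair hR
      (fun g : α → Fin k => ((fun i => g (c.1 i)), (fun x : Free α k => g x)))
    have e1 : ∀ i, g (c.1 i) = h (c.1 i) := fun i => congrFun (congrArg Prod.fst hgh) i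
    have e3 : ∀ x : Free α k, g x = h x := fun x => congrFun (congrArg Prod.snd hgh) x
    have haF : a ∉ Free α k := fun hF' => hne (e3 ⟨a, hF'⟩)
    obtain ⟨x, hx, hxa⟩ := exists_sec hf haF
    let e : {c : Fin k → α // Sec f c} := ⟨jn x c.1, jn_sec hf hx c.2⟩
    have hea : e.1 (f a) = a := jn_at hxa ha
    have hce : ∀ i, c.1 i ≤ e.1 i := le_jn hf hx c.2
    have n1 : NT f c e := nt_of hce hg hh e1 (i := f a) (by rw [hea]; exact hne)
    have hsub : {a | c.1 (f a) ≤ a} ⊆ Reg f c.1 e.1 ∪ {a | e.1 (f a) ≤ a} := by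
      intro b hb
      rcases hf b (e.1 (f b)) (e.2.col _).symm with h1 | h1
      · exact Or.inl ⟨hb, h1⟩
      · exact Or.inr h1
    rcases rich_split hsub hR with h1 | h1
    · exact not_rich_reg hf hF hup hdn c e hce h1
    · exact ih e n1 h1

theorem not_rich_dn {f : α → Fin k} (hf : f ∈ CDec α k) (hF : (Free α k).Finite)
    (hup : WellFounded (fun d c : {c : Fin k → α // Sec f c} => NT f c d))
    (hdn : WellFounded (fun c d : {c : Fin k → α // Sec f c} => NT f c d)) :
    ∀ c : {c : Fin k → α // Sec f c}, ¬ Rich k {a | a ≤ c.1 (f a)} := by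
  have : Finite (Free α k) := hF
  intro c
  induction c using hdn.induction with
  | _ c ih =>
    intro hR
    obtain ⟨g, hg, h, hh, hgh, a, ha, hne⟩ := exists_pair hR
      (fun g : α → Fin k => ((fun i => g (c.1 i)), (fun x : Free α k => g x)))
    have e1 : ∀ i, g (c.1 i) = h (c.1 i) := fun i => congrFun (congrArg Prod.fst hgh) i
    have e3 : ∀ x : Free α k, g x = h x := fun x => congrFun (congrArg Prod.snd hgh) x
    have haF : a ∉ Free α k := fun hF' => hne (e3 ⟨a, hF'⟩)
    obtain ⟨x, hx, hxa⟩ := exists_sec hf haF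
    let e : {c : Fin k → α // Sec f c} := ⟨mt x c.1, mt_sec hf hx c.2⟩
    have hea : e.1 (f a) = a := mt_at hxa ha
    have hce : ∀ i, e.1 i ≤ c.1 i := mt_le (x := x) (c := c.1)
    have n1 : NT f e c := nt_of' hce hg hh e1 (i := f a) (by rw [hea]; exact hne)
    have hsub : {a | a ≤ c.1 (f a)} ⊆ Reg f e.1 c.1 ∪ {a | a ≤ e.1 (f a)} := by
      intro b hb
      rcases hf b (e.1 (f b)) (e.2.col _).symm with h1 | h1
      · exact Or.inr h1
      · exact Or.inl ⟨h1, hb⟩
    rcases rich_split hsub hR with h1 | h1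
    · exact not_rich_reg hf hF hup hdn e c hce h1
    · exact ih e n1 h1

theorem finite_of_wf {f : α → Fin k} (hf : f ∈ CDec α k) (hF : (Free α k).Finite)
    (hup : WellFounded (fun d c : {c : Fin k → α // Sec f c} => NT f c d))
    (hdn : WellFounded (fun c d : {c : Fin k → α // Sec f c} => NT f c d)) :
    (CDec α k).Finite := by
  by_cases hall : ∀ a : α, a ∈ Free α k
  · have : Finite α := by
      rw [← Set.finite_univ_iff]
      exact hF.subset fun a _ => hall a
    exact Set.toFinite _
  · push Not at hall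
    obtain ⟨a, ha⟩ := hall
    obtain ⟨x, hx, -⟩ := exists_sec hf ha
    by_contra hinf
    have hR : Rich k (Set.univ : Set α) := by
      intro hfin
      apply hinf
      refine Set.Finite.of_finite_image hfin ?_
      intro g _ h _ hgh
      funext a
      exact congrFun hgh ⟨a, trivial⟩
    have hsub : (Set.univ : Set α) ⊆ {a | x (f a) ≤ a} ∪ {a | a ≤ x (f a)} := by
      intro b _
      rcases hf b (x (f b)) (hx.col _).symm with h1 | h1
      · exact Or.inr h1
      · exact Or.inl h1
    rcases rich_split hsub hR with h1 | h1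
    · exact not_rich_up hf hF hup hdn ⟨x, hx⟩ h1
    · exact not_rich_dn hf hF hup hdn ⟨x, hx⟩ h1

/-- **Dichotomy.** The number of decompositions of a poset into `k` chains is finite or
uncountable. -/
theorem finite_or_uncountable (α : Type*) [PartialOrder α] (k : ℕ) :
    (CDec α k).Finite ∨ ¬ (CDec α k).Countable := by
  rcases (CDec α k).eq_empty_or_nonempty with h | ⟨f, hf⟩
  · left; rw [h]; exact Set.finite_empty
  by_cases hF : (Free α k).Finite
  · by_cases hup : WellFounded (fun d c : {c : Fin k → α // Sec f c} => NT f c d)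
    · by_cases hdn : WellFounded (fun c d : {c : Fin k → α // Sec f c} => NT f c d)
      · exact Or.inl (finite_of_wf hf hF hup hdn)
      · right
        rw [wellFounded_iff_isEmpty_descending_chain, not_isEmpty_iff] at hdn
        obtain ⟨s, hs⟩ := hdn
        have h1 : ∀ n, ∃ g ∈ CDec α k, ∃ i, g ((s (n + 1)).1 i) ≠ g ((s n).1 i) := fun n => (hs n).2
        choose g hg hgi using h1
        refine uncountable_of_seq (α := αᵒᵈ) (f := f) (fun a b hab => Or.symm (hf a b hab))
          (c := fun n => (s n).1) (fun n => ⟨(s n).2.col, fun i j hij => ((s n).2.anti j i hij).symm⟩)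
          (fun n i => (hs n).1 i) (g := g) (fun n a b hab => Or.symm (hg n a b hab)) ?_ ∘ ?_
        · intro n
          obtain ⟨i, hi⟩ := hgi n
          exact ⟨i, fun h => hi h.symm⟩
        · intro hc
          refine hc.mono ?_
          intro g hg a b hab
          exact Or.symm (hg a b hab)
    · right
      rw [wellFounded_iff_isEmpty_descending_chain, not_isEmpty_iff] at hup
      obtain ⟨s, hs⟩ := hup
      have h1 : ∀ n, ∃ g ∈ CDec α k, ∃ i, g ((s n).1 i) ≠ g ((s (n + 1)).1 i) := fun n => (hs n).2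
      choose g hg hgi using h1
      exact uncountable_of_seq hf (c := fun n => (s n).1) (fun n => (s n).2)
        (fun n i => (hs n).1 i) hg hgi
  · exact Or.inr (uncountable_of_free ⟨f, hf⟩ hF)

end Pool.Agent.H643R2.ChainDec
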