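import Pool.Agent.H643R2.ChainDec

/-!
# Infinitely many elements outside the `k`-antichains: uncountably many decompositions
-/

namespace Pool.Agent.H643R2.ChainDec

open Classical

variable {α : Type*} [PartialOrder α]

omit [PartialOrder α] in
theorem not_countable_set (E : Type*) [Infinite E] : ¬ Countable (Set E) := by
  intro h
  obtain ⟨φ, hφ⟩ := h.exists_injective_nat
  exact Function.cantor_injective (fun s : Set E => Infinite.natEmbedding E (φ s))
    ((Infinite.natEmbedding E).injective.comp hφ)

/-- Elements that lie in no antichain with `k` elements. -/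
def Free (α : Type*) [PartialOrder α] (k : ℕ) : Set α :=
  {a | ∀ S : Finset α, IsAC S → S.card = k → a ∉ S}

/-- The poset in which the elements of `Y` are doubled. -/
structure Tw (Y : Set α) where
  /-- underlying element -/
  fst : α
  /-- copy -/
  snd : Bool
  /-- only elements of `Y` have a second copy -/
  ok : snd = true → fst ∈ Y

omit [PartialOrder α] in
theorem Tw.ext' {Y : Set α} {p q : Tw Y} (h1 : p.fst = q.fst) (h2 : p.snd = q.snd) : p = q := by
  cases p; cases q; simp only at h1 h2; subst h1; subst h2; rfl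

instance (Y : Set α) : PartialOrder (Tw Y) where
  le p q := p = q ∨ p.fst < q.fst
  lt p q := (p = q ∨ p.fst < q.fst) ∧ ¬ (q = p ∨ q.fst < p.fst)
  lt_iff_le_not_ge _ _ := Iff.rfl
  le_refl p := Or.inl rfl
  le_trans p q r h1 h2 := by
    rcases h1 with rfl | h1
    · exact h2
    · rcases h2 with rfl | h2
      · exact Or.inr h1
      · exact Or.inr (h1.trans h2)
  le_antisymm p q h1 h2 := by
    rcases h1 with rfl | h1
    · rfl
    · rcases h2 with rfl | h2
      · rfl
      · exact absurd (h1.trans h2) (lt_irrefl _)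

theorem Tw.le_def {Y : Set α} {p q : Tw Y} : p ≤ q ↔ p = q ∨ p.fst < q.fst := Iff.rfl

theorem Tw.fst_le {Y : Set α} {p q : Tw Y} (h : p ≤ q) : p.fst ≤ q.fst := by
  rcases h with rfl | h
  · exact le_rfl
  · exact h.le

theorem tw_card {k : ℕ} (hk : ∀ S : Finset α, IsAC S → S.card ≤ k) {Y : Set α}
    (hY : ∀ a ∈ Y, ∀ b ∈ Y, a ≤ b ∨ b ≤ a) (hYF : Y ⊆ Free α k) (S : Finset (Tw Y)) (hS : IsAC S) :
    S.card ≤ k := by
  let T : Finset α := S.image Tw.fst
  have hT : IsAC T := by
    intro a ha b hb hab
    obtain ⟨p, hp, rfl⟩ := Finset.mem_image.mp ha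
    obtain ⟨q, hq, rfl⟩ := Finset.mem_image.mp hb
    by_contra hne
    have h1 : p ≤ q := Or.inr (lt_of_le_of_ne hab hne)
    exact hne (by rw [hS p hp q hq h1])
  have hTk := hk T hT
  have hinj : ∀ p ∈ S, ∀ q ∈ S, p.snd = q.snd → p.fst = q.fst → p = q := fun p _ q _ h h' =>
    Tw.ext' h' h
  let S0 := S.filter fun p => p.snd = false
  let S1 := S.filter fun p => p.snd = true
  have hsplit : S.card = S0.card + S1.card := by
    rw [← Finset.card_union_of_disjoint]
    · congr 1
      ext p
      rw [Finset.mem_union, Finset.mem_filter, Finset.mem_filter]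
      cases p.snd <;> simp
    · rw [Finset.disjoint_left]
      intro p h1 h2
      have h3 := (Finset.mem_filter.mp h1).2
      have h4 := (Finset.mem_filter.mp h2).2
      rw [h3] at h4
      cases h4
  have h0 : S0.card ≤ T.card := by
    have h1 : S0.image Tw.fst ⊆ T := by
      intro a ha
      obtain ⟨p, hp, rfl⟩ := Finset.mem_image.mp ha
      exact Finset.mem_image_of_mem _ (Finset.mem_filter.mp hp).1
    have h2 : (S0.image Tw.fst).card = S0.card := by
      apply Finset.card_image_of_injOn
      intro p hp q hq hpq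
      have hp' := Finset.mem_filter.mp (Finset.mem_coe.mp hp)
      have hq' := Finset.mem_filter.mp (Finset.mem_coe.mp hq)
      exact hinj p hp'.1 q hq'.1 (hp'.2.trans hq'.2.symm) hpq
    rw [← h2]
    exact Finset.card_le_card h1
  have h1 : S1.card ≤ 1 := by
    rw [Finset.card_le_one]
    intro p hp q hq
    have hp' := Finset.mem_filter.mp hp
    have hq' := Finset.mem_filter.mp hq
    rcases hY _ (p.ok hp'.2) _ (q.ok hq'.2) with h | h
    · have h3 : p.fst = q.fst := hT _ (Finset.mem_image_of_mem _ hp'.1) _
        (Finset.mem_image_of_mem _ hq'.1) h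
      exact hinj p hp'.1 q hq'.1 (hp'.2.trans hq'.2.symm) h3
    · have h3 : q.fst = p.fst := hT _ (Finset.mem_image_of_mem _ hq'.1) _
        (Finset.mem_image_of_mem _ hp'.1) h
      exact hinj p hp'.1 q hq'.1 (hp'.2.trans hq'.2.symm) h3.symm
  rcases Nat.lt_or_ge T.card k with h | h
  · omega
  · have hTk' : T.card = k := le_antisymm hTk h
    have h2 : S1 = ∅ := by
      rw [Finset.eq_empty_iff_forall_notMem]
      intro p hp
      have hp' := Finset.mem_filter.mp hp
      exact hYF (p.ok hp'.2) T hT hTk' (Finset.mem_image_of_mem _ hp'.1)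
    rw [hsplit, h2, Finset.card_empty]
    omega

theorem uncountable_of_free {k : ℕ} (hne : (CDec α k).Nonempty) (hF : (Free α k).Infinite) :
    ¬ (CDec α k).Countable := by
  obtain ⟨f, hf⟩ := hne
  obtain ⟨i, hi⟩ : ∃ i : Fin k, (Free α k ∩ f ⁻¹' {i}).Infinite := by
    by_contra hcon
    push Not at hcon
    apply hF
    have : Free α k ⊆ ⋃ i : Fin k, Free α k ∩ f ⁻¹' {i} := by
      intro a ha
      exact Set.mem_iUnion.mpr ⟨f a, ha, rfl⟩
    exact (Set.finite_iUnion hcon).subset this
  set Y := Free α k ∩ f ⁻¹' {i} with hYdef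
  have hchain : ∀ a ∈ Y, ∀ b ∈ Y, a ≤ b ∨ b ≤ a := by
    intro a ha b hb
    exact hf a b ((show f a = i from ha.2).trans (show f b = i from hb.2).symm)
  obtain ⟨g, hg⟩ := dilworth k (tw_card (fun S hS => card_le_of_dec hf hS) hchain
    (fun a ha => ha.1))
  let hh : Set Y → (α → Fin k) := fun Z a =>
    if h : ∃ h : a ∈ Y, (⟨a, h⟩ : Y) ∈ Z then g ⟨a, true, fun _ => h.1⟩
    else g ⟨a, false, fun h => by cases h⟩
  have hhmem : ∀ Z, hh Z ∈ CDec α k := by
    intro Z a b hab
    have key : ∀ p q : Tw Y, g p = g q → p.fst ≤ q.fst ∨ q.fst ≤ p.fst := by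
      intro p q hpq
      rcases hg p q hpq with h | h
      · exact Or.inl (Tw.fst_le h)
      · exact Or.inr (Tw.fst_le h)
    simp only [hh] at hab
    split_ifs at hab
    · exact key _ _ hab
    · exact key _ _ hab
    · exact key _ _ hab
    · exact key _ _ hab
  have hhinj : Function.Injective hh := by
    intro Z W hZW
    ext ⟨a, ha⟩
    have h1 := congrFun hZW a
    have hne : g ⟨a, true, fun _ => ha⟩ ≠ g ⟨a, false, fun h => by cases h⟩ := by
      intro heq
      rcases hg _ _ heq with h | h
      · rcases h with h | h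
        · have := congrArg Tw.snd h
          cases this
        · exact lt_irrefl _ h
      · rcases h with h | h
        · have := congrArg Tw.snd h
          cases this
        · exact lt_irrefl _ h
    constructor
    · intro hZ
      by_contra hW
      simp only [hh] at h1
      rw [dif_pos ⟨ha, hZ⟩, dif_neg (by rintro ⟨_, h⟩; exact hW h)] at h1
      exact hne h1
    · intro hW
      by_contra hZ
      simp only [hh] at h1
      rw [dif_neg (by rintro ⟨_, h⟩; exact hZ h), dif_pos ⟨ha, hW⟩] at h1
      exact hne h1.symm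
  intro hc
  have : Infinite Y := hi.to_subtype
  have hc' : Countable (CDec α k) := hc.to_subtype
  have h2 : Countable (Set Y) :=
    Function.Injective.countable (f := fun Z : Set Y => (⟨hh Z, hhmem Z⟩ : CDec α k))
      (fun Z W h => hhinj (congrArg Subtype.val h))
  exact not_countable_set Y h2

end Pool.Agent.H643R2.ChainDec
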