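import Pool.Agent.H643R2.PD

set_option autoImplicit false

/-!
# The cylinder of the words that are not prefixes of the period doubling word
-/

namespace Pool.Agent.H643R2.PD

variable {A : Type} (h : A → List (Fin 2))

/-- image position of a cut -/
def H (f : List A) (i : ℕ) : ℕ := ((f.take i).flatMap h).length

theorem H_zero (f : List A) : H h f 0 = 0 := by simp [H]

theorem H_succ_le (κ : ℕ) (hκ : ∀ a, (h a).length ≤ κ) (f : List A) (i : ℕ) :
    H h f (i + 1) ≤ H h f i + κ := by
  unfold H
  rw [List.take_add_one, List.flatMap_append, List.length_append]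
  cases hfi : f[i]? with
  | none => simp
  | some a => simpa using hκ a

theorem H_mono (f : List A) {i j : ℕ} (hij : i ≤ j) : H h f i ≤ H h f j := by
  unfold H
  have : (f.take j).take i = f.take i := by
    rw [List.take_take]; congr 1; omega
  rw [← this]
  conv_rhs => rw [← List.take_append_drop i (f.take j)]
  rw [List.flatMap_append, List.length_append]
  omega

/-- the factor between two cuts -/
def mid (f : List A) (p q : ℕ) : List A := (f.take q).drop p

theorem split3 (f : List A) {p q : ℕ} (hpq : p ≤ q) :
    f = f.take p ++ mid f p q ++ f.drop q := by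
  unfold mid
  have h1 : f.take p = (f.take q).take p := by
    rw [List.take_take]; congr 1; omega
  rw [h1, List.take_append_drop, List.take_append_drop]

theorem length_mid_image (f : List A) {p q : ℕ} (hpq : p ≤ q) :
    H h f p + ((mid f p q).flatMap h).length = H h f q := by
  unfold mid H
  have h1 : f.take p = (f.take q).take p := by
    rw [List.take_take]; congr 1; omega
  rw [h1, ← List.length_append, ← List.flatMap_append, List.take_append_drop]

/-- pumped word -/
def pump (f : List A) (p q k : ℕ) : List A :=
  f.take p ++ (List.replicate k (mid f p q)).flatten ++ f.drop q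

theorem flatMap_replicate_flatten (u : List A) (k : ℕ) :
    ((List.replicate k u).flatten).flatMap h = (List.replicate k (u.flatMap h)).flatten := by
  induction k with
  | zero => simp
  | succ k ih => simp [List.replicate_succ, ih]

theorem length_replicate_flatten {B : Type} (u : List B) (k : ℕ) :
    ((List.replicate k u).flatten).length = k * u.length := by
  simp

theorem replicate_flatten_period {B : Type} (u : List B) (k j : ℕ)
    (hj : j + u.length < k * u.length) :
    ((List.replicate k u).flatten)[j]? = ((List.replicate k u).flatten)[j + u.length]? := by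
  cases k with
  | zero => simp at hj
  | succ k =>
    have h1 : (List.replicate (k + 1) u).flatten = (List.replicate k u).flatten ++ u := by
      rw [List.replicate_succ']
      simp
    have h2 : (List.replicate (k + 1) u).flatten = u ++ (List.replicate k u).flatten := by
      rw [List.replicate_succ]
      simp
    conv_lhs => rw [h1]
    conv_rhs => rw [h2]
    rw [List.getElem?_append_left (by
      rw [length_replicate_flatten]
      have : (k + 1) * u.length = k * u.length + u.length := by ring
      omega)]
    rw [List.getElem?_append_right (by omega)]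
    congr 1
    omega

/-- all letters of the image of the pumped word are correct -/
def Bad (f : List A) (p q k : ℕ) : Prop :=
  ∀ (j : ℕ) (a : Fin 2), ((pump f p q k).flatMap h)[j]? = some a → a = t j

variable {h}

theorem pump_image (f : List A) (p q k : ℕ) :
    (pump f p q k).flatMap h = (f.take p).flatMap h ++
      (List.replicate k ((mid f p q).flatMap h)).flatten ++ (f.drop q).flatMap h := by
  unfold pump
  rw [List.flatMap_append, List.flatMap_append, flatMap_replicate_flatten]

/-- letters to the right of the pumped factor -/
theorem Bad.right {f : List A} {p q k : ℕ} (hpq : p ≤ q) (hb : Bad h f p q k) (r : ℕ)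
    (hr : H h f q ≤ r) (a : Fin 2) (ha : (f.flatMap h)[r]? = some a) :
    a = t (H h f p + k * (H h f q - H h f p) + (r - H h f q)) := by
  apply hb
  rw [pump_image]
  have hl := length_mid_image h f hpq
  have e1 : ((f.take p).flatMap h ++
      (List.replicate k ((mid f p q).flatMap h)).flatten).length =
      H h f p + k * (H h f q - H h f p) := by
    rw [List.length_append, length_replicate_flatten]
    unfold H at *
    congr 2
    omega
  rw [List.getElem?_append_right (by rw [e1]; omega), e1]
  have e2 : H h f p + k * (H h f q - H h f p) + (r - H h f q) -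
      (H h f p + k * (H h f q - H h f p)) = r - H h f q := by omega
  rw [e2]
  have e3 : f.flatMap h = (f.take q).flatMap h ++ (f.drop q).flatMap h := by
    rw [← List.flatMap_append, List.take_append_drop]
  rw [e3, List.getElem?_append_right (by unfold H at hr; exact hr)] at ha
  exact ha

/-- letters to the left of the pumped factor -/
theorem Bad.left {f : List A} {p q k : ℕ} (hb : Bad h f p q k) (r : ℕ)
    (hr : r < H h f p) (a : Fin 2) (ha : (f.flatMap h)[r]? = some a) : a = t r := by
  apply hb
  rw [pump_image, List.append_assoc, List.getElem?_append_left (by unfold H at hr; exact hr)]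
  have e3 : f.flatMap h = (f.take p).flatMap h ++ (f.drop p).flatMap h := by
    rw [← List.flatMap_append, List.take_append_drop]
  rw [e3, List.getElem?_append_left (by unfold H at hr; exact hr)] at ha
  exact ha

/-- period inside the pumped factor -/
theorem Bad.inside {f : List A} {p q k : ℕ} (hpq : p ≤ q) (hb : Bad h f p q k) (r : ℕ)
    (hr : H h f p ≤ r) (hr2 : r + (H h f q - H h f p) < H h f p + k * (H h f q - H h f p)) :
    t r = t (r + (H h f q - H h f p)) := by
  have hl := length_mid_image h f hpq
  set U := (mid f p q).flatMap h with hU
  have hUl : U.length = H h f q - H h f p := by omega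
  have hX : ((f.take p).flatMap h).length = H h f p := rfl
  have get : ∀ j, j < k * U.length →
      ((pump f p q k).flatMap h)[H h f p + j]? = ((List.replicate k U).flatten)[j]? := by
    intro j hj
    rw [pump_image, ← hU, List.getElem?_append_left (by
      rw [List.length_append, length_replicate_flatten, hX]; omega),
      List.getElem?_append_right (by rw [hX]; omega), hX]
    congr 1
    omega
  rw [← hUl] at hr2 ⊢
  have h1 : r - H h f p + U.length < k * U.length := by omega
  have h2 := replicate_flatten_period U k (r - H h f p) h1
  have h3 := get (r - H h f p) (by omega)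
  have h4 := get (r - H h f p + U.length) h1
  rw [show H h f p + (r - H h f p) = r by omega] at h3
  rw [show H h f p + (r - H h f p + U.length) = r + U.length by omega] at h4
  have h5 : r - H h f p < ((List.replicate k U).flatten).length := by
    rw [length_replicate_flatten]; omega
  have h6 : ((List.replicate k U).flatten)[r - H h f p]? =
    some ((List.replicate k U).flatten)[r - H h f p] := List.getElem?_eq_getElem h5
  have e1 := hb _ _ (h3.trans h6)
  have e2 := hb _ _ (h4.trans (h2.symm.trans h6))
  rw [← e1, ← e2]

/-- The word, its first wrong letter. -/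
structure Mis (h : A → List (Fin 2)) (f : List A) (D : ℕ) : Prop where
  wrong : ∃ a, (f.flatMap h)[D]? = some a ∧ a ≠ t D
  right : ∀ r < D, (f.flatMap h)[r]? = some (t r)

theorem exists_mis {f : List A} (hf : f.flatMap h ∈ L) : ∃ D, Mis h f D := by
  classical
  have hex : ∃ D, ∃ a, (f.flatMap h)[D]? = some a ∧ a ≠ t D := hf
  refine ⟨Nat.find hex, Nat.find_spec hex, fun r hr => ?_⟩
  have h1 := Nat.find_min hex hr
  push Not at h1
  obtain ⟨a, ha, -⟩ := Nat.find_spec hex
  obtain ⟨hlt, -⟩ := List.getElem?_eq_some_iff.1 ha
  have h2 : (f.flatMap h)[r]? = some (f.flatMap h)[r] := List.getElem?_eq_getElem (by omega)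
  rw [h2, h1 _ h2]

theorem Bad.one_ne {f : List A} {D p q k : ℕ} (hD : Mis h f D) (hpq : p ≤ q)
    (hb : Bad h f p q k) : k ≠ 1 := by
  rintro rfl
  obtain ⟨a, ha, hne⟩ := hD.wrong
  apply hne
  apply hb
  have : pump f p q 1 = f := by
    unfold pump
    rw [List.replicate_one, List.flatten_cons, List.flatten_nil, List.append_nil]
    exact (split3 f hpq).symm
  rw [this]
  exact ha

theorem Bad.lt {f : List A} {D p q k : ℕ} (hD : Mis h f D) (hpq : p ≤ q)
    (hb : Bad h f p q k) : H h f p < H h f q := by
  by_contra hc
  have hm := H_mono h f hpq
  have he : H h f p = H h f q := by omega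
  obtain ⟨a, ha, hne⟩ := hD.wrong
  apply hne
  rcases Nat.lt_or_ge D (H h f p) with h1 | h1
  · exact hb.left D h1 a ha
  · have := hb.right hpq D (by omega) a ha
    rw [this]
    congr 1
    rw [he]
    simp
    omega

theorem Bad.le_D {f : List A} {D p q k : ℕ} (hD : Mis h f D)
    (hb : Bad h f p q k) : H h f p ≤ D := by
  by_contra hc
  obtain ⟨a, ha, hne⟩ := hD.wrong
  exact hne (hb.left D (by omega) a ha)

theorem Bad.le_four {f : List A} {D p q k : ℕ} (hD : Mis h f D) (hpq : p ≤ q)
    (hb : Bad h f p q k) : k ≤ 4 := by
  by_contra hc
  have hlt := hb.lt hD hpq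
  obtain ⟨r, h1, h2, h3⟩ := pf (H h f q - H h f p) (by omega) (H h f p)
  apply h3
  apply hb.inside hpq r h1
  have : 5 * (H h f q - H h f p) ≤ k * (H h f q - H h f p) := Nat.mul_le_mul_right _ (by omega)
  omega

theorem Bad.near {f : List A} {D p q k : ℕ} (hD : Mis h f D) (hpq : p ≤ q)
    (hb : Bad h f p q k) : D < H h f q + 12 * (H h f q - H h f p) := by
  by_contra hc
  push Not at hc
  have hlt := hb.lt hD hpq
  have h4 := hb.le_four hD hpq
  have h1 := hb.one_ne hD hpq
  rcases Nat.eq_zero_or_pos k with rfl | hk
  · obtain ⟨r, h1, h2, h3⟩ := pf (H h f q - H h f p) (by omega) (H h f p)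
    apply h3
    have h5 := hb.right hpq (r + (H h f q - H h f p)) (by omega) _ (hD.right _ (by omega))
    rw [h5]
    congr 1
    omega
  · obtain ⟨m, rfl⟩ : ∃ m, k = m + 2 := ⟨k - 2, by omega⟩
    set l := H h f q - H h f p with hl
    have hm : (m + 1) * l ≤ 3 * l := Nat.mul_le_mul_right _ (by omega)
    obtain ⟨r, h1, h2, h3⟩ := pf ((m + 1) * l) (by
      have : 1 * 1 ≤ (m + 1) * l := Nat.mul_le_mul (by omega) (by omega)
      omega) (H h f q)
    apply h3
    have h5 := hb.right hpq r (by omega) _ (hD.right _ (by omega))
    rw [h5]
    congr 1
    have : (m + 2) * l = (m + 1) * l + l := by ring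
    rw [← hl, this]
    omega

end Pool.Agent.H643R2.PD
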