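import Pool.Agent.H643R2.Cyl

set_option autoImplicit false

/-!
# Marked iteration in the cylinder of the words that are not prefixes of the period doubling word
-/

namespace Pool.Agent.H643R2.PD

variable {A σ : Type} {h : A → List (Fin 2)}

theorem evalFrom_replicate (M : DFA A σ) (s : σ) (u : List A) (hu : M.evalFrom s u = s) (k : ℕ) :
    M.evalFrom s (List.replicate k u).flatten = s := by
  induction k with
  | zero => simp
  | succ k ih =>
    rw [List.replicate_succ, List.flatten_cons, DFA.evalFrom_of_append, hu, ih]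

theorem pump_accepts (M : DFA A σ) (f : List A) (hf : f ∈ M.accepts) {p q : ℕ} (hpq : p ≤ q)
    (hs : M.eval (f.take p) = M.eval (f.take q)) (k : ℕ) : pump f p q k ∈ M.accepts := by
  rw [DFA.mem_accepts] at hf ⊢
  have h1 : f.take q = f.take p ++ mid f p q := by
    unfold mid
    have : f.take p = (f.take q).take p := by rw [List.take_take]; congr 1; omega
    conv_rhs => rw [this]
    rw [List.take_append_drop]
  have h2 : M.evalFrom (M.eval (f.take p)) (mid f p q) = M.eval (f.take p) := by
    have h3 : M.eval (f.take q) = M.evalFrom (M.eval (f.take p)) (mid f p q) := by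
      rw [h1]
      exact DFA.evalFrom_of_append M M.start _ _
    rw [← h3, hs]
  unfold pump
  rw [DFA.eval, DFA.evalFrom_of_append, DFA.evalFrom_of_append]
  have h4 : M.evalFrom M.start (f.take p) = M.eval (f.take p) := rfl
  rw [h4, evalFrom_replicate M _ _ h2]
  have h5 : M.eval f = M.evalFrom (M.eval (f.take q)) (f.drop q) := by
    conv_lhs => rw [← List.take_append_drop q f]
    exact DFA.evalFrom_of_append M M.start _ _
  rw [hs, ← h5]
  exact hf

theorem exists_cut (κ : ℕ) (hκ : ∀ a, (h a).length ≤ κ) (f : List A) (lo hi v : ℕ)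
    (hlh : lo ≤ hi) (h1 : H h f lo ≤ v) (h2 : v ≤ H h f hi) :
    ∃ p, lo ≤ p ∧ p ≤ hi ∧ v ≤ H h f p ∧ H h f p < v + (κ + 1) := by
  classical
  have hex : ∃ p, lo ≤ p ∧ v ≤ H h f p := ⟨hi, hlh, h2⟩
  obtain ⟨h3, h4⟩ := Nat.find_spec hex
  refine ⟨Nat.find hex, h3, Nat.find_min' hex ⟨hlh, h2⟩, h4, ?_⟩
  rcases Nat.eq_or_lt_of_le h3 with h5 | h5
  · rw [← h5]; omega
  · have h6 := Nat.find_min hex (m := Nat.find hex - 1) (by omega)
    push Not at h6
    have h7 := h6 (by omega)
    have h8 := H_succ_le h κ hκ f (Nat.find hex - 1)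
    rw [show Nat.find hex - 1 + 1 = Nat.find hex by omega] at h8
    omega

theorem exists_enum (s : Finset ℕ) (N : ℕ) (hN : N ≤ s.card) :
    ∃ e : ℕ → ℕ, (∀ i < N, e i ∈ s) ∧ ∀ i j, i < j → j < N → e i < e j := by
  classical
  refine ⟨fun i => if hi : i < s.card then s.orderEmbOfFin rfl ⟨i, hi⟩ else 0, ?_, ?_⟩
  · intro i hi
    have hi' : i < s.card := by omega
    simp only [hi', dif_pos]
    exact Finset.orderEmbOfFin_mem _ _ _
  · intro i j hij hj
    have hi' : i < s.card := by omega
    have hj' : j < s.card := by omega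
    simp only [hi', hj', dif_pos]
    exact (s.orderEmbOfFin rfl).strictMono hij

theorem one_ll [Fintype σ] (M : DFA A σ) (κ : ℕ) (hκ : ∀ a, (h a).length ≤ κ) :
    ∃ N₀ : ℕ, ∀ f : List A, f.flatMap h ∈ L → f ∈ M.accepts → ∀ Mk : Finset ℕ,
      (∀ i ∈ Mk, i < f.length) → N₀ ≤ Mk.card →
      ∃ p q : ℕ, p ≤ q ∧ q ≤ f.length ∧ (∀ k : ℕ, (pump f p q k).flatMap h ∈ L ∧
          pump f p q k ∈ M.accepts) ∧
        (∃ i ∈ Mk, i < p) ∧ (∃ i ∈ Mk, p ≤ i ∧ i < q) ∧ (∃ i ∈ Mk, q ≤ i) := by
  classical
  set n := Fintype.card σ with hn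
  set K := (4 * n + 2) * (κ + 1) with hK
  set N := n + 5 + 12 * K with hN
  refine ⟨n * N, ?_⟩
  intro f hfL hfM Mk hMk hcard
  by_contra hcon
  push Not at hcon
  obtain ⟨D, hD⟩ := exists_mis hfL
  -- all admissible pairs are bad
  have bad : ∀ p q m1 m2 m3, p ≤ q → M.eval (f.take p) = M.eval (f.take q) →
      m1 ∈ Mk → m1 < p → m2 ∈ Mk → p ≤ m2 → m2 < q → m3 ∈ Mk → q ≤ m3 → ∃ k, Bad h f p q k := by
    intro p q m1 m2 m3 hpq hs hm1 h1 hm2 h2 h3 hm3 h4
    by_contra hnb
    push Not at hnb
    have hq : q ≤ f.length := by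
      have := hMk m3 hm3
      omega
    have := hcon p q hpq hq (by
      intro k
      refine ⟨?_, pump_accepts M f hfM hpq hs k⟩
      have h5 := hnb k
      unfold Bad at h5
      push Not at h5
      exact h5) ⟨m1, hm1, h1⟩ ⟨m2, hm2, h2, h3⟩ m3 hm3
    omega
  -- marks with the same state
  obtain ⟨s0, -, hs0⟩ := Finset.exists_le_card_fiber_of_mul_le_card_of_maps_to
    (s := Mk) (t := (Finset.univ : Finset σ)) (f := fun m => M.eval (f.take (m + 1))) (n := N)
    (fun a _ => Finset.mem_univ _) ⟨M.start, Finset.mem_univ _⟩ (by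
      rw [Finset.card_univ]; exact hcard)
  obtain ⟨e, he1, he2⟩ := exists_enum _ N hs0
  have heM : ∀ i < N, e i ∈ Mk := fun i hi => (Finset.mem_filter.1 (he1 i hi)).1
  have heS : ∀ i < N, M.eval (f.take (e i + 1)) = s0 := fun i hi => (Finset.mem_filter.1 (he1 i hi)).2
  set g : ℕ → ℕ := fun i => H h f (e i + 1) with hg
  have hpair : ∀ i j, i < j → j + 1 < N → g i < g j ∧ g i ≤ D ∧ D < g j + 12 * (g j - g i) := by
    intro i j hij hj
    have h1 := he2 i j hij (by omega)
    have h2 := he2 j (j + 1) (by omega) hj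
    obtain ⟨k, hk⟩ := bad (e i + 1) (e j + 1) (e i) (e j) (e (j + 1)) (by omega)
      (by rw [heS i (by omega), heS j (by omega)]) (heM i (by omega)) (by omega)
      (heM j (by omega)) (by omega) (by omega) (heM (j + 1) hj) (by omega)
    exact ⟨hk.lt hD (by omega), hk.le_D hD, hk.near hD (by omega)⟩
  have hgrow : ∀ d i, i + d + 1 < N → g i + d ≤ g (i + d) := by
    intro d
    induction d with
    | zero => intro i _; simp
    | succ d ih =>
      intro i hi
      have h1 := ih i (by omega)
      have h2 := (hpair (i + d) (i + d + 1) (by omega) (by omega)).1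
      rw [show i + (d + 1) = i + d + 1 by ring]
      omega
  have hgD : g (N - 3) ≤ D := (hpair (N - 3) (N - 2) (by omega) (by omega)).2.1
  have hfar : ∀ i, i ≤ n → g (i + 1) + 12 * K + 1 ≤ D := by
    intro i hi
    have h1 := hgrow (N - 3 - (i + 1)) (i + 1) (by omega)
    rw [show i + 1 + (N - 3 - (i + 1)) = N - 3 by omega] at h1
    omega
  have hgap : ∀ i, i ≤ n → g i + K < g (i + 1) := by
    intro i hi
    have h1 := hfar i hi
    have h2 := hpair i (i + 1) (by omega) (by omega)
    omega
  -- cuts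
  have hKa : ∀ a, a ≤ 4 * n → a * (κ + 1) + 2 * (κ + 1) ≤ K := by
    intro a ha
    rw [hK, ← Nat.add_mul]
    exact Nat.mul_le_mul_right _ (by omega)
  have hcuts : ∀ i a, i ≤ n → a ≤ 4 * n → ∃ p, e i + 1 ≤ p ∧ p ≤ e (i + 1) ∧
      g i + a * (κ + 1) ≤ H h f p ∧ H h f p < g i + a * (κ + 1) + (κ + 1) := by
    intro i a hi ha
    have h1 := he2 i (i + 1) (by omega) (by omega)
    have h2 := hKa a ha
    have h3 := hgap i hi
    have h4 := H_succ_le h κ hκ f (e (i + 1))
    have h5 : g (i + 1) = H h f (e (i + 1) + 1) := rfl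
    apply exists_cut κ hκ f (e i + 1) (e (i + 1)) (g i + a * (κ + 1)) (by omega)
    · show g i ≤ _
      omega
    · omega
  choose! P hP1 hP2 hP3 hP4 using hcuts
  -- five cuts with the same state in each gap
  have hfive : ∀ i, i ≤ n → ∃ s : σ, 4 < ((Finset.range (4 * n + 1)).filter
      (fun a => M.eval (f.take (P i a)) = s)).card := by
    intro i _
    obtain ⟨s, -, hs⟩ := Finset.exists_lt_card_fiber_of_mul_lt_card_of_maps_to
      (s := Finset.range (4 * n + 1)) (t := (Finset.univ : Finset σ))
      (f := fun a => M.eval (f.take (P i a))) (n := 4)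
      (fun a _ => Finset.mem_univ _) (by
        rw [Finset.card_univ, Finset.card_range, ← hn]; omega)
    exact ⟨s, hs⟩
  have : Nonempty σ := ⟨M.start⟩
  choose! S hS using hfive
  -- two gaps with the same state
  have htwo : ∃ i j, i < j ∧ j ≤ n ∧ S i = S j := by
    obtain ⟨x, hx, y, hy, hxy, hSxy⟩ := Finset.exists_ne_map_eq_of_card_lt_of_maps_to
      (s := Finset.range (n + 1)) (t := (Finset.univ : Finset σ)) (by
        rw [Finset.card_univ, Finset.card_range]; omega) (f := S) (fun a _ => Finset.mem_univ _)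
    rw [Finset.mem_range] at hx hy
    rcases Nat.lt_or_gt_of_ne hxy with h1 | h1
    · exact ⟨x, y, h1, by omega, hSxy⟩
    · exact ⟨y, x, h1, by omega, hSxy.symm⟩
  obtain ⟨i, j, hij, hjn, hSij⟩ := htwo
  have hfi := hS i (by omega)
  have hfj := hS j hjn
  obtain ⟨b, hb⟩ := Finset.card_pos.1 (show 0 < ((Finset.range (4 * n + 1)).filter
      (fun a => M.eval (f.take (P j a)) = S j)).card by omega)
  rw [Finset.mem_filter, Finset.mem_range] at hb
  set q := P j b with hq
  have hq1 := hP1 j b hjn (by omega)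
  have hq2 := hP2 j b hjn (by omega)
  -- all pairs are bad
  have hbad : ∀ a ∈ (Finset.range (4 * n + 1)).filter
      (fun a => M.eval (f.take (P i a)) = S i), ∃ k, Bad h f (P i a) q k := by
    intro a ha
    rw [Finset.mem_filter, Finset.mem_range] at ha
    have h1 := hP1 i a (by omega) (by omega)
    have h2 := hP2 i a (by omega) (by omega)
    have h3 : e (i + 1) ≤ e j := by
      rcases Nat.eq_or_lt_of_le (show i + 1 ≤ j by omega) with h4 | h4
      · rw [h4]
      · exact (he2 (i + 1) j h4 (by omega)).le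
    exact bad (P i a) q (e i) (e (i + 1)) (e (j + 1)) (by omega)
      (by rw [ha.2, hq, hb.2, hSij]) (heM i (by omega)) (by omega) (heM (i + 1) (by omega)) h2
      (by omega) (heM (j + 1) (by omega)) hq2
  choose! k hk using hbad
  have hPq : ∀ a, a < 4 * n + 1 → P i a ≤ q := by
    intro a ha
    have h2 := hP2 i a (by omega) (by omega)
    have h3 : e (i + 1) ≤ e j := by
      rcases Nat.eq_or_lt_of_le (show i + 1 ≤ j by omega) with h4 | h4
      · rw [h4]
      · exact (he2 (i + 1) j h4 (by omega)).le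
    omega
  -- two of them have the same exponent
  have hexp : ∃ a a', a < a' ∧ a ∈ (Finset.range (4 * n + 1)).filter
      (fun a => M.eval (f.take (P i a)) = S i) ∧ a' ∈ (Finset.range (4 * n + 1)).filter
      (fun a => M.eval (f.take (P i a)) = S i) ∧ k a = k a' := by
    obtain ⟨x, hx, y, hy, hxy, hkxy⟩ := Finset.exists_ne_map_eq_of_card_lt_of_maps_to
      (s := (Finset.range (4 * n + 1)).filter (fun a => M.eval (f.take (P i a)) = S i))
      (t := ({0, 2, 3, 4} : Finset ℕ)) (by
        have : ({0, 2, 3, 4} : Finset ℕ).card = 4 := rfl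
        omega) (f := k) (by
        intro a ha
        have h1 := hk a ha
        have h1' : k a ≠ 1 := h1.one_ne hD (hPq a (by
          have := (Finset.mem_filter.1 ha).1
          rwa [Finset.mem_range] at this))
        have h1'' : k a ≤ 4 := h1.le_four hD (hPq a (by
          have := (Finset.mem_filter.1 ha).1
          rwa [Finset.mem_range] at this))
        simp only [Finset.coe_insert, Finset.coe_singleton, Set.mem_insert_iff,
          Set.mem_singleton_iff]
        omega)
    rcases Nat.lt_or_gt_of_ne hxy with h1 | h1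
    · exact ⟨x, y, h1, hx, hy, hkxy⟩
    · exact ⟨y, x, h1, hy, hx, hkxy.symm⟩
  obtain ⟨a, a', haa, ha, ha', hkk⟩ := hexp
  have hb1 := hk a ha
  have hb2 := hk a' ha'
  rw [Finset.mem_filter, Finset.mem_range] at ha ha'
  rw [← hkk] at hb2
  have q1 := hPq a ha.1
  have q2 := hPq a' ha'.1
  have hlt1 := hb1.lt hD q1
  have hlt2 := hb2.lt hD q2
  have b1 := hP3 i a (by omega) (by omega)
  have b2 := hP4 i a (by omega) (by omega)
  have b3 := hP3 i a' (by omega) (by omega)
  have b4 := hP4 i a' (by omega) (by omega)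
  have b5 : (a + 1) * (κ + 1) ≤ a' * (κ + 1) := Nat.mul_le_mul_right _ (by omega)
  rw [Nat.add_mul] at b5
  have b6 := hKa a' (by omega)
  have hδ1 : H h f (P i a) < H h f (P i a') := by omega
  have hδ2 : H h f (P i a') - H h f (P i a) ≤ K := by omega
  set x := H h f (P i a) with hx
  set y := H h f (P i a') with hy
  set z := H h f q with hz
  have hzD : z + 12 * K + 1 ≤ D := by
    have h1 := hfar j hjn
    have h2 : z ≤ g (j + 1) := H_mono h f (by omega)
    omega
  have key : ∀ r, z ≤ r → r < D →
      t (x + k a * (z - x) + (r - z)) = t (y + k a * (z - y) + (r - z)) := by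
    intro r h1 h2
    have h3 := hb1.right q1 r h1 _ (hD.right r h2)
    have h4 := hb2.right q2 r h1 _ (hD.right r h2)
    rw [← h3, ← h4]
  have hk4 := hb1.le_four hD q1
  have hk1 := hb1.one_ne hD q1
  rcases Nat.eq_zero_or_pos (k a) with hk0 | hk0
  · rw [hk0] at key
    obtain ⟨r, r1, r2, r3⟩ := pf (y - x) (by omega) x
    apply r3
    have := key (r - x + z) (by omega) (by omega)
    rw [show x + 0 * (z - x) + (r - x + z - z) = r by omega,
      show y + 0 * (z - y) + (r - x + z - z) = r + (y - x) by omega] at this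
    exact this
  · obtain ⟨m, hm⟩ : ∃ m, k a = m + 2 := ⟨k a - 2, by omega⟩
    rw [hm] at key hk4
    have c1 : (m + 1) * (y - x) ≤ 3 * K := Nat.mul_le_mul (by omega) hδ2
    have c2 : 1 * 1 ≤ (m + 1) * (y - x) := Nat.mul_le_mul (by omega) (by omega)
    obtain ⟨r, r1, r2, r3⟩ := pf ((m + 1) * (y - x)) (by omega) (z + (m + 1) * (z - y))
    apply r3
    have := key (r - (z + (m + 1) * (z - y)) + z) (by omega) (by omega)
    have d1 : (m + 2) * (z - x) = (z - x) + ((m + 1) * (z - y) + (m + 1) * (y - x)) := by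
      rw [← Nat.mul_add, show z - y + (y - x) = z - x by omega]
      ring
    have d2 : (m + 2) * (z - y) = (z - y) + (m + 1) * (z - y) := by ring
    rw [d1, d2] at this
    rw [show x + (z - x + ((m + 1) * (z - y) + (m + 1) * (y - x))) +
        (r - (z + (m + 1) * (z - y)) + z - z) = r + (m + 1) * (y - x) by omega,
      show y + (z - y + (m + 1) * (z - y)) + (r - (z + (m + 1) * (z - y)) + z - z) = r by omega]
      at this
    exact this.symm

/-- the prefix of length `n` of the period doubling word -/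
def pre (n : ℕ) : List (Fin 2) := (List.range n).map t

theorem pre_not_mem (n : ℕ) : pre n ∉ L := by
  rintro ⟨j, a, h1, h2⟩
  unfold pre at h1
  rw [List.getElem?_map] at h1
  obtain ⟨b, hb, rfl⟩ := Option.map_eq_some_iff.1 h1
  obtain ⟨h3, h4⟩ := List.getElem?_eq_some_iff.1 hb
  rw [List.getElem_range] at h4
  exact h2 (by rw [h4])

theorem L_not_regular : ¬ L.IsRegular := by
  intro hL
  obtain ⟨σ, hσ, M, hM⟩ := hL.compl
  have hmem : pre (Fintype.card σ) ∈ M.accepts := by
    rw [hM]
    exact pre_not_mem _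
  obtain ⟨x, u, y, -, -, hu, hpump⟩ := M.pumping_lemma hmem (by
    unfold pre
    rw [List.length_map, List.length_range])
  have h5 : x ++ (List.replicate 5 u).flatten ++ y ∈ M.accepts := by
    have h6 : x ++ (List.replicate 5 u).flatten ++ y ∈
        ({x} * KStar.kstar {u} * {y} : Language (Fin 2)) := by
      rw [Language.mem_mul]
      refine ⟨x ++ (List.replicate 5 u).flatten, ?_, y, rfl, rfl⟩
      rw [Language.mem_mul]
      refine ⟨x, rfl, (List.replicate 5 u).flatten, ?_, rfl⟩
      rw [Language.mem_kstar]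
      exact ⟨List.replicate 5 u, rfl, fun z hz => List.eq_of_mem_replicate hz⟩
    exact hpump h6
  rw [hM] at h5
  have hcor : ∀ (j : ℕ) (a : Fin 2), (x ++ (List.replicate 5 u).flatten ++ y)[j]? = some a →
      a = t j := by
    intro j a ha
    by_contra hne
    exact h5 ⟨j, a, ha, hne⟩
  have hu' : 1 ≤ u.length := List.length_pos_iff.2 hu
  obtain ⟨r, r1, r2, r3⟩ := pf u.length hu' x.length
  apply r3
  have get : ∀ j, j < 5 * u.length →
      (x ++ (List.replicate 5 u).flatten ++ y)[x.length + j]? =
        ((List.replicate 5 u).flatten)[j]? := by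
    intro j hj
    rw [List.getElem?_append_left (by
      rw [List.length_append, length_replicate_flatten]; omega),
      List.getElem?_append_right (by omega)]
    congr 1
    omega
  have h2 := replicate_flatten_period u 5 (r - x.length) (by omega)
  have h3 := get (r - x.length) (by omega)
  have h4 := get (r - x.length + u.length) (by omega)
  rw [show x.length + (r - x.length) = r by omega] at h3
  rw [show x.length + (r - x.length + u.length) = r + u.length by omega] at h4
  have h7 : r - x.length < ((List.replicate 5 u).flatten).length := by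
    rw [length_replicate_flatten]; omega
  have h6 : ((List.replicate 5 u).flatten)[r - x.length]? =
    some ((List.replicate 5 u).flatten)[r - x.length] := List.getElem?_eq_getElem h7
  have e1 := hcor _ _ (h3.trans h6)
  have e2 := hcor _ _ (h4.trans (h2.symm.trans h6))
  rw [← e1, ← e2]

end Pool.Agent.H643R2.PD
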