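import Pool.Agent.Helper288.ConeTr

set_option autoImplicit false

/-!
# Concatenation and renaming of letter transducers
-/

namespace Pool.Agent.H643R2.TrOps

open Pool.Agent.Helper288.Cone

variable {X Y X' Y' : Type}

/-- concatenation of transducers -/
def cat (T S : Tr X Y) : Tr X Y where
  σ := T.σ ⊕ S.σ
  fin := by
    have := T.fin
    have := S.fin
    exact inferInstance
  step := fun p x y q => match p, q with
    | Sum.inl p, Sum.inl q => T.step p x y q
    | Sum.inr p, Sum.inr q => S.step p x y q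
    | Sum.inl p, Sum.inr q => T.acc p ∧ S.start q ∧ x = none ∧ y = none
    | Sum.inr _, Sum.inl _ => False
  start := fun p => ∃ p', p = Sum.inl p' ∧ T.start p'
  acc := fun p => ∃ p', p = Sum.inr p' ∧ S.acc p'

theorem cat_run_inl (T S : Tr X Y) {p q : T.σ} {u : List X} {v : List Y} (h : T.Run p u v q) :
    (cat T S).Run (Sum.inl p) u v (Sum.inl q) := by
  induction h with
  | nil p => exact Tr.Run.nil _
  | @cons p q r x y u v hs _ ih =>
    exact Tr.Run.cons (T := cat T S) (p := Sum.inl p) (q := Sum.inl q) hs ih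

theorem cat_run_inr (T S : Tr X Y) {p q : S.σ} {u : List X} {v : List Y} (h : S.Run p u v q) :
    (cat T S).Run (Sum.inr p) u v (Sum.inr q) := by
  induction h with
  | nil p => exact Tr.Run.nil _
  | @cons p q r x y u v hs _ ih =>
    exact Tr.Run.cons (T := cat T S) (p := Sum.inr p) (q := Sum.inr q) hs ih

/-- what a run of the concatenation means -/
def catSem (T S : Tr X Y) (p : T.σ ⊕ S.σ) (u : List X) (v : List Y) (q : T.σ ⊕ S.σ) : Prop :=
  match p, q with
  | Sum.inl p, Sum.inl q => T.Run p u v q
  | Sum.inr p, Sum.inr q => S.Run p u v q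
  | Sum.inl p, Sum.inr q => ∃ p' q' u1 u2 v1 v2, T.acc p' ∧ S.start q' ∧ T.Run p u1 v1 p' ∧
      S.Run q' u2 v2 q ∧ u = u1 ++ u2 ∧ v = v1 ++ v2
  | Sum.inr _, Sum.inl _ => False

theorem catSem_of_run (T S : Tr X Y) {p q : (cat T S).σ} {u : List X} {v : List Y}
    (h : (cat T S).Run p u v q) : catSem T S p u v q := by
  induction h with
  | nil p => rcases p with p | p <;> exact Tr.Run.nil _
  | @cons p q r x y u v hs _ ih =>
    rcases p with p | p <;> rcases q with q | q <;> rcases r with r | r
    · exact Tr.Run.cons (T := T) hs ih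
    · obtain ⟨p', q', u1, u2, v1, v2, h1, h2, h3, h4, rfl, rfl⟩ := ih
      exact ⟨p', q', _, u2, _, v2, h1, h2, Tr.Run.cons (T := T) hs h3, h4, by simp, by simp⟩
    · exact ih.elim
    · obtain ⟨h1, h2, rfl, rfl⟩ := hs
      exact ⟨p, q, [], u, [], v, h1, h2, Tr.Run.nil _, ih, by simp, by simp⟩
    · exact hs.elim
    · exact hs.elim
    · exact ih.elim
    · exact Tr.Run.cons (T := S) hs ih

theorem cat_rel (T S : Tr X Y) (u : List X) (v : List Y) :
    (cat T S).rel u v ↔ ∃ u1 u2 v1 v2, T.rel u1 v1 ∧ S.rel u2 v2 ∧ u = u1 ++ u2 ∧ v = v1 ++ v2 := by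
  constructor
  · rintro ⟨p, q, ⟨p', rfl, hp⟩, ⟨q', rfl, hq⟩, h⟩
    obtain ⟨p1, q1, u1, u2, v1, v2, h1, h2, h3, h4, h5, h6⟩ := catSem_of_run T S h
    exact ⟨u1, u2, v1, v2, ⟨p', p1, hp, h1, h3⟩, ⟨q1, q', h2, hq, h4⟩, h5, h6⟩
  · rintro ⟨u1, u2, v1, v2, ⟨p, p', hp, hp', h1⟩, ⟨q, q', hq, hq', h2⟩, rfl, rfl⟩
    refine ⟨Sum.inl p, Sum.inr q', ⟨p, rfl, hp⟩, ⟨q', rfl, hq'⟩, ?_⟩
    have h3 : (cat T S).Run (Sum.inl p') u2 v2 (Sum.inr q') := by
      have := Tr.Run.cons (T := cat T S) (p := Sum.inl p') (q := Sum.inr q) (x := none) (y := none)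
        ⟨hp', hq, rfl, rfl⟩ (cat_run_inr T S h2)
      simpa using this
    exact (cat_run_inl T S h1).trans h3

/-- renaming of both alphabets -/
def map (T : Tr X Y) (f : X → X') (g : Y → Y') : Tr X' Y' where
  σ := T.σ
  fin := T.fin
  step := fun p x y q => ∃ x0 y0, x = Option.map f x0 ∧ y = Option.map g y0 ∧ T.step p x0 y0 q
  start := T.start
  acc := T.acc

theorem map_rel (T : Tr X Y) (f : X → X') (g : Y → Y') (u : List X') (v : List Y') :
    (map T f g).rel u v ↔ ∃ u0 v0, T.rel u0 v0 ∧ u = u0.map f ∧ v = v0.map g := by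
  constructor
  · rintro ⟨p, q, hp, hq, h⟩
    have key : ∀ {p q : (map T f g).σ} {u : List X'} {v : List Y'}, (map T f g).Run p u v q →
        ∃ u0 v0, T.Run p u0 v0 q ∧ u = u0.map f ∧ v = v0.map g := by
      intro p q u v h
      induction h with
      | nil p => exact ⟨[], [], Tr.Run.nil (T := T) p, rfl, rfl⟩
      | cons hs _ ih =>
        obtain ⟨u0, v0, h0, rfl, rfl⟩ := ih
        obtain ⟨x0, y0, rfl, rfl, hs⟩ := hs
        refine ⟨_, _, Tr.Run.cons hs h0, ?_, ?_⟩
        · cases x0 <;> simp
        · cases y0 <;> simp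
    obtain ⟨u0, v0, h0, h1, h2⟩ := key h
    exact ⟨u0, v0, ⟨p, q, hp, hq, h0⟩, h1, h2⟩
  · rintro ⟨u0, v0, ⟨p, q, hp, hq, h⟩, rfl, rfl⟩
    refine ⟨p, q, hp, hq, ?_⟩
    clear hp hq
    induction h with
    | nil p => exact Tr.Run.nil (T := map T f g) p
    | @cons p q r x y u v hs _ ih =>
      have h1 := Tr.Run.cons (T := map T f g) (p := p) (q := q) (x := x.map f) (y := y.map g)
        ⟨x, y, rfl, rfl, hs⟩ ih
      have e1 : (x.map f).toList ++ u.map f = (x.toList ++ u).map f := by
        cases x <;> simp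
      have e2 : (y.map g).toList ++ v.map g = (y.toList ++ v).map g := by
        cases y <;> simp
      rw [e1, e2] at h1
      exact h1

/-- one letter, mapped to an optional letter -/
def one (a : X) (b : Option Y) : Tr X Y where
  σ := Bool
  fin := inferInstance
  step := fun p x y q => p = false ∧ q = true ∧ x = some a ∧ y = b
  start := fun p => p = false
  acc := fun p => p = true

theorem one_rel (a : X) (b : Option Y) (u : List X) (v : List Y) :
    (one a b).rel u v ↔ u = [a] ∧ v = b.toList := by
  constructor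
  · rintro ⟨p, q, hp, hq, h⟩
    have h1 : ∀ {p q : (one a b).σ} {u : List X} {v : List Y}, (one a b).Run p u v q → p = true →
        u = [] ∧ v = [] := by
      intro p q u v h hp
      cases h with
      | nil p => exact ⟨rfl, rfl⟩
      | cons hs _ => rw [hs.1] at hp; exact absurd hp Bool.false_ne_true
    have hp' : p = false := hp
    have hq' : q = true := hq
    cases h with
    | nil p => rw [hp'] at hq'; exact absurd hq' Bool.false_ne_true
    | cons hs hr =>
      obtain ⟨_, h2, rfl, rfl⟩ := hs
      obtain ⟨rfl, rfl⟩ := h1 hr h2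
      simp
  · rintro ⟨rfl, rfl⟩
    refine ⟨false, true, rfl, rfl, ?_⟩
    have := Tr.Run.cons (T := one a b) (p := false) (q := true) (x := some a) (y := b)
      ⟨rfl, rfl, rfl, rfl⟩ (Tr.Run.nil _)
    simpa using this

/-- at least one letter `a`, each mapped to the letter `b` -/
def plus (a : X) (b : Y) : Tr X Y where
  σ := Bool
  fin := inferInstance
  step := fun _ x y q => q = true ∧ x = some a ∧ y = some b
  start := fun p => p = false
  acc := fun p => p = true

theorem plus_rel (a : X) (b : Y) (u : List X) (v : List Y) :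
    (plus a b).rel u v ↔ ∃ n, 1 ≤ n ∧ u = List.replicate n a ∧ v = List.replicate n b := by
  constructor
  · rintro ⟨p, q, hp, hq, h⟩
    have h1 : ∀ {p q : (plus a b).σ} {u : List X} {v : List Y}, (plus a b).Run p u v q →
        ∃ n, u = List.replicate n a ∧ v = List.replicate n b ∧ (n = 0 → p = q) := by
      intro p q u v h
      induction h with
      | nil p => exact ⟨0, rfl, rfl, fun _ => rfl⟩
      | cons hs _ ih =>
        obtain ⟨n, rfl, rfl, _⟩ := ih
        obtain ⟨_, rfl, rfl⟩ := hs
        exact ⟨n + 1, rfl, rfl, fun h => absurd h (by omega)⟩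
    obtain ⟨n, hn1, hn2, hn3⟩ := h1 h
    refine ⟨n, ?_, hn1, hn2⟩
    by_contra h0
    have h2 := hn3 (by omega)
    have hp' : p = false := hp
    have hq' : q = true := hq
    rw [hp', hq'] at h2
    exact absurd h2 Bool.false_ne_true
  · rintro ⟨n, hn, rfl, rfl⟩
    have h1 : ∀ n (p : (plus a b).σ), 1 ≤ n → (plus a b).Run p (List.replicate n a)
        (List.replicate n b) true := by
      intro n
      induction n with
      | zero => intro p h; omega
      | succ n ih =>
        intro p _
        rcases Nat.eq_zero_or_pos n with rfl | hn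
        · have := Tr.Run.cons (T := plus a b) (p := p) (q := true) (x := some a) (y := some b)
            ⟨rfl, rfl, rfl⟩ (Tr.Run.nil _)
          simpa using this
        · have := Tr.Run.cons (T := plus a b) (p := p) (q := true) (x := some a) (y := some b)
            ⟨rfl, rfl, rfl⟩ (ih true hn)
          simpa [List.replicate_succ] using this
    exact ⟨false, true, rfl, rfl, h1 n false hn⟩

/-- identity on one word position: any word over the alphabet is mapped to itself -/
def idTr (X : Type) : Tr X X where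
  σ := Unit
  fin := inferInstance
  step := fun _ x y _ => ∃ a, x = some a ∧ y = some a
  start := fun _ => True
  acc := fun _ => True

theorem idTr_rel (u v : List X) : (idTr X).rel u v ↔ u = v := by
  constructor
  · rintro ⟨p, q, -, -, h⟩
    induction h with
    | nil p => rfl
    | cons hs _ ih =>
      obtain ⟨a, rfl, rfl⟩ := hs
      simp [ih]
  · rintro rfl
    refine ⟨(), (), trivial, trivial, ?_⟩
    induction u with
    | nil => exact Tr.Run.nil _
    | cons a u ih =>
      have := Tr.Run.cons (T := idTr X) (p := ()) (q := ()) (x := some a) (y := some a)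
        ⟨a, rfl, rfl⟩ ih
      simpa using this

end Pool.Agent.H643R2.TrOps
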