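import Pool.Agent.H643R2.EadPal
import Pool.Agent.H643R2.TrOps
import Pool.Agent.Helper336.CF

set_option autoImplicit false

/-!
# Closure properties of the cone of the recursive language
-/

namespace Pool.Agent.H643R2.Ead

open Pool.Agent.Helper288.Cone
open Pool.Agent.H643R2.RunLem

/-- level shift of a letter -/
def kapL : Sg → List Sg
  | Sg.p => [Sg.s, Sg.p]
  | Sg.q => [Sg.s, Sg.q]
  | Sg.s => [Sg.s]

/-- level shift of a word -/
def kap (w : List Sg) : List Sg := w.flatMap kapL

theorem kap_append (u v : List Sg) : kap (u ++ v) = kap u ++ kap v := by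
  simp [kap]

theorem kap_cons (a : Sg) (v : List Sg) : kap (a :: v) = kapL a ++ kap v := by
  simp [kap]

theorem kap_rep (n : ℕ) (y : List Sg) : kap (rep n y) = rep n (kap y) := by
  induction n with
  | zero => rfl
  | succ n ih => rw [rep_succ, rep_succ, kap_append, ih]

theorem kap_reps (n : ℕ) : kap (List.replicate n Sg.s) = List.replicate n Sg.s := by
  induction n with
  | zero => rfl
  | succ n ih => rw [List.replicate_succ, kap_cons, ih]; rfl

theorem kap_mp (l : ℕ) : kap (mp l) = mp (l + 1) := by
  rw [mp, kap_append, kap_reps, mp, List.replicate_succ', List.append_assoc]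
  rfl

theorem kap_mq (l : ℕ) : kap (mq l) = mq (l + 1) := by
  rw [mq, kap_append, kap_reps, mq, List.replicate_succ', List.append_assoc]
  rfl

theorem chk_kap (l : ℕ) (w : List Sg) : ∀ b k, chk l b k w → chk (l + 1) b k (kap w) := by
  induction w with
  | nil => intro b k h; simpa [kap, chk] using h
  | cons a w ih =>
    intro b k h
    rw [kap_cons]
    cases a with
    | s => simp only [kapL, List.cons_append, List.nil_append, chk] at h ⊢; exact ih _ _ h
    | p =>
      simp only [kapL, List.cons_append, List.nil_append, chk] at h ⊢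
      refine ⟨?_, ih _ _ h.2⟩
      have := h.1
      cases b <;> simp only [cond_true, cond_false] at this ⊢ <;> omega
    | q =>
      simp only [kapL, List.cons_append, List.nil_append, chk] at h ⊢
      refine ⟨?_, ih _ _ h.2⟩
      have := h.1
      cases b <;> simp only [cond_true, cond_false] at this ⊢ <;> omega

theorem E_kap {l : ℕ} {w : List Sg} (h : E l w) : E (l + 1) (kap w) := by
  induction h with
  | leaf h => exact E.leaf (chk_kap _ _ _ _ h)
  | @node l n F G hn _ _ hF hG =>
    rw [kap_append, kap_append, kap_append, kap_rep, kap_rep, kap_mp, kap_mq]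
    exact E.node hn hF hG

theorem chk_unkap (l : ℕ) (w : List Sg) :
    (∀ b, chk (l + 1) b 0 w → ∃ w', w = kap w' ∧ chk l b 0 w') ∧
    (∀ b k, chk (l + 1) b (k + 1) w → ∃ w', Sg.s :: w = kap w' ∧ chk l b k w') := by
  induction w with
  | nil =>
    refine ⟨fun b _ => ⟨[], rfl, rfl⟩, fun b k h => ?_⟩
    simp [chk] at h
  | cons a w ih =>
    cases a with
    | s =>
      refine ⟨fun b h => ih.2 b 0 h, fun b k h => ?_⟩
      obtain ⟨w', h1, h2⟩ := ih.2 b (k + 1) h
      refine ⟨Sg.s :: w', ?_, h2⟩
      rw [kap_cons, ← h1]; rfl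
    | p =>
      refine ⟨fun b h => ?_, fun b k h => ?_⟩
      · simp only [chk] at h
        have := h.1
        cases b <;> simp at this
      · simp only [chk] at h
        obtain ⟨w', h1, h2⟩ := ih.1 false h.2
        refine ⟨Sg.p :: w', ?_, ?_⟩
        · rw [kap_cons, ← h1]; rfl
        · simp only [chk]
          refine ⟨?_, h2⟩
          have := h.1
          cases b <;> simp only [cond_true, cond_false] at this ⊢ <;> omega
    | q =>
      refine ⟨fun b h => ?_, fun b k h => ?_⟩
      · simp only [chk] at h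
        have := h.1
        cases b <;> simp at this
      · simp only [chk] at h
        obtain ⟨w', h1, h2⟩ := ih.1 false h.2
        refine ⟨Sg.q :: w', ?_, ?_⟩
        · rw [kap_cons, ← h1]; rfl
        · simp only [chk]
          refine ⟨?_, h2⟩
          have := h.1
          cases b <;> simp only [cond_true, cond_false] at this ⊢ <;> omega

theorem E_unkap {l : ℕ} {w : List Sg} (h : E (l + 1) w) : ∃ w', w = kap w' ∧ E l w' := by
  generalize hm : l + 1 = m at h
  induction h generalizing l with
  | @leaf m w h =>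
    subst hm
    obtain ⟨w', h1, h2⟩ := (chk_unkap l w).1 true h
    exact ⟨w', h1, E.leaf h2⟩
  | @node m n F G hn _ _ hF hG =>
    subst hm
    obtain ⟨F', rfl, hF'⟩ := hF rfl
    obtain ⟨G', rfl, hG'⟩ := hG rfl
    refine ⟨_, ?_, E.node hn hF' hG'⟩
    rw [kap_append, kap_append, kap_append, kap_rep, kap_rep, kap_mp, kap_mq]

/-- removing one `s` from every block and marking the blocks without `s` -/
def rho : Bool → List Sg → List (Sg ⊕ Bool)
  | _, [] => []
  | false, Sg.s :: w => rho true w
  | true, Sg.s :: w => Sum.inl Sg.s :: rho true w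
  | false, Sg.p :: w => Sum.inr true :: rho false w
  | true, Sg.p :: w => Sum.inl Sg.p :: rho false w
  | false, Sg.q :: w => Sum.inr false :: rho false w
  | true, Sg.q :: w => Sum.inl Sg.q :: rho false w

/-- the transducer of `rho` -/
def rhoTr : Tr Sg (Sg ⊕ Bool) where
  σ := Bool
  fin := inferInstance
  step := fun b x y b' =>
    (x = some Sg.s ∧ b' = true ∧ y = if b then some (Sum.inl Sg.s) else none) ∨
    (x = some Sg.p ∧ b' = false ∧ y = some (if b then Sum.inl Sg.p else Sum.inr true)) ∨
    (x = some Sg.q ∧ b' = false ∧ y = some (if b then Sum.inl Sg.q else Sum.inr false))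
  start := fun b => b = false
  acc := fun _ => True

theorem rhoTr_rel (w : List Sg) (v : List (Sg ⊕ Bool)) : rhoTr.rel w v ↔ v = rho false w := by
  constructor
  · rintro ⟨b, b', hb, -, h⟩
    have key : ∀ {b b' : rhoTr.σ} {w : List Sg} {v : List (Sg ⊕ Bool)}, rhoTr.Run b w v b' →
        v = rho b w := by
      intro b b' w v h
      induction h with
      | nil b => cases b <;> rfl
      | @cons b c d x y w v hs _ ih =>
        rcases hs with ⟨rfl, rfl, rfl⟩ | ⟨rfl, rfl, rfl⟩ | ⟨rfl, rfl, rfl⟩ <;>
          · subst ih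
            cases b <;> rfl
    have hb' : b = false := hb
    rw [hb'] at h
    exact key h
  · rintro rfl
    have key : ∀ (w : List Sg) (b : Bool), ∃ b', rhoTr.Run b w (rho b w) b' := by
      intro w
      induction w with
      | nil =>
        intro b
        refine ⟨b, ?_⟩
        have : rho b [] = [] := by cases b <;> rfl
        rw [this]
        exact Tr.Run.nil (T := rhoTr) b
      | cons a w ih =>
        intro b
        cases a with
        | s =>
          obtain ⟨b', hb'⟩ := ih true
          refine ⟨b', ?_⟩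
          have := Tr.Run.cons (T := rhoTr) (p := b) (q := true) (x := some Sg.s)
            (y := if b then some (Sum.inl Sg.s) else none) (Or.inl ⟨rfl, rfl, rfl⟩) hb'
          cases b <;> exact this
        | p =>
          obtain ⟨b', hb'⟩ := ih false
          refine ⟨b', ?_⟩
          have := Tr.Run.cons (T := rhoTr) (p := b) (q := false) (x := some Sg.p)
            (y := some (if b then Sum.inl Sg.p else Sum.inr true))
            (Or.inr (Or.inl ⟨rfl, rfl, rfl⟩)) hb'
          cases b <;> exact this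
        | q =>
          obtain ⟨b', hb'⟩ := ih false
          refine ⟨b', ?_⟩
          have := Tr.Run.cons (T := rhoTr) (p := b) (q := false) (x := some Sg.q)
            (y := some (if b then Sum.inl Sg.q else Sum.inr false))
            (Or.inr (Or.inr ⟨rfl, rfl, rfl⟩)) hb'
          cases b <;> exact this
    obtain ⟨b', hb'⟩ := key w false
    exact ⟨false, b', rfl, trivial, hb'⟩

/-- the image of the generator -/
def N1 : Language (Sg ⊕ Bool) := {v | ∃ w, E 0 w ∧ v = rho false w}

theorem inCone_N1 : InCone Lg N1 := by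
  apply InCone_of_tr Lg rhoTr
  intro v
  constructor
  · rintro ⟨w, hw, h⟩
    exact ⟨w, hw, (rhoTr_rel w v).2 h⟩
  · rintro ⟨w, hw, h⟩
    exact ⟨w, hw, (rhoTr_rel w v).1 h⟩

theorem rho_rep_p (n : ℕ) (w : List Sg) :
    rho false (rep n (mp 0) ++ w) = List.replicate n (Sum.inr true) ++ rho false w := by
  induction n with
  | zero => rfl
  | succ n ih =>
    rw [rep_succ, List.replicate_succ, List.append_assoc, List.cons_append, ← ih]
    rfl

theorem rho_rep_q (n : ℕ) (w : List Sg) :
    rho false (rep n (mq 0) ++ w) = List.replicate n (Sum.inr false) ++ rho false w := by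
  induction n with
  | zero => rfl
  | succ n ih =>
    rw [rep_succ, List.replicate_succ, List.append_assoc, List.cons_append, ← ih]
    rfl

theorem rho_kap (rest F : List Sg) :
    (chk 0 false 0 F → rho false (kap F ++ rest) = F.map Sum.inl ++ rho false rest) ∧
    (∀ k, chk 0 false (k + 1) F → rho true (kap F ++ rest) =
      Sum.inl Sg.s :: F.map Sum.inl ++ rho false rest) := by
  induction F with
  | nil => exact ⟨fun _ => rfl, fun k h => by simp [chk] at h⟩
  | cons a F ih =>
    cases a with
    | s =>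
      refine ⟨fun h => ?_, fun k h => ?_⟩
      · rw [kap_cons]
        show rho true (kap F ++ rest) = _
        rw [ih.2 0 h]; rfl
      · rw [kap_cons]
        show Sum.inl Sg.s :: rho true (kap F ++ rest) = _
        rw [ih.2 (k + 1) h]; rfl
    | p =>
      refine ⟨fun h => ?_, fun k h => ?_⟩
      · rw [kap_cons]
        show Sum.inl Sg.p :: rho false (kap F ++ rest) = _
        rw [ih.1 h.2]; rfl
      · rw [kap_cons]
        show Sum.inl Sg.s :: Sum.inl Sg.p :: rho false (kap F ++ rest) = _
        rw [ih.1 h.2]; rfl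
    | q =>
      refine ⟨fun h => ?_, fun k h => ?_⟩
      · rw [kap_cons]
        show Sum.inl Sg.q :: rho false (kap F ++ rest) = _
        rw [ih.1 h.2]; rfl
      · rw [kap_cons]
        show Sum.inl Sg.s :: Sum.inl Sg.q :: rho false (kap F ++ rest) = _
        rw [ih.1 h.2]; rfl

/-- words of `N1` starting with a marker -/
theorem mem_N1 (v : List (Sg ⊕ Bool)) :
    (Sum.inr true :: v ∈ N1) ↔ ∃ n F G, 1 ≤ n ∧ F ∈ Lg ∧ G ∈ Lg ∧
      Sum.inr true :: v = List.replicate n (Sum.inr true) ++ (F.map Sum.inl ++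
        (List.replicate n (Sum.inr false) ++ G.map Sum.inl)) := by
  have hrho : ∀ F G : List Sg, F ∈ Lg → G ∈ Lg → ∀ n,
      rho false (rep n (mp 0) ++ (kap F ++ (rep n (mq 0) ++ kap G))) =
      List.replicate n (Sum.inr true) ++ (F.map Sum.inl ++
        (List.replicate n (Sum.inr false) ++ G.map Sum.inl)) := by
    intro F G hF hG n
    rw [rho_rep_p, (rho_kap _ F).1 (chk_of_E hF), rho_rep_q]
    have := (rho_kap [] G).1 (chk_of_E hG)
    rw [List.append_nil] at this
    rw [this]
    simp [rho]
  constructor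
  · rintro ⟨w, hw, hv⟩
    cases hw with
    | leaf h =>
      exfalso
      rcases w with _ | ⟨a, w⟩
      · simp [rho] at hv
      · cases a with
        | p => simp [chk] at h
        | q => simp [chk] at h
        | s =>
          rcases w with _ | ⟨a, w⟩
          · simp [rho] at hv
          · cases a <;> simp [rho] at hv
    | @node _ n F G hn hF hG =>
      obtain ⟨F', rfl, hF'⟩ := E_unkap hF
      obtain ⟨G', rfl, hG'⟩ := E_unkap hG
      refine ⟨n, F', G', hn, hF', hG', ?_⟩
      rw [hv]
      exact hrho F' G' hF' hG' n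
  · rintro ⟨n, F, G, hn, hF, hG, hv⟩
    refine ⟨_, E.node hn (E_kap hF) (E_kap hG), ?_⟩
    rw [hv]
    exact (hrho F G hF hG n).symm

theorem nil_mem_Lg : ([] : List Sg) ∈ Lg := E.leaf (by simp [chk])

/-- a decomposition at a marker is unique -/
theorem split_marker {A B : Type} (f g : List A) (c d : B) (u v : List (A ⊕ B))
    (h : f.map Sum.inl ++ Sum.inr c :: u = g.map Sum.inl ++ Sum.inr d :: v) :
    f = g ∧ c = d ∧ u = v := by
  induction f generalizing g with
  | nil =>
    rcases g with _ | ⟨b, g⟩
    · simpa using h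
    · simp at h
  | cons a f ih =>
    rcases g with _ | ⟨b, g⟩
    · simp at h
    · simp only [List.map_cons, List.cons_append, List.cons.injEq, Sum.inl.injEq] at h
      obtain ⟨rfl, h2⟩ := h
      obtain ⟨rfl, h3⟩ := ih g h2
      exact ⟨rfl, h3⟩

theorem rep_count {A : Type} (m n : ℕ) (f : List A) (g : List A) (u v : List (A ⊕ Bool))
    (hu : ∃ u', u = Sum.inr false :: u') (hv : ∃ v', v = Sum.inr false :: v')
    (h : List.replicate m (Sum.inr true) ++ (f.map Sum.inl ++ u) =
      List.replicate n (Sum.inr true) ++ (g.map Sum.inl ++ v)) : m = n := by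
  obtain ⟨u', rfl⟩ := hu
  obtain ⟨v', rfl⟩ := hv
  have aux : ∀ (k : ℕ) (f g : List A) (u' v' : List (A ⊕ Bool)),
      f.map Sum.inl ++ Sum.inr false :: u' =
      List.replicate (k + 1) (Sum.inr true) ++ (g.map Sum.inl ++ Sum.inr false :: v') → False := by
    intro k f g u' v' h
    rcases f with _ | ⟨a, f⟩
    · simp [List.replicate_succ] at h
    · simp [List.replicate_succ] at h
  induction m generalizing n with
  | zero =>
    rcases n with _ | n
    · rfl
    · exact (aux n f g u' v' (by simpa using h)).elim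
  | succ m ih =>
    rcases n with _ | n
    · exact (aux m g f v' u' (by simpa using h.symm)).elim
    · simp only [List.replicate_succ, List.cons_append, List.cons.injEq, true_and] at h
      rw [ih n h]

/-- a word `P f Q g` -/
theorem mem_N1_one (f g : List Sg) :
    (Sum.inr true :: (f.map Sum.inl ++ Sum.inr false :: g.map Sum.inl) ∈ N1) ↔
      f ∈ Lg ∧ g ∈ Lg := by
  rw [mem_N1]
  constructor
  · rintro ⟨n, F, G, hn, hF, hG, h⟩
    obtain ⟨n, rfl⟩ : ∃ n', n = n' + 1 := ⟨n - 1, by omega⟩
    have h1 : (1 : ℕ) = n + 1 := by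
      apply rep_count 1 (n + 1) f F (Sum.inr false :: g.map Sum.inl)
        (List.replicate (n + 1) (Sum.inr false) ++ G.map Sum.inl) ⟨_, rfl⟩
        ⟨List.replicate n (Sum.inr false) ++ G.map Sum.inl, by simp [List.replicate_succ]⟩
      simpa using h
    obtain rfl : n = 0 := by omega
    simp only [List.replicate_succ, List.replicate_zero, zero_add, List.cons_append,
      List.nil_append, List.cons.injEq, true_and] at h
    obtain ⟨rfl, -, h2⟩ := split_marker _ _ _ _ _ _ h
    have : g = G := List.map_injective_iff.2 Sum.inl_injective h2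
    rw [this]
    exact ⟨hF, hG⟩
  · rintro ⟨hf, hg⟩
    exact ⟨1, f, g, le_rfl, hf, hg, by simp⟩

/-- a word `P^n f Q^m` -/
theorem mem_N1_two (n m : ℕ) (hn : 1 ≤ n) (hm : 1 ≤ m) (f : List Sg) :
    (List.replicate n (Sum.inr true) ++ (f.map Sum.inl ++ List.replicate m (Sum.inr false)) ∈ N1) ↔
      f ∈ Lg ∧ n = m := by
  obtain ⟨n, rfl⟩ : ∃ n', n = n' + 1 := ⟨n - 1, by omega⟩
  obtain ⟨m, rfl⟩ : ∃ n', m = n' + 1 := ⟨m - 1, by omega⟩
  rw [List.replicate_succ, List.cons_append, mem_N1]
  constructor
  · rintro ⟨k, F, G, hk, hF, hG, h⟩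
    obtain ⟨k, rfl⟩ : ∃ n', k = n' + 1 := ⟨k - 1, by omega⟩
    have h1 : n + 1 = k + 1 := by
      apply rep_count (n + 1) (k + 1) f F (List.replicate (m + 1) (Sum.inr false))
        (List.replicate (k + 1) (Sum.inr false) ++ G.map Sum.inl)
        ⟨List.replicate m (Sum.inr false), by simp [List.replicate_succ]⟩
        ⟨List.replicate k (Sum.inr false) ++ G.map Sum.inl, by simp [List.replicate_succ]⟩
      simpa [List.replicate_succ] using h
    obtain rfl : n = k := by omega
    have h2 := h
    rw [List.replicate_succ (n := n) (a := Sum.inr true), List.cons_append, List.cons.injEq] at h2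
    have h3 := List.append_cancel_left h2.2
    rw [List.replicate_succ (n := n), List.replicate_succ (n := m), List.cons_append] at h3
    obtain ⟨rfl, -, h4⟩ := split_marker _ _ _ _ _ _ h3
    refine ⟨hF, ?_⟩
    -- compare the tails
    have h5 : G = [] := by
      rcases G with _ | ⟨a, G⟩
      · rfl
      · exfalso
        have : (Sum.inl a : Sg ⊕ Bool) ∈ List.replicate m (Sum.inr false) := by
          rw [h4]; simp
        have := List.eq_of_mem_replicate this
        exact absurd this (by simp)
    subst h5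
    have := congrArg List.length h4
    simp at this
    omega
  · rintro ⟨hf, h⟩
    obtain rfl : n = m := by omega
    exact ⟨n + 1, f, [], by omega, hf, nil_mem_Lg, by simp [List.replicate_succ]⟩

/-- the cone of the generator is closed under product -/
theorem cone_mul {Y : Type} [Fintype Y] {N N' : Language Y} (h : InCone Lg N)
    (h' : InCone Lg N') : InCone Lg {x | ∃ a ∈ N, ∃ b ∈ N', x = a ++ b} := by
  obtain ⟨T, hT⟩ := h.exists_tr
  obtain ⟨S, hS⟩ := h'.exists_tr
  refine inCone_N1.trans (InCone_of_tr N1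
    (TrOps.cat (TrOps.one (Sum.inr true) none) (TrOps.cat (TrOps.map T Sum.inl id)
      (TrOps.cat (TrOps.one (Sum.inr false) none) (TrOps.map S Sum.inl id)))) _ ?_)
  intro x
  simp only [TrOps.cat_rel, TrOps.one_rel, TrOps.map_rel]
  constructor
  · rintro ⟨a, ha, b, hb, rfl⟩
    obtain ⟨f, hf, hfa⟩ := (hT a).1 ha
    obtain ⟨g, hg, hgb⟩ := (hS b).1 hb
    exact ⟨_, (mem_N1_one f g).2 ⟨hf, hg⟩, _, _, _, _, ⟨rfl, rfl⟩, ⟨_, _, _, _,
      ⟨f, a, hfa, rfl, rfl⟩, ⟨_, _, _, _, ⟨rfl, rfl⟩, ⟨g, b, hgb, rfl, rfl⟩, rfl, rfl⟩, rfl, rfl⟩,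
      by simp, by simp⟩
  · rintro ⟨w, hw, _, _, _, _, ⟨rfl, rfl⟩, ⟨_, _, _, _, ⟨f, a, hfa, rfl, rfl⟩,
      ⟨_, _, _, _, ⟨rfl, rfl⟩, ⟨g, b, hgb, rfl, rfl⟩, rfl, rfl⟩, rfl, rfl⟩, rfl, rfl⟩
    have h1 := (mem_N1_one f g).1 (by simpa using hw)
    exact ⟨a, (hT a).2 ⟨f, h1.1, hfa⟩, b, (hS b).2 ⟨g, h1.2, hgb⟩, by simp⟩

/-- the cone of the generator is translatable -/
theorem cone_trans {Y Y' : Type} [Fintype Y'] {N : Language Y} (h : InCone Lg N)
    (ι : Y → Y') (a b : Y') : InCone Lg {x | ∃ n, 1 ≤ n ∧ ∃ f ∈ N,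
      x = List.replicate n a ++ f.map ι ++ List.replicate n b} := by
  obtain ⟨T, hT⟩ := h.exists_tr
  refine inCone_N1.trans (InCone_of_tr N1
    (TrOps.cat (TrOps.plus (Sum.inr true) a) (TrOps.cat (TrOps.map T Sum.inl ι)
      (TrOps.plus (Sum.inr false) b))) _ ?_)
  intro x
  simp only [TrOps.cat_rel, TrOps.plus_rel, TrOps.map_rel]
  constructor
  · rintro ⟨n, hn, c, hc, rfl⟩
    obtain ⟨f, hf, hfc⟩ := (hT c).1 hc
    exact ⟨_, (mem_N1_two n n hn hn f).2 ⟨hf, rfl⟩, _, _, _, _, ⟨n, hn, rfl, rfl⟩,
      ⟨_, _, _, _, ⟨f, c, hfc, rfl, rfl⟩, ⟨n, hn, rfl, rfl⟩, rfl, rfl⟩, rfl, by simp⟩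
  · rintro ⟨w, hw, _, _, _, _, ⟨n, hn, rfl, rfl⟩, ⟨_, _, _, _, ⟨f, c, hfc, rfl, rfl⟩,
      ⟨m, hm, rfl, rfl⟩, rfl, rfl⟩, rfl, rfl⟩
    obtain ⟨h1, rfl⟩ := (mem_N1_two n m hn hm f).1 hw
    exact ⟨n, hn, c, (hT c).2 ⟨f, h1, hfc⟩, by simp⟩

/-! ### marked palindromes are context-free -/

/-- the rule `S → b S b` -/
def ruleB (b : Bool) : ContextFreeRule (Option Bool) Unit :=
  ⟨(), [Symbol.terminal (some b), Symbol.nonterminal (), Symbol.terminal (some b)]⟩

/-- the rule `S → c` -/
def ruleC : ContextFreeRule (Option Bool) Unit := ⟨(), [Symbol.terminal none]⟩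

open Classical in
/-- the grammar `S → t S t | f S f | c` -/
noncomputable def palG : ContextFreeGrammar (Option Bool) where
  NT := Unit
  initial := ()
  rules := ({ruleB true, ruleB false, ruleC} : Finset (ContextFreeRule (Option Bool) Unit))

theorem mem_palG (r : ContextFreeRule (Option Bool) Unit) :
    r ∈ palG.rules ↔ r = ruleB true ∨ r = ruleB false ∨ r = ruleC := by
  classical
  show r ∈ ({ruleB true, ruleB false, ruleC} : Finset (ContextFreeRule (Option Bool) Unit)) ↔ _
  simp only [Finset.mem_insert, Finset.mem_singleton]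

open Pool.Agent.Helper336.CF in
theorem Pal_cf : Pal.IsContextFree := by
  refine ⟨palG, ?_⟩
  ext w
  show w ∈ palG.language ↔ _
  rw [language_eq palG (fun _ => (Pal : Set (List (Option Bool))))]
  · rfl
  · intro r hr w hw
    have hb : ∀ b, r = ruleB b → w ∈ (Pal : Set (List (Option Bool))) := by
      rintro b rfl
      obtain ⟨w', rfl, w1, w2, rfl, ⟨u, rfl⟩, w3, rfl, hw3⟩ := hw
      have : w3 = [] := hw3
      subst this
      exact ⟨b :: u, by simp⟩
    rcases (mem_palG r).1 hr with h | h | h
    · exact hb _ h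
    · exact hb _ h
    · subst h
      obtain ⟨w', rfl, hw'⟩ := hw
      have : w' = [] := hw'
      subst this
      exact ⟨[], by simp⟩
  · rintro w ⟨u, rfl⟩
    show _ ∈ Gen palG ()
    induction u with
    | nil =>
      exact gen_of_rule palG ruleC ((mem_palG _).2 (Or.inr (Or.inr rfl))) [none] ⟨[], rfl, rfl⟩
    | cons b u ih =>
      have hr : ruleB b ∈ palG.rules := by
        rw [mem_palG]
        cases b
        · exact Or.inr (Or.inl rfl)
        · exact Or.inl rfl
      have := gen_of_rule palG (ruleB b) hr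
          (some b :: ((u.map some ++ none :: (u.map some).reverse) ++ [some b]))
          ⟨_, rfl, _, _, rfl, ih, [], rfl, rfl⟩
      have e : some b :: ((u.map some ++ none :: (u.map some).reverse) ++ [some b]) =
          (b :: u).map some ++ none :: ((b :: u).map some).reverse := by simp
      rw [e] at this
      exact this

end Pool.Agent.H643R2.Ead
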