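import Pool.Agent.H643R2.RunLem

set_option autoImplicit false

/-!
# A recursive language with level markers
-/

namespace Pool.Agent.H643R2.Ead

open Pool.Agent.Helper288.Cone
open Pool.Agent.H643R2.PB
open Pool.Agent.H643R2.RunLem

/-- the three letters -/
inductive Sg | p | q | s
  deriving DecidableEq

instance : Fintype Sg := ⟨{Sg.p, Sg.q, Sg.s}, fun x => by cases x <;> simp⟩

/-- `chk l b k w`: the word `s^k w` is a product of blocks `s^j p`, `s^j q` with `j ≥ l`, and
moreover `j ≥ l + 1` in the first block if `b` is true. -/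
def chk (l : ℕ) : Bool → ℕ → List Sg → Prop
  | _, k, [] => k = 0
  | b, k, Sg.s :: w => chk l b (k + 1) w
  | b, k, Sg.p :: w => (bif b then l + 1 else l) ≤ k ∧ chk l false 0 w
  | b, k, Sg.q :: w => (bif b then l + 1 else l) ≤ k ∧ chk l false 0 w

/-- the marker `s^l p` -/
def mp (l : ℕ) : List Sg := List.replicate l Sg.s ++ [Sg.p]

/-- the marker `s^l q` -/
def mq (l : ℕ) : List Sg := List.replicate l Sg.s ++ [Sg.q]

/-- the language of level `l` -/
inductive E : ℕ → List Sg → Prop
  | leaf {l : ℕ} {w : List Sg} : chk l true 0 w → E l w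
  | node {l n : ℕ} {F G : List Sg} : 1 ≤ n → E (l + 1) F → E (l + 1) G →
      E l (rep n (mp l) ++ (F ++ (rep n (mq l) ++ G)))

/-! ### cuts of leaves -/

/-- the automaton of `chk` -/
def adv (l : ℕ) : Option (Bool × Fin (l + 2)) → Sg → Option (Bool × Fin (l + 2))
  | none, _ => none
  | some (b, k), Sg.s => some (b, ⟨min (k + 1) (l + 1), by omega⟩)
  | some (b, k), Sg.p => if (bif b then l + 1 else l) ≤ (k : ℕ) then some (false, 0) else none
  | some (b, k), Sg.q => if (bif b then l + 1 else l) ≤ (k : ℕ) then some (false, 0) else none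

theorem chk_min (l : ℕ) (w : List Sg) : ∀ (b : Bool) (k k' : ℕ),
    min k (l + 1) = min k' (l + 1) → (chk l b k w ↔ chk l b k' w) := by
  induction w with
  | nil => intro b k k' h; simp only [chk]; omega
  | cons a w ih =>
    intro b k k' h
    cases a with
    | s => simp only [chk]; exact ih b _ _ (by omega)
    | p => simp only [chk]; cases b <;> simp only [cond_true, cond_false] <;>
            (constructor <;> rintro ⟨h1, h2⟩ <;> exact ⟨by omega, h2⟩)
    | q => simp only [chk]; cases b <;> simp only [cond_true, cond_false] <;>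
            (constructor <;> rintro ⟨h1, h2⟩ <;> exact ⟨by omega, h2⟩)

/-- continuation of `chk` -/
def cont (l : ℕ) (z : List Sg) : Option (Bool × Fin (l + 2)) → Prop
  | none => False
  | some (b, k) => chk l b k z

theorem chk_append (l : ℕ) (u z : List Sg) : ∀ (b : Bool) (k : ℕ) (k' : Fin (l + 2)),
    min k (l + 1) = k' → (chk l b k (u ++ z) ↔ cont l z (u.foldl (adv l) (some (b, k')))) := by
  induction u with
  | nil =>
    intro b k k' h
    simp only [List.nil_append, List.foldl_nil, cont]
    apply chk_min
    omega
  | cons a u ih =>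
    intro b k k' h
    have hnone : ∀ u : List Sg, u.foldl (adv l) none = none := by
      intro u
      induction u with
      | nil => rfl
      | cons a u ih => simpa [adv] using ih
    cases a with
    | s =>
      simp only [List.cons_append, List.foldl_cons, chk, adv]
      apply ih
      simp only
      omega
    | p =>
      simp only [List.cons_append, List.foldl_cons, chk, adv]
      by_cases hb : (bif b then l + 1 else l) ≤ (k' : ℕ)
      · have hb' : (bif b then l + 1 else l) ≤ k := by omega
        rw [if_pos hb]
        simp only [hb', true_and]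
        exact ih false 0 0 (by simp)
      · have hb' : ¬ (bif b then l + 1 else l) ≤ k := by
          cases b <;> simp only [cond_true, cond_false] at hb ⊢ <;> omega
        rw [if_neg hb, hnone]
        simp [hb', cont]
    | q =>
      simp only [List.cons_append, List.foldl_cons, chk, adv]
      by_cases hb : (bif b then l + 1 else l) ≤ (k' : ℕ)
      · have hb' : (bif b then l + 1 else l) ≤ k := by omega
        rw [if_pos hb]
        simp only [hb', true_and]
        exact ih false 0 0 (by simp)
      · have hb' : ¬ (bif b then l + 1 else l) ≤ k := by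
          cases b <;> simp only [cond_true, cond_false] at hb ⊢ <;> omega
        rw [if_neg hb, hnone]
        simp [hb', cont]

variable {Y : Type}

/-- outputs of left parts which are determined by the right part -/
def U (T : Tr Sg Y) (l : ℕ) (r t : T.σ) : Set (List Y) :=
  {x | ∃ zL zR, E l (zL ++ zR) ∧ T.Run r zL x t ∧
    ∀ zL' x', E l (zL' ++ zR) → T.Run r zL' x' t → x' = x}

/-- the same with a leaf -/
def Lf (T : Tr Sg Y) (l : ℕ) (r t : T.σ) : Set (List Y) :=
  {x | ∃ zL zR, chk l true 0 (zL ++ zR) ∧ T.Run r zL x t ∧
    ∀ zL' x', E l (zL' ++ zR) → T.Run r zL' x' t → x' = x}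

theorem Lf_PB (T : Tr Sg Y) (l : ℕ) (r t : T.σ) : PB (Lf T l r t) := by
  apply PB.of_labels (ι := Option (Bool × Fin (l + 2))) _
    (fun i x => ∃ zL zR, chk l true 0 (zL ++ zR) ∧ T.Run r zL x t ∧
      (∀ zL' x', E l (zL' ++ zR) → T.Run r zL' x' t → x' = x) ∧
      zL.foldl (adv l) (some (true, 0)) = i)
  · rintro x ⟨zL, zR, h1, h2, h3⟩
    exact ⟨_, zL, zR, h1, h2, h3, rfl⟩
  · rintro i x x' - - ⟨zL, zR, h1, h2, h3, h4⟩ ⟨zL', zR', h1', h2', h3', h4'⟩
    apply h3' zL x _ h2
    apply E.leaf
    rw [chk_append l _ _ true 0 0 (by simp), h4, ← h4', ← chk_append l _ _ true 0 0 (by simp)]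
    exact h1'

/-- all cuts in a repetition -/
def Vp (T : Tr Sg Y) (y : List Sg) (r t : T.σ) : Set (List Y) :=
  ⋃ i : Fin (y.length + 1), V T y (y.take i) r t

theorem Vp_PB (T : Tr Sg Y) (y : List Sg) (r t : T.σ) : PB (Vp T y r t) :=
  PB.iUnion fun _ => V_PB T y _ r t

theorem U_step (T : Tr Sg Y) (l : ℕ) (h : ∀ r t, PB (U T (l + 1) r t)) (r t : T.σ) :
    PB (U T l r t) := by
  have := T.fin
  let W1 : Set (List Y) := Vp T (mp l) r t
  let W2 : Set (List Y) := ⋃ r1, cat (V T (mp l) [] r r1) (U T (l + 1) r1 t)
  let W3 : Set (List Y) := ⋃ r1, ⋃ r2,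
    cat (V T (mp l) [] r r1) (cat (U T (l + 1) r1 r2) (Vp T (mq l) r2 t))
  let W4 : Set (List Y) := ⋃ r1, ⋃ r2, ⋃ r3,
    cat (V T (mp l) [] r r1) (cat (U T (l + 1) r1 r2)
      (cat (V T (mq l) [] r2 r3) (U T (l + 1) r3 t)))
  have hPB : PB (Lf T l r t ∪ (W1 ∪ (W2 ∪ (W3 ∪ W4)))) := by
    refine (Lf_PB T l r t).union ((Vp_PB T _ r t).union (PB.union ?_ (PB.union ?_ ?_)))
    · exact PB.iUnion fun r1 => (V_PB T _ _ r r1).cat (h r1 t)
    · exact PB.iUnion fun r1 => PB.iUnion fun r2 =>
        (V_PB T _ _ r r1).cat ((h r1 r2).cat (Vp_PB T _ r2 t))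
    · exact PB.iUnion fun r1 => PB.iUnion fun r2 => PB.iUnion fun r3 =>
        (V_PB T _ _ r r1).cat ((h r1 r2).cat ((V_PB T _ _ r2 r3).cat (h r3 t)))
  refine hPB.mono ?_
  rintro x ⟨zL, zR, hE, hrun, huniq⟩
  have hE' := hE
  generalize hz : zL ++ zR = z at hE'
  cases hE' with
  | leaf hchk =>
    left
    refine ⟨zL, zR, ?_, hrun, huniq⟩
    rw [hz]; exact hchk
  | @node _ n F G hn hF hG =>
    right
    rw [List.append_eq_append_iff] at hz
    rcases hz with ⟨c, h1, h2⟩ | ⟨c, h1, h2⟩
    · -- cut in the first region
      left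
      obtain ⟨m, i, hi, hzL⟩ := cut_rep _ _ _ _ h1.symm
      subst hzL
      simp only [W1, Vp, Set.mem_iUnion]
      refine ⟨⟨i, by omega⟩, m, hrun, fun x' hx' => huniq _ _ hE hx'⟩
    · right
      subst h1
      obtain ⟨r1, x1, x2, rfl, hr1, hr2⟩ := run_split_in T hrun _ _ rfl
      have hx1 : x1 ∈ V T (mp l) [] r r1 := by
        refine ⟨n, by simpa using hr1, fun x' hx' => ?_⟩
        rw [List.append_nil] at hx'
        have := huniq _ _ hE (hx'.trans hr2)
        exact List.append_cancel_right this
      symm at h2
      rw [List.append_eq_append_iff] at h2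
      rcases h2 with ⟨d, h3, h4⟩ | ⟨d, h3, h4⟩
      · -- cut in `F`
        left
        simp only [W2, Set.mem_iUnion]
        refine ⟨r1, x1, hx1, x2, ⟨c, d, by rw [← h3]; exact hF, hr2, ?_⟩, rfl⟩
        intro c' x' hE' hx'
        have h5 : E l ((rep n (mp l) ++ c') ++ zR) := by
          rw [h4]
          have := E.node hn hE' hG
          simpa [List.append_assoc] using this
        have := huniq _ _ h5 (hr1.trans hx')
        exact List.append_cancel_left this
      · right
        subst h3
        obtain ⟨r2, x3, x4, rfl, hr3, hr4⟩ := run_split_in T hr2 _ _ rfl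
        have hx3 : x3 ∈ U T (l + 1) r1 r2 := by
          refine ⟨F, [], by simpa using hF, hr3, ?_⟩
          intro F' x' hE' hx'
          rw [List.append_nil] at hE'
          have h5 : E l ((rep n (mp l) ++ (F' ++ d)) ++ zR) := by
            have := E.node hn hE' hG
            rw [h4] at this
            simpa [List.append_assoc] using this
          have := huniq _ _ h5 (hr1.trans (hx'.trans hr4))
          have := List.append_cancel_left this
          exact List.append_cancel_right this
        symm at h4
        rw [List.append_eq_append_iff] at h4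
        rcases h4 with ⟨e, h5, h6⟩ | ⟨e, h5, h6⟩
        · -- cut in the second region
          left
          simp only [W3, Set.mem_iUnion]
          obtain ⟨m, i, hi, hd⟩ := cut_rep _ _ _ _ h5.symm
          refine ⟨r1, r2, x1, hx1, _, ⟨x3, hx3, x4, ?_, rfl⟩, rfl⟩
          simp only [Vp, Set.mem_iUnion]
          refine ⟨⟨i, by omega⟩, m, ?_, fun x' hx' => ?_⟩
          · simp only
            rw [← hd]; exact hr4
          · simp only at hx'
            rw [← hd] at hx'
            have := huniq _ _ hE (hr1.trans (hr3.trans hx'))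
            have := List.append_cancel_left this
            exact List.append_cancel_left this
        · -- cut in `G`
          right
          simp only [W4, Set.mem_iUnion]
          subst h5
          obtain ⟨r3, x5, x6, rfl, hr5, hr6⟩ := run_split_in T hr4 _ _ rfl
          refine ⟨r1, r2, r3, x1, hx1, _, ⟨x3, hx3, _, ⟨x5, ?_, x6, ?_, rfl⟩, rfl⟩, rfl⟩
          · refine ⟨n, by simpa using hr5, fun x' hx' => ?_⟩
            rw [List.append_nil] at hx'
            have := huniq _ _ hE (hr1.trans (hr3.trans (hx'.trans hr6)))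
            have := List.append_cancel_left this
            have := List.append_cancel_left this
            exact List.append_cancel_right this
          · refine ⟨e, zR, by rw [← h6]; exact hG, hr6, fun e' x' hE' hx' => ?_⟩
            have h7 : E l ((rep n (mp l) ++ (F ++ (rep n (mq l) ++ e'))) ++ zR) := by
              have := E.node hn hF hE'
              simpa [List.append_assoc] using this
            have := huniq _ _ h7 (hr1.trans (hr3.trans (hr5.trans hx')))
            have := List.append_cancel_left this
            have := List.append_cancel_left this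
            exact List.append_cancel_left this

end Pool.Agent.H643R2.Ead
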