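import Mathlib

set_option autoImplicit false

/-!
# Polynomially bounded sets of words
-/

namespace Pool.Agent.H643R2.PB

variable {Y : Type}

/-- The number of words of length at most `N` in `W` is at most `c (N+1)^d`. -/
def PB (W : Set (List Y)) : Prop :=
  ∃ c d : ℕ, ∀ N : ℕ, ∃ S : Finset (List Y), S.card ≤ c * (N + 1) ^ d ∧
    ∀ x ∈ W, x.length ≤ N → x ∈ S

theorem PB.mono {W W' : Set (List Y)} (h : W ⊆ W') (hW : PB W') : PB W := by
  obtain ⟨c, d, hcd⟩ := hW
  refine ⟨c, d, fun N => ?_⟩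
  obtain ⟨S, h1, h2⟩ := hcd N
  exact ⟨S, h1, fun x hx => h2 x (h hx)⟩

theorem PB.empty : PB (∅ : Set (List Y)) :=
  ⟨0, 0, fun _ => ⟨∅, by simp, by simp⟩⟩

theorem PB.union {W W' : Set (List Y)} (h : PB W) (h' : PB W') : PB (W ∪ W') := by
  classical
  obtain ⟨c, d, hcd⟩ := h
  obtain ⟨c', d', hcd'⟩ := h'
  refine ⟨c + c', max d d', fun N => ?_⟩
  obtain ⟨S, h1, h2⟩ := hcd N
  obtain ⟨S', h1', h2'⟩ := hcd' N
  refine ⟨S ∪ S', ?_, ?_⟩
  · have e1 : (N + 1) ^ d ≤ (N + 1) ^ max d d' :=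
      Nat.pow_le_pow_right (Nat.succ_pos N) (le_max_left _ _)
    have e2 : (N + 1) ^ d' ≤ (N + 1) ^ max d d' :=
      Nat.pow_le_pow_right (Nat.succ_pos N) (le_max_right _ _)
    calc (S ∪ S').card ≤ S.card + S'.card := Finset.card_union_le _ _
      _ ≤ c * (N + 1) ^ d + c' * (N + 1) ^ d' := Nat.add_le_add h1 h1'
      _ ≤ c * (N + 1) ^ max d d' + c' * (N + 1) ^ max d d' :=
          Nat.add_le_add (Nat.mul_le_mul_left _ e1) (Nat.mul_le_mul_left _ e2)
      _ = (c + c') * (N + 1) ^ max d d' := by ring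
  · rintro x (hx | hx) hN
    · exact Finset.mem_union_left _ (h2 x hx hN)
    · exact Finset.mem_union_right _ (h2' x hx hN)

theorem PB.iUnion {ι : Type} [Finite ι] {W : ι → Set (List Y)} (h : ∀ i, PB (W i)) :
    PB (⋃ i, W i) := by
  classical
  have := Fintype.ofFinite ι
  have key : ∀ s : Finset ι, PB (⋃ i ∈ s, W i) := by
    intro s
    induction s using Finset.induction_on with
    | empty => simpa using PB.empty
    | insert a s _ ih =>
      rw [Finset.set_biUnion_insert]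
      exact (h a).union ih
  have := key Finset.univ
  simpa using this

/-- concatenation of two sets of words -/
def cat (W W' : Set (List Y)) : Set (List Y) := {x | ∃ u ∈ W, ∃ v ∈ W', x = u ++ v}

theorem PB.cat {W W' : Set (List Y)} (h : PB W) (h' : PB W') : PB (cat W W') := by
  classical
  obtain ⟨c, d, hcd⟩ := h
  obtain ⟨c', d', hcd'⟩ := h'
  refine ⟨c * c', d + d', fun N => ?_⟩
  obtain ⟨S, h1, h2⟩ := hcd N
  obtain ⟨S', h1', h2'⟩ := hcd' N
  refine ⟨Finset.image₂ (· ++ ·) S S', ?_, ?_⟩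
  · calc (Finset.image₂ (· ++ ·) S S').card ≤ S.card * S'.card := Finset.card_image₂_le _ _ _
      _ ≤ (c * (N + 1) ^ d) * (c' * (N + 1) ^ d') := Nat.mul_le_mul h1 h1'
      _ = c * c' * (N + 1) ^ (d + d') := by rw [pow_add]; ring
  · rintro x ⟨u, hu, v, hv, rfl⟩ hN
    rw [List.length_append] at hN
    exact Finset.mem_image₂_of_mem (h2 u hu (by omega)) (h2' v hv (by omega))

/-- counting by labels -/
theorem exists_finset_of_labels {ι : Type} [Fintype ι] (W : Set (List Y)) (Lab : ι → List Y → Prop)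
    (h1 : ∀ x ∈ W, ∃ i, Lab i x) (h2 : ∀ i x x', x ∈ W → x' ∈ W → Lab i x → Lab i x' → x = x') :
    ∃ S : Finset (List Y), S.card ≤ Fintype.card ι ∧ ∀ x ∈ W, x ∈ S := by
  classical
  let f : ι → List Y := fun i => if h : ∃ x, x ∈ W ∧ Lab i x then h.choose else []
  refine ⟨Finset.univ.image f, Finset.card_image_le.trans (by rw [Finset.card_univ]), ?_⟩
  intro x hx
  obtain ⟨i, hi⟩ := h1 x hx
  have hex : ∃ x, x ∈ W ∧ Lab i x := ⟨x, hx, hi⟩
  rw [Finset.mem_image]
  refine ⟨i, Finset.mem_univ _, ?_⟩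
  simp only [f, dif_pos hex]
  exact h2 i _ x hex.choose_spec.1 hx hex.choose_spec.2 hi

theorem PB.of_labels {ι : Type} [Finite ι] (W : Set (List Y)) (Lab : ι → List Y → Prop)
    (h1 : ∀ x ∈ W, ∃ i, Lab i x) (h2 : ∀ i x x', x ∈ W → x' ∈ W → Lab i x → Lab i x' → x = x') :
    PB W := by
  have := Fintype.ofFinite ι
  obtain 

⟨S, h3, h4⟩ := exists_finset_of_labels W Lab h1 h2
  exact ⟨Fintype.card ι, 0, fun N => ⟨S, by simpa using h3, fun x hx _ => h4 x hx⟩⟩

/-- The set of all words over two letters is not polynomially bounded. -/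
theorem not_PB (a b : Y) (hab : a ≠ b) : ¬ PB {x : List Y | ∀ y ∈ x, y = a ∨ y = b} := by
  classical
  rintro ⟨c, d, h⟩
  -- words over two letters as images of Boolean words
  have key : ∀ N : ℕ, 2 ^ N ≤ c * (N + 1) ^ d := by
    intro N
    obtain ⟨S, h1, h2⟩ := h N
    let f : (Fin N → Bool) → List Y := fun v => List.ofFn fun i => if v i then a else b
    have hf : Function.Injective f := by
      intro v w hvw
      have h3 := List.ofFn_injective hvw
      funext i
      have h4 := congrFun h3 i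
      cases hv : v i <;> cases hw : w i <;> simp [hv, hw, hab, hab.symm] at h4 ⊢
    have hsub : (Finset.univ.image f) ⊆ S := by
      intro x hx
      obtain ⟨v, -, rfl⟩ := Finset.mem_image.1 hx
      apply h2
      · intro y hy
        simp only [f, List.mem_ofFn] at hy
        obtain ⟨i, rfl⟩ := hy
        by_cases hv : v i = true
        · simp [hv]
        · simp [hv]
      · simp [f]
    have h3 := Finset.card_le_card hsub
    rw [Finset.card_image_of_injective _ hf, Finset.card_univ, Fintype.card_fun, Fintype.card_bool,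
      Fintype.card_fin] at h3
    exact h3.trans h1
  -- growth
  have h5 : ∃ N : ℕ, c * (N + 1) ^ d < 2 ^ N := by
    have h6 : Filter.Tendsto (fun n : ℕ => ((n : ℝ) ^ d) / (2 : ℝ) ^ n) Filter.atTop (nhds 0) :=
      tendsto_pow_const_div_const_pow_of_one_lt d (by norm_num)
    have h7 : Filter.Tendsto (fun n : ℕ => (2 * c : ℝ) * (((n : ℝ) ^ d) / (2 : ℝ) ^ n)) Filter.atTop
        (nhds 0) := by simpa using h6.const_mul (2 * c : ℝ)
    have h8 := (h7.eventually (gt_mem_nhds (show (0 : ℝ) < 1 by norm_num))).and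
      (Filter.eventually_ge_atTop 1)
    obtain ⟨n, hn, hn1⟩ := h8.exists
    refine ⟨n - 1, ?_⟩
    rw [show n - 1 + 1 = n by omega]
    have h9 : (0 : ℝ) < 2 ^ n := by positivity
    have h10 : (2 * c : ℝ) * (n : ℝ) ^ d < 2 ^ n := by
      have h11 : (2 * c : ℝ) * (((n : ℝ) ^ d) / (2 : ℝ) ^ n) = (2 * c : ℝ) * (n : ℝ) ^ d / 2 ^ n := by
        ring
      rw [h11, div_lt_one h9] at hn
      exact hn
    have h12 : 2 * c * n ^ d < 2 ^ n := by exact_mod_cast h10
    have h13 : 2 ^ n = 2 * 2 ^ (n - 1) := by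
      rw [← pow_succ']
      congr 1
      omega
    rw [h13] at h12
    have : 2 * (c * n ^ d) < 2 * 2 ^ (n - 1) := by rw [← mul_assoc]; exact h12
    omega
  obtain ⟨N, hN⟩ := h5
  exact absurd (key N) (by omega)

end Pool.Agent.H643R2.PB
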