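import Mathlib

set_option autoImplicit false

/-!
# The period doubling word and words that are not prefixes of it
-/

namespace Pool.Agent.H643R2.PD

/-- the period doubling word -/
def t (n : ℕ) : Fin 2 :=
  if _h : n % 2 = 0 then 0 else (if t (n / 2) = 0 then 1 else 0)
termination_by n
decreasing_by omega

theorem t_even (j : ℕ) : t (2 * j) = 0 := by
  rw [t]
  simp

theorem t_odd (j : ℕ) : t (2 * j + 1) = if t j = 0 then 1 else 0 := by
  rw [t]
  have h1 : ¬ ((2 * j + 1) % 2 = 0) := by omega
  have h2 : (2 * j + 1) / 2 = j := by omega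
  rw [dif_neg h1, h2]

theorem t_odd_ne (j : ℕ) : t (2 * j + 1) ≠ t j := by
  rw [t_odd]
  by_cases h : t j = 0
  · simp [h]
  · rw [if_neg h]
    exact fun h' => h h'.symm

theorem fin2_eq {a b c : Fin 2} (h1 : a ≠ c) (h2 : b ≠ c) : a = b := by
  omega

theorem t_odd_inj {i j : ℕ} (h : t i ≠ t j) : t (2 * i + 1) ≠ t (2 * j + 1) := by
  intro h'
  have h1 := t_odd_ne i
  have h2 := t_odd_ne j
  rw [h'] at h1
  exact h (fin2_eq h1.symm h2.symm)

/-- There is no long repetition of period `l`. -/
theorem pf : ∀ l : ℕ, 1 ≤ l → ∀ i : ℕ, ∃ r, i ≤ r ∧ r < i + 4 * l ∧ t r ≠ t (r + l) := by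
  intro l
  induction l using Nat.strong_induction_on with
  | _ l ih =>
    intro hl i
    rcases Nat.even_or_odd' l with ⟨m, rfl | rfl⟩
    · obtain ⟨r, h1, h2, h3⟩ := ih m (by omega) (by omega) (i / 2)
      refine ⟨2 * r + 1, by omega, by omega, ?_⟩
      have := t_odd_inj h3
      rw [show 2 * r + 1 + 2 * m = 2 * (r + m) + 1 by ring]
      exact this
    · refine ⟨2 * (2 * ((i + 2) / 4)) + 1, by omega, by omega, ?_⟩
      have h1 := t_odd_ne (2 * ((i + 2) / 4))
      rw [t_even] at h1
      rw [show 2 * (2 * ((i + 2) / 4)) + 1 + (2 * m + 1) = 2 * (2 * ((i + 2) / 4) + m + 1) by ring,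
        t_even]
      exact h1

/-- The words that are not prefixes of the period doubling word. -/
def L : Language (Fin 2) := {w | ∃ (j : ℕ) (a : Fin 2), w[j]? = some a ∧ a ≠ t j}

theorem mem_L_iff (w : List (Fin 2)) : w ∈ L ↔
    (∃ j, w[2 * j]? = some 1) ∨ (∃ j a, w[j]? = some a ∧ w[2 * j + 1]? = some a) := by
  constructor
  · intro h
    by_contra hc
    push Not at hc
    obtain ⟨h1, h2⟩ := hc
    have key : ∀ j a, w[j]? = some a → a = t j := by
      intro j
      induction j using Nat.strong_induction_on with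
      | _ j ih =>
        intro a ha
        rcases Nat.even_or_odd' j with ⟨m, rfl | rfl⟩
        · rw [t_even]
          by_contra hne
          have : a = 1 := by omega
          subst this
          exact h1 m ha
        · have hlt : 2 * m + 1 < w.length := by
            rw [List.getElem?_eq_some_iff] at ha
            exact ha.1
          have hm : w[m]? = some w[m] := List.getElem?_eq_getElem (by omega)
          have h3 := ih m (by omega) _ hm
          have h4 := h2 m _ hm
          have h5 : a ≠ w[m] := by
            intro h'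
            rw [h'] at ha
            exact h4 ha
          rw [h3] at h5
          exact fin2_eq h5 (t_odd_ne m)
    obtain ⟨j, a, h3, h4⟩ := h
    exact h4 (key j a h3)
  · rintro (⟨j, h⟩ | ⟨j, a, h1, h2⟩)
    · exact ⟨2 * j, 1, h, by rw [t_even]; decide⟩
    · by_cases h : a = t j
      · refine ⟨2 * j + 1, a, h2, ?_⟩
        rw [h]
        exact (t_odd_ne j).symm
      · exact ⟨j, a, h1, h⟩

end Pool.Agent.H643R2.PD
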