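import Pool.Agent.H643R2.PD
import Pool.Agent.Helper336.CF

set_option autoImplicit false

/-!
# The words that are not prefixes of the period doubling word form a context-free language
-/

namespace Pool.Agent.H643R2.PD

open Pool.Agent.Helper336.CF

variable {T : Type}

/-- Wrapping in words of equal length on both sides. -/
def wrapAll (L : Set (List T)) : Set (List T) :=
  {w | ∃ u v : List T, u.length = v.length ∧ ∃ m ∈ L, w = u ++ m ++ v}

theorem cf_wrapAll [Fintype T] {L : Set (List T)} (h : IsCF L) : IsCF (wrapAll L) := by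
  classical
  obtain ⟨g₁, e₁⟩ := h
  have e₁' : Gen g₁ g₁.initial = L := e₁
  let g0 : ContextFreeGrammar T := ⟨PUnit, PUnit.unit, ∅⟩
  refine ext_cf g₁ g0 ({[Symbol.nonterminal (some (Sum.inl g₁.initial))]} ∪
    (Finset.univ : Finset (T × T)).image
      (fun x => [Symbol.terminal x.1, Symbol.nonterminal none, Symbol.terminal x.2])) _ ?_ ?_
  · intro o ho w hw
    simp only [Finset.mem_union, Finset.mem_singleton, Finset.mem_image, Finset.mem_univ,
      true_and] at ho
    rcases ho with rfl | ⟨⟨b, c⟩, rfl⟩
    · obtain ⟨w₁, w₂, rfl, h1, h2⟩ := hw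
      simp only [Comp] at h2
      subst h2
      refine ⟨[], [], rfl, w₁, ?_, by simp⟩
      rw [← e₁']; exact h1
    · obtain ⟨w', rfl, w₁, w₂, rfl, ⟨u, v, huv, m, hm, rfl⟩, w₃, rfl, h3⟩ := hw
      simp only [Comp] at h3
      subst h3
      exact ⟨b :: u, v ++ [c], by simp [huv], m, hm, by simp⟩
  · rintro S h1 _ hS w ⟨u, v, huv, m, hm, rfl⟩
    induction u generalizing v with
    | nil =>
      have hv : v = [] := by
        apply List.eq_nil_of_length_eq_zero
        simpa using huv.symm
      subst hv
      refine hS [Symbol.nonterminal (some (Sum.inl g₁.initial))] (by simp) _ ?_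
      refine ⟨m, [], by simp, h1 _ ?_, rfl⟩
      rw [e₁']; exact hm
    | cons b u ih =>
      rcases List.eq_nil_or_concat v with rfl | ⟨v, c, rfl⟩
      · simp at huv
      · have h4 := ih v (by simpa using huv)
        refine hS [Symbol.terminal b, Symbol.nonterminal none, Symbol.terminal c] ?_ _ ?_
        · simp only [Finset.mem_union, Finset.mem_singleton, Finset.mem_image, Finset.mem_univ,
            true_and]
          exact Or.inr ⟨(b, c), rfl⟩
        · exact ⟨(u ++ m ++ v) ++ [c], by simp, _, [c], rfl, h4, [], rfl, rfl⟩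

theorem cf_univ [Fintype T] : IsCF (Set.univ : Set (List T)) := by
  classical
  have h1 : IsCF (T := T) {w | w ∈ insert ([] : List T) ((Finset.univ : Finset T).image fun a => [a])} :=
    cf_finite _
  have h2 := cf_wrapAll h1
  convert h2 using 1
  ext w
  simp only [Set.mem_univ, true_iff]
  rcases Nat.even_or_odd' w.length with ⟨c, hc | hc⟩
  · refine ⟨w.take c, w.drop c, by simp; omega, [], by simp, by simp⟩
  · refine ⟨w.take c, w.drop (c + 1), by simp; omega, [w[c]], by simp, ?_⟩
    rw [List.append_assoc]
    conv_lhs => rw [← List.take_append_drop c w]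
    congr 1
    rw [List.drop_eq_getElem_cons (by omega)]
    rfl

theorem L_cf : L.IsContextFree := by
  have hA : IsCF (cat (wrapAll ({[]} : Set (List (Fin 2)))) (cat {[1]} Set.univ)) :=
    cf_cat (cf_wrapAll (cf_singleton _)) (cf_cat (cf_singleton _) cf_univ)
  have hB : ∀ a : Fin 2, IsCF (cat (wrapAll ({[a]} : Set (List (Fin 2)))) (cat {[a]} Set.univ)) :=
    fun a => cf_cat (cf_wrapAll (cf_singleton _)) (cf_cat (cf_singleton _) cf_univ)
  have h := cf_union hA (cf_union (hB 0) (hB 1))
  have key : (L : Set (List (Fin 2))) = cat (wrapAll ({[]} : Set (List (Fin 2)))) (cat {[1]} Set.univ) ∪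
      (cat (wrapAll ({[0]} : Set (List (Fin 2)))) (cat {[0]} Set.univ) ∪
        cat (wrapAll ({[1]} : Set (List (Fin 2)))) (cat {[1]} Set.univ)) := by
    have hBa : ∀ (a : Fin 2) (w : List (Fin 2)),
        w ∈ cat (wrapAll ({[a]} : Set (List (Fin 2)))) (cat {[a]} Set.univ) ↔
          ∃ j, w[j]? = some a ∧ w[2 * j + 1]? = some a := by
      intro a w
      constructor
      · rintro ⟨_, ⟨u, v, huv, m, hm, rfl⟩, _, ⟨_, rfl, z, _, rfl⟩, rfl⟩
        rw [Set.mem_singleton_iff] at hm
        subst hm
        refine ⟨u.length, ?_, ?_⟩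
        · simp
        · have : 2 * u.length + 1 = (u ++ [a] ++ v).length := by
            simp only [List.length_append, List.length_cons, List.length_nil]
            omega
          rw [this]
          simp
      · rintro ⟨j, h1, h2⟩
        obtain ⟨h1', h1⟩ := List.getElem?_eq_some_iff.1 h1
        obtain ⟨h2', h2⟩ := List.getElem?_eq_some_iff.1 h2
        refine ⟨w.take (2 * j + 1), ⟨w.take j, (w.take (2 * j + 1)).drop (j + 1), ?_, [a], rfl, ?_⟩,
          w.drop (2 * j + 1), ⟨[a], rfl, w.drop (2 * j + 2), Set.mem_univ _, ?_⟩, by simp⟩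
        · simp; omega
        · have h3 : (w.take (2 * j + 1)).drop j = a :: (w.take (2 * j + 1)).drop (j + 1) := by
            rw [List.drop_eq_getElem_cons (by simp; omega)]
            simp [h1]
          have h4 : w.take j = (w.take (2 * j + 1)).take j := by
            rw [List.take_take]
            congr 1
            omega
          conv_lhs => rw [← List.take_append_drop j (w.take (2 * j + 1)), h3, ← h4]
          simp
        · rw [List.drop_eq_getElem_cons h2', h2]
          rfl
    refine Set.ext fun w => ?_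
    change w ∈ L ↔ (w ∈ cat (wrapAll ({[]} : Set (List (Fin 2)))) (cat {[1]} Set.univ) ∨
      (w ∈ cat (wrapAll ({[0]} : Set (List (Fin 2)))) (cat {[0]} Set.univ) ∨
        w ∈ cat (wrapAll ({[1]} : Set (List (Fin 2)))) (cat {[1]} Set.univ)))
    rw [mem_L_iff, hBa 0, hBa 1]
    constructor
    · rintro (⟨j, h⟩ | ⟨j, a, h1, h2⟩)
      · left
        obtain ⟨h1', h1⟩ := List.getElem?_eq_some_iff.1 h
        refine ⟨w.take (2 * j), ⟨w.take j, (w.take (2 * j)).drop j, by simp; omega, [], rfl, ?_⟩,
          w.drop (2 * j), ⟨[1], rfl, w.drop (2 * j + 1), Set.mem_univ _, ?_⟩, by simp⟩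
        · have h4 : w.take j = (w.take (2 * j)).take j := by
            rw [List.take_take]
            congr 1
            omega
          rw [h4, List.append_nil, List.take_append_drop]
        · rw [List.drop_eq_getElem_cons h1', h1]
          rfl
      · right
        have ha : a = 0 ∨ a = 1 := by omega
        rcases ha with rfl | rfl
        · exact Or.inl ⟨j, h1, h2⟩
        · exact Or.inr ⟨j, h1, h2⟩
    · rintro (⟨_, ⟨u, v, huv, m, hm, rfl⟩, _, ⟨_, rfl, z, _, rfl⟩, rfl⟩ | ⟨j, h1, h2⟩ | ⟨j, h1, h2⟩)
      · left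
        rw [Set.mem_singleton_iff] at hm
        subst hm
        refine ⟨u.length, ?_⟩
        have : 2 * u.length = (u ++ [] ++ v).length := by
          simp only [List.length_append, List.length_nil]
          omega
        rw [this]
        simp
      · exact Or.inr ⟨j, 0, h1, h2⟩
      · exact Or.inr ⟨j, 1, h1, h2⟩
  have h' : IsCF (L : Set (List (Fin 2))) := by
    rw [key]
    exact h
  exact h'

end Pool.Agent.H643R2.PD
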