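import Pool.Agent.H643R2.QDefs
import Pool.Agent.Helper336.CF
import Pool.Agent.Helper79.Comap
import Pool.Agent.H643R2.PDCF

set_option autoImplicit false

/-!
# The language `L0` is context-free
-/

namespace Pool.Agent.H643R2.Q

open Pool.Agent.Helper336.CF

/-! ### trees -/

/-- `S → d` -/
def rl1 : ContextFreeRule Lam Unit := ⟨(), [Symbol.terminal Lam.d]⟩
/-- `S → o S c` -/
def rl2 : ContextFreeRule Lam Unit :=
  ⟨(), [Symbol.terminal Lam.o, Symbol.nonterminal (), Symbol.terminal Lam.c]⟩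
/-- `S → p S q S p S q` -/
def rl3 : ContextFreeRule Lam Unit :=
  ⟨(), [Symbol.terminal Lam.p, Symbol.nonterminal (), Symbol.terminal Lam.q,
    Symbol.nonterminal (), Symbol.terminal Lam.p, Symbol.nonterminal (), Symbol.terminal Lam.q]⟩

open Classical in
/-- the grammar of trees -/
noncomputable def treeG : ContextFreeGrammar Lam where
  NT := Unit
  initial := ()
  rules := ({rl1, rl2, rl3} : Finset (ContextFreeRule Lam Unit))

theorem mem_treeG (r : ContextFreeRule Lam Unit) :
    r ∈ treeG.rules ↔ r = rl1 ∨ r = rl2 ∨ r = rl3 := by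
  classical
  show r ∈ ({rl1, rl2, rl3} : Finset (ContextFreeRule Lam Unit)) ↔ _
  simp only [Finset.mem_insert, Finset.mem_singleton]

theorem tree_cf : IsCF (T := Lam) {w | Tree w} := by
  refine ⟨treeG, ?_⟩
  ext w
  show w ∈ treeG.language ↔ _
  rw [language_eq treeG (fun _ => {w | Tree w})]
  · rfl
  · intro r hr w hw
    rcases (mem_treeG r).1 hr with rfl | rfl | rfl
    · obtain ⟨w', rfl, hw'⟩ := hw
      have : w' = [] := hw'
      subst this
      exact Tree.leaf
    · obtain ⟨w', rfl, w1, w2, rfl, h1, w3, rfl, hw3⟩ := hw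
      have : w3 = [] := hw3
      subst this
      exact Tree.bit h1
    · obtain ⟨w', rfl, w1, w2, rfl, h1, w3, rfl, w4, w5, rfl, h4, w6, rfl, w7, w8, rfl, h7,
        w9, rfl, hw9⟩ := hw
      have : w9 = [] := hw9
      subst this
      exact Tree.node h1 h4 h7
  · intro w hw
    show w ∈ Gen treeG ()
    have hw' : Tree w := hw
    induction hw' with
    | leaf =>
      exact gen_of_rule treeG rl1 ((mem_treeG _).2 (Or.inl rfl)) _ ⟨[], rfl, rfl⟩
    | bit h ih =>
      exact gen_of_rule treeG rl2 ((mem_treeG _).2 (Or.inr (Or.inl rfl))) _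
        ⟨_, rfl, _, _, rfl, ih h, _, rfl, rfl⟩
    | node h1 h2 h3 ih1 ih2 ih3 =>
      exact gen_of_rule treeG rl3 ((mem_treeG _).2 (Or.inr (Or.inr rfl))) _
        ⟨_, rfl, _, _, rfl, ih1 h1, _, rfl, _, _, rfl, ih2 h2, _, rfl, _, _, rfl, ih3 h3,
          _, rfl, rfl⟩

/-- words that are empty or begin with a letter -/
def Shape : Language (Option Lam) := {z | z.head? ≠ some none}

theorem mem_Shape (z : List (Option Lam)) : z ∈ Shape ↔ z.head? ≠ some none := Iff.rfl

theorem shape_iff (z : List (Option Lam)) : z ∈ Shape ↔ ∃ ζ, z = enc ζ := by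
  rw [mem_Shape]
  constructor
  · intro h
    obtain ⟨j, ζ, rfl⟩ := exists_enc z
    rcases j with _ | j
    · exact ⟨ζ, by simp⟩
    · exfalso
      apply h
      simp [List.replicate_succ]
  · rintro ⟨ζ, rfl⟩
    rcases ζ with _ | ⟨t, ζ⟩
    · simp [enc_nil]
    · rw [enc_cons]; simp

theorem shape_reg : Shape.IsRegular := by
  apply Language.IsRegular.of_finite_range_leftQuotient
  -- the quotients are `Shape`, everything and nothing
  have h : Set.range Shape.leftQuotient ⊆ {Shape, (⊤ : Language (Option Lam)), 0} := by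
    rintro _ ⟨x, rfl⟩
    rcases x with _ | ⟨a, x⟩
    · left
      exact Language.leftQuotient_nil _
    · cases a with
      | none =>
        right; right
        apply Language.ext
        intro y
        rw [Language.mem_leftQuotient, mem_Shape]
        constructor
        · intro h; exact absurd rfl h
        · intro h; exact absurd h (Language.notMem_zero y)
      | some a =>
        right; left
        apply Language.ext
        intro y
        rw [Language.mem_leftQuotient, mem_Shape]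
        constructor
        · intro h; exact Set.mem_univ y
        · intro h; simp
  exact (Set.toFinite _).subset h

theorem cf_of_regular {A : Type} [Fintype A] (R : Language A) (hR : R.IsRegular) :
    IsCF (T := A) R := by
  obtain ⟨g, hg⟩ := Pool.Agent.H643R2.PD.cf_univ (T := A)
  obtain ⟨σ, hσ, M, hM⟩ := hR
  have h2 := Pool.Agent.Helper79.Trans.isContextFree_comap_inter (fun a => [a]) M g
  show Language.IsContextFree _
  convert h2 using 1
  ext z
  show _ ↔ z.flatMap _ ∈ g.language ∧ z ∈ M.accepts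
  rw [hM, hg]
  exact ⟨fun h => ⟨Set.mem_univ _, h⟩, fun h => h.2⟩

theorem shape_cf : IsCF (T := Option Lam) Shape := cf_of_regular _ shape_reg

/-- erasing the counting letter -/
def er (a : Option Lam) : List Lam := a.toList

theorem er_enc (ζ : List Tok) : (enc ζ).flatMap er = ζ.map Prod.fst := by
  induction ζ with
  | nil => rfl
  | cons t ζ ih =>
    rw [enc_cons]
    have h : ∀ n, (List.replicate n (none : Option Lam)).flatMap er = [] := by
      intro n
      induction n with
      | zero => rfl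
      | succ n ih => rw [List.replicate_succ, List.flatMap_cons, ih]; rfl
    simp only [List.flatMap_cons, List.flatMap_append, h, ih, List.nil_append]
    rfl

theorem good_cf : IsCF (T := Option Lam)
    {z | ∃ ζ : List Tok, z = enc ζ ∧ ∃ w, Tree w ∧ ζ.map Prod.fst = Lam.p :: w} := by
  have h1 : IsCF (T := Lam) (cat {[Lam.p]} {w | Tree w}) :=
    cf_cat (cf_singleton _) tree_cf
  obtain ⟨g, hg⟩ := h1
  obtain ⟨σ, hσ, M, hM⟩ := shape_reg
  have h2 := Pool.Agent.Helper79.Trans.isContextFree_comap_inter er M g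
  show Language.IsContextFree _
  convert h2 using 1
  ext z
  show _ ↔ z.flatMap er ∈ g.language ∧ z ∈ M.accepts
  rw [hM, hg, shape_iff]
  constructor
  · rintro ⟨ζ, rfl, w, hw, h⟩
    refine ⟨?_, ζ, rfl⟩
    rw [er_enc, h]
    exact ⟨[Lam.p], rfl, w, hw, rfl⟩
  · rintro ⟨h, ζ, rfl⟩
    rw [er_enc] at h
    obtain ⟨u, hu, w, hw, h⟩ := h
    have hu' : u = [Lam.p] := hu
    subst hu'
    exact ⟨ζ, rfl, w, hw, h⟩

/-! ### errors -/

/-- `#^k b #^k'` with a wrong number `k'` -/
def Hab (a b : Lam) : Set (List (Option Lam)) :=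
  {z | ∃ k k' : ℕ, k' + dec a ≠ k + inc b ∧
    z = List.replicate k none ++ some b :: List.replicate k' none}

/-- powers of the counting letter with an exponent different from `c` -/
def Pne (c : ℕ) : Set (List (Option Lam)) := {z | ∃ j, j ≠ c ∧ z = List.replicate j none}

theorem pne_cf (c : ℕ) : IsCF (T := Option Lam) (Pne c) := by
  have h1 : IsCF (T := Option Lam) (⋃ j ∈ {j : ℕ | j < c}, {List.replicate j none}) :=
    cf_iUnion _ (Set.finite_lt_nat c) _ (fun j _ => cf_singleton _)
  have h2 : IsCF (T := Option Lam) (cat {List.replicate (c + 1) none}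
    {w | ∃ e : ℕ, w = List.replicate e none}) := cf_cat (cf_singleton _) (cf_pow _)
  have h3 := cf_union h1 h2
  convert h3 using 1
  ext z
  simp only [Pne, Set.mem_union, Set.mem_iUnion, cat, Set.mem_ofPred_eq, Set.mem_singleton_iff,
    exists_prop]
  constructor
  · rintro ⟨j, hj, rfl⟩
    rcases Nat.lt_or_gt_of_ne hj with h | h
    · exact Or.inl ⟨j, h, rfl⟩
    · refine Or.inr ⟨_, rfl, _, ⟨j - (c + 1), rfl⟩, ?_⟩
      rw [← List.replicate_add]
      congr 1
      omega
  · rintro (⟨j, hj, rfl⟩ | ⟨u, rfl, v, ⟨e, rfl⟩, rfl⟩)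
    · exact ⟨j, by omega, rfl⟩
    · exact ⟨c + 1 + e, by omega, (List.replicate_add ..).symm⟩

theorem hab_cf (a b : Lam) : IsCF (T := Option Lam) (Hab a b) := by
  -- `k' = k + j` with `j + dec a ≠ inc b`, or `k = k' + j` with `dec a ≠ j + inc b`
  have hw : IsCF (T := Option Lam) (wrap none {[some b]}) := cf_wrap _ (cf_singleton _)
  have base : ∀ x y : ℕ, IsCF (T := Option Lam) {z | ∃ j, j + x ≠ y ∧ z = List.replicate j none} := by
    intro x y
    by_cases hxy : x ≤ y
    · convert pne_cf (y - x) using 1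
      ext z
      simp only [Pne, Set.mem_ofPred_eq]
      constructor
      · rintro ⟨j, hj, rfl⟩; exact ⟨j, by omega, rfl⟩
      · rintro ⟨j, hj, rfl⟩; exact ⟨j, by omega, rfl⟩
    · convert cf_pow (T := Option Lam) none using 1
      ext z
      simp only [Set.mem_ofPred_eq]
      constructor
      · rintro ⟨j, hj, rfl⟩; exact ⟨j, rfl⟩
      · rintro ⟨j, rfl⟩; exact ⟨j, by omega, rfl⟩
  have h1 := cf_cat hw (base (dec a) (inc b))
  have h2 := cf_cat (base (inc b) (dec a)) hw
  have h3 := cf_union h1 h2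
  convert h3 using 1
  ext z
  simp only [Hab, Set.mem_union, cat, Set.mem_ofPred_eq, wrap, Set.mem_singleton_iff,
    exists_eq_left]
  constructor
  · rintro ⟨k, k', hk, rfl⟩
    rcases le_total k k' with h | h
    · left
      refine ⟨_, ⟨k, rfl⟩, _, ⟨k' - k, by omega, rfl⟩, ?_⟩
      obtain ⟨j, rfl⟩ := Nat.exists_eq_add_of_le h
      rw [Nat.add_sub_cancel_left, List.replicate_add]
      simp [List.append_assoc]
    · right
      refine ⟨_, ⟨k - k', by omega, rfl⟩, _, ⟨k', rfl⟩, ?_⟩
      obtain ⟨j, rfl⟩ := Nat.exists_eq_add_of_le h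
      rw [Nat.add_sub_cancel_left, Nat.add_comm k' j, List.replicate_add j k']
      simp only [List.append_assoc, List.singleton_append]
  · rintro (⟨u, ⟨k, rfl⟩, v, ⟨j, hj, rfl⟩, rfl⟩ | ⟨v, ⟨j, hj, rfl⟩, u, ⟨k, rfl⟩, rfl⟩)
    · refine ⟨k, k + j, by omega, ?_⟩
      rw [List.replicate_add k j]
      simp only [List.append_assoc, List.cons_append, List.nil_append]
    · refine ⟨j + k, k, by omega, ?_⟩
      rw [List.replicate_add j k]
      simp only [List.append_assoc, List.cons_append, List.nil_append]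

theorem not_chain_iff {A : Type} (R : A → A → Prop) (l : List A) :
    ¬ l.IsChain R ↔ ∃ l1 a b l2, l = l1 ++ a :: b :: l2 ∧ ¬ R a b := by
  constructor
  · intro h
    induction l with
    | nil => exact absurd List.isChain_nil h
    | cons a l ih =>
      rcases l with _ | ⟨b, l⟩
      · exact absurd (List.isChain_singleton a) h
      · rw [List.isChain_cons_cons, not_and_or] at h
        rcases h with h | h
        · exact ⟨[], a, b, l, rfl, h⟩
        · obtain ⟨l1, x, y, l2, h1, h2⟩ := ih h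
          exact ⟨a :: l1, x, y, l2, by rw [h1]; rfl, h2⟩
  · rintro ⟨l1, a, b, l2, rfl, h⟩ h'
    rw [List.isChain_append_cons_cons] at h'
    exact h h'.2.1

theorem err_cf : IsCF (T := Option Lam) {z | ∃ ζ : List Tok, z = enc ζ ∧ ¬ Ok ζ} := by
  have h1 : IsCF (T := Option Lam) (⋃ x ∈ (Set.univ : Set (Lam × Lam)),
      cat Shape (cat {[some x.1]} (cat (Hab x.1 x.2) Shape))) :=
    cf_iUnion _ Set.finite_univ _ (fun x _ =>
      cf_cat shape_cf (cf_cat (cf_singleton _) (cf_cat (hab_cf _ _) shape_cf)))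
  convert h1 using 1
  ext z
  simp only [Set.mem_iUnion, Set.mem_univ, exists_prop, true_and, cat, Set.mem_ofPred_eq,
    Set.mem_singleton_iff, exists_eq_left]
  constructor
  · rintro ⟨ζ, rfl, h0⟩
    obtain ⟨ζ1, ⟨a, k⟩, ⟨b, k'⟩, ζ2, rfl, h⟩ := (not_chain_iff _ _).1 h0
    refine ⟨(a, b), enc ζ1, (shape_iff _).2 ⟨_, rfl⟩, _, ⟨_, ⟨_, ⟨k, k', h, rfl⟩, enc ζ2,
      (shape_iff _).2 ⟨_, rfl⟩, rfl⟩, rfl⟩, ?_⟩
    rw [enc_append, enc_cons, enc_cons]
    simp
  · rintro ⟨⟨a, b⟩, u, hu, _, ⟨_, ⟨_, ⟨k, k', h, rfl⟩, v, hv, rfl⟩, rfl⟩, rfl⟩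
    obtain ⟨ζ1, rfl⟩ := (shape_iff _).1 hu
    obtain ⟨ζ2, rfl⟩ := (shape_iff _).1 hv
    refine ⟨ζ1 ++ (a, k) :: (b, k') :: ζ2, ?_, ?_⟩
    · rw [enc_append, enc_cons, enc_cons]
      simp
    · exact (not_chain_iff _ _).2 ⟨ζ1, _, _, ζ2, rfl, h⟩

theorem L0_cf : L0.IsContextFree := by
  have h := cf_union err_cf good_cf
  show IsCF (T := Option Lam) L0
  convert h using 1
  ext z
  constructor
  · rintro ⟨ζ, rfl, h | h⟩
    · exact Or.inl ⟨ζ, rfl, h⟩
    · exact Or.inr ⟨ζ, rfl, h⟩
  · rintro (⟨ζ, rfl, h⟩ | ⟨ζ, rfl, h⟩)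
    · exact ⟨ζ, rfl, Or.inl h⟩
    · exact ⟨ζ, rfl, Or.inr h⟩

end Pool.Agent.H643R2.Q
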