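import Pool.Agent.Helper288.ConeTr

set_option autoImplicit false

/-!
# Trees with unary level marks
-/

namespace Pool.Agent.H643R2.Q

/-- the letters of trees: leaf, opening and closing bit, opening and closing bracket -/
inductive Lam | d | o | c | p | q
  deriving DecidableEq

instance : Fintype Lam := ⟨{Lam.d, Lam.o, Lam.c, Lam.p, Lam.q}, fun x => by cases x <;> simp⟩

/-- a letter with a level -/
abbrev Tok := Lam × ℕ

/-- the unary encoding; `none` is the counting letter -/
def enc (ζ : List Tok) : List (Option Lam) :=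
  ζ.flatMap fun t => some t.1 :: List.replicate t.2 none

/-- the level decreases after `p` -/
def dec : Lam → ℕ
  | Lam.p => 1
  | _ => 0

/-- the level increases before `q` -/
def inc : Lam → ℕ
  | Lam.q => 1
  | _ => 0

/-- the level relation of two adjacent tokens -/
def Adj (t t' : Tok) : Prop := t'.2 + dec t.1 = t.2 + inc t'.1

/-- all adjacent tokens have the right levels -/
def Ok (ζ : List Tok) : Prop := ζ.IsChain Adj

/-- the tree words: `S → d | o S c | p S q S p S q` -/
inductive Tree : List Lam → Prop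
  | leaf : Tree [Lam.d]
  | bit {w : List Lam} : Tree w → Tree (Lam.o :: (w ++ [Lam.c]))
  | node {u v w : List Lam} : Tree u → Tree v → Tree w →
      Tree (Lam.p :: (u ++ Lam.q :: (v ++ Lam.p :: (w ++ [Lam.q]))))

/-- the tree words with coherent levels -/
inductive W : ℕ → List Tok → Prop
  | leaf {l : ℕ} : W l [(Lam.d, l)]
  | bit {l : ℕ} {w : List Tok} : W l w → W l ((Lam.o, l) :: (w ++ [(Lam.c, l)]))
  | node {l : ℕ} {u v w : List Tok} : W l u → W (l + 1) v → W l w →
      W (l + 1) ((Lam.p, l + 1) :: (u ++ (Lam.q, l + 1) :: (v ++ (Lam.p, l + 1) ::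
        (w ++ [(Lam.q, l + 1)]))))

/-- the context-free language -/
def L0 : Language (Option Lam) :=
  {z | ∃ ζ : List Tok, z = enc ζ ∧ (¬ Ok ζ ∨ ∃ w, Tree w ∧ ζ.map Prod.fst = Lam.p :: w)}

theorem enc_append (ζ ξ : List Tok) : enc (ζ ++ ξ) = enc ζ ++ enc ξ := by
  simp [enc]

theorem enc_cons (t : Tok) (ξ : List Tok) :
    enc (t :: ξ) = some t.1 :: (List.replicate t.2 none ++ enc ξ) := by
  simp [enc]

theorem enc_nil : enc [] = [] := rfl

theorem W_head {l : ℕ} {ζ : List Tok} (h : W l ζ) :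
    ∃ a ξ, ζ = (a, l) :: ξ ∧ inc a = 0 := by
  cases h with
  | leaf => exact ⟨_, _, rfl, rfl⟩
  | bit _ => exact ⟨_, _, rfl, rfl⟩
  | node _ _ _ => exact ⟨_, _, rfl, rfl⟩

theorem W_last {l : ℕ} {ζ : List Tok} (h : W l ζ) :
    ∃ a ξ, ζ = ξ ++ [(a, l)] ∧ dec a = 0 := by
  cases h with
  | leaf => exact ⟨_, [], rfl, rfl⟩
  | @bit _ w _ => exact ⟨Lam.c, (Lam.o, l) :: w, rfl, rfl⟩
  | @node l u v w _ _ _ =>
    refine ⟨Lam.q, (Lam.p, l + 1) :: (u ++ (Lam.q, l + 1) :: (v ++ (Lam.p, l + 1) :: w)), ?_, rfl⟩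
    simp

theorem W_Tree {l : ℕ} {ζ : List Tok} (h : W l ζ) : Tree (ζ.map Prod.fst) := by
  induction h with
  | leaf => exact Tree.leaf
  | bit _ ih => simpa using Tree.bit ih
  | node _ _ _ h1 h2 h3 => simpa using Tree.node h1 h2 h3

/-- gluing at a token -/
theorem Ok_cons_W {l : ℕ} {ζ : List Tok} (h : W l ζ) (t : Tok) (ξ : List Tok)
    (h1 : l + dec t.1 = t.2) (h2 : Ok (ζ ++ ξ)) : Ok (t :: (ζ ++ ξ)) := by
  obtain ⟨a, ζ', rfl, ha⟩ := W_head h
  unfold Ok at h2 ⊢
  simp only [List.cons_append] at h2 ⊢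
  rw [List.isChain_cons_cons]
  refine ⟨?_, h2⟩
  show l + dec t.1 = t.2 + inc a
  rw [ha, h1]; rfl

/-- gluing after a tree -/
theorem Ok_W_append {l : ℕ} {ζ : List Tok} (h : W l ζ) (t : Tok) (ξ : List Tok)
    (h0 : Ok ζ) (h1 : t.2 = l + inc t.1) (h2 : Ok (t :: ξ)) : Ok (ζ ++ t :: ξ) := by
  obtain ⟨a, ζ', rfl, ha⟩ := W_last h
  unfold Ok at h0 h2 ⊢
  rw [List.isChain_append]
  refine ⟨h0, h2, ?_⟩
  intro x hx y hy
  simp only [List.getLast?_append, List.getLast?_singleton, Option.mem_def, Option.some_or,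
    Option.some.injEq] at hx
  simp only [List.head?_cons, Option.mem_def, Option.some.injEq] at hy
  subst hx hy
  show t.2 + dec a = l + inc t.1
  rw [ha, h1]; rfl

theorem W_Ok {l : ℕ} {ζ : List Tok} (h : W l ζ) : Ok ζ := by
  induction h with
  | leaf => exact List.isChain_singleton _
  | @bit l w hw ih =>
    apply Ok_cons_W hw _ _ rfl
    exact Ok_W_append hw _ _ ih rfl (List.isChain_singleton _)
  | @node l u v w hu hv hw h1 h2 h3 =>
    apply Ok_cons_W hu _ _ rfl
    apply Ok_W_append hu _ _ h1 rfl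
    apply Ok_cons_W hv _ _ rfl
    apply Ok_W_append hv _ _ h2 rfl
    apply Ok_cons_W hw _ _ rfl
    exact Ok_W_append hw _ _ h3 rfl (List.isChain_singleton _)

/-- the level relation at the beginning -/
theorem level_head {l : ℕ} {ζ : List Tok} (h : W l ζ) (t : Tok) (ξ : List Tok)
    (h2 : Ok (t :: (ζ ++ ξ))) : l + dec t.1 = t.2 := by
  obtain ⟨a, ζ', rfl, ha⟩ := W_head h
  unfold Ok at h2
  simp only [List.cons_append] at h2
  rw [List.isChain_cons_cons] at h2
  have := h2.1
  unfold Adj at this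
  rw [ha] at this
  exact this

/-- the level relation at the end -/
theorem level_last {l : ℕ} {ζ : List Tok} (h : W l ζ) (t : Tok) (ξ : List Tok)
    (h2 : Ok (ζ ++ t :: ξ)) : t.2 = l + inc t.1 := by
  obtain ⟨a, ζ', rfl, ha⟩ := W_last h
  unfold Ok at h2
  rw [List.isChain_append] at h2
  have := h2.2.2 (a, l) (by simp) t (by simp)
  unfold Adj at this
  rw [ha] at this
  exact this

theorem Ok_tail {t : Tok} {ξ : List Tok} (h : Ok (t :: ξ)) : Ok ξ := by
  unfold Ok at h ⊢
  exact h.tail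

theorem Ok_left {ζ ξ : List Tok} (h : Ok (ζ ++ ξ)) : Ok ζ := by
  unfold Ok at h ⊢
  exact (List.isChain_append.1 h).1

theorem Ok_right {ζ ξ : List Tok} (h : Ok (ζ ++ ξ)) : Ok ξ := by
  unfold Ok at h ⊢
  exact (List.isChain_append.1 h).2.1

/-- a tree with right adjacent levels is coherent -/
theorem coherent {w : List Lam} (hw : Tree w) : ∀ ζ : List Tok, ζ.map Prod.fst = w → Ok ζ →
    ∃ l, W l ζ := by
  induction hw with
  | leaf =>
    intro ζ h _
    obtain ⟨⟨a, k⟩, rfl, h1⟩ := List.map_eq_singleton_iff.1 h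
    simp only at h1
    subst h1
    exact ⟨k, W.leaf⟩
  | @bit w _ ih =>
    intro ζ h hok
    obtain ⟨⟨a, k⟩, ζ1, rfl, h1, h2⟩ := List.map_eq_cons_iff.1 h
    obtain ⟨ζ2, ζ3, rfl, h3, h4⟩ := List.map_eq_append_iff.1 h2
    obtain ⟨⟨b, k'⟩, rfl, h5⟩ := List.map_eq_singleton_iff.1 h4
    simp only at h1 h5
    subst h1 h5
    obtain ⟨l, hl⟩ := ih ζ2 h3 (Ok_left (Ok_tail hok))
    have e1 := level_head hl _ _ hok
    have e2 := level_last hl _ _ (Ok_tail hok)
    simp only [dec, inc, Nat.add_zero] at e1 e2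
    subst e1 e2
    exact ⟨_, W.bit hl⟩
  | @node u v w _ _ _ h1 h2 h3 =>
    intro ζ h hok
    obtain ⟨⟨a0, k0⟩, ζ1, rfl, e0, h⟩ := List.map_eq_cons_iff.1 h
    obtain ⟨ζu, ζ2, rfl, eu, h⟩ := List.map_eq_append_iff.1 h
    obtain ⟨⟨a1, k1⟩, ζ3, rfl, e1, h⟩ := List.map_eq_cons_iff.1 h
    obtain ⟨ζv, ζ4, rfl, ev, h⟩ := List.map_eq_append_iff.1 h
    obtain ⟨⟨a2, k2⟩, ζ5, rfl, e2, h⟩ := List.map_eq_cons_iff.1 h
    obtain ⟨ζw, ζ6, rfl, ew, h⟩ := List.map_eq_append_iff.1 h
    obtain ⟨⟨a3, k3⟩, rfl, e3⟩ := List.map_eq_singleton_iff.1 h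
    simp only at e0 e1 e2 e3
    subst e0 e1 e2 e3
    have ok1 := Ok_tail hok
    have ok2 := Ok_tail (Ok_right ok1)
    have ok3 := Ok_tail (Ok_right ok2)
    obtain ⟨l1, hl1⟩ := h1 ζu eu (Ok_left ok1)
    obtain ⟨l2, hl2⟩ := h2 ζv ev (Ok_left ok2)
    obtain ⟨l3, hl3⟩ := h3 ζw ew (Ok_left ok3)
    have f0 := level_head hl1 _ _ hok
    have f1 := level_last hl1 _ _ ok1
    have f2 := level_head hl2 _ _ (Ok_right ok1)
    have f3 := level_last hl2 _ _ ok2
    have f4 := level_head hl3 _ _ (Ok_right ok2)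
    have f5 := level_last hl3 _ _ ok3
    simp only [dec, inc, Nat.add_zero] at f0 f1 f2 f3 f4 f5
    have g1 : k0 = l1 + 1 := by omega
    have g2 : k1 = l1 + 1 := by omega
    have g3 : l2 = l1 + 1 := by omega
    have g4 : k2 = l1 + 1 := by omega
    have g5 : l3 = l1 := by omega
    have g6 : k3 = l1 + 1 := by omega
    subst g1 g2 g3 g4 g5 g6
    exact ⟨_, W.node hl1 hl2 hl3⟩

theorem W_level_unique {l l' : ℕ} {ζ : List Tok} (h : W l ζ) (h' : W l' ζ) : l = l' := by
  obtain ⟨a, ξ, rfl, _⟩ := W_head h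
  obtain ⟨a', ξ', e, _⟩ := W_head h'
  simp only [List.cons.injEq, Prod.mk.injEq] at e
  exact e.1.2

theorem W_levels {l : ℕ} {ζ : List Tok} (h : W l ζ) : ∀ t ∈ ζ, t.2 ≤ l := by
  induction h with
  | leaf => intro t ht; simp at ht; simp [ht]
  | bit _ ih =>
    intro t ht
    simp only [List.mem_cons, List.mem_append, List.not_mem_nil, or_false] at ht
    rcases ht with rfl | ht | rfl
    · exact le_rfl
    · exact ih t ht
    · exact le_rfl
  | node _ _ _ h1 h2 h3 =>
    intro t ht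
    simp only [List.mem_cons, List.mem_append, List.not_mem_nil, or_false] at ht
    rcases ht with rfl | ht | rfl | ht | rfl | ht | rfl
    · exact le_rfl
    · exact (h1 t ht).trans (Nat.le_succ _)
    · exact le_rfl
    · exact h2 t ht
    · exact le_rfl
    · exact (h3 t ht).trans (Nat.le_succ _)
    · exact le_rfl

/-- the encoding is injective -/
theorem enc_inj : ∀ ζ ξ : List Tok, enc ζ = enc ξ → ζ = ξ := by
  have aux : ∀ (j k : ℕ) (ζ ξ : List Tok),
      List.replicate j none ++ enc ζ = List.replicate k none ++ enc ξ → j = k := by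
    intro j
    induction j with
    | zero =>
      intro k ζ ξ h
      rcases k with _ | k
      · rfl
      · exfalso
        rcases ζ with _ | ⟨t, ζ⟩
        · simp [enc_nil, List.replicate_succ] at h
        · rw [enc_cons] at h; simp [List.replicate_succ] at h
    | succ j ih =>
      intro k ζ ξ h
      rcases k with _ | k
      · exfalso
        rcases ξ with _ | ⟨t, ξ⟩
        · simp [enc_nil, List.replicate_succ] at h
        · rw [enc_cons] at h; simp [List.replicate_succ] at h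
      · simp only [List.replicate_succ, List.cons_append, List.cons.injEq, true_and] at h
        rw [ih k ζ ξ h]
  intro ζ
  induction ζ with
  | nil =>
    intro ξ h
    rcases ξ with _ | ⟨t, ξ⟩
    · rfl
    · rw [enc_cons, enc_nil] at h; simp at h
  | cons t ζ ih =>
    intro ξ h
    rcases ξ with _ | ⟨t', ξ⟩
    · rw [enc_cons, enc_nil] at h; simp at h
    · rw [enc_cons, enc_cons] at h
      simp only [List.cons.injEq, Option.some.injEq] at h
      have h1 := aux _ _ _ _ h.2
      have h2 := h.2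
      rw [h1] at h2
      have h3 := List.append_cancel_left h2
      rw [ih ξ h3]
      congr 1
      exact Prod.ext h.1 h1

/-- every word beginning with a letter is an encoding -/
theorem exists_enc (z : List (Option Lam)) : ∃ (j : ℕ) (ζ : List Tok),
    z = List.replicate j none ++ enc ζ := by
  induction z with
  | nil => exact ⟨0, [], rfl⟩
  | cons a z ih =>
    obtain ⟨j, ζ, rfl⟩ := ih
    cases a with
    | none => exact ⟨j + 1, ζ, by rw [List.replicate_succ]; rfl⟩
    | some a => exact ⟨0, (a, j) :: ζ, by rw [enc_cons]; simp⟩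

end Pool.Agent.H643R2.Q
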