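import Pool.Agent.Helper336.CF

set_option autoImplicit false

/-!
# The Dyck language on two pairs of brackets, and walks of stacks
-/

namespace Pool.Agent.H643R2.Q

open Pool.Agent.Helper336.CF

/-- brackets: kind, and `true` for opening -/
abbrev Br := Bool × Bool

/-- action of a bracket on a stack -/
def act : Br → List Bool → Option (List Bool)
  | (c, true), S => some (c :: S)
  | (_, false), [] => none
  | (c, false), d :: S => if c = d then some S else none

/-- action of a word on a stack -/
def exec : List Br → List Bool → Option (List Bool)
  | [], S => some S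
  | a :: w, S => (act a S).bind (exec w)

theorem exec_append (u v : List Br) (S : List Bool) :
    exec (u ++ v) S = (exec u S).bind (exec v) := by
  induction u generalizing S with
  | nil => rfl
  | cons a u ih =>
    simp only [List.cons_append, exec]
    cases h : act a S with
    | none => rfl
    | some R => simp [ih]

theorem exec_split {u v : List Br} {S R : List Bool} (h : exec (u ++ v) S = some R) :
    ∃ S', exec u S = some S' ∧ exec v S' = some R := by
  rw [exec_append] at h
  cases h' : exec u S with
  | none => rw [h'] at h; simp at h
  | some S' => rw [h'] at h; exact ⟨S', rfl, h⟩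

theorem exec_join {u v : List Br} {S S' R : List Bool} (h : exec u S = some S')
    (h' : exec v S' = some R) : exec (u ++ v) S = some R := by
  rw [exec_append, h]; exact h'

theorem act_inj {a : Br} {S S' R : List Bool} (h : act a S = some R) (h' : act a S' = some R) :
    S = S' := by
  obtain ⟨c, b⟩ := a
  cases b with
  | true =>
    simp only [act, Option.some.injEq] at h h'
    rw [← h'] at h
    exact (List.cons.inj h).2
  | false =>
    rcases S with _ | ⟨d, S⟩
    · simp [act] at h
    · rcases S' with _ | ⟨d', S'⟩
      · simp [act] at h'
      · simp only [act] at h h'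
        split_ifs at h h' with h1 h2
        · simp only [Option.some.injEq] at h h'
          rw [h, h', ← h1, ← h2]

theorem exec_inj {w : List Br} {S S' R : List Bool} (h : exec w S = some R)
    (h' : exec w S' = some R) : S = S' := by
  induction w generalizing S S' with
  | nil =>
    simp only [exec, Option.some.injEq] at h h'
    rw [h, h']
  | cons a w ih =>
    simp only [exec, Option.bind_eq_some_iff] at h h'
    obtain ⟨R1, h1, h2⟩ := h
    obtain ⟨R2, h3, h4⟩ := h'
    have := ih h2 h4
    subst this
    exact act_inj h1 h3

/-- two stacks at tree distance at most `n` -/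
def Near (n : ℕ) (S S' : List Bool) : Prop :=
  ∃ p q r : List Bool, S = p ++ r ∧ S' = q ++ r ∧ p.length + q.length ≤ n

theorem Near.refl (S : List Bool) : Near 0 S S := ⟨[], [], S, rfl, rfl, le_rfl⟩

theorem Near.symm {n : ℕ} {S S' : List Bool} (h : Near n S S') : Near n S' S := by
  obtain ⟨p, q, r, h1, h2, h3⟩ := h
  exact ⟨q, p, r, h2, h1, by omega⟩

theorem Near.mono {m n : ℕ} (hmn : m ≤ n) {S S' : List Bool} (h : Near m S S') : Near n S S' := by
  obtain ⟨p, q, r, h1, h2, h3⟩ := h
  exact ⟨p, q, r, h1, h2, by omega⟩

theorem Near.trans {m n : ℕ} {S S' S'' : List Bool} (h : Near m S S') (h' : Near n S' S'') :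
    Near (m + n) S S'' := by
  obtain ⟨p, q, r, rfl, rfl, h3⟩ := h
  obtain ⟨p', q', r', h4, rfl, h6⟩ := h'
  rw [List.append_eq_append_iff] at h4
  rcases h4 with ⟨a, h7, h8⟩ | ⟨a, h7, h8⟩
  · -- `p' = q ++ a`, `r = a ++ r'`
    subst h7 h8
    refine ⟨p ++ a, q', r', by simp, rfl, ?_⟩
    simp only [List.length_append] at h3 h6 ⊢
    omega
  · subst h7 h8
    refine ⟨p, q' ++ a, r, rfl, by simp, ?_⟩
    simp only [List.length_append] at h3 h6 ⊢
    omega

theorem near_act {a : Br} {S S' : List Bool} (h : act a S = some S') : Near 1 S S' := by
  obtain ⟨c, b⟩ := a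
  cases b with
  | true =>
    simp only [act, Option.some.injEq] at h
    subst h
    exact ⟨[], [c], S, rfl, rfl, by simp⟩
  | false =>
    rcases S with _ | ⟨d, S⟩
    · simp [act] at h
    · simp only [act] at h
      split_ifs at h with h1
      simp only [Option.some.injEq] at h
      subst h
      exact ⟨[d], [], S, rfl, rfl, by simp⟩

theorem near_exec {w : List Br} {S S' : List Bool} (h : exec w S = some S') :
    Near w.length S S' := by
  induction w generalizing S with
  | nil =>
    simp only [exec, Option.some.injEq] at h
    subst h
    exact Near.refl _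
  | cons a w ih =>
    simp only [exec, Option.bind_eq_some_iff] at h
    obtain ⟨R1, h1, h2⟩ := h
    have := (near_act h1).trans (ih h2)
    rw [List.length_cons, Nat.add_comm]
    exact this

theorem near_length {n : ℕ} {S S' : List Bool} (h : Near n S S') : S.length ≤ S'.length + n := by
  obtain ⟨p, q, r, rfl, rfl, h3⟩ := h
  simp only [List.length_append]
  omega

/-- leaving a branch of the tree takes time -/
theorem near_branch {n c : ℕ} {a : Bool} {U S S' : List Bool} (h : Near n S S')
    (h1 : (List.replicate c a ++ U) <:+ S) (h2 : ¬ ((a :: U) <:+ S')) : c ≤ n := by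
  obtain ⟨p, q, r, rfl, rfl, h3⟩ := h
  rcases c with _ | c
  · omega
  have h4 : (a :: U) <:+ (p ++ r) := by
    refine List.IsSuffix.trans ?_ h1
    rw [List.replicate_succ', List.append_assoc]
    exact List.suffix_append _ _
  have h5 : r.length ≤ U.length := by
    by_contra hlt
    apply h2
    refine List.IsSuffix.trans ?_ (List.suffix_append q r)
    exact List.suffix_of_suffix_length_le h4 (List.suffix_append p r) (by simp; omega)
  have h6 := h1.length_le
  simp only [List.length_append, List.length_replicate] at h6
  omega

/-! ### the Dyck language -/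

/-- Dyck words over two pairs of brackets -/
inductive DyP : List Br → Prop
  | nil : DyP []
  | wrap {c : Bool} {x y : List Br} : DyP x → DyP y → DyP ((c, true) :: (x ++ (c, false) :: y))

/-- the Dyck language -/
def Dyck : Language Br := {w | DyP w}

theorem exec_dyck {w : List Br} (h : DyP w) (S : List Bool) : exec w S = some S := by
  induction h generalizing S with
  | nil => rfl
  | @wrap c x y _ _ ih1 ih2 =>
    show exec (x ++ (c, false) :: y) (c :: S) = some S
    apply exec_join (ih1 _)
    show (act (c, false) (c :: S)).bind (exec y) = some S
    simp [act, ih2]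

theorem DyP.append {x y : List Br} (hx : DyP x) (hy : DyP y) : DyP (x ++ y) := by
  induction hx with
  | nil => exact hy
  | @wrap c x z h1 _ _ ih2 =>
    have := DyP.wrap (c := c) h1 ih2
    simpa using this

theorem DyP.powWrap {x : List Br} (hx : DyP x) (c : Bool) (N : ℕ) :
    DyP (List.replicate N (c, true) ++ (x ++ List.replicate N (c, false))) := by
  induction N with
  | zero => simpa using hx
  | succ N ih =>
    have := DyP.wrap (c := c) ih DyP.nil
    have e : (c, true) :: ((List.replicate N (c, true) ++ (x ++ List.replicate N (c, false))) ++
        [(c, false)]) = List.replicate (N + 1) (c, true) ++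
          (x ++ List.replicate (N + 1) (c, false)) := by
      rw [List.replicate_succ, List.replicate_succ' (a := (c, false))]
      simp
    rw [← e]
    exact this

/-- beginnings of Dyck words only push -/
theorem exec_begin {w : List Br} (h : DyP w) : ∀ u v, w = u ++ v →
    ∃ R, ∀ S, exec u S = some (R ++ S) := by
  induction h with
  | nil =>
    intro u v h
    have : u = [] := by
      rcases u with _ | ⟨a, u⟩
      · rfl
      · simp at h
    subst this
    exact ⟨[], fun _ => rfl⟩
  | @wrap c x y _ _ ih1 ih2 =>
    intro u v h
    rcases u with _ | ⟨a, u⟩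
    · exact ⟨[], fun _ => rfl⟩
    · simp only [List.cons_append, List.cons.injEq] at h
      obtain ⟨rfl, h⟩ := h
      rw [List.append_eq_append_iff] at h
      rcases h with ⟨b, h1, h2⟩ | ⟨b, h1, h2⟩
      · -- `u = x ++ b`
        subst h1
        rcases b with _ | ⟨d, b⟩
        · rename_i hx _
          refine ⟨[c], fun S => ?_⟩
          show exec (x ++ []) (c :: S) = _
          rw [List.append_nil, exec_dyck hx]
          rfl
        · simp only [List.cons_append, List.cons.injEq] at h2
          obtain ⟨rfl, h2⟩ := h2
          obtain ⟨R, hR⟩ := ih2 b v h2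
          refine ⟨R, fun S => ?_⟩
          show exec (x ++ (c, false) :: b) (c :: S) = _
          rename_i hx _
          apply exec_join (exec_dyck hx _)
          show (act (c, false) (c :: S)).bind (exec b) = _
          simp [act, hR]
      · obtain ⟨R, hR⟩ := ih1 u b h1
        refine ⟨R ++ [c], fun S => ?_⟩
        show exec u (c :: S) = _
        rw [hR]
        simp

/-! ### the Dyck language is context-free -/

/-- the rule `S → (_c S )_c S` -/
def ruleW (c : Bool) : ContextFreeRule Br Unit :=
  ⟨(), [Symbol.terminal (c, true), Symbol.nonterminal (), Symbol.terminal (c, false),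
    Symbol.nonterminal ()]⟩

/-- the rule `S → ε` -/
def ruleE : ContextFreeRule Br Unit := ⟨(), []⟩

open Classical in
/-- the grammar of the Dyck language -/
noncomputable def dyG : ContextFreeGrammar Br where
  NT := Unit
  initial := ()
  rules := ({ruleW true, ruleW false, ruleE} : Finset (ContextFreeRule Br Unit))

theorem mem_dyG (r : ContextFreeRule Br Unit) :
    r ∈ dyG.rules ↔ r = ruleW true ∨ r = ruleW false ∨ r = ruleE := by
  classical
  show r ∈ ({ruleW true, ruleW false, ruleE} : Finset (ContextFreeRule Br Unit)) ↔ _
  simp only [Finset.mem_insert, Finset.mem_singleton]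

theorem dyck_cf : Dyck.IsContextFree := by
  refine ⟨dyG, ?_⟩
  ext w
  show w ∈ dyG.language ↔ _
  rw [language_eq dyG (fun _ => {w | DyP w})]
  · rfl
  · intro r hr w hw
    have hb : ∀ c, r = ruleW c → DyP w := by
      rintro c rfl
      obtain ⟨w', rfl, w1, w2, rfl, h1, w3, rfl, w4, w5, rfl, h4, hw5⟩ := hw
      have : w5 = [] := hw5
      subst this
      have := DyP.wrap (c := c) h1 h4
      simpa using this
    rcases (mem_dyG r).1 hr with h | h | h
    · exact hb _ h
    · exact hb _ h
    · subst h
      have : w = [] := hw
      subst this
      exact DyP.nil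
  · intro w hw
    show w ∈ Gen dyG ()
    have hw' : DyP w := hw
    clear hw
    induction hw' with
    | nil => exact gen_of_rule dyG ruleE ((mem_dyG _).2 (Or.inr (Or.inr rfl))) [] rfl
    | @wrap c x y _ _ ih1 ih2 =>
      have hr : ruleW c ∈ dyG.rules := by
        rw [mem_dyG]
        cases c
        · exact Or.inr (Or.inl rfl)
        · exact Or.inl rfl
      exact gen_of_rule dyG (ruleW c) hr _ ⟨_, rfl, x, _, rfl, ih1, _, rfl, y, [], by simp, ih2, rfl⟩

/-! ### the walk around a binary tree with long edges -/

/-- `wk N k`: walk around the full binary tree of depth `k` with edges of length `N` -/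
def wk (N : ℕ) : ℕ → List Br
  | 0 => []
  | k + 1 => List.replicate N (true, true) ++ (wk N k ++ (List.replicate N (true, false) ++
      (List.replicate N (false, true) ++ (wk N k ++ List.replicate N (false, false)))))

theorem wk_dyck (N k : ℕ) : DyP (wk N k) := by
  induction k with
  | zero => exact DyP.nil
  | succ k ih =>
    have := (ih.powWrap true N).append (ih.powWrap false N)
    simpa [wk] using this

end Pool.Agent.H643R2.Q
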