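import Pool.Agent.Helper288.ConeTr
import Pool.Agent.H643R2.PB

set_option autoImplicit false

/-!
# Splitting and repeating runs of letter transducers
-/

namespace Pool.Agent.H643R2.RunLem

open Pool.Agent.Helper288.Cone
open Pool.Agent.H643R2.PB

variable {X Y : Type}

theorem run_split_in (T : Tr X Y) {p r : T.σ} {w : List X} {x : List Y} (h : T.Run p w x r) :
    ∀ u u', w = u ++ u' → ∃ q x1 x2, x = x1 ++ x2 ∧ T.Run p u x1 q ∧ T.Run q u' x2 r := by
  induction h with
  | nil p =>
    intro u u' h
    have h1 : u = [] := by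
      rcases u with _ | ⟨a, u⟩
      · rfl
      · simp at h
    subst h1
    have h2 : u' = [] := by simpa using h.symm
    subst h2
    exact ⟨p, [], [], rfl, Tr.Run.nil p, Tr.Run.nil p⟩
  | @cons p q r x y w v hs hr ih =>
    intro u u' h
    cases x with
    | none =>
      obtain ⟨q', x1, x2, rfl, h1, h2⟩ := ih u u' (by simpa using h)
      refine ⟨q', y.toList ++ x1, x2, by simp, ?_, h2⟩
      exact Tr.Run.cons hs h1
    | some x =>
      rcases u with _ | ⟨a, u⟩
      · refine ⟨p, [], y.toList ++ v, rfl, Tr.Run.nil p, ?_⟩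
        have := Tr.Run.cons hs hr
        rw [h] at this
        simpa using this
      · have h' : x :: w = a :: (u ++ u') := by simpa using h
        obtain ⟨rfl, h''⟩ := List.cons.inj h'
        obtain ⟨q', x1, x2, rfl, h1, h2⟩ := ih u u' h''
        refine ⟨q', y.toList ++ x1, x2, by simp, ?_, h2⟩
        exact Tr.Run.cons hs h1

theorem run_split_out (T : Tr X Y) {p r : T.σ} {w : List X} {x : List Y} (h : T.Run p w x r) :
    ∀ x1 x2, x = x1 ++ x2 → ∃ q u u', w = u ++ u' ∧ T.Run p u x1 q ∧ T.Run q u' x2 r := by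
  induction h with
  | nil p =>
    intro u u' h
    have h1 : u = [] := by
      rcases u with _ | ⟨a, u⟩
      · rfl
      · simp at h
    subst h1
    have h2 : u' = [] := by simpa using h.symm
    subst h2
    exact ⟨p, [], [], rfl, Tr.Run.nil p, Tr.Run.nil p⟩
  | @cons p q r x y w v hs hr ih =>
    intro u u' h
    cases y with
    | none =>
      obtain ⟨q', w1, w2, rfl, h1, h2⟩ := ih u u' (by simpa using h)
      refine ⟨q', x.toList ++ w1, w2, by simp, ?_, h2⟩
      exact Tr.Run.cons hs h1
    | some y =>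
      rcases u with _ | ⟨a, u⟩
      · refine ⟨p, [], x.toList ++ w, rfl, Tr.Run.nil p, ?_⟩
        have := Tr.Run.cons hs hr
        rw [h] at this
        simpa using this
      · have h' : y :: v = a :: (u ++ u') := by simpa using h
        obtain ⟨rfl, h''⟩ := List.cons.inj h'
        obtain ⟨q', w1, w2, rfl, h1, h2⟩ := ih u u' h''
        refine ⟨q', x.toList ++ w1, w2, by simp, ?_, h2⟩
        exact Tr.Run.cons hs h1

/-- `rep n y` is the `n`-fold repetition of the word `y` -/
def rep (n : ℕ) (y : List X) : List X := (List.replicate n y).flatten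

@[simp] theorem rep_zero (y : List X) : rep 0 y = [] := rfl

theorem rep_succ (n : ℕ) (y : List X) : rep (n + 1) y = y ++ rep n y := by
  simp [rep, List.replicate_succ]

theorem rep_add (m n : ℕ) (y : List X) : rep (m + n) y = rep m y ++ rep n y := by
  rw [rep, List.replicate_add, List.flatten_append, rep, rep]

/-- the position of a prefix of a repetition -/
theorem cut_rep (y : List X) : ∀ (n : ℕ) (a b : List X), a ++ b = rep n y →
    ∃ m i, i ≤ y.length ∧ a = rep m y ++ y.take i := by
  intro n
  induction n with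
  | zero =>
    intro a b h
    have : a = [] := by
      rcases a with _ | ⟨c, a⟩
      · rfl
      · simp at h
    subst this
    exact ⟨0, 0, by simp, by simp⟩
  | succ n ih =>
    intro a b h
    rw [rep_succ, List.append_eq_append_iff] at h
    rcases h with ⟨c, h1, h2⟩ | ⟨c, h1, h2⟩
    · refine ⟨0, a.length, ?_, ?_⟩
      · rw [h1]; simp
      · rw [h1]; simp
    · obtain ⟨m, i, hi, rfl⟩ := ih c b h2.symm
      refine ⟨m + 1, i, hi, ?_⟩
      rw [h1, rep_succ]; simp

/-- a run over a repetition, with its intermediate states and outputs -/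
theorem iter_run (T : Tr X Y) (y v : List X) : ∀ (m : ℕ) (r : T.σ) (x : List Y) (t : T.σ),
    T.Run r (rep m y ++ v) x t → ∃ (qs : ℕ → T.σ) (os : ℕ → List Y), qs 0 = r ∧ os 0 = [] ∧
      (∀ i j, i ≤ j → j ≤ m → ∃ d, os j = os i ++ d ∧ T.Run (qs i) (rep (j - i) y) d (qs j)) ∧
      ∃ e, x = os m ++ e ∧ T.Run (qs m) v e t := by
  intro m
  induction m with
  | zero =>
    intro r x t h
    refine ⟨fun _ => r, fun _ => [], rfl, rfl, ?_, x, rfl, by simpa using h⟩
    intro i j _ _
    have : j - i = 0 := by omega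
    rw [this]
    exact ⟨[], rfl, Tr.Run.nil r⟩
  | succ m ih =>
    intro r x t h
    rw [rep_succ, List.append_assoc] at h
    obtain ⟨q, x1, x2, rfl, h1, h2⟩ := run_split_in T h _ _ rfl
    obtain ⟨qs, os, hq0, ho0, hrun, e, he, hlast⟩ := ih q x2 t h2
    refine ⟨fun i => match i with | 0 => r | (i+1) => qs i,
      fun i => match i with | 0 => [] | (i+1) => x1 ++ os i, rfl, rfl, ?_, e, ?_, hlast⟩
    · intro i j hij hjm
      rcases i with _ | i
      · rcases j with _ | j
        · exact ⟨[], rfl, Tr.Run.nil r⟩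
        · obtain ⟨d, hd, hr⟩ := hrun 0 j (by omega) (by omega)
          refine ⟨x1 ++ os j, rfl, ?_⟩
          show T.Run r (rep (j + 1 - 0) y) (x1 ++ os j) (qs j)
          rw [Nat.sub_zero, rep_succ]
          rw [ho0] at hd
          rw [hd]
          rw [hq0] at hr
          exact h1.trans (by simpa using hr)
      · rcases j with _ | j
        · omega
        · obtain ⟨d, hd, hr⟩ := hrun i j (by omega) (by omega)
          refine ⟨d, ?_, ?_⟩
          · show x1 ++ os j = x1 ++ os i ++ d
            rw [hd]; simp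
          · show T.Run (qs i) (rep (j + 1 - (i + 1)) y) d (qs j)
            rw [Nat.add_sub_add_right]
            exact hr
    · show x1 ++ x2 = x1 ++ os m ++ e
      rw [he]; simp

/-- if a colouring of the positions takes few values, then a run over a long repetition can be
pumped -/
theorem pump_color (T : Tr X Y) (y v : List X) {κ : Type} [Fintype κ] (col : T.σ → List Y → κ)
    (B : ℕ) (hB : Fintype.card κ ≤ B) (m : ℕ) (hm : B ≤ m) (r t : T.σ) (x : List Y)
    (h : T.Run r (rep m y ++ v) x t) :
    ∃ (i k : ℕ) (q q' : T.σ) (x1 d x2 : List Y), 1 ≤ k ∧ i + k ≤ B ∧ x = x1 ++ d ++ x2 ∧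
      col q x1 = col q' (x1 ++ d) ∧
      T.Run r (rep i y) x1 q ∧ T.Run q (rep k y) d q' ∧
      T.Run q' (rep (m - (i + k)) y ++ v) x2 t := by
  classical
  obtain ⟨qs, os, hq0, ho0, hrun, e, he, hlast⟩ := iter_run T y v m r x t h
  -- pigeonhole
  have hcard : Fintype.card κ < Fintype.card (Fin (B + 1)) := by
    rw [Fintype.card_fin]; omega
  obtain ⟨a, b, hab, hcol⟩ := Fintype.exists_ne_map_eq_of_card_lt
    (fun j : Fin (B + 1) => col (qs j) (os j)) hcard
  have main : ∀ a b : Fin (B + 1), a < b → col (qs a) (os a) = col (qs b) (os b) →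
      ∃ (i k : ℕ) (q q' : T.σ) (x1 d x2 : List Y), 1 ≤ k ∧ i + k ≤ B ∧ x = x1 ++ d ++ x2 ∧
      col q x1 = col q' (x1 ++ d) ∧
      T.Run r (rep i y) x1 q ∧ T.Run q (rep k y) d q' ∧
      T.Run q' (rep (m - (i + k)) y ++ v) x2 t := by
    intro a b hab hcol
    have ha := a.2
    have hb := b.2
    have hab' : (a : ℕ) < b := hab
    obtain ⟨d0, hd0, hr0⟩ := hrun 0 a (by omega) (by omega)
    obtain ⟨d1, hd1, hr1⟩ := hrun a b (by omega) (by omega)
    obtain ⟨d2, hd2, hr2⟩ := hrun b m (by omega) le_rfl
    rw [ho0, List.nil_append] at hd0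
    refine ⟨a, b - a, qs a, qs b, os a, d1, d2 ++ e, by omega, by omega, ?_, ?_, ?_, hr1, ?_⟩
    · rw [he, hd2, hd1]; simp
    · rw [← hd1]; exact hcol
    · rw [hq0, ← hd0, Nat.sub_zero] at hr0
      exact hr0
    · have : (a : ℕ) + (b - a) = b := by omega
      rw [this]
      exact hr2.trans hlast
  rcases lt_or_gt_of_ne hab with hlt | hgt
  · exact main a b hlt hcol
  · exact main b a hgt hcol.symm

theorem run_loop (T : Tr X Y) {q : T.σ} {u : List X} {d : List Y} (h : T.Run q u d q) (n : ℕ) :
    T.Run q (rep n u) (rep n d) q := by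
  induction n with
  | zero => exact Tr.Run.nil q
  | succ n ih =>
    rw [rep_succ, rep_succ]
    exact h.trans ih

theorem rep_rep (n k : ℕ) (y : List X) : rep n (rep k y) = rep (n * k) y := by
  induction n with
  | zero => simp
  | succ n ih => rw [rep_succ, ih, Nat.succ_mul, Nat.add_comm, rep_add]

theorem rep_nil' (n : ℕ) : rep n ([] : List X) = [] := by
  induction n with
  | zero => rfl
  | succ n ih => rw [rep_succ, ih]; rfl

/-- outputs of a run over `y^m v` for some `m`, unique for its input word -/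
def V (T : Tr X Y) (y v : List X) (r t : T.σ) : Set (List Y) :=
  {x | ∃ m, T.Run r (rep m y ++ v) x t ∧ ∀ x', T.Run r (rep m y ++ v) x' t → x' = x}

theorem V_PB (T : Tr X Y) (y v : List X) (r t : T.σ) : PB (V T y v r t) := by
  classical
  have := T.fin
  let n := Fintype.card T.σ
  refine ⟨(n + 2) ^ 2 + (n + 2), 2, fun N => ?_⟩
  let B := n * (N + 1)
  -- labels
  let ι := Fin (B + 1) ⊕ (Fin (B + 1) × Fin (B + 1))
  let W : Set (List Y) := {x | x ∈ V T y v r t ∧ x.length ≤ N}
  let Lab : ι → List Y → Prop := fun i x => match i with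
    | Sum.inl m => T.Run r (rep m y ++ v) x t ∧ ∀ x', T.Run r (rep m y ++ v) x' t → x' = x
    | Sum.inr (k, a) => ∃ m, 1 ≤ (k : ℕ) ∧ m % (k : ℕ) = a ∧
        (∀ x', T.Run r (rep m y ++ v) x' t → x' = x) ∧
        ∀ c : ℕ, T.Run r (rep (m + c * k) y ++ v) x t
  have hlab := exists_finset_of_labels (ι := ι) W Lab ?_ ?_
  · obtain ⟨S, hS, hS'⟩ := hlab
    refine ⟨S, hS.trans ?_, fun x hx hN => hS' x ⟨hx, hN⟩⟩
    simp only [ι, Fintype.card_sum, Fintype.card_prod, Fintype.card_fin]
    have hB : B + 1 ≤ (n + 2) * (N + 1) := by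
      simp only [B]
      nlinarith [Nat.zero_le n, Nat.zero_le N]
    have hB1 : 1 ≤ N + 1 := by omega
    calc B + 1 + (B + 1) * (B + 1)
        ≤ (n + 2) * (N + 1) + ((n + 2) * (N + 1)) * ((n + 2) * (N + 1)) :=
          Nat.add_le_add hB (Nat.mul_le_mul hB hB)
      _ ≤ (n + 2) * (N + 1) ^ 2 + ((n + 2) * (N + 1)) * ((n + 2) * (N + 1)) := by
          apply Nat.add_le_add_right
          apply Nat.mul_le_mul_left
          nlinarith
      _ = ((n + 2) ^ 2 + (n + 2)) * (N + 1) ^ 2 := by ring
  · -- every word has a label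
    rintro x ⟨⟨m, hm1, hm2⟩, hN⟩
    by_cases hmB : m ≤ B
    · exact ⟨Sum.inl ⟨m, by omega⟩, hm1, hm2⟩
    · have hlen : ∀ z : List Y, z.length ≤ N → z.length < N + 1 := fun z hz => by omega
      have hcard : Fintype.card (T.σ × Fin (N + 1)) ≤ B := by
        rw [Fintype.card_prod, Fintype.card_fin]
      obtain ⟨i, k, q, q', x1, d, x2, hk, hik, hx, hcol, h1, h2, h3⟩ :=
        pump_color T y v (κ := T.σ × Fin (N + 1))
          (fun q z => (q, ⟨min z.length N, by omega⟩)) B hcard m (by omega) r t x hm1
      have hq : q = q' := (Prod.ext_iff.1 hcol).1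
      have hl := congrArg Fin.val (Prod.ext_iff.1 hcol).2
      simp only [List.length_append] at hl
      have hxl : x.length = x1.length + d.length + x2.length := by
        rw [hx]; simp [Nat.add_assoc]
      have hd : d = [] := by
        apply List.eq_nil_of_length_eq_zero
        omega
      subst hq
      subst hd
      refine ⟨Sum.inr (⟨k, by omega⟩, ⟨m % k, ?_⟩), m, hk, rfl, hm2, ?_⟩
      · exact lt_of_lt_of_le (Nat.mod_lt _ (by omega)) (by omega)
      · intro c
        have h4 := run_loop T h2 (c + 1)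
        rw [rep_rep, rep_nil'] at h4
        have h5 := (h1.trans h4).trans h3
        have e1 : rep i y ++ rep ((c + 1) * k) y ++ (rep (m - (i + k)) y ++ v)
            = rep (m + c * k) y ++ v := by
          rw [← List.append_assoc, ← rep_add, ← rep_add]
          congr 2
          have : (c + 1) * k = c * k + k := by ring
          omega
        rw [e1] at h5
        have e2 : x1 ++ [] ++ x2 = x := by rw [hx]
        rw [e2] at h5
        exact h5
  · -- labels determine words
    rintro (m | ⟨k, a⟩) x x' _ _ h h'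
    · exact h'.2 x h.1
    · obtain ⟨m, hk, hma, hu, hrun⟩ := h
      obtain ⟨m', _, hma', hu', hrun'⟩ := h'
      have hmod : m % (k : ℕ) = m' % (k : ℕ) := by rw [hma, hma']
      rcases le_total m m' with hle | hle
      · obtain ⟨c, hc⟩ : ∃ c, m' = m + c * k := by
          have := (Nat.modEq_iff_dvd' hle).1 hmod
          obtain ⟨c, hc⟩ := this
          exact ⟨c, by rw [Nat.mul_comm c]; omega⟩
        apply hu'
        rw [hc]; exact hrun c
      · obtain ⟨c, hc⟩ : ∃ c, m = m' + c * k := by
          have := (Nat.modEq_iff_dvd' hle).1 hmod.symm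
          obtain ⟨c, hc⟩ := this
          exact ⟨c, by rw [Nat.mul_comm c]; omega⟩
        symm
        apply hu
        rw [hc]; exact hrun' c

end Pool.Agent.H643R2.RunLem
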