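import Pool.Agent.H643R2.QNode
import Pool.Agent.H643R2.QDefs
import Pool.Agent.H643R2.RunLem

set_option autoImplicit false

/-!
# The Dyck language is not in the cone of `L0`
-/

namespace Pool.Agent.H643R2.Q

open Pool.Agent.Helper288.Cone
open Pool.Agent.H643R2.RunLem

/-! ### representatives -/

theorem one_bound {ι α : Type} [Finite ι] (P : ι → α → Prop) (len : α → ℕ) :
    ∃ C, ∀ i, (∃ x, P i x) → ∃ x, P i x ∧ len x ≤ C := by
  classical
  have h : ∀ i, ∃ c, (∃ x, P i x) → ∃ x, P i x ∧ len x ≤ c := by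
    intro i
    by_cases hi : ∃ x, P i x
    · obtain ⟨x, hx⟩ := hi
      exact ⟨len x, fun _ => ⟨x, hx, le_rfl⟩⟩
    · exact ⟨0, fun h => absurd h hi⟩
  choose c hc using h
  obtain ⟨C, hC⟩ := (Set.finite_range c).bddAbove
  refine ⟨C, fun i hi => ?_⟩
  obtain ⟨x, hx, hlen⟩ := hc i hi
  exact ⟨x, hx, hlen.trans (hC ⟨i, rfl⟩)⟩

theorem two_bound {ι α : Type} [Finite ι] (P : ι → α → Prop) (f len : α → ℕ) :
    ∃ C, ∀ i x, P i x → ∀ Bad : ℕ → Prop, (∀ a b, Bad a → Bad b → a = b) → ¬ Bad (f x) →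
      ∃ y, P i y ∧ len y ≤ C ∧ ¬ Bad (f y) := by
  classical
  have h : ∀ i, ∃ c, ∀ x, P i x → ∀ Bad : ℕ → Prop, (∀ a b, Bad a → Bad b → a = b) →
      ¬ Bad (f x) → ∃ y, P i y ∧ len y ≤ c ∧ ¬ Bad (f y) := by
    intro i
    by_cases hi : ∃ y1 y2, P i y1 ∧ P i y2 ∧ f y1 ≠ f y2
    · obtain ⟨y1, y2, h1, h2, h3⟩ := hi
      refine ⟨max (len y1) (len y2), fun x _ Bad hBad _ => ?_⟩
      by_cases hb : Bad (f y1)
      · refine ⟨y2, h2, le_max_right _ _, fun h => h3 (hBad _ _ hb h)⟩
      · exact ⟨y1, h1, le_max_left _ _, hb⟩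
    · by_cases hx : ∃ x, P i x
      · obtain ⟨y, hy⟩ := hx
        refine ⟨len y, fun x hx Bad _ hb => ⟨y, hy, le_rfl, ?_⟩⟩
        have : f y = f x := by
          by_contra hne
          exact hi ⟨y, x, hy, hx, hne⟩
        rw [this]; exact hb
      · exact ⟨0, fun x hx' => absurd ⟨x, hx'⟩ hx⟩
  choose c hc using h
  obtain ⟨C, hC⟩ := (Set.finite_range c).bddAbove
  refine ⟨C, fun i x hx Bad h1 h2 => ?_⟩
  obtain ⟨y, hy, hlen, hb⟩ := hc i x hx Bad h1 h2
  exact ⟨y, hy, hlen.trans (hC ⟨i, rfl⟩), hb⟩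

theorem exec_len_src {w : List Br} {S R : List Bool} (h : exec w S = some R) :
    S.length ≤ R.length + w.length := near_length (near_exec h)

theorem exec_len_tgt {w : List Br} {S R : List Bool} (h : exec w S = some R) :
    R.length ≤ S.length + w.length := near_length (near_exec h).symm

/-! ### words with an error -/

section
variable (T : Tr (Option Lam) Br)

/-- In a run on a word with an error, the stacks of the output are bounded. -/
theorem err_bound (hT : ∀ z ∈ L0, ∀ v, T.rel z v → DyP v) :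
    ∃ C, ∀ ζ, ¬ Ok ζ → ∀ s f, T.start s → T.acc f → ∀ w, T.Run s (enc ζ) w f →
      ∀ wL wR, w = wL ++ wR → ∀ S, exec wL [] = some S → S.length ≤ C := by
  classical
  have := T.fin
  -- right representatives
  obtain ⟨C1, hC1⟩ := two_bound (ι := T.σ) (α := ℕ × List Tok × List Br)
    (fun r x => ∃ f, T.acc f ∧ T.Run r (List.replicate x.1 none ++ enc x.2.1) x.2.2 f)
    (fun x => x.1) (fun x => x.2.2.length)
  -- left representatives
  obtain ⟨C2, hC2⟩ := two_bound (ι := T.σ × Lam) (α := List Tok × ℕ × List Br)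
    (fun r x => ∃ s, T.start s ∧ T.Run s (enc (x.1 ++ [(r.2, x.2.1)])) x.2.2 r.1)
    (fun x => x.2.1) (fun x => x.2.2.length)
  -- empty left parts
  obtain ⟨C3, hC3⟩ := one_bound (ι := T.σ) (α := List Br)
    (fun r x => ∃ s, T.start s ∧ T.Run s [] x r) (fun x => x.length)
  refine ⟨max C1 (max C2 C3), ?_⟩
  rintro ζ hζ s f hs hf w hrun wL wR rfl S hS
  have hdy : DyP (wL ++ wR) := hT _ ⟨ζ, rfl, Or.inl hζ⟩ _ ⟨s, f, hs, hf, hrun⟩
  have hSR : exec wR S = some [] := by
    have := exec_dyck hdy []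
    obtain ⟨S', h1, h2⟩ := exec_split this
    rw [hS] at h1
    rw [Option.some.inj h1]; exact h2
  obtain ⟨r, zL, zR, hz, h1, h2⟩ := run_split_out T hrun _ _ rfl
  -- replace the output of the left part
  have left : ∀ (ζ' : List Tok) (zL' : List (Option Lam)) (w' : List Br) (s' : T.σ),
      T.start s' → T.Run s' zL' w' r → ¬ Ok ζ' → enc ζ' = zL' ++ zR → S.length ≤ w'.length := by
    intro ζ' zL' w' s' hs' hr' hζ' he
    have hdy' : DyP (w' ++ wR) := hT (enc ζ') ⟨ζ', rfl, Or.inl hζ'⟩ _
      ⟨s', f, hs', hf, by rw [he]; exact hr'.trans h2⟩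
    obtain ⟨S', h3, h4⟩ := exec_split (exec_dyck hdy' [])
    have : S' = S := exec_inj h4 hSR
    subst this
    have := exec_len_tgt h3
    simpa using this
  have right : ∀ (ζ' : List Tok) (zR' : List (Option Lam)) (w' : List Br) (f' : T.σ),
      T.acc f' → T.Run r zR' w' f' → ¬ Ok ζ' → enc ζ' = zL ++ zR' → S.length ≤ w'.length := by
    intro ζ' zR' w' f' hf' hr' hζ' he
    have hdy' : DyP (wL ++ w') := hT (enc ζ') ⟨ζ', rfl, Or.inl hζ'⟩ _
      ⟨s, f', hs, hf', by rw [he]; exact h1.trans hr'⟩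
    obtain ⟨S', h3, h4⟩ := exec_split (exec_dyck hdy' [])
    rw [hS] at h3
    rw [← Option.some.inj h3] at h4
    have := exec_len_src h4
    simpa using this
  -- the shapes of the two parts
  obtain ⟨j, η, hzR⟩ := exists_enc zR
  obtain ⟨j0, ξ, hzL⟩ := exists_enc zL
  by_cases hzL0 : zL = []
  · subst hzL0
    obtain ⟨w', ⟨s', hs', hr'⟩, hlen⟩ := hC3 r ⟨wL, s, hs, h1⟩
    have := left ζ [] w' s' hs' hr' hζ hz
    omega
  have hj0 : j0 = 0 := by
    rcases j0 with _ | j0
    · rfl
    · exfalso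
      rcases ζ with _ | ⟨t, ζ⟩
      · apply hζ; exact List.isChain_nil
      · rw [enc_cons, hzL, List.replicate_succ] at hz
        simp at hz
  subst hj0
  simp only [List.replicate_zero, List.nil_append] at hzL
  rcases List.eq_nil_or_concat ξ with rfl | ⟨ξ1, ⟨a, i⟩, rfl⟩
  · exact absurd hzL hzL0
  rw [List.concat_eq_append] at hzL
  have hζ2 : ζ = ξ1 ++ (a, i + j) :: η := by
    apply enc_inj
    rw [hz, hzL, hzR, enc_append, enc_append, enc_cons, enc_cons, enc_nil]
    rw [List.replicate_add]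
    simp only [List.append_assoc, List.cons_append, List.append_nil]
  have hsplit : ∀ i' (ξ' : List Tok) j' (η' : List Tok),
      Ok (ξ' ++ (a, i' + j') :: η') ↔ Ok (ξ' ++ [(a, i' + j')]) ∧ Ok ((a, i' + j') :: η') :=
    fun i' ξ' j' η' => List.isChain_split
  rw [hζ2, hsplit, not_and_or] at hζ
  rcases hζ with hbad | hbad
  · -- exchange the right part
    obtain ⟨⟨j', η', w'⟩, ⟨f', hf', hr'⟩, hlen, hgood⟩ := hC1 r (j, η, wR) ⟨f, hf, by
      rw [← hzR]; exact h2⟩ (fun j' => Ok (ξ1 ++ [(a, i + j')])) (by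
        intro b c hb hc
        rcases List.eq_nil_or_concat ξ1 with rfl | ⟨ξ2, t, rfl⟩
        · exact absurd (List.isChain_singleton _) hbad
        · rw [List.concat_eq_append, List.append_assoc] at hb hc
          have hb' := (List.isChain_append_cons_cons.1 hb).2.1
          have hc' := (List.isChain_append_cons_cons.1 hc).2.1
          unfold Adj at hb' hc'
          simp only at hb' hc'
          omega) hbad
    have := right (ξ1 ++ (a, i + j') :: η') _ w' f' hf' hr' (by
      rw [hsplit]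
      exact fun h => hgood h.1) (by
        rw [hzL, enc_append, enc_append, enc_cons, enc_cons, enc_nil]
        rw [List.replicate_add]
        simp only [List.append_assoc, List.cons_append, List.append_nil])
    simp only at hlen
    omega
  · -- exchange the left part
    obtain ⟨⟨ξ', i', w'⟩, ⟨s', hs', hr'⟩, hlen, hgood⟩ := hC2 (r, a) (ξ1, i, wL) ⟨s, hs, by
      rw [← hzL]; exact h1⟩ (fun i' => Ok ((a, i' + j) :: η)) (by
        intro b c hb hc
        rcases η with _ | ⟨t, η⟩
        · exact absurd (List.isChain_singleton _) hbad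
        · have hb' := (List.isChain_cons_cons.1 hb).1
          have hc' := (List.isChain_cons_cons.1 hc).1
          unfold Adj at hb' hc'
          simp only at hb' hc'
          omega) hbad
    have := left (ξ' ++ (a, i' + j) :: η) _ w' s' hs' hr' (by
      rw [hsplit]
      exact fun h => hgood h.2) (by
        rw [hzR, enc_append, enc_append, enc_cons, enc_cons, enc_nil]
        rw [List.replicate_add]
        simp only [List.append_assoc, List.cons_append, List.append_nil])
    simp only at hlen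
    omega

end

end Pool.Agent.H643R2.Q
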