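import Pool.Agent.H643R2.QRat
import Pool.Agent.Helper336.CF

set_option autoImplicit false

/-!
# Linear languages have rank one
-/

namespace Pool.Agent.H643R2.Q

open Pool.Agent.Helper288.Cone
open Pool.Agent.Helper336.CF

/-- is this symbol a nonterminal? -/
def isNT {T N : Type} : Symbol T N → Bool
  | Symbol.terminal _ => false
  | Symbol.nonterminal _ => true

/-- A linear language: generated by a context-free grammar in which every right-hand side contains
at most one nonterminal. -/
def IsLinear {X : Type} (L : Language X) : Prop :=
  ∃ g : ContextFreeGrammar X, (∀ r ∈ g.rules, r.output.countP isNT ≤ 1) ∧ g.language = L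

/-- A family of languages over finite alphabets. -/
abbrev Family := ∀ (X : Type) [Finite X], Language X → Prop

/-- `F` is closed under substitution: `L ∈ F` over `X` and `σ(x) ∈ F` over `Y` for each letter `x`
imply `σ(L) ∈ F`. -/
def SubstClosed (F : Family) : Prop :=
  ∀ (X Y : Type) [Finite X] [Finite Y] (L : Language X) (σ : X → Language Y),
    F X L → (∀ x, F Y (σ x)) → F Y (substL L σ)

/-- The quasi-rational languages: the smallest family containing the linear languages and closed
under substitution. -/
def IsQuasiRational {X : Type} [Finite X] (L : Language X) : Prop :=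
  ∀ F : Family, (∀ (Y : Type) [Finite Y] (N : Language Y), IsLinear N → F Y N) →
    SubstClosed F → F X L

theorem split_rhs {T N : Type} (l : List (Symbol T N)) (h : l.countP isNT ≤ 1) :
    ∃ (u : List T) (a : Option N) (v : List T),
      l = u.map Symbol.terminal ++ ((a.map Symbol.nonterminal).toList ++ v.map Symbol.terminal) := by
  have h0 : ∀ l : List (Symbol T N), l.countP isNT = 0 → ∃ v : List T, l = v.map Symbol.terminal := by
    intro l
    induction l with
    | nil => intro _; exact ⟨[], rfl⟩
    | cons s l ih =>
      intro h
      cases s with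
      | terminal t =>
        rw [List.countP_cons_of_neg (by simp [isNT])] at h
        obtain ⟨v, rfl⟩ := ih h
        exact ⟨t :: v, rfl⟩
      | nonterminal A =>
        rw [List.countP_cons_of_pos (by simp [isNT])] at h
        omega
  induction l with
  | nil => exact ⟨[], none, [], rfl⟩
  | cons s l ih =>
    cases s with
    | terminal t =>
      rw [List.countP_cons_of_neg (by simp [isNT])] at h
      obtain ⟨u, a, v, rfl⟩ := ih h
      exact ⟨t :: u, a, v, rfl⟩
    | nonterminal A =>
      rw [List.countP_cons_of_pos (by simp [isNT])] at h
      obtain ⟨v, rfl⟩ := h0 l (by omega)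
      exact ⟨[], some A, v, rfl⟩

theorem linear_rank {X : Type} (L : Language X) (h : IsLinear L) : RankL X 1 L := by
  classical
  obtain ⟨g, hg, rfl⟩ := h
  choose u a v huv using fun r : {r // r ∈ g.rules} => split_rhs r.1.output (hg r.1 r.2)
  let S : Sys X := { NT := Option g.NT, Ru := {r // r ∈ g.rules}, lhs := fun r => some r.1.input,
                     big := a, B := fun r => {u r}, C := fun r => {v r},
                     fin := fun A => A = none }
  refine ⟨S, some g.initial, inferInstanceAs (Finite {r // r ∈ g.rules}),
    fun r => ⟨_, rfl⟩, fun r => ⟨_, rfl⟩, ?_⟩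
  have hnone : ∀ (A : S.NT) (x : List X), S.Sol A x → A = none → x = [] := by
    intro A x h
    cases h with
    | fin _ => intro _; rfl
    | step _ _ _ => intro h; exact absurd h (Option.some_ne_none _)
  apply Language.ext
  intro w
  rw [language_eq g (fun A => {w | S.Sol (some A) w})]
  · rfl
  · intro r hr w hw
    rw [huv ⟨r, hr⟩, comp_append] at hw
    obtain ⟨w1, w2, rfl, h1, h2⟩ := hw
    rw [comp_append] at h2
    obtain ⟨w3, w4, rfl, h3, h4⟩ := h2
    rw [comp_map_terminal] at h1 h4
    have h5 : S.Sol (S.big ⟨r, hr⟩) w3 := by
      show S.Sol (a ⟨r, hr⟩) w3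
      cases ha : a ⟨r, hr⟩ with
      | none =>
        rw [ha] at h3
        have : w3 = [] := h3
        subst this
        exact Sys.Sol.fin rfl
      | some A =>
        rw [ha] at h3
        obtain ⟨x1, x2, rfl, h6, h7⟩ := h3
        have : x2 = [] := h7
        subst this
        rw [List.append_nil]
        exact h6
    exact Sys.Sol.step (S := S) (ρ := ⟨r, hr⟩) h1 h5 h4
  · intro w hw
    have key : ∀ (B : S.NT) (x : List X), S.Sol B x → ∀ A, B = some A → x ∈ Gen g A := by
      intro B x h
      induction h with
      | fin h => intro A hA; rw [hA] at h; exact absurd h (Option.some_ne_none _)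
      | @step r x y z hx hy hz ih =>
        intro A hA
        have hx' : x = u r := hx
        have hz' : z = v r := hz
        subst hx' hz'
        have hA' : r.1.input = A := Option.some.inj hA
        subst hA'
        apply gen_of_rule g r.1 r.2
        rw [huv r, comp_append]
        refine ⟨_, _, rfl, (comp_map_terminal _ _ _).2 rfl, ?_⟩
        rw [comp_append]
        refine ⟨_, _, rfl, ?_, (comp_map_terminal _ _ _).2 rfl⟩
        have hy' : S.Sol (a r) y := hy
        have ih' : ∀ A, a r = some A → y ∈ Gen g A := ih
        cases ha : a r with
        | none =>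
          rw [ha] at hy'
          have := hnone _ _ hy' rfl
          subst this
          rfl
        | some A =>
          exact ⟨y, [], by simp, ih' A ha, rfl⟩
    exact key _ w hw _ rfl

theorem quasiRational_inCone {X : Type} [Finite X] (L : Language X) (h : IsQuasiRational L) :
    InCone L0 L := by
  have := Fintype.ofFinite X
  obtain ⟨K, hK⟩ := h (fun Y _ N => ∃ K, RankL Y K N) (fun Y _ N hN => ⟨1, linear_rank N hN⟩)
    (fun X Y _ _ L σ hL hσ => by
      obtain ⟨K, hK⟩ := hL
      exact rank_subst σ hσ K L hK)
  exact rank_inCone_L0 K L hK

end Pool.Agent.H643R2.Q
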