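import Pool.Agent.H643R2.QEx

set_option autoImplicit false

/-!
# The Dyck language is not in the cone of `L0`: end of the proof
-/

namespace Pool.Agent.H643R2.Q

open Pool.Agent.Helper288.Cone
open Pool.Agent.H643R2.RunLem

theorem rep_none (k : ℕ) : rep k [(none : Option Lam)] = List.replicate k none := by
  induction k with
  | zero => rfl
  | succ k ih => rw [rep_succ, ih, List.replicate_succ]; rfl

section
variable (T : Tr (Option Lam) Br)

/-- a high first level gives a bounded stack, too -/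
theorem high_bound (hT : ∀ z ∈ L0, ∀ v, T.rel z v → DyP v) [Fintype T.σ] (C : ℕ)
    (hC : ∀ ζ, ¬ Ok ζ → ∀ s f, T.start s → T.acc f → ∀ w, T.Run s (enc ζ) w f →
      ∀ wL wR, w = wL ++ wR → ∀ S, exec wL [] = some S → S.length ≤ C)
    (l : ℕ) (ζ : List Tok) (hW : W l ζ) (hl : Fintype.card T.σ ≤ l + 1)
    (s f : T.σ) (hs : T.start s) (hf : T.acc f) (wL wR : List Br)
    (hrun : T.Run s (enc ((Lam.p, l + 1) :: ζ)) (wL ++ wR) f) (S : List Bool)
    (hS : exec wL [] = some S) (hSR : exec wR S = some []) : S.length ≤ C := by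
  rw [enc_cons, ← List.singleton_append] at hrun
  obtain ⟨q0, w0, w1, hw, h1, h2⟩ := run_split_in T hrun _ _ rfl
  simp only at h2
  rw [← rep_none] at h2
  obtain ⟨i, k, q, q', x1, d, x2, hk, hik, hx, hcol, hr1, hr2, hr3⟩ :=
    pump_color T [none] (enc ζ) (fun q _ => q) _ hl _ le_rfl q0 f w1 h2
  subst hcol
  -- the pumped run
  have hr := (hr1.trans (run_loop T hr2 2)).trans hr3
  rw [rep_rep] at hr
  have e1 : rep i [(none : Option Lam)] ++ rep (2 * k) [none] ++
      (rep (l + 1 - (i + k)) [none] ++ enc ζ) = List.replicate (l + 1 + k) none ++ enc ζ := by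
    rw [← List.append_assoc, ← rep_add, ← rep_add, ← rep_none]
    congr 2
    omega
  have e2 : rep 2 d = d ++ d := by simp [rep_succ]
  rw [e1, e2] at hr
  have hfull := h1.trans hr
  have hbad : ¬ Ok ((Lam.p, l + 1 + k) :: ζ) := by
    intro h
    have := level_head hW (Lam.p, l + 1 + k) [] (by rw [List.append_nil]; exact h)
    simp only [dec] at this
    omega
  have e3 : [some Lam.p] ++ (List.replicate (l + 1 + k) none ++ enc ζ) =
      enc ((Lam.p, l + 1 + k) :: ζ) := by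
    rw [enc_cons]; rfl
  rw [e3] at hfull
  have hdy := hT _ ⟨_, rfl, Or.inl hbad⟩ _ ⟨s, f, hs, hf, hfull⟩
  subst hx
  rw [List.append_eq_append_iff] at hw
  have main : ∀ wL' wR', w0 ++ (x1 ++ (d ++ d) ++ x2) = wL' ++ wR' → ∀ S', exec wL' [] = some S' →
      S'.length ≤ C := fun wL' wR' h S' hS' => hC _ hbad s f hs hf _ hfull wL' wR' h S' hS'
  rcases hw with ⟨c, h3, h4⟩ | ⟨c, h3, h4⟩
  · -- the cut is in `w0`
    refine main wL (c ++ (x1 ++ (d ++ d) ++ x2)) ?_ S hS
    rw [h3]; simp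
  · -- `wL = w0 ++ c`, `x1 ++ d ++ x2 = c ++ wR`
    rw [List.append_eq_append_iff] at h4
    rcases h4 with ⟨e, h5, h6⟩ | ⟨e, h5, h6⟩
    · -- `c = x1 ++ d ++ e`, `x2 = e ++ wR`
      obtain ⟨S', h7, h8⟩ := exec_split (u := w0 ++ (x1 ++ (d ++ d) ++ e)) (v := wR)
        (S := []) (R := []) (by
          have := exec_dyck hdy []
          rw [h6] at this
          simpa using this)
      have h9 : S' = S := exec_inj h8 hSR
      subst h9
      refine main _ wR ?_ S' h7
      rw [h6]; simp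
    · -- `x1 ++ d = c ++ e`
      refine main wL (e ++ (d ++ x2)) ?_ S hS
      have : x1 ++ (d ++ d) ++ x2 = (x1 ++ d) ++ (d ++ x2) := by simp
      rw [this, h5, h3]
      simp

/-- exchanging a factor -/
theorem exchange (hT : ∀ z ∈ L0, ∀ v, T.rel z v → DyP v) {w : List Br}
    {s r t f : T.σ} (hs : T.start s) (hf : T.acc f) {zA zB : List (Option Lam)}
    {wA x wB : List Br} (hw : w = wA ++ (x ++ wB)) (hwd : DyP w) (hA : T.Run s zA wA r)
    (hB : T.Run t zB wB f) {zM' : List (Option Lam)} {x' : List Br} (hM : T.Run r zM' x' t)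
    (hL : zA ++ (zM' ++ zB) ∈ L0) :
    Near x'.length (stk w wA.length) (stk w (wA.length + x.length)) := by
  have h1 := exec_dyck hwd []
  rw [hw] at h1
  obtain ⟨S, h2, h3⟩ := exec_split h1
  obtain ⟨S1, h4, h5⟩ := exec_split h3
  have e1 : stk w wA.length = S := stk_eq hw h2
  have e2 : stk w (wA.length + x.length) = S1 := by
    have := stk_eq (w := w) (u := wA ++ x) (v := wB) (by rw [hw]; simp) (exec_join h2 h4)
    rw [List.length_append] at this
    exact this
  have hdy := hT _ hL _ ⟨s, f, hs, hf, hA.trans (hM.trans hB)⟩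
  obtain ⟨S', h6, h7⟩ := exec_split (exec_dyck hdy [])
  rw [h2] at h6
  obtain rfl := Option.some.inj h6
  obtain ⟨S1', h8, h9⟩ := exec_split h7
  have : S1' = S1 := exec_inj h9 h5
  subst this
  rw [e1, e2]
  exact near_exec h8

/-- a run on a low tree gives a decomposition -/
theorem dc_of_run (hT : ∀ z ∈ L0, ∀ v, T.rel z v → DyP v) {w : List Br} (hwd : DyP w) (n C : ℕ)
    (hC1 : ∀ r t : T.σ, ∀ l ≤ n, (∃ ξ x, W l ξ ∧ T.Run r (enc ξ) x t) →
      ∃ ξ x, W l ξ ∧ T.Run r (enc ξ) x t ∧ x.length ≤ C)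
    (hC2 : ∀ r t : T.σ, ∀ a : Lam, ∀ k ≤ n, (∃ x, T.Run r (some a :: List.replicate k none) x t) →
      ∃ x, T.Run r (some a :: List.replicate k none) x t ∧ x.length ≤ C)
    (hC3 : ∀ r t : T.σ, (∃ x, T.Run r [] x t) → ∃ x, T.Run r [] x t ∧ x.length ≤ C) :
    (∀ (a : Lam) (k : ℕ), k ≤ n → ∀ (s r t f : T.σ) (zA zB : List (Option Lam))
      (wA x wB : List Br), T.start s → T.acc f → w = wA ++ (x ++ wB) → T.Run s zA wA r →
      T.Run r (enc [(a, k)]) x t → T.Run t zB wB f → zA ++ (enc [(a, k)] ++ zB) ∈ L0 →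
      Flat (stk w) C wA.length (wA.length + x.length)) ∧
    ∀ {l : ℕ} {ζ : List Tok}, W l ζ → l ≤ n → ∀ (s r t f : T.σ) (zA zB : List (Option Lam))
      (wA x wB : List Br), T.start s → T.acc f → w = wA ++ (x ++ wB) → T.Run s zA wA r →
      T.Run r (enc ζ) x t → T.Run t zB wB f → (∀ ξ, W l ξ → zA ++ (enc ξ ++ zB) ∈ L0) →
      Dc (stk w) C l wA.length (wA.length + x.length) := by
  have hflat : ∀ (a : Lam) (k : ℕ), k ≤ n → ∀ (s r t f : T.σ) (zA zB : List (Option Lam))
      (wA x wB : List Br), T.start s → T.acc f → w = wA ++ (x ++ wB) → T.Run s zA wA r →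
      T.Run r (enc [(a, k)]) x t → T.Run t zB wB f → zA ++ (enc [(a, k)] ++ zB) ∈ L0 →
      Flat (stk w) C wA.length (wA.length + x.length) := by
    intro a k hk s r t f zA zB wA x wB hs hf hw hA hM hB hL
    refine ⟨Nat.le_add_right _ _, fun τ hτ1 hτ2 => ?_⟩
    obtain ⟨x1, x2, hx, hτ⟩ : ∃ x1 x2, x = x1 ++ x2 ∧ τ = wA.length + x1.length := by
      refine ⟨x.take (τ - wA.length), x.drop (τ - wA.length), (List.take_append_drop _ _).symm, ?_⟩
      rw [List.length_take]; omega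
    subst hx hτ
    obtain ⟨q, z1, z2, hz, h1, h2⟩ := run_split_out T hM _ _ rfl
    rw [enc_cons, enc_nil, List.append_nil] at hz
    -- a short replacement
    have hrep : ∃ x', T.Run r z1 x' q ∧ x'.length ≤ C := by
      rcases z1 with _ | ⟨b, z1⟩
      · exact hC3 r q ⟨x1, h1⟩
      · simp only [List.cons_append, List.cons.injEq] at hz
        obtain ⟨hb, hz⟩ := hz
        have hz1 : z1 = List.replicate z1.length none := by
          have := List.append_eq_replicate_iff.1 hz.symm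
          exact this.2.1
        have hlen := congrArg List.length hz
        simp only [List.length_replicate, List.length_append] at hlen
        have hb' : b = some a := hb.symm
        subst hb'
        have := hC2 r q a z1.length (by omega) ⟨x1, by rw [← hz1]; exact h1⟩
        rw [← hz1] at this
        exact this
    obtain ⟨x', hx', hlen⟩ := hrep
    have hw' : w = wA ++ (x1 ++ (x2 ++ wB)) := by rw [hw]; simp
    have hL' : zA ++ (z1 ++ (z2 ++ zB)) ∈ L0 := by
      rw [enc_cons, enc_nil, List.append_nil, hz] at hL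
      simpa using hL
    exact (exchange T hT hs hf hw' hwd hA (h2.trans hB) hx' hL').mono hlen
  refine ⟨hflat, ?_⟩
  intro l ζ hW
  -- the ends of a tree are close
  have hnear : ∀ {l : ℕ} {ζ : List Tok}, W l ζ → l ≤ n → ∀ (s r t f : T.σ)
      (zA zB : List (Option Lam))
      (wA x wB : List Br), T.start s → T.acc f → w = wA ++ (x ++ wB) → T.Run s zA wA r →
      T.Run r (enc ζ) x t → T.Run t zB wB f → (∀ ξ, W l ξ → zA ++ (enc ξ ++ zB) ∈ L0) →
      Near C (stk w wA.length) (stk w (wA.length + x.length)) := by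
    intro l ζ hW hl s r t f zA zB wA x wB hs hf hw hA hM hB hL
    obtain ⟨ξ, x', hξ, hx', hlen⟩ := hC1 r t l hl ⟨ζ, x, hW, hM⟩
    exact (exchange T hT hs hf hw hwd hA hB hx' (hL ξ hξ)).mono hlen
  induction hW with
  | @leaf l =>
    intro hl s r t f zA zB wA x wB hs hf hw hA hM hB hL
    exact Dc.flat (hflat _ _ hl s r t f zA zB wA x wB hs hf hw hA hM hB (hL _ W.leaf))
  | @bit l ζ hζ ih =>
    intro hl s r t f zA zB wA x wB hs hf hw hA hM hB hL
    have hn := hnear (W.bit hζ) hl s r t f zA zB wA x wB hs hf hw hA hM hB hL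
    have eζ : ∀ ξ, enc ((Lam.o, l) :: (ξ ++ [(Lam.c, l)])) =
        enc [(Lam.o, l)] ++ (enc ξ ++ enc [(Lam.c, l)]) := by
      intro ξ
      rw [← enc_append, ← enc_append]; rfl
    have hM' := hM
    rw [eζ] at hM'
    obtain ⟨r1, x1, x', rfl, m1, m'⟩ := run_split_in T hM' _ _ rfl
    obtain ⟨r2, x2, x3, rfl, m2, m3⟩ := run_split_in T m' _ _ rfl
    have hLζ := hL _ (W.bit hζ)
    rw [eζ] at hLζ
    have f1 := hflat Lam.o l hl s r r1 f zA (enc ζ ++ enc [(Lam.c, l)] ++ zB) wA x1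
      (x2 ++ x3 ++ wB) hs hf (by rw [hw]; simp) hA m1 ((m2.trans m3).trans hB)
      (by simpa using hLζ)
    have f2 := ih hl s r1 r2 f (zA ++ enc [(Lam.o, l)]) (enc [(Lam.c, l)] ++ zB) (wA ++ x1) x2
      (x3 ++ wB) hs hf (by rw [hw]; simp) (hA.trans m1) m2 (m3.trans hB) (by
        intro ξ hξ
        have := hL _ (W.bit hξ)
        rw [eζ] at this
        simpa using this)
    have f3 := hflat Lam.c l hl s r2 t f (zA ++ enc [(Lam.o, l)] ++ enc ζ) zB (wA ++ x1 ++ x2) x3
      wB hs hf (by rw [hw]; simp) ((hA.trans m1).trans m2) m3 hB (by simpa using hLζ)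
    simp only [List.length_append, ← Nat.add_assoc] at f1 f2 f3 hn ⊢
    exact Dc.bit f1 f2 f3 hn
  | @node l u v y hu hv hy ihu ihv ihy =>
    intro hl s r t f zA zB wA x wB hs hf hw hA hM hB hL
    have hn := hnear (W.node hu hv hy) hl s r t f zA zB wA x wB hs hf hw hA hM hB hL
    have eζ : ∀ u v y, enc ((Lam.p, l + 1) :: (u ++ (Lam.q, l + 1) :: (v ++ (Lam.p, l + 1) ::
        (y ++ [(Lam.q, l + 1)])))) =
        enc [(Lam.p, l + 1)] ++ (enc u ++ (enc [(Lam.q, l + 1)] ++ (enc v ++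
        (enc [(Lam.p, l + 1)] ++ (enc y ++ enc [(Lam.q, l + 1)]))))) := by
      intro u v y
      simp only [← enc_append, List.singleton_append]
    have hM' := hM
    rw [eζ] at hM'
    obtain ⟨r1, x1, x', rfl, m1, m'⟩ := run_split_in T hM' _ _ rfl
    obtain ⟨r2, x2, x', rfl, m2, m'⟩ := run_split_in T m' _ _ rfl
    obtain ⟨r3, x3, x', rfl, m3, m'⟩ := run_split_in T m' _ _ rfl
    obtain ⟨r4, x4, x', rfl, m4, m'⟩ := run_split_in T m' _ _ rfl
    obtain ⟨r5, x5, x', rfl, m5, m'⟩ := run_split_in T m' _ _ rfl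
    obtain ⟨r6, x6, x7, rfl, m6, m7⟩ := run_split_in T m' _ _ rfl
    have hLζ := hL _ (W.node hu hv hy)
    rw [eζ] at hLζ
    have f1 := hflat Lam.p (l + 1) hl s r r1 f zA _ wA x1
      (x2 ++ (x3 ++ (x4 ++ (x5 ++ (x6 ++ (x7 ++ wB)))))) hs hf (by rw [hw]; simp) hA m1
      (m2.trans (m3.trans (m4.trans (m5.trans (m6.trans (m7.trans hB))))))
      (by simpa using hLζ)
    have f2 := ihu (by omega) s r1 r2 f (zA ++ enc [(Lam.p, l + 1)]) _ (wA ++ x1) x2
      (x3 ++ (x4 ++ (x5 ++ (x6 ++ (x7 ++ wB))))) hs hf (by rw [hw]; simp) (hA.trans m1) m2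
      (m3.trans (m4.trans (m5.trans (m6.trans (m7.trans hB))))) (by
        intro ξ hξ
        have := hL _ (W.node hξ hv hy)
        rw [eζ] at this
        simpa using this)
    have f3 := hflat Lam.q (l + 1) hl s r2 r3 f (zA ++ enc [(Lam.p, l + 1)] ++ enc u) _
      (wA ++ x1 ++ x2) x3 (x4 ++ (x5 ++ (x6 ++ (x7 ++ wB)))) hs hf (by rw [hw]; simp)
      ((hA.trans m1).trans m2) m3
      (m4.trans (m5.trans (m6.trans (m7.trans hB)))) (by simpa using hLζ)
    have f4 := ihv hl s r3 r4 f (zA ++ enc [(Lam.p, l + 1)] ++ enc u ++ enc [(Lam.q, l + 1)]) _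
      (wA ++ x1 ++ x2 ++ x3) x4 (x5 ++ (x6 ++ (x7 ++ wB))) hs hf (by rw [hw]; simp)
      (((hA.trans m1).trans m2).trans m3) m4
      (m5.trans (m6.trans (m7.trans hB))) (by
        intro ξ hξ
        have := hL _ (W.node hu hξ hy)
        rw [eζ] at this
        simpa using this)
    have f5 := hflat Lam.p (l + 1) hl s r4 r5 f
      (zA ++ enc [(Lam.p, l + 1)] ++ enc u ++ enc [(Lam.q, l + 1)] ++ enc v) _
      (wA ++ x1 ++ x2 ++ x3 ++ x4) x5 (x6 ++ (x7 ++ wB)) hs hf (by rw [hw]; simp)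
      ((((hA.trans m1).trans m2).trans m3).trans m4) m5
      (m6.trans (m7.trans hB)) (by simpa using hLζ)
    have f6 := ihy (by omega) s r5 r6 f
      (zA ++ enc [(Lam.p, l + 1)] ++ enc u ++ enc [(Lam.q, l + 1)] ++ enc v ++
        enc [(Lam.p, l + 1)]) _
      (wA ++ x1 ++ x2 ++ x3 ++ x4 ++ x5) x6 (x7 ++ wB) hs hf (by rw [hw]; simp)
      (((((hA.trans m1).trans m2).trans m3).trans m4).trans m5) m6
      (m7.trans hB) (by
        intro ξ hξ
        have := hL _ (W.node hu hv hξ)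
        rw [eζ] at this
        simpa using this)
    have f7 := hflat Lam.q (l + 1) hl s r6 t f
      (zA ++ enc [(Lam.p, l + 1)] ++ enc u ++ enc [(Lam.q, l + 1)] ++ enc v ++
        enc [(Lam.p, l + 1)] ++ enc y) zB
      (wA ++ x1 ++ x2 ++ x3 ++ x4 ++ x5 ++ x6) x7 wB hs hf (by rw [hw]; simp)
      ((((((hA.trans m1).trans m2).trans m3).trans m4).trans m5).trans m6) m7
      hB (by simpa using hLζ)
    simp only [List.length_append, ← Nat.add_assoc] at f1 f2 f3 f4 f5 f6 f7 hn ⊢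
    exact Dc.node f1 f2 f3 f4 f5 f6 f7 hn

end

/-- The Dyck language is not in the cone of `L0`. -/
theorem not_inCone_Dyck : ¬ InCone L0 Dyck := by
  classical
  intro h
  obtain ⟨T, hT0⟩ := h.exists_tr
  have := T.fin
  have hT : ∀ z ∈ L0, ∀ v, T.rel z v → DyP v := fun z hz v hv => (hT0 v).2 ⟨z, hz, hv⟩
  obtain ⟨C0, hC0⟩ := err_bound T hT
  let n := Fintype.card T.σ
  obtain ⟨C1, hC1⟩ := one_bound (ι := T.σ × T.σ × Fin (n + 1)) (α := List Tok × List Br)
    (fun i x => W i.2.2 x.1 ∧ T.Run i.1 (enc x.1) x.2 i.2.1) (fun x => x.2.length)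
  obtain ⟨C2, hC2⟩ := one_bound (ι := T.σ × T.σ × Lam × Fin (n + 1)) (α := List Br)
    (fun i x => T.Run i.1 (some i.2.2.1 :: List.replicate (i.2.2.2 : ℕ) none) x i.2.1)
    (fun x => x.length)
  obtain ⟨C3, hC3⟩ := one_bound (ι := T.σ × T.σ) (α := List Br)
    (fun i x => T.Run i.1 [] x i.2) (fun x => x.length)
  let C := max C1 (max C2 C3)
  let N := 6 * C + C0 + 10
  let w := wk N (n + 1)
  have hwd : DyP w := wk_dyck N (n + 1)
  obtain ⟨z, hz, s, f, hs, hf, hrun⟩ := (hT0 w).1 hwd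
  -- the stack after `N` steps
  have hwN : ∃ wR, w = List.replicate N (true, true) ++ wR := ⟨_, rfl⟩
  obtain ⟨wR, hwR⟩ := hwN
  have hexec : exec (List.replicate N (true, true)) [] = some (List.replicate N true) := by
    have := exec_push true N []
    simpa using this
  have hexecR : exec wR (List.replicate N true) = some [] := by
    have := exec_dyck hwd []
    rw [hwR] at this
    obtain ⟨S', h1, h2⟩ := exec_split this
    rw [hexec] at h1
    rw [Option.some.inj h1]; exact h2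
  obtain ⟨ζ, rfl, hζ⟩ := hz
  by_cases hok : Ok ζ
  swap
  · have := hC0 ζ hok s f hs hf w hrun _ _ hwR _ hexec
    simp only [List.length_replicate] at this
    omega
  rcases hζ with hζ | ⟨w0, hw0, hζ⟩
  · exact absurd hok hζ
  obtain ⟨⟨a, k0⟩, ζ', rfl, ha, hζ'⟩ := List.map_eq_cons_iff.1 hζ
  simp only at ha
  subst ha
  obtain ⟨l, hl⟩ := coherent hw0 ζ' hζ' (Ok_tail hok)
  have hk0 := level_head hl (Lam.p, k0) [] (by rw [List.append_nil]; exact hok)
  simp only [dec] at hk0
  subst hk0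
  by_cases hhigh : Fintype.card T.σ ≤ l + 1
  · have := high_bound T hT C0 hC0 l ζ' hl hhigh s f hs hf _ _ (by rw [← hwR]; exact hrun) _
      hexec hexecR
    simp only [List.length_replicate] at this
    omega
  -- low levels
  have hln : l + 1 ≤ n := by omega
  obtain ⟨hflat, hdc⟩ := dc_of_run T hT hwd n C
    (fun r t l hl h => by
      obtain ⟨ξ, x, h1, h2⟩ := h
      obtain ⟨⟨ξ, x⟩, ⟨h3, h4⟩, h5⟩ := hC1 (r, t, ⟨l, by omega⟩) ⟨(ξ, x), h1, h2⟩
      exact ⟨ξ, x, h3, h4, h5.trans (le_max_left _ _)⟩)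
    (fun r t a k hk h => by
      obtain ⟨x, h1⟩ := h
      obtain ⟨x, h3, h5⟩ := hC2 (r, t, a, ⟨k, by omega⟩) ⟨x, h1⟩
      exact ⟨x, h3, h5.trans ((le_max_left _ _).trans (le_max_right _ _))⟩)
    (fun r t h => by
      obtain ⟨x, h1⟩ := h
      obtain ⟨x, h3, h5⟩ := hC3 (r, t) ⟨x, h1⟩
      exact ⟨x, h3, h5.trans ((le_max_right _ _).trans (le_max_right _ _))⟩)
  have eζ : ∀ ξ : List Tok, enc ((Lam.p, l + 1) :: ξ) = enc [(Lam.p, l + 1)] ++ enc ξ := by
    intro ξ
    rw [← enc_append]; rfl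
  have hrun' := hrun
  rw [eζ] at hrun'
  obtain ⟨r, wA, x, hx, m1, m2⟩ := run_split_in T hrun' _ _ rfl
  have hmem : ∀ ξ, W l ξ → enc ((Lam.p, l + 1) :: ξ) ∈ L0 := by
    intro ξ hξ
    exact ⟨_, rfl, Or.inr ⟨_, W_Tree hξ, rfl⟩⟩
  have g1 := hflat Lam.p (l + 1) hln s s r f [] (enc ζ') [] wA x hs hf (by simpa using hx)
    (Tr.Run.nil s) m1 m2 (by
      have := hmem ζ' hl
      rw [eζ] at this
      simpa using this)
  have g2 := hdc hl (by omega) s r f f (enc [(Lam.p, l + 1)]) [] wA x [] hs hf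
    (by simpa using hx) m1 m2 (Tr.Run.nil f) (by
      intro ξ hξ
      have := hmem ξ hξ
      rw [eζ] at this
      simpa using this)
  have hnode : IsNode (stk w) N (n + 1) 0 w.length [] := isNode_root (by omega) (n + 1)
  have hwlen : wA.length + x.length = w.length := by rw [hx]; simp
  rw [hwlen] at g2
  -- the output of the first token is short
  have hwA : wA.length + (2 * C + 1) ≤ 0 + N := by
    by_contra hlt
    have h1 : ∀ t, t ≤ N → stk w (0 + t) = List.replicate t true ++ [] := by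
      obtain ⟨L, he, h1, -⟩ := hnode
      exact h1
    simp only [List.length_nil, Nat.zero_add] at g1
    exact flat_up (a := true) (U := []) (s := 0) h1 g1 (x := 0) (y := 2 * C + 1) (by omega)
      (by omega) (by omega) (by omega)
  have := dc_rank (by omega) g2 n 0 w.length [] hnode hwA (by omega)
  omega

end Pool.Agent.H643R2.Q
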