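import Pool.Agent.H643R2.QWalk

set_option autoImplicit false

/-!
# The walk of `wk N k` visits a binary tree
-/

namespace Pool.Agent.H643R2.Q

/-- the stack at time `i` -/
def stk (w : List Br) (i : ℕ) : List Bool := (exec (w.take i) []).getD []

theorem stk_eq {w u v : List Br} (h : w = u ++ v) {S : List Bool} (hS : exec u [] = some S) :
    stk w u.length = S := by
  subst h
  simp [stk, hS]

/-- the stack inside a factor -/
theorem stk_mid {w u x v : List Br} (h : w = u ++ (x ++ v)) {U : List Bool}
    (hU : exec u [] = some U) (t : ℕ) {S : List Bool}
    (hS : exec (x.take t) U = some S) (ht : t ≤ x.length) : stk w (u.length + t) = S := by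
  have h1 : w = (u ++ x.take t) ++ (x.drop t ++ v) := by
    rw [h, List.append_assoc, ← List.append_assoc (x.take t), List.take_append_drop]
  have h2 := stk_eq h1 (exec_join hU hS)
  rw [List.length_append, List.length_take, min_eq_left ht] at h2
  exact h2

theorem exec_push (c : Bool) (n : ℕ) (S : List Bool) :
    exec (List.replicate n (c, true)) S = some (List.replicate n c ++ S) := by
  induction n generalizing S with
  | zero => rfl
  | succ n ih =>
    rw [List.replicate_succ]
    show exec (List.replicate n (c, true)) (c :: S) = _
    rw [ih, List.replicate_succ', List.append_assoc]
    rfl

theorem exec_pop (c : Bool) (n m : ℕ) (h : m ≤ n) (S : List Bool) :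
    exec (List.replicate m (c, false)) (List.replicate n c ++ S) =
      some (List.replicate (n - m) c ++ S) := by
  induction m generalizing n with
  | zero => rfl
  | succ m ih =>
    obtain ⟨n, rfl⟩ : ∃ n', n = n' + 1 := ⟨n - 1, by omega⟩
    rw [List.replicate_succ (n := m), List.replicate_succ (n := n)]
    show (act (c, false) (c :: (List.replicate n c ++ S))).bind _ = _
    simp only [act, if_true, Option.bind_some]
    rw [ih n (by omega), Nat.add_sub_add_right]

theorem take_rep {A : Type} (n t : ℕ) (a : A) (h : t ≤ n) :
    (List.replicate n a).take t = List.replicate t a := by
  rw [List.take_replicate, min_eq_left h]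

theorem isNode_wk {N : ℕ} (hN : 1 ≤ N) (w : List Br) : ∀ (k : ℕ) (u v : List Br)
    (U : List Bool), w = u ++ (wk N k ++ v) → exec u [] = some U →
    (∀ t, (t ≤ u.length ∨ u.length + (wk N k).length ≤ t) → ∀ c, ¬ ((c :: U) <:+ stk w t)) →
    IsNode (stk w) N k u.length (u.length + (wk N k).length) U := by
  intro k
  induction k with
  | zero => intro u v U _ _ _; exact Nat.le_add_right _ _
  | succ k ih =>
    intro u v U hw hU hout
    have hlen : (wk N (k + 1)).length = 4 * N + 2 * (wk N k).length := by
      simp only [wk, List.length_append, List.length_replicate]
      omega
    rw [hlen] at hout ⊢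
    -- the pieces
    have e1 : exec (List.replicate N (true, true)) U = some (List.replicate N true ++ U) :=
      exec_push true N U
    have ew : ∀ S, exec (wk N k) S = some S := exec_dyck (wk_dyck N k)
    have e3 : exec (List.replicate N (true, false)) (List.replicate N true ++ U) = some U := by
      have := exec_pop true N N le_rfl U
      simpa using this
    have e4 : exec (List.replicate N (false, true)) U = some (List.replicate N false ++ U) :=
      exec_push false N U
    -- beginnings of w
    have w0 : w = u ++ (List.replicate N (true, true) ++ (wk N k ++
        (List.replicate N (true, false) ++ (List.replicate N (false, true) ++ (wk N k ++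
        (List.replicate N (false, false) ++ v)))))) := by
      rw [hw, wk]; simp
    have u1 : exec (u ++ List.replicate N (true, true)) [] = some (List.replicate N true ++ U) :=
      exec_join hU e1
    have w1 : w = (u ++ List.replicate N (true, true)) ++ (wk N k ++
        (List.replicate N (true, false) ++ (List.replicate N (false, true) ++ (wk N k ++
        (List.replicate N (false, false) ++ v))))) := by
      rw [w0]; simp
    have u2 : exec ((u ++ List.replicate N (true, true)) ++ wk N k) [] =
        some (List.replicate N true ++ U) := exec_join u1 (ew _)
    have w2 : w = ((u ++ List.replicate N (true, true)) ++ wk N k) ++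
        (List.replicate N (true, false) ++ (List.replicate N (false, true) ++ (wk N k ++
        (List.replicate N (false, false) ++ v)))) := by
      rw [w0]; simp
    have u3 : exec (((u ++ List.replicate N (true, true)) ++ wk N k) ++
        List.replicate N (true, false)) [] = some U := exec_join u2 e3
    have w3 : w = (((u ++ List.replicate N (true, true)) ++ wk N k) ++
        List.replicate N (true, false)) ++ (List.replicate N (false, true) ++ (wk N k ++
        (List.replicate N (false, false) ++ v))) := by
      rw [w0]; simp
    have u4 : exec ((((u ++ List.replicate N (true, true)) ++ wk N k) ++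
        List.replicate N (true, false)) ++ List.replicate N (false, true)) [] =
        some (List.replicate N false ++ U) := exec_join u3 e4
    have w4 : w = ((((u ++ List.replicate N (true, true)) ++ wk N k) ++
        List.replicate N (true, false)) ++ List.replicate N (false, true)) ++ (wk N k ++
        (List.replicate N (false, false) ++ v)) := by
      rw [w0]; simp
    have u5 : exec (((((u ++ List.replicate N (true, true)) ++ wk N k) ++
        List.replicate N (true, false)) ++ List.replicate N (false, true)) ++ wk N k) [] =
        some (List.replicate N false ++ U) := exec_join u4 (ew _)
    have w5 : w = (((((u ++ List.replicate N (true, true)) ++ wk N k) ++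
        List.replicate N (true, false)) ++ List.replicate N (false, true)) ++ wk N k) ++
        (List.replicate N (false, false) ++ v) := by
      rw [w0]; simp
    -- the six facts
    have h1 : ∀ t, t ≤ N → stk w (u.length + t) = List.replicate t true ++ U := by
      intro t ht
      apply stk_mid w0 hU t _ (by simpa using ht)
      rw [take_rep _ _ _ ht]; exact exec_push _ _ _
    have h2 : ∀ t, t ≤ N → stk w (u.length + N + (wk N k).length + t) =
        List.replicate (N - t) true ++ U := by
      intro t ht
      have := stk_mid w2 u2 t (S := List.replicate (N - t) true ++ U) ?_ (by simpa using ht)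
      · simp only [List.length_append, List.length_replicate] at this
        exact this
      · rw [take_rep _ _ _ ht]; exact exec_pop _ _ _ ht _
    have h3 : ∀ t, t ≤ N → stk w (u.length + 2 * N + (wk N k).length + t) =
        List.replicate t false ++ U := by
      intro t ht
      have := stk_mid w3 u3 t (S := List.replicate t false ++ U) ?_ (by simpa using ht)
      · simp only [List.length_append, List.length_replicate] at this
        rw [← this]
        congr 1
        omega
      · rw [take_rep _ _ _ ht]; exact exec_push _ _ _
    have h4 : ∀ t, t ≤ N → stk w (u.length + 3 * N + 2 * (wk N k).length + t) =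
        List.replicate (N - t) false ++ U := by
      intro t ht
      have := stk_mid w5 u5 t (S := List.replicate (N - t) false ++ U) ?_ (by simpa using ht)
      · simp only [List.length_append, List.length_replicate] at this
        rw [← this]
        congr 1
        omega
      · rw [take_rep _ _ _ ht]; exact exec_pop _ _ _ ht _
    have hin : ∀ t, t ≤ (wk N k).length → ∃ R, ∀ S, exec ((wk N k).take t) S = some (R ++ S) :=
      fun t _ => exec_begin (wk_dyck N k) _ _ (List.take_append_drop t _).symm
    have h5 : ∀ t, u.length + N ≤ t → t ≤ u.length + N + (wk N k).length →
        (List.replicate N true ++ U) <:+ stk w t := by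
      intro t ht1 ht2
      obtain ⟨R, hR⟩ := hin (t - (u.length + N)) (by omega)
      have := stk_mid w1 u1 (t - (u.length + N)) (hR _) (by omega)
      simp only [List.length_append, List.length_replicate] at this
      have e : u.length + N + (t - (u.length + N)) = t := by omega
      rw [e] at this
      rw [this]
      exact List.suffix_append _ _
    have h6 : ∀ t, u.length + 3 * N + (wk N k).length ≤ t →
        t ≤ u.length + 3 * N + 2 * (wk N k).length →
        (List.replicate N false ++ U) <:+ stk w t := by
      intro t ht1 ht2
      obtain ⟨R, hR⟩ := hin (t - (u.length + 3 * N + (wk N k).length)) (by omega)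
      have := stk_mid w4 u4 (t - (u.length + 3 * N + (wk N k).length)) (hR _) (by omega)
      simp only [List.length_append, List.length_replicate] at this
      have e : u.length + N + (wk N k).length + N + N +
        (t - (u.length + 3 * N + (wk N k).length)) = t := by omega
      rw [e] at this
      rw [this]
      exact List.suffix_append _ _
    -- outside of the children
    have sub : ∀ (c a : Bool), (a :: U) <:+ (c :: (List.replicate N a ++ U)) := by
      intro c a
      refine List.IsSuffix.trans ?_ (List.suffix_cons c _)
      obtain ⟨n, rfl⟩ : ∃ n, N = n + 1 := ⟨N - 1, by omega⟩
      rw [List.replicate_succ', List.append_assoc]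
      exact List.suffix_append _ _
    have short : ∀ (c a b : Bool) (n : ℕ), n ≤ N →
        ¬ ((c :: (List.replicate N a ++ U)) <:+ (List.replicate n b ++ U)) := by
      intro c a b n hn h
      have := h.length_le
      simp at this
      omega
    have cross : ∀ (c a b : Bool), a ≠ b → ∀ t, (List.replicate N b ++ U) <:+ stk w t →
        ¬ ((c :: (List.replicate N a ++ U)) <:+ stk w t) := by
      intro c a b hab t ht h
      have s1 := (sub c a).trans h
      have s2 : (b :: U) <:+ stk w t := by
        refine List.IsSuffix.trans ?_ ht
        obtain ⟨n, rfl⟩ : ∃ n, N = n + 1 := ⟨N - 1, by omega⟩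
        rw [List.replicate_succ', List.append_assoc]
        exact List.suffix_append _ _
      have s3 := List.suffix_of_suffix_length_le s1 s2 (by simp)
      have s4 := s3.eq_of_length (by simp)
      exact hab (List.cons.inj s4).1
    have hout1 : ∀ t, (t ≤ u.length + N ∨ u.length + N + (wk N k).length ≤ t) → ∀ c,
        ¬ ((c :: (List.replicate N true ++ U)) <:+ stk w t) := by
      intro t ht c
      by_cases a1 : t ≤ u.length
      · intro h; exact hout t (Or.inl a1) true ((sub c true).trans h)
      by_cases a2 : u.length + (4 * N + 2 * (wk N k).length) ≤ t
      · intro h; exact hout t (Or.inr a2) true ((sub c true).trans h)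
      by_cases a3 : t ≤ u.length + N
      · have e : t = u.length + (t - u.length) := by omega
        rw [e, h1 _ (by omega)]
        exact short _ _ _ _ (by omega)
      have a4 : u.length + N + (wk N k).length ≤ t := by omega
      by_cases a5 : t ≤ u.length + 2 * N + (wk N k).length
      · have e : t = u.length + N + (wk N k).length + (t - (u.length + N + (wk N k).length)) := by
          omega
        rw [e, h2 _ (by omega)]
        exact short _ _ _ _ (by omega)
      by_cases a6 : t ≤ u.length + 3 * N + (wk N k).length
      · have e : t = u.length + 2 * N + (wk N k).length +
            (t - (u.length + 2 * N + (wk N k).length)) := by omega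
        rw [e, h3 _ (by omega)]
        exact short _ _ _ _ (by omega)
      by_cases a7 : t ≤ u.length + 3 * N + 2 * (wk N k).length
      · exact cross c true false (by simp) t (h6 t (by omega) a7)
      · have e : t = u.length + 3 * N + 2 * (wk N k).length +
            (t - (u.length + 3 * N + 2 * (wk N k).length)) := by omega
        rw [e, h4 _ (by omega)]
        exact short _ _ _ _ (by omega)
    have hout2 : ∀ t, (t ≤ u.length + 3 * N + (wk N k).length ∨
        u.length + 3 * N + 2 * (wk N k).length ≤ t) → ∀ c,
        ¬ ((c :: (List.replicate N false ++ U)) <:+ stk w t) := by
      intro t ht c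
      by_cases a1 : t ≤ u.length
      · intro h; exact hout t (Or.inl a1) false ((sub c false).trans h)
      by_cases a2 : u.length + (4 * N + 2 * (wk N k).length) ≤ t
      · intro h; exact hout t (Or.inr a2) false ((sub c false).trans h)
      by_cases a3 : t ≤ u.length + N
      · have e : t = u.length + (t - u.length) := by omega
        rw [e, h1 _ (by omega)]
        exact short _ _ _ _ (by omega)
      by_cases a4 : t ≤ u.length + N + (wk N k).length
      · exact cross c false true (by simp) t (h5 t (by omega) a4)
      by_cases a5 : t ≤ u.length + 2 * N + (wk N k).length
      · have e : t = u.length + N + (wk N k).length + (t - (u.length + N + (wk N k).length)) := by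
          omega
        rw [e, h2 _ (by omega)]
        exact short _ _ _ _ (by omega)
      by_cases a6 : t ≤ u.length + 3 * N + (wk N k).length
      · have e : t = u.length + 2 * N + (wk N k).length +
            (t - (u.length + 2 * N + (wk N k).length)) := by omega
        rw [e, h3 _ (by omega)]
        exact short _ _ _ _ (by omega)
      · have e : t = u.length + 3 * N + 2 * (wk N k).length +
            (t - (u.length + 3 * N + 2 * (wk N k).length)) := by omega
        rw [e, h4 _ (by omega)]
        exact short _ _ _ _ (by omega)
    refine ⟨(wk N k).length, by omega, h1, h2, h3, h4, h5, h6, ?_, ?_, ?_⟩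
    · intro t ht c
      exact hout t ht c
    · have := ih _ _ _ w1 u1 (by
        simp only [List.length_append, List.length_replicate]
        exact hout1)
      simp only [List.length_append, List.length_replicate] at this
      exact this
    · have := ih _ _ _ w4 u4 (by
        simp only [List.length_append, List.length_replicate]
        intro t ht
        exact hout2 t (by omega))
      simp only [List.length_append, List.length_replicate] at this
      have e1 : u.length + N + (wk N k).length + N + N = u.length + 3 * N + (wk N k).length := by
        omega
      have e2 : u.length + N + (wk N k).length + N + N + (wk N k).length =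
        u.length + 3 * N + 2 * (wk N k).length := by omega
      rw [e2, e1] at this
      exact this

theorem isNode_root {N : ℕ} (hN : 1 ≤ N) (k : ℕ) :
    IsNode (stk (wk N k)) N k 0 (wk N k).length [] := by
  have := isNode_wk hN (wk N k) k [] [] [] (by simp) rfl ?_
  · simpa using this
  · intro t ht c h
    have h0 : stk (wk N k) t = [] := by
      rcases ht with ht | ht
      · have : t = 0 := by simpa using ht
        subst this
        rfl
      · simp only [List.length_nil, Nat.zero_add] at ht
        unfold stk
        rw [List.take_of_length_le ht, exec_dyck (wk_dyck N k)]
        rfl
    rw [h0] at h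
    simp at h

end Pool.Agent.H643R2.Q
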