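import Pool.Agent.H643R2.QSys

set_option autoImplicit false

/-!
# Quasi-rational languages are in the cone of `L0`
-/

namespace Pool.Agent.H643R2.Q

open Pool.Agent.Helper288.Cone

/-! ### regular languages -/

theorem univ_reg {A : Type} : Language.IsRegular (⊤ : Language A) := by
  apply Language.IsRegular.of_finite_range_leftQuotient
  have h : Set.range (⊤ : Language A).leftQuotient ⊆ {(⊤ : Language A)} := by
    rintro _ ⟨x, rfl⟩
    apply Language.ext
    intro y
    exact ⟨fun _ => Set.mem_univ y, fun _ => Set.mem_univ (x ++ y)⟩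
  exact (Set.finite_singleton _).subset h

/-- words beginning with `a0`, with related adjacent letters -/
def Loc {A : Type} (R : A → A → Prop) (a0 : A) : Language A :=
  {z | ∃ v, z = a0 :: v ∧ (a0 :: v).IsChain R}

theorem loc_reg {A : Type} [Finite A] (R : A → A → Prop) (a0 : A) : (Loc R a0).IsRegular := by
  apply Language.IsRegular.of_finite_range_leftQuotient
  have h : Set.range (Loc R a0).leftQuotient ⊆ {Loc R a0, 0} ∪
      Set.range (fun a : A => ({y | (a :: y).IsChain R} : Language A)) := by
    rintro _ ⟨x, rfl⟩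
    rcases List.eq_nil_or_concat x with rfl | ⟨x, b, rfl⟩
    · exact Or.inl (Or.inl (Language.leftQuotient_nil _))
    · rw [List.concat_eq_append]
      by_cases hx : x ++ [b] ∈ Loc R a0
      · right
        refine ⟨b, ?_⟩
        apply Language.ext
        intro y
        rw [Language.mem_leftQuotient]
        obtain ⟨v, hv, hch⟩ := hx
        constructor
        · intro hy
          have hy' : (b :: y).IsChain R := hy
          refine ⟨v ++ y, ?_, ?_⟩
          · rw [hv]; rfl
          · rw [← List.cons_append, ← hv, List.append_assoc, List.singleton_append,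
              List.isChain_split]
            rw [hv]
            exact ⟨hch, hy'⟩
        · rintro ⟨v', hv', hch'⟩
          rw [← hv', List.append_assoc, List.singleton_append, List.isChain_split] at hch'
          exact hch'.2
      · left; right
        apply Language.ext
        intro y
        rw [Language.mem_leftQuotient]
        constructor
        · rintro ⟨v', hv', hch'⟩
          exfalso
          apply hx
          rw [← hv', List.append_assoc, List.singleton_append, List.isChain_split] at hch'
          rcases x with _ | ⟨c, x⟩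
          · simp only [List.nil_append, List.cons_append, List.cons.injEq] at hv'
            refine ⟨[], ?_, ?_⟩
            · rw [hv'.1]; rfl
            · exact List.isChain_singleton _
          · simp only [List.cons_append, List.cons.injEq] at hv'
            refine ⟨x ++ [b], ?_, ?_⟩
            · rw [hv'.1]; rfl
            · rw [← hv'.1]; exact hch'.1
        · intro hy; exact absurd hy (Language.notMem_zero y)
  refine Set.Finite.subset ?_ h
  exact (Set.toFinite _).union (Set.finite_range _)

/-! ### bounded levels -/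

/-- forgetting the bound -/
def toTok {K : ℕ} (t : Lam × Fin K) : Tok := (t.1, (t.2 : ℕ))

/-- trees of level `K`, over a finite alphabet -/
def RK (K : ℕ) : Language (Lam × Fin (K + 1)) := {v | W K (v.map toTok)}

theorem chain_and {A : Type} (R : A → A → Prop) (P : A → Prop) (a : A) (v : List A) :
    (a :: v).IsChain (fun x y => R x y ∧ P y) ↔ (a :: v).IsChain R ∧ ∀ b ∈ v, P b := by
  induction v generalizing a with
  | nil => simp
  | cons b v ih =>
    rw [List.isChain_cons_cons, ih, List.isChain_cons_cons]
    simp only [List.mem_cons, forall_eq_or_imp]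
    tauto

theorem flatMap_enc {K : ℕ} (z : List (Lam × Fin K)) :
    z.flatMap (fun t => some t.1 :: List.replicate (t.2 : ℕ) none) = enc (z.map toTok) := by
  rw [enc, List.flatMap_map]
  rfl

/-- the lower letters -/
def low (K : ℕ) (t : Lam × Fin (K + 2)) : List (Lam × Fin (K + 1)) :=
  if h : (t.2 : ℕ) < K + 1 then [(t.1, ⟨t.2, h⟩)] else []

theorem low_map (K : ℕ) (z : List (Lam × Fin (K + 2))) (h : ∀ t ∈ z, (t.2 : ℕ) < K + 1) :
    (z.flatMap (low K)).map toTok = z.map toTok := by
  induction z with
  | nil => rfl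
  | cons t z ih =>
    rw [List.flatMap_cons, List.map_append, ih (fun s hs => h s (List.mem_cons_of_mem _ hs)),
      low, dif_pos (h t List.mem_cons_self)]
    rfl

theorem inCone_RK (K : ℕ) : InCone L0 (RK K) := by
  refine ⟨Lam × Fin (K + 2), inferInstance,
    fun t => some t.1 :: List.replicate (t.2 : ℕ) none, low K,
    Loc (fun t t' => Adj (toTok t) (toTok t') ∧ (t'.2 : ℕ) < K + 1) (Lam.p, Fin.last _),
    loc_reg _ _, ?_⟩
  apply Language.ext
  intro v
  constructor
  · intro hv
    have hv' : W K (v.map toTok) := hv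
    let v2 : List (Lam × Fin (K + 2)) := v.map (fun t => (t.1, t.2.castSucc))
    have e1 : v2.map toTok = v.map toTok := by
      simp only [v2, List.map_map]
      rfl
    have hlt : ∀ t ∈ v2, (t.2 : ℕ) < K + 1 := by
      intro t ht
      simp only [v2, List.mem_map] at ht
      obtain ⟨s, _, rfl⟩ := ht
      exact s.2.2
    refine ⟨(Lam.p, Fin.last _) :: v2, ⟨v2, rfl, ?_⟩, ?_, ?_⟩
    · rw [chain_and (fun t t' => Adj (toTok t) (toTok t')) (fun t => (t.2 : ℕ) < K + 1)]
      refine ⟨?_, hlt⟩
      rw [← List.isChain_map toTok, List.map_cons, e1]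
      have := Ok_cons_W hv' (Lam.p, K + 1) [] rfl (by rw [List.append_nil]; exact W_Ok hv')
      rw [List.append_nil] at this
      exact this
    · rw [flatMap_enc]
      refine ⟨_, rfl, Or.inr ⟨_, W_Tree hv', ?_⟩⟩
      rw [List.map_cons, e1]
      rfl
    · rw [List.flatMap_cons]
      have e2 : low K (Lam.p, Fin.last (K + 1)) = [] := by
        rw [low, dif_neg]; simp
      rw [e2, List.nil_append]
      have : v2.flatMap (low K) = v := by
        simp only [v2]
        rw [List.flatMap_map]
        have : (fun a : Lam × Fin (K + 1) => low K (a.1, a.2.castSucc)) = fun a => [a] := by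
          funext a
          rw [low, dif_pos]
          · rfl
        rw [this]
        simp
      exact this
  · rintro ⟨z, ⟨v', rfl, hch⟩, hz, rfl⟩
    rw [chain_and (fun t t' => Adj (toTok t) (toTok t')) (fun t => (t.2 : ℕ) < K + 1)] at hch
    obtain ⟨hch, hlt⟩ := hch
    rw [← List.isChain_map toTok] at hch
    rw [flatMap_enc] at hz
    obtain ⟨ζ, h1, h2⟩ := hz
    have h3 := enc_inj _ _ h1
    subst h3
    rcases h2 with h2 | ⟨w, hw, h2⟩
    · exact absurd hch h2
    · rw [List.map_cons] at hch h2
      simp only [List.map_cons, List.cons.injEq] at h2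
      obtain ⟨l, hl⟩ := coherent hw _ h2.2 (Ok_tail hch)
      have h4 := level_head hl (toTok (Lam.p, Fin.last (K + 1))) []
        (by rw [List.append_nil]; exact hch)
      have h5 : l + 1 = K + 1 := h4
      obtain rfl : l = K := by omega
      show W l (List.map toTok (List.flatMap (low l) ((Lam.p, Fin.last (l + 1)) :: v')))
      rw [List.flatMap_cons]
      have e2 : low l (Lam.p, Fin.last (l + 1)) = [] := by
        rw [low, dif_neg]; simp
      rw [e2, List.nil_append, low_map l v' hlt]
      exact hl

/-- top letters and lower letters -/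
def sep (K : ℕ) (t : Lam × Fin (K + 2)) : Lam ⊕ (Lam × Fin (K + 1)) :=
  if h : (t.2 : ℕ) < K + 1 then Sum.inr (t.1, ⟨t.2, h⟩) else Sum.inl t.1

theorem sep_low (K : ℕ) (z : List (Lam × Fin (K + 2))) (h : ∀ t ∈ z, (t.2 : ℕ) < K + 1) :
    z.map (sep K) = (z.flatMap (low K)).map Sum.inr := by
  induction z with
  | nil => rfl
  | cons t z ih =>
    rw [List.map_cons, List.flatMap_cons, List.map_append,
      ih (fun s hs => h s (List.mem_cons_of_mem _ hs)), low, sep,
      dif_pos (h t List.mem_cons_self), dif_pos (h t List.mem_cons_self)]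
    rfl

theorem sep_top (K : ℕ) (t : Lam × Fin (K + 2)) (a : Lam) (h : toTok t = (a, K + 1)) :
    sep K t = Sum.inl a := by
  have h1 : t.1 = a := congrArg Prod.fst h
  have h2 : (t.2 : ℕ) = K + 1 := congrArg Prod.snd h
  rw [sep, dif_neg (by omega), h1]

theorem Top_of_W (K l : ℕ) (ζ : List Tok) (h : W l ζ) : l = K + 1 →
    ∀ z : List (Lam × Fin (K + 2)), z.map toTok = ζ → TopP (RK K) (z.map (sep K)) := by
  induction h with
  | leaf =>
    rintro rfl z hz
    obtain ⟨t, rfl, h1⟩ := List.map_eq_singleton_iff.1 hz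
    rw [List.map_singleton, sep_top K t _ h1]
    exact TopP.leaf
  | @bit l w _ ih =>
    rintro rfl z hz
    obtain ⟨t, z1, rfl, h1, h2⟩ := List.map_eq_cons_iff.1 hz
    obtain ⟨z2, z3, rfl, h3, h4⟩ := List.map_eq_append_iff.1 h2
    obtain ⟨t', rfl, h5⟩ := List.map_eq_singleton_iff.1 h4
    rw [List.map_cons, List.map_append, List.map_singleton, sep_top K t _ h1, sep_top K t' _ h5]
    exact TopP.bit (ih rfl z2 h3)
  | @node l u v w hu _ hw _ ih _ =>
    intro hl z hz
    obtain rfl : l = K := by omega
    obtain ⟨t0, ζ1, rfl, e0, h⟩ := List.map_eq_cons_iff.1 hz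
    obtain ⟨ζu, ζ2, rfl, eu, h⟩ := List.map_eq_append_iff.1 h
    obtain ⟨t1, ζ3, rfl, e1, h⟩ := List.map_eq_cons_iff.1 h
    obtain ⟨ζv, ζ4, rfl, ev, h⟩ := List.map_eq_append_iff.1 h
    obtain ⟨t2, ζ5, rfl, e2, h⟩ := List.map_eq_cons_iff.1 h
    obtain ⟨ζw, ζ6, rfl, ew, h⟩ := List.map_eq_append_iff.1 h
    obtain ⟨t3, rfl, e3⟩ := List.map_eq_singleton_iff.1 h
    have hlow : ∀ (x : List Tok) (y : List (Lam × Fin (l + 2))), W l x → y.map toTok = x →
        ∀ t ∈ y, (t.2 : ℕ) < l + 1 := by
      intro x y hx hy t ht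
      have := W_levels hx (toTok t) (by rw [← hy]; exact List.mem_map_of_mem ht)
      exact Nat.lt_succ_of_le this
    simp only [List.map_cons, List.map_append, List.map_nil, sep_top l t0 _ e0,
      sep_top l t1 _ e1, sep_top l t2 _ e2, sep_top l t3 _ e3, sep_low l ζu (hlow _ _ hu eu),
      sep_low l ζw (hlow _ _ hw ew)]
    refine TopP.node ?_ (ih rfl ζv ev) ?_
    · show W l _
      rw [low_map l ζu (hlow _ _ hu eu), eu]; exact hu
    · show W l _
      rw [low_map l ζw (hlow _ _ hw ew), ew]; exact hw

/-- embedding into the higher alphabet -/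
def up (K : ℕ) : Lam ⊕ (Lam × Fin (K + 1)) → Lam × Fin (K + 2)
  | Sum.inl a => (a, Fin.last _)
  | Sum.inr t => (t.1, t.2.castSucc)

theorem sep_up (K : ℕ) (x : Lam ⊕ (Lam × Fin (K + 1))) : sep K (up K x) = x := by
  rcases x with a | t
  · simp [up, sep]
  · have := t.2.2
    simp [up, sep]
    omega

theorem up_low (K : ℕ) (u : List (Lam × Fin (K + 1))) :
    ((u.map Sum.inr).map (up K)).map toTok = u.map toTok := by
  simp only [List.map_map]
  rfl

theorem W_of_Top (K : ℕ) (y : List (Lam ⊕ (Lam × Fin (K + 1)))) (h : TopP (RK K) y) :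
    W (K + 1) ((y.map (up K)).map toTok) := by
  induction h with
  | leaf => exact W.leaf
  | @bit w _ ih =>
    simp only [List.map_cons, List.map_append, List.map_nil]
    exact W.bit ih
  | @node u w v hu _ hw ih =>
    simp only [List.map_cons, List.map_append, List.map_nil, up_low]
    exact W.node hu ih hw

theorem inCone_Top (K : ℕ) : InCone (RK (K + 1)) (Top (RK K)) := by
  refine ⟨Lam × Fin (K + 2), inferInstance, fun t => [t], fun t => [sep K t], ⊤, univ_reg, ?_⟩
  apply Language.ext
  intro y
  have e1 : ∀ z : List (Lam × Fin (K + 2)), z.flatMap (fun t => [t]) = z := by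
    intro z; simp
  have e2 : ∀ z : List (Lam × Fin (K + 2)), z.flatMap (fun t => [sep K t]) = z.map (sep K) := by
    intro z
    induction z with
    | nil => rfl
    | cons t z ih => rw [List.flatMap_cons, ih]; rfl
  constructor
  · intro hy
    refine ⟨y.map (up K), Set.mem_univ _, ?_, ?_⟩
    · rw [e1]; exact W_of_Top K y hy
    · rw [e2, List.map_map]
      have : sep K ∘ up K = id := funext (sep_up K)
      rw [this, List.map_id]
  · rintro ⟨z, -, hz, rfl⟩
    rw [e1] at hz
    rw [e2]
    exact Top_of_W K _ _ hz rfl z rfl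

/-! ### ranks -/

/-- languages of rank `K`: singletons, and solutions of linear systems over rank `K - 1` -/
def RankL (Y : Type) : ℕ → Language Y → Prop
  | 0 => fun L => ∃ w, L = {w}
  | K + 1 => fun L => ∃ (S : Sys Y) (A : S.NT), Finite S.Ru ∧ (∀ ρ, RankL Y K (S.B ρ)) ∧
      (∀ ρ, RankL Y K (S.C ρ)) ∧ L = {x | S.Sol A x}

theorem W_rep_d (k : ℕ) (h : W 0 (List.replicate k (Lam.d, 0))) : k = 1 := by
  rcases k with _ | _ | k
  · cases h
  · rfl
  · rw [List.replicate_succ, List.replicate_succ] at h
    cases h

theorem rank_inCone {Y : Type} [Fintype Y] : ∀ (K : ℕ) (L : Language Y), RankL Y K L →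
    InCone (RK K) L := by
  intro K
  induction K with
  | zero =>
    rintro L ⟨w, rfl⟩
    refine ⟨Unit, inferInstance, fun _ => [(Lam.d, 0)], fun _ => w, ⊤, univ_reg, ?_⟩
    have e1 : ∀ z : List Unit, (z.flatMap fun _ => [((Lam.d, 0) : Lam × Fin 1)]) =
        List.replicate z.length (Lam.d, 0) := by
      intro z
      induction z with
      | nil => rfl
      | cons t z ih => rw [List.flatMap_cons, ih]; rfl
    apply Language.ext
    intro v
    constructor
    · rintro rfl
      refine ⟨[()], Set.mem_univ _, ?_, by simp⟩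
      exact W.leaf
    · rintro ⟨z, -, hz, rfl⟩
      rw [e1] at hz
      have hz' : W 0 ((List.replicate z.length ((Lam.d, 0) : Lam × Fin 1)).map toTok) := hz
      rw [List.map_replicate] at hz'
      have := W_rep_d _ hz'
      obtain ⟨a, rfl⟩ := List.length_eq_one_iff.1 this
      simp
      rfl
  | succ K ih =>
    rintro L ⟨S, A, hfin, hB, hC, rfl⟩
    have h1 := inCone_sol (RK K) S (fun ρ => ih _ (hB ρ)) (fun ρ => ih _ (hC ρ)) A
    exact (inCone_Top K).trans h1

theorem rank_inCone_L0 {Y : Type} [Fintype Y] (K : ℕ) (L : Language Y) (h : RankL Y K L) :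
    InCone L0 L := (inCone_RK K).trans (rank_inCone K L h)

theorem rank_mul {Y : Type} (K : ℕ) (L1 L2 : Language Y) (h1 : RankL Y K L1)
    (h2 : RankL Y K L2) : RankL Y (K + 1) (L1 * L2) := by
  let S : Sys Y := { NT := Bool, Ru := Unit, lhs := fun _ => false, big := fun _ => true,
                     B := fun _ => L1, C := fun _ => L2, fin := fun b => b = true }
  refine ⟨S, false, inferInstanceAs (Finite Unit), fun _ => h1, fun _ => h2, ?_⟩
  have ht : ∀ (A : S.NT) x, S.Sol A x → A = true → x = [] := by
    intro A x h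
    cases h with
    | fin _ => intro _; rfl
    | step _ _ _ => intro h; exact absurd h Bool.false_ne_true
  apply Language.ext
  intro x
  constructor
  · intro h
    obtain ⟨a, ha, b, hb, rfl⟩ := Language.mem_mul.1 h
    have := Sys.Sol.step (S := S) (ρ := ()) ha (Sys.Sol.fin rfl) hb
    exact this
  · intro h
    have key : ∀ (A : S.NT) x, S.Sol A x → A = false → ∃ a ∈ L1, ∃ b ∈ L2, a ++ b = x := by
      intro A x h
      cases h with
      | fin h => intro h2; exact absurd (h2.symm.trans h) Bool.false_ne_true
      | @step _ a u b ha hu hb =>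
        intro _
        have hu' := ht _ _ hu rfl
        subst hu'
        exact ⟨a, ha, b, hb, rfl⟩
    exact Language.mem_mul.2 (key false x h rfl)

theorem rank_one {Y : Type} (K : ℕ) : RankL Y K 1 := by
  induction K with
  | zero => exact ⟨[], rfl⟩
  | succ K ih =>
    have := rank_mul K 1 1 ih ih
    rwa [one_mul] at this

theorem rank_succ {Y : Type} (K : ℕ) (L : Language Y) (h : RankL Y K L) :
    RankL Y (K + 1) L := by
  have := rank_mul K L 1 h (rank_one K)
  rwa [mul_one] at this

theorem rank_mono {Y : Type} (K K' : ℕ) (h : K ≤ K') (L : Language Y) (hL : RankL Y K L) :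
    RankL Y K' L := by
  induction K', h using Nat.le_induction with
  | base => exact hL
  | succ n _ ih => exact rank_succ n L ih

theorem rank_bound {Y ι : Type} [Finite ι] (L : ι → Language Y) (h : ∀ i, ∃ K, RankL Y K (L i)) :
    ∃ K, ∀ i, RankL Y K (L i) := by
  choose k hk using h
  obtain ⟨N, hN⟩ := (Set.finite_range k).bddAbove
  exact ⟨N, fun i => rank_mono _ _ (hN ⟨i, rfl⟩) _ (hk i)⟩

/-- substitution -/
def substL {X Y : Type} (L : Language X) (σ : X → Language Y) : Language Y :=
  {y | ∃ w ∈ L, y ∈ (w.map σ).prod}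

theorem rank_subst {X Y : Type} (σ : X → Language Y) (hσ : ∀ x, ∃ m, RankL Y m (σ x)) :
    ∀ (K : ℕ) (L : Language X), RankL X K L → ∃ K', RankL Y K' (substL L σ) := by
  intro K
  induction K with
  | zero =>
    rintro L ⟨w, rfl⟩
    have e : substL ({w} : Language X) σ = (w.map σ).prod := by
      apply Language.ext
      intro y
      constructor
      · rintro ⟨w', hw', hy⟩
        have : w' = w := hw'
        subst this; exact hy
      · intro hy; exact ⟨w, rfl, hy⟩
    rw [e]
    clear e
    induction w with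
    | nil => exact ⟨0, rank_one 0⟩
    | cons x w ih =>
      obtain ⟨K1, h1⟩ := ih
      obtain ⟨K2, h2⟩ := hσ x
      rw [List.map_cons, List.prod_cons]
      exact ⟨_, rank_mul _ _ _ (rank_mono _ (max K2 K1) (le_max_left _ _) _ h2)
        (rank_mono _ (max K2 K1) (le_max_right _ _) _ h1)⟩
  | succ K ih =>
    rintro L ⟨S, A, hfin, hB, hC, rfl⟩
    obtain ⟨K1, h1⟩ := rank_bound (fun ρ => substL (S.B ρ) σ) (fun ρ => ih _ (hB ρ))
    obtain ⟨K2, h2⟩ := rank_bound (fun ρ => substL (S.C ρ) σ) (fun ρ => ih _ (hC ρ))
    let S' : Sys Y := { NT := S.NT, Ru := S.Ru, lhs := S.lhs, big := S.big,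
                        B := fun ρ => substL (S.B ρ) σ, C := fun ρ => substL (S.C ρ) σ,
                        fin := S.fin }
    refine ⟨max K1 K2 + 1, S', A, hfin, fun ρ => rank_mono _ _ (le_max_left _ _) _ (h1 ρ),
      fun ρ => rank_mono _ _ (le_max_right _ _) _ (h2 ρ), ?_⟩
    have key1 : ∀ (A : S.NT) (w : List X), S.Sol A w → ∀ y : List Y, y ∈ (w.map σ).prod →
        S'.Sol A y := by
      intro A w hw
      induction hw with
      | fin h =>
        intro y hy
        have : y = [] := hy
        subst this
        exact Sys.Sol.fin h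
      | @step ρ a u b ha _ hb ih =>
        intro y hy
        rw [List.map_append, List.map_append, List.prod_append, List.prod_append] at hy
        obtain ⟨y1, hy1, y', hy', rfl⟩ := Language.mem_mul.1 hy
        obtain ⟨y2, hy2, y3, hy3, rfl⟩ := Language.mem_mul.1 hy'
        exact Sys.Sol.step (S := S') (ρ := ρ) ⟨a, ha, hy1⟩ (ih y2 hy2) ⟨b, hb, hy3⟩
    have key2 : ∀ (A : S'.NT) (y : List Y), S'.Sol A y → ∃ w : List X, S.Sol A w ∧
        y ∈ (w.map σ).prod := by
      intro A y h
      induction h with
      | fin h => exact ⟨[], Sys.Sol.fin h, rfl⟩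
      | @step ρ y1 y2 y3 ha _ hb ih =>
        obtain ⟨a, ha, hy1⟩ := ha
        obtain ⟨b, hb, hy3⟩ := hb
        obtain ⟨u, hu, hy2⟩ := ih
        refine ⟨a ++ (u ++ b), Sys.Sol.step ha hu hb, ?_⟩
        rw [List.map_append, List.map_append, List.prod_append, List.prod_append]
        exact Language.mem_mul.2 ⟨y1, hy1, _, Language.mem_mul.2 ⟨y2, hy2, y3, hy3, rfl⟩, rfl⟩
    apply Language.ext
    intro y
    constructor
    · rintro ⟨w, hw, hy⟩
      exact key1 A w hw y hy
    · intro h
      exact key2 A y h

end Pool.Agent.H643R2.Q
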