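import Pool.Agent.H643R2.QDefs
import Pool.Agent.H643R2.RunLem

set_option autoImplicit false

/-!
# Linear systems over a family of languages
-/

namespace Pool.Agent.H643R2.Q

open Pool.Agent.Helper288.Cone

/-- trees of one level over a language `I`: `S → d | o S c | p I q S p I q` -/
inductive TopP {Γ : Type} (I : Language Γ) : List (Lam ⊕ Γ) → Prop
  | leaf : TopP I [Sum.inl Lam.d]
  | bit {w : List (Lam ⊕ Γ)} : TopP I w → TopP I (Sum.inl Lam.o :: (w ++ [Sum.inl Lam.c]))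
  | node {u w : List Γ} {v : List (Lam ⊕ Γ)} : u ∈ I → TopP I v → w ∈ I →
      TopP I (Sum.inl Lam.p :: (u.map Sum.inr ++ Sum.inl Lam.q :: (v ++ Sum.inl Lam.p ::
        (w.map Sum.inr ++ [Sum.inl Lam.q]))))

/-- `TopP` as a language -/
def Top {Γ : Type} (I : Language Γ) : Language (Lam ⊕ Γ) := {w | TopP I w}

/-- a linear system: rules `lhs ρ → B ρ (big ρ) C ρ` with languages `B ρ`, `C ρ`, and final
nonterminals -/
structure Sys (Y : Type) where
  NT : Type
  Ru : Type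
  lhs : Ru → NT
  big : Ru → NT
  B : Ru → Language Y
  C : Ru → Language Y
  fin : NT → Prop

/-- the least solution of a linear system -/
inductive Sys.Sol {Y : Type} (S : Sys Y) : S.NT → List Y → Prop
  | fin {A : S.NT} : S.fin A → Sys.Sol S A []
  | step {ρ : S.Ru} {x u y : List Y} : x ∈ S.B ρ → Sys.Sol S (S.big ρ) u → y ∈ S.C ρ →
      Sys.Sol S (S.lhs ρ) (x ++ (u ++ y))

/-- the nonterminals which matter -/
def Sys.Core {Y : Type} (S : Sys Y) (A : S.NT) : Type :=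
  {X : S.NT // X = A ∨ ∃ ρ, X = S.lhs ρ ∨ X = S.big ρ}

/-- restriction to finitely many nonterminals -/
def Sys.core {Y : Type} (S : Sys Y) (A : S.NT) : Sys Y where
  NT := S.Core A
  Ru := S.Ru
  lhs := fun ρ => ⟨S.lhs ρ, Or.inr ⟨ρ, Or.inl rfl⟩⟩
  big := fun ρ => ⟨S.big ρ, Or.inr ⟨ρ, Or.inr rfl⟩⟩
  B := S.B
  C := S.C
  fin := fun X => S.fin X.1

theorem Sys.core_sol {Y : Type} (S : Sys Y) (A : S.NT) (X : (S.core A).NT) (x : List Y) :
    (S.core A).Sol X x ↔ S.Sol X.1 x := by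
  constructor
  · intro h
    induction h with
    | fin h => exact Sys.Sol.fin h
    | step hx _ hy ih => exact Sys.Sol.step hx ih hy
  · intro h
    obtain ⟨X, hX⟩ := X
    simp only at h
    induction h with
    | fin h => exact Sys.Sol.fin h
    | @step ρ x u y hx _ hy ih =>
      exact Sys.Sol.step (S := S.core A) (ρ := ρ) hx (ih (Or.inr ⟨ρ, Or.inr rfl⟩)) hy

theorem Sys.core_finite {Y : Type} (S : Sys Y) (A : S.NT) [Finite S.Ru] : Finite (S.Core A) := by
  have h : {X : S.NT | X = A ∨ ∃ ρ, X = S.lhs ρ ∨ X = S.big ρ} =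
      {A} ∪ (Set.range S.lhs ∪ Set.range S.big) := by
    ext X
    simp only [Set.mem_ofPred_eq, Set.mem_union, Set.mem_singleton_iff, Set.mem_range]
    constructor
    · rintro (h | ⟨ρ, h | h⟩)
      · exact Or.inl h
      · exact Or.inr (Or.inl ⟨ρ, h.symm⟩)
      · exact Or.inr (Or.inr ⟨ρ, h.symm⟩)
    · rintro (h | ⟨ρ, h⟩ | ⟨ρ, h⟩)
      · exact Or.inl h
      · exact Or.inr ⟨ρ, Or.inl h.symm⟩
      · exact Or.inr ⟨ρ, Or.inr h.symm⟩
  have h2 : ({X : S.NT | X = A ∨ ∃ ρ, X = S.lhs ρ ∨ X = S.big ρ}).Finite := by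
    rw [h]
    exact (Set.finite_singleton _).union ((Set.finite_range _).union (Set.finite_range _))
  exact h2.to_subtype

section Transducer

variable {Γ Y : Type} (S : Sys Y) (R : ℕ) (idx : S.Ru → ℕ)
  (TB TC : S.Ru → Tr Γ Y)

/-- states of the transducer of a system -/
inductive SSt
  | L (A : S.NT) (i : Fin (R + 1))
  | Rt (A : S.NT) (i : Fin (R + 1))
  | B (ρ : S.Ru) (s : (TB ρ).σ)
  | C (ρ : S.Ru) (s : (TC ρ).σ)

/-- the steps of the transducer of a system -/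
inductive SStep : SSt S R TB TC → Option (Lam ⊕ Γ) → Option Y → SSt S R TB TC → Prop
  | o {A : S.NT} {i j : Fin (R + 1)} : (j : ℕ) = i + 1 →
      SStep (SSt.L A i) (some (Sum.inl Lam.o)) none (SSt.L A j)
  | c {A : S.NT} {i j : Fin (R + 1)} : (j : ℕ) = i + 1 →
      SStep (SSt.Rt A j) (some (Sum.inl Lam.c)) none (SSt.Rt A i)
  | d {A : S.NT} {i : Fin (R + 1)} : S.fin A → (i : ℕ) = 0 →
      SStep (SSt.L A i) (some (Sum.inl Lam.d)) none (SSt.Rt A i)
  | p1 {ρ : S.Ru} {i : Fin (R + 1)} {s : (TB ρ).σ} : (i : ℕ) = idx ρ → (TB ρ).start s →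
      SStep (SSt.L (S.lhs ρ) i) (some (Sum.inl Lam.p)) none (SSt.B ρ s)
  | b {ρ : S.Ru} {s s' : (TB ρ).σ} {x : Option Γ} {y : Option Y} : (TB ρ).step s x y s' →
      SStep (SSt.B ρ s) (x.map Sum.inr) y (SSt.B ρ s')
  | q1 {ρ : S.Ru} {i : Fin (R + 1)} {s : (TB ρ).σ} : (i : ℕ) = 0 → (TB ρ).acc s →
      SStep (SSt.B ρ s) (some (Sum.inl Lam.q)) none (SSt.L (S.big ρ) i)
  | p2 {ρ : S.Ru} {i : Fin (R + 1)} {s : (TC ρ).σ} : (i : ℕ) = 0 → (TC ρ).start s →
      SStep (SSt.Rt (S.big ρ) i) (some (Sum.inl Lam.p)) none (SSt.C ρ s)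
  | cc {ρ : S.Ru} {s s' : (TC ρ).σ} {x : Option Γ} {y : Option Y} : (TC ρ).step s x y s' →
      SStep (SSt.C ρ s) (x.map Sum.inr) y (SSt.C ρ s')
  | q2 {ρ : S.Ru} {i : Fin (R + 1)} {s : (TC ρ).σ} : (i : ℕ) = idx ρ → (TC ρ).acc s →
      SStep (SSt.C ρ s) (some (Sum.inl Lam.q)) none (SSt.Rt (S.lhs ρ) i)

theorem SSt_finite [Finite S.NT] [Finite S.Ru] : Finite (SSt S R TB TC) := by
  have h1 : ∀ ρ, Finite (TB ρ).σ := fun ρ => @Finite.of_fintype _ (TB ρ).fin
  have h2 : ∀ ρ, Finite (TC ρ).σ := fun ρ => @Finite.of_fintype _ (TC ρ).fin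
  let f : SSt S R TB TC → (S.NT × Fin (R + 1)) ⊕ (S.NT × Fin (R + 1)) ⊕ (Σ ρ, (TB ρ).σ) ⊕
      (Σ ρ, (TC ρ).σ) := fun x => match x with
    | SSt.L A i => Sum.inl (A, i)
    | SSt.Rt A i => Sum.inr (Sum.inl (A, i))
    | SSt.B ρ s => Sum.inr (Sum.inr (Sum.inl ⟨ρ, s⟩))
    | SSt.C ρ s => Sum.inr (Sum.inr (Sum.inr ⟨ρ, s⟩))
  apply Finite.of_injective f
  intro x y h
  cases x <;> cases y <;> simp [f] at h
  · obtain ⟨rfl, rfl⟩ := h; rfl
  · obtain ⟨rfl, rfl⟩ := h; rfl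
  · obtain ⟨rfl, h⟩ := h; rw [eq_of_heq h]
  · obtain ⟨rfl, h⟩ := h; rw [eq_of_heq h]

/-- the transducer of a system -/
noncomputable def STr [Finite S.NT] [Finite S.Ru] (A₀ : S.NT) : Tr (Lam ⊕ Γ) Y where
  σ := SSt S R TB TC
  fin := @Fintype.ofFinite _ (SSt_finite S R TB TC)
  step := SStep S R idx TB TC
  start := fun s => s = SSt.L A₀ ⟨0, Nat.succ_pos _⟩
  acc := fun s => s = SSt.Rt A₀ ⟨0, Nat.succ_pos _⟩

variable [Finite S.NT] [Finite S.Ru] (A₀ : S.NT)

variable {S R idx TB TC A₀}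

/-- a run through a left block -/
theorem run_B {ρ : S.Ru} {s0 t : (STr S R idx TB TC A₀).σ} {z : List (Lam ⊕ Γ)} {x : List Y}
    (h : (STr S R idx TB TC A₀).Run s0 z x t) : ∀ (s : (TB ρ).σ) (u : List Γ)
    (rest : List (Lam ⊕ Γ)), s0 = SSt.B ρ s → z = u.map Sum.inr ++ Sum.inl Lam.q :: rest →
    ∃ (s' : (TB ρ).σ) (x1 x2 : List Y) (i0 : Fin (R + 1)), (TB ρ).Run s u x1 s' ∧ (TB ρ).acc s' ∧ x = x1 ++ x2 ∧ (i0 : ℕ) = 0 ∧
      (STr S R idx TB TC A₀).Run (SSt.L (S.big ρ) i0) rest x2 t := by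
  induction h with
  | nil p =>
    intro s u rest hs hz
    simp at hz
  | @cons p q r a y w v hs hr ih =>
    intro s u rest hs0 hz
    subst hs0
    have hs' : SStep S R idx TB TC (SSt.B ρ s) a y q := hs
    cases hs' with
    | @b _ _ s1 a _ hst =>
      cases a with
      | none =>
        obtain ⟨s', x1, x2, i0, h1, h2, h3, h4, h5⟩ := ih s1 u rest rfl (by simpa using hz)
        refine ⟨s', _, x2, i0, Tr.Run.cons hst h1, h2, ?_, h4, h5⟩
        rw [h3]; simp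
      | some a =>
        rcases u with _ | ⟨a', u⟩
        · simp at hz
        · simp only [List.map_cons, Option.map_some, Option.toList_some,
            List.cons_append, List.nil_append, List.cons.injEq, Sum.inr.injEq] at hz
          obtain ⟨rfl, hz⟩ := hz
          obtain ⟨s', x1, x2, i0, h1, h2, h3, h4, h5⟩ := ih s1 u rest rfl hz
          refine ⟨s', _, x2, i0, Tr.Run.cons hst h1, h2, ?_, h4, h5⟩
          rw [h3]; simp
    | @q1 _ i0 _ hi hacc =>
      rcases u with _ | ⟨a', u⟩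
      · simp only [Option.toList_some, List.singleton_append, List.map_nil, List.nil_append,
          List.cons.injEq, true_and] at hz
        subst hz
        exact ⟨s, [], v, i0, Tr.Run.nil _, hacc, rfl, hi, hr⟩
      · simp at hz

/-- a run through a right block -/
theorem run_C {ρ : S.Ru} {s0 t : (STr S R idx TB TC A₀).σ} {z : List (Lam ⊕ Γ)} {x : List Y}
    (h : (STr S R idx TB TC A₀).Run s0 z x t) : ∀ (s : (TC ρ).σ) (u : List Γ)
    (rest : List (Lam ⊕ Γ)), s0 = SSt.C ρ s → z = u.map Sum.inr ++ Sum.inl Lam.q :: rest →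
    ∃ (s' : (TC ρ).σ) (x1 x2 : List Y) (i0 : Fin (R + 1)), (TC ρ).Run s u x1 s' ∧ (TC ρ).acc s' ∧ x = x1 ++ x2 ∧ (i0 : ℕ) = idx ρ ∧
      (STr S R idx TB TC A₀).Run (SSt.Rt (S.lhs ρ) i0) rest x2 t := by
  induction h with
  | nil p =>
    intro s u rest hs hz
    simp at hz
  | @cons p q r a y w v hs hr ih =>
    intro s u rest hs0 hz
    subst hs0
    have hs' : SStep S R idx TB TC (SSt.C ρ s) a y q := hs
    cases hs' with
    | @cc _ _ s1 a _ hst =>
      cases a with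
      | none =>
        obtain ⟨s', x1, x2, i0, h1, h2, h3, h4, h5⟩ := ih s1 u rest rfl (by simpa using hz)
        refine ⟨s', _, x2, i0, Tr.Run.cons hst h1, h2, ?_, h4, h5⟩
        rw [h3]; simp
      | some a =>
        rcases u with _ | ⟨a', u⟩
        · simp at hz
        · simp only [List.map_cons, Option.map_some, Option.toList_some,
            List.cons_append, List.nil_append, List.cons.injEq, Sum.inr.injEq] at hz
          obtain ⟨rfl, hz⟩ := hz
          obtain ⟨s', x1, x2, i0, h1, h2, h3, h4, h5⟩ := ih s1 u rest rfl hz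
          refine ⟨s', _, x2, i0, Tr.Run.cons hst h1, h2, ?_, h4, h5⟩
          rw [h3]; simp
    | @q2 _ i0 _ hi hacc =>
      rcases u with _ | ⟨a', u⟩
      · simp only [Option.toList_some, List.singleton_append, List.map_nil, List.nil_append,
          List.cons.injEq, true_and] at hz
        subst hz
        exact ⟨s, [], v, i0, Tr.Run.nil _, hacc, rfl, hi, hr⟩
      · simp at hz

theorem B_run {ρ : S.Ru} {s s' : (TB ρ).σ} {u : List Γ} {x : List Y}
    (h : (TB ρ).Run s u x s') :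
    (STr S R idx TB TC A₀).Run (SSt.B ρ s) (u.map Sum.inr) x (SSt.B ρ s') := by
  induction h with
  | nil p => exact Tr.Run.nil (T := STr S R idx TB TC A₀) _
  | @cons p q r a y w v hs _ ih =>
    have hs' : (STr S R idx TB TC A₀).step (SSt.B ρ p) (a.map Sum.inr) y (SSt.B ρ q) :=
      SStep.b hs
    have := Tr.Run.cons hs' ih
    have e : (a.map Sum.inr).toList ++ w.map (Sum.inr : Γ → Lam ⊕ Γ) =
        (a.toList ++ w).map Sum.inr := by
      cases a <;> simp
    rw [e] at this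
    exact this

theorem C_run {ρ : S.Ru} {s s' : (TC ρ).σ} {u : List Γ} {x : List Y}
    (h : (TC ρ).Run s u x s') :
    (STr S R idx TB TC A₀).Run (SSt.C ρ s) (u.map Sum.inr) x (SSt.C ρ s') := by
  induction h with
  | nil p => exact Tr.Run.nil (T := STr S R idx TB TC A₀) _
  | @cons p q r a y w v hs _ ih =>
    have hs' : (STr S R idx TB TC A₀).step (SSt.C ρ p) (a.map Sum.inr) y (SSt.C ρ q) :=
      SStep.cc hs
    have := Tr.Run.cons hs' ih
    have e : (a.map Sum.inr).toList ++ w.map (Sum.inr : Γ → Lam ⊕ Γ) =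
        (a.toList ++ w).map Sum.inr := by
      cases a <;> simp
    rw [e] at this
    exact this

/-- a single letter read by the transducer from a state which has no silent steps -/
theorem run_cons_inl {s t : (STr S R idx TB TC A₀).σ} {a : Lam} {z : List (Lam ⊕ Γ)}
    {x : List Y} (h : (STr S R idx TB TC A₀).Run s (Sum.inl a :: z) x t)
    (hns : ∀ y s', ¬ SStep S R idx TB TC s none y s') :
    ∃ y s' x', SStep S R idx TB TC s (some (Sum.inl a)) y s' ∧ x = y.toList ++ x' ∧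
      (STr S R idx TB TC A₀).Run s' z x' t := by
  generalize hz : Sum.inl a :: z = z0 at h
  cases h with
  | nil => simp at hz
  | @cons _ q _ b y w v hs hr =>
    cases b with
    | none => exact absurd hs (hns y q)
    | some b =>
      simp only [Option.toList_some, List.singleton_append, List.cons.injEq] at hz
      obtain ⟨rfl, rfl⟩ := hz
      exact ⟨y, q, v, hs, rfl, hr⟩

omit [Finite S.NT] [Finite S.Ru] in
theorem L_noeps (A : S.NT) (i : Fin (R + 1)) (y : Option Y) (s' : SSt S R TB TC) :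
    ¬ SStep S R idx TB TC (SSt.L A i) none y s' := by
  intro h; cases h

omit [Finite S.NT] [Finite S.Ru] in
theorem Rt_noeps (A : S.NT) (i : Fin (R + 1)) (y : Option Y) (s' : SSt S R TB TC) :
    ¬ SStep S R idx TB TC (SSt.Rt A i) none y s' := by
  intro h
  generalize hn : (none : Option (Lam ⊕ Γ)) = n at h
  cases h <;> simp at hn

theorem run_nil_of {s t : (STr S R idx TB TC A₀).σ} {x : List Y}
    (h : (STr S R idx TB TC A₀).Run s [] x t) (hns : ∀ y s', ¬ SStep S R idx TB TC s none y s') :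
    t = s ∧ x = [] := by
  generalize hz : ([] : List (Lam ⊕ Γ)) = z at h
  cases h with
  | nil => exact ⟨rfl, rfl⟩
  | @cons _ q _ b y w v hs hr =>
    cases b with
    | none => exact absurd hs (hns y q)
    | some b => simp at hz

/-- the words read off after `i` opening bits -/
def SolI (S : Sys Y) (idx : S.Ru → ℕ) (A : S.NT) (i : ℕ) (x : List Y) : Prop :=
  (i = 0 ∧ S.fin A ∧ x = []) ∨ ∃ ρ, S.lhs ρ = A ∧ i ≤ idx ρ ∧ ∃ a u b, a ∈ S.B ρ ∧
    S.Sol (S.big ρ) u ∧ b ∈ S.C ρ ∧ x = a ++ (u ++ b)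

omit [Finite S.NT] [Finite S.Ru] in
theorem SolI_zero {A : S.NT} {x : List Y} (h : SolI S idx A 0 x) : S.Sol A x := by
  rcases h with ⟨-, h, rfl⟩ | ⟨ρ, rfl, -, a, u, b, ha, hu, hb, rfl⟩
  · exact Sys.Sol.fin h
  · exact Sys.Sol.step ha hu hb

theorem sound {I : Language Γ} (hidx : Function.Injective idx)
    (hB : ∀ ρ v, v ∈ S.B ρ ↔ ∃ u ∈ I, (TB ρ).rel u v)
    (hC : ∀ ρ v, v ∈ S.C ρ ↔ ∃ u ∈ I, (TC ρ).rel u v)
    {w : List (Lam ⊕ Γ)} (hw : TopP I w) : ∀ (A : S.NT) (i : Fin (R + 1)) (x : List Y)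
    (t : (STr S R idx TB TC A₀).σ), (STr S R idx TB TC A₀).Run (SSt.L A i) w x t →
    ∃ (A' : S.NT) (i' : Fin (R + 1)), t = SSt.Rt A' i' ∧
      ((i' : ℕ) = i → A' = A ∧ SolI S idx A i x) := by
  induction hw with
  | leaf =>
    intro A i x t h
    obtain ⟨y, s', x', hs, rfl, hr⟩ := run_cons_inl h (L_noeps A i)
    cases hs with
    | d hfin hi =>
      obtain ⟨rfl, rfl⟩ := run_nil_of hr (Rt_noeps A i)
      exact ⟨A, i, rfl, fun _ => ⟨rfl, Or.inl ⟨hi, hfin, rfl⟩⟩⟩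
  | @bit w _ ih =>
    intro A i x t h
    obtain ⟨y, s', x', hs, rfl, hr⟩ := run_cons_inl h (L_noeps A i)
    cases hs with
    | @o _ _ j hj =>
      obtain ⟨m, x1, x2, rfl, h1, h2⟩ :=
        Pool.Agent.H643R2.RunLem.run_split_in _ hr _ _ rfl
      obtain ⟨A', i', rfl, hA⟩ := ih A j x1 m h1
      obtain ⟨y, s', x3, hs, rfl, hr'⟩ := run_cons_inl h2 (Rt_noeps A' i')
      generalize hL : (some (Sum.inl Lam.c) : Option (Lam ⊕ Γ)) = lc at hs
      cases hs with
      | @c _ i2 _ hj2 =>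
        obtain ⟨rfl, rfl⟩ := run_nil_of hr' (Rt_noeps A' i2)
        refine ⟨A', i2, rfl, fun h0 => ?_⟩
        obtain ⟨rfl, hsol⟩ := hA (by omega)
        refine ⟨rfl, ?_⟩
        rcases hsol with ⟨h3, -⟩ | ⟨ρ, h3, h4, a, u, b, ha, hu, hb, rfl⟩
        · omega
        · exact Or.inr ⟨ρ, h3, by omega, a, u, b, ha, hu, hb, by simp⟩
      | p2 _ _ => simp at hL
  | @node u w v hu _ hw ih =>
    intro A i x t h
    obtain ⟨y, s', x', hs, rfl, hr⟩ := run_cons_inl h (L_noeps A i)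
    cases hs with
    | @p1 ρ _ s hi hst =>
      obtain ⟨s1, x1, x2, i0, hr1, hacc, rfl, hi0, hr2⟩ := run_B hr s u _ rfl rfl
      obtain ⟨m, x3, x4, rfl, h1, h2⟩ :=
        Pool.Agent.H643R2.RunLem.run_split_in _ hr2 _ _ rfl
      obtain ⟨A', i', rfl, hA⟩ := ih (S.big ρ) i0 x3 m h1
      obtain ⟨y, s', x5, hs, rfl, hr'⟩ := run_cons_inl h2 (Rt_noeps A' i')
      generalize hL : (some (Sum.inl Lam.p) : Option (Lam ⊕ Γ)) = lc at hs
      cases hs with
      | c _ => simp at hL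
      | @p2 ρ' _ s2 hi' hst' =>
        obtain ⟨s3, x6, x7, i1, hr3, hacc', rfl, hi1, hr4⟩ := run_C hr' s2 w [] rfl rfl
        obtain ⟨rfl, rfl⟩ := run_nil_of hr4 (Rt_noeps _ i1)
        refine ⟨S.lhs ρ', i1, rfl, fun h0 => ?_⟩
        have hρ : ρ' = ρ := hidx (by omega)
        subst hρ
        obtain ⟨-, hsol⟩ := hA (by omega)
        rw [hi0] at hsol
        refine ⟨rfl, Or.inr ⟨ρ', rfl, by omega, x1, x3, x6, ?_, SolI_zero hsol, ?_, by simp⟩⟩
        · exact (hB _ _).2 ⟨u, hu, s, s1, hst, hacc, hr1⟩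
        · exact (hC _ _).2 ⟨w, hw, s2, s3, hst', hacc', hr3⟩

theorem complete {I : Language Γ} (hR : ∀ ρ, idx ρ ≤ R)
    (hB : ∀ ρ v, v ∈ S.B ρ ↔ ∃ u ∈ I, (TB ρ).rel u v)
    (hC : ∀ ρ v, v ∈ S.C ρ ↔ ∃ u ∈ I, (TC ρ).rel u v)
    {A : S.NT} {x : List Y} (h : S.Sol A x) : ∃ w, TopP I w ∧
      (STr S R idx TB TC A₀).Run (SSt.L A ⟨0, Nat.succ_pos _⟩) w x
        (SSt.Rt A ⟨0, Nat.succ_pos _⟩) := by
  induction h with
  | @fin A hA =>
    refine ⟨_, TopP.leaf, ?_⟩
    have hs : (STr S R idx TB TC A₀).step (SSt.L A ⟨0, Nat.succ_pos _⟩) (some (Sum.inl Lam.d))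
      none (SSt.Rt A ⟨0, Nat.succ_pos _⟩) := SStep.d hA rfl
    exact Tr.Run.cons hs (Tr.Run.nil _)
  | @step ρ x u y hx _ hy ih =>
    obtain ⟨v, hv, hrv⟩ := ih
    obtain ⟨a, ha, s, s', hs, hs', hra⟩ := (hB _ _).1 hx
    obtain ⟨b, hb, r, r', hr, hr', hrb⟩ := (hC _ _).1 hy
    -- the node
    have h1 : (STr S R idx TB TC A₀).Run (SSt.L (S.lhs ρ) ⟨idx ρ, Nat.lt_succ_of_le (hR ρ)⟩)
        (Sum.inl Lam.p :: (a.map Sum.inr ++ Sum.inl Lam.q :: (v ++ Sum.inl Lam.p ::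
          (b.map Sum.inr ++ [Sum.inl Lam.q])))) (x ++ (u ++ y))
        (SSt.Rt (S.lhs ρ) ⟨idx ρ, Nat.lt_succ_of_le (hR ρ)⟩) := by
      have e1 : (STr S R idx TB TC A₀).step (SSt.L (S.lhs ρ) ⟨idx ρ, Nat.lt_succ_of_le (hR ρ)⟩)
        (some (Sum.inl Lam.p)) none (SSt.B ρ s) := SStep.p1 rfl hs
      have e2 : (STr S R idx TB TC A₀).step (SSt.B ρ s')
        (some (Sum.inl Lam.q)) none (SSt.L (S.big ρ) ⟨0, Nat.succ_pos _⟩) := SStep.q1 rfl hs'
      have e3 : (STr S R idx TB TC A₀).step (SSt.Rt (S.big ρ) ⟨0, Nat.succ_pos _⟩)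
        (some (Sum.inl Lam.p)) none (SSt.C ρ r) := SStep.p2 rfl hr
      have e4 : (STr S R idx TB TC A₀).step (SSt.C ρ r')
        (some (Sum.inl Lam.q)) none (SSt.Rt (S.lhs ρ) ⟨idx ρ, Nat.lt_succ_of_le (hR ρ)⟩) :=
          SStep.q2 rfl hr'
      have f4 := Tr.Run.cons e4 (Tr.Run.nil (T := STr S R idx TB TC A₀) _)
      have f3 := Tr.Run.cons e3 ((C_run (A₀ := A₀) (idx := idx) (R := R) (TB := TB) hrb).trans f4)
      have f2 := Tr.Run.cons e2 (hrv.trans f3)
      have f1 := Tr.Run.cons e1 ((B_run (A₀ := A₀) (idx := idx) (R := R) (TC := TC) hra).trans f2)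
      simpa using f1
    have hnode := TopP.node ha hv hb
    generalize Sum.inl Lam.p :: (a.map Sum.inr ++ Sum.inl Lam.q :: (v ++ Sum.inl Lam.p ::
          (b.map Sum.inr ++ [Sum.inl Lam.q]))) = ω at h1 hnode
    -- the bits
    have key : ∀ j (hj : j ≤ idx ρ), ∃ w, TopP I w ∧
        (STr S R idx TB TC A₀).Run
          (SSt.L (S.lhs ρ) ⟨idx ρ - j, by have := hR ρ; omega⟩) w (x ++ (u ++ y))
          (SSt.Rt (S.lhs ρ) ⟨idx ρ - j, by have := hR ρ; omega⟩) := by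
      intro j
      induction j with
      | zero => intro _; exact ⟨ω, hnode, h1⟩
      | succ j ihj =>
        intro hj
        obtain ⟨w, hw, hrw⟩ := ihj (by omega)
        refine ⟨_, TopP.bit hw, ?_⟩
        have e1 : (STr S R idx TB TC A₀).step
            (SSt.L (S.lhs ρ) ⟨idx ρ - (j + 1), by have := hR ρ; omega⟩)
            (some (Sum.inl Lam.o)) none
            (SSt.L (S.lhs ρ) ⟨idx ρ - j, by have := hR ρ; omega⟩) :=
          SStep.o (by simp only; omega)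
        have e2 : (STr S R idx TB TC A₀).step
            (SSt.Rt (S.lhs ρ) ⟨idx ρ - j, by have := hR ρ; omega⟩)
            (some (Sum.inl Lam.c)) none
            (SSt.Rt (S.lhs ρ) ⟨idx ρ - (j + 1), by have := hR ρ; omega⟩) :=
          SStep.c (by simp only; omega)
        have f2 := Tr.Run.cons e2 (Tr.Run.nil (T := STr S R idx TB TC A₀) _)
        have f1 := Tr.Run.cons e1 (hrw.trans f2)
        simpa using f1
    obtain ⟨w, hw, hrw⟩ := key (idx ρ) le_rfl
    refine ⟨w, hw, ?_⟩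
    have e : (⟨idx ρ - idx ρ, by have := hR ρ; omega⟩ : Fin (R + 1)) = ⟨0, Nat.succ_pos _⟩ :=
      Fin.ext (Nat.sub_self _)
    rw [e] at hrw
    exact hrw

end Transducer

/-- solutions of linear systems over the cone of `I` are in the cone of `Top I` -/
theorem inCone_sol {Γ Y : Type} [Fintype Γ] [Fintype Y] (I : Language Γ) (S : Sys Y)
    [Finite S.Ru] (hB : ∀ ρ, InCone I (S.B ρ)) (hC : ∀ ρ, InCone I (S.C ρ)) (A : S.NT) :
    InCone (Top I) {x | S.Sol A x} := by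
  classical
  have hfin : Finite (S.core A).NT := S.core_finite A
  have hfin' : Finite (S.core A).Ru := inferInstanceAs (Finite S.Ru)
  choose TB hTB using fun ρ : (S.core A).Ru => (hB ρ).exists_tr
  choose TC hTC using fun ρ : (S.core A).Ru => (hC ρ).exists_tr
  have := Fintype.ofFinite (S.core A).Ru
  let e := Fintype.equivFin (S.core A).Ru
  let R := Fintype.card (S.core A).Ru
  let idx : (S.core A).Ru → ℕ := fun ρ => e ρ
  have hidx : Function.Injective idx := fun a b h => e.injective (Fin.ext h)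
  have hR : ∀ ρ, idx ρ ≤ R := fun ρ => (e ρ).2.le
  let A₀ : (S.core A).NT := ⟨A, Or.inl rfl⟩
  have hA : ∀ x, S.Sol A x ↔ (S.core A).Sol A₀ x := fun x => (S.core_sol A A₀ x).symm
  apply InCone_of_tr (Top I) (STr (S.core A) R idx TB TC A₀)
  intro x
  show S.Sol A x ↔ _
  rw [hA]
  constructor
  · intro h
    obtain ⟨w, hw, hr⟩ := complete (A₀ := A₀) (R := R) (idx := idx) hR hTB hTC h
    exact ⟨w, hw, _, _, rfl, rfl, hr⟩
  · rintro ⟨w, hw, p, q, hp, hq, hr⟩
    have hp' : p = SSt.L A₀ ⟨0, Nat.succ_pos _⟩ := hp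
    have hq' : q = SSt.Rt A₀ ⟨0, Nat.succ_pos _⟩ := hq
    subst hp' hq'
    obtain ⟨A', i', h1, h2⟩ := sound hidx hTB hTC hw _ _ _ _ hr
    injection h1 with h3 h4
    subst h3 h4
    exact SolI_zero (h2 rfl).2

end Pool.Agent.H643R2.Q
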