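import Pool.Agent.H643R2.QDyck

set_option autoImplicit false

/-!
# A walk around a binary tree has no decomposition of small rank
-/

namespace Pool.Agent.H643R2.Q

/-- The walk `st` visits, between the times `s` and `e`, a binary tree of depth `k` with edges of
length `N` rooted at the stack `U`. -/
def IsNode (st : ℕ → List Bool) (N : ℕ) : ℕ → ℕ → ℕ → List Bool → Prop
  | 0, s, e, _ => s ≤ e
  | k + 1, s, e, U => ∃ L, e = s + 4 * N + 2 * L ∧
      (∀ t, t ≤ N → st (s + t) = List.replicate t true ++ U) ∧
      (∀ t, t ≤ N → st (s + N + L + t) = List.replicate (N - t) true ++ U) ∧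
      (∀ t, t ≤ N → st (s + 2 * N + L + t) = List.replicate t false ++ U) ∧
      (∀ t, t ≤ N → st (s + 3 * N + 2 * L + t) = List.replicate (N - t) false ++ U) ∧
      (∀ t, s + N ≤ t → t ≤ s + N + L → (List.replicate N true ++ U) <:+ st t) ∧
      (∀ t, s + 3 * N + L ≤ t → t ≤ s + 3 * N + 2 * L → (List.replicate N false ++ U) <:+ st t) ∧
      (∀ t, (t ≤ s ∨ e ≤ t) → ∀ c, ¬ ((c :: U) <:+ st t)) ∧
      IsNode st N k (s + N) (s + N + L) (List.replicate N true ++ U) ∧
      IsNode st N k (s + 3 * N + L) (s + 3 * N + 2 * L) (List.replicate N false ++ U)

/-- all the walk between the times `i` and `j` stays close to the stack at the time `i` -/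
def Flat (st : ℕ → List Bool) (C i j : ℕ) : Prop :=
  i ≤ j ∧ ∀ t, i ≤ t → t ≤ j → Near C (st i) (st t)

/-- decompositions of rank `l` of the walk between the times `i` and `j` -/
inductive Dc (st : ℕ → List Bool) (C : ℕ) : ℕ → ℕ → ℕ → Prop
  | flat {l i j : ℕ} : Flat st C i j → Dc st C l i j
  | bit {l i i1 j1 j : ℕ} : Flat st C i i1 → Dc st C l i1 j1 → Flat st C j1 j →
      Near C (st i) (st j) → Dc st C l i j
  | node {l i a1 a2 i1 j1 b1 b2 j : ℕ} : Flat st C i a1 → Dc st C l a1 a2 → Flat st C a2 i1 →
      Dc st C (l + 1) i1 j1 → Flat st C j1 b1 → Dc st C l b1 b2 → Flat st C b2 j →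
      Near C (st i) (st j) → Dc st C (l + 1) i j

variable {st : ℕ → List Bool} {C N : ℕ}

theorem Flat.near {i j : ℕ} (h : Flat st C i j) : Near C (st i) (st j) := h.2 j h.1 le_rfl

theorem Dc.near {l i j : ℕ} (h : Dc st C l i j) : Near C (st i) (st j) := by
  cases h with
  | flat h => exact h.near
  | bit _ _ _ h => exact h
  | node _ _ _ _ _ _ _ h => exact h

theorem Dc.le {l i j : ℕ} (h : Dc st C l i j) : i ≤ j := by
  induction h with
  | flat h => exact h.1
  | bit h1 _ h3 _ ih => have := h1.1; have := h3.1; omega
  | node h1 _ h2 _ h3 _ h4 _ i1 i2 i3 =>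
    have := h1.1; have := h2.1; have := h3.1; have := h4.1; omega

theorem suffix_rep {a : Bool} {U : List Bool} {m n : ℕ} (h : m ≤ n) :
    (List.replicate m a ++ U) <:+ (List.replicate n a ++ U) := by
  obtain ⟨k, rfl⟩ := Nat.exists_eq_add_of_le h
  rw [Nat.add_comm m k, List.replicate_add, List.append_assoc]
  exact List.suffix_append _ _

theorem not_branch {a b : Bool} (hab : a ≠ b) (U : List Bool) (n : ℕ) :
    ¬ ((a :: U) <:+ (List.replicate n b ++ U)) := by
  intro h
  rcases n with _ | n
  · have := h.length_le
    simp at this
  · have h2 : (b :: U) <:+ (List.replicate (n + 1) b ++ U) := by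
      rw [List.replicate_succ', List.append_assoc]
      exact List.suffix_append _ _
    have h3 := List.suffix_of_suffix_length_le h h2 (by simp)
    have h4 := h3.eq_of_length (by simp)
    exact hab (List.cons.inj h4).1

/-- a flat piece cannot contain a stem going up -/
theorem flat_up {s U} {a : Bool} (hst : ∀ t, t ≤ N → st (s + t) = List.replicate t a ++ U)
    {i j : ℕ} (h : Flat st C i j) {x y : ℕ} (hy : y ≤ N) (hxy : x + (2 * C + 1) ≤ y)
    (h1 : i ≤ s + x) (h2 : s + y ≤ j) : False := by
  have e1 := h.2 (s + x) h1 (by omega)
  have e2 := h.2 (s + y) (by omega) h2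
  rw [hst x (by omega)] at e1
  rw [hst y hy] at e2
  have e3 := near_length (e2.symm.trans e1)
  simp only [List.length_append, List.length_replicate] at e3
  omega

/-- a flat piece cannot contain a stem going down -/
theorem flat_down {s U} {a : Bool}
    (hst : ∀ t, t ≤ N → st (s + t) = List.replicate (N - t) a ++ U)
    {i j : ℕ} (h : Flat st C i j) {x y : ℕ} (hy : y ≤ N) (hxy : x + (2 * C + 1) ≤ y)
    (h1 : i ≤ s + x) (h2 : s + y ≤ j) : False := by
  have e1 := h.2 (s + x) h1 (by omega)
  have e2 := h.2 (s + y) (by omega) h2
  rw [hst x (by omega)] at e1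
  rw [hst y hy] at e2
  have e3 := near_length (e1.symm.trans e2)
  simp only [List.length_append, List.length_replicate] at e3
  omega

theorem dc_rank (hN : 6 * C + 2 ≤ N) {l i j : ℕ} (h : Dc st C l i j) :
    ∀ k s e U, IsNode st N (k + 1) s e U → i + (2 * C + 1) ≤ s + N →
      e + (2 * C + 1) ≤ j + N → k + 1 ≤ l := by
  induction h with
  | @flat l i j h =>
    rintro k s e U ⟨L, he, h1, h2, h3, h4, h5, h6, h7, h8, h9⟩ hi hj
    exfalso
    exact flat_up (a := true) (U := U) (s := s) h1 h (x := N - (2 * C + 1)) (y := N) le_rfl
      (by omega) (by omega) (by omega)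
  | @bit l i i1 j1 j hf1 hd hf2 hn ih =>
    rintro k s e U hnode hi hj
    obtain ⟨L, he, h1, h2, h3, h4, h5, h6, h7, h8, h9⟩ := hnode
    by_cases hb1 : i1 + (2 * C + 1) ≤ s + N
    · by_cases hb2 : e + (2 * C + 1) ≤ j1 + N
      · exact ih k s e U ⟨L, he, h1, h2, h3, h4, h5, h6, h7, h8, h9⟩ hb1 hb2
      · -- right side broken
        exfalso
        have hnear : Near (4 * C) (st j1) (st i) := by
          have := (hd.near.symm.trans hf1.near.symm)
          exact this.mono (by omega)
        have hle := hd.le
        have hf2' := hf2.1
        -- `j1` is before the second subtree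
        have hj1 : j1 + (2 * C + 1) ≤ s + 3 * N + L := by
          by_contra hlt
          have hsuf : (List.replicate (N - (2 * C + 1)) false ++ U) <:+ st j1 := by
            by_cases c1 : j1 ≤ s + 3 * N + L
            · have : j1 = s + 2 * N + L + (j1 - (s + 2 * N + L)) := by omega
              rw [this, h3 _ (by omega)]
              exact suffix_rep (by omega)
            · by_cases c2 : j1 ≤ s + 3 * N + 2 * L
              · exact (suffix_rep (by omega)).trans (h6 j1 (by omega) c2)
              · have : j1 = s + 3 * N + 2 * L + (j1 - (s + 3 * N + 2 * L)) := by omega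
                rw [this, h4 _ (by omega)]
                exact suffix_rep (by omega)
          have hnot : ¬ ((false :: U) <:+ st i) := by
            by_cases c1 : i ≤ s
            · exact h7 i (Or.inl c1) false
            · have : i = s + (i - s) := by omega
              rw [this, h1 _ (by omega)]
              exact not_branch (by simp) _ _
          have := near_branch hnear hsuf hnot
          omega
        exact flat_up (a := false) (U := U) (s := s + 2 * N + L) h3 hf2
          (x := N - (2 * C + 1)) (y := N) le_rfl (by omega) (by omega) (by omega)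
    · -- left side broken
      exfalso
      have hnear : Near (4 * C) (st i1) (st j) := by
        have := (hd.near.trans hf2.near)
        exact this.mono (by omega)
      have hf1' := hf1.1
      have hi1 : s + N + L + (2 * C + 1) ≤ i1 := by
        by_contra hlt
        have hsuf : (List.replicate (N - (2 * C + 1)) true ++ U) <:+ st i1 := by
          by_cases c1 : i1 ≤ s + N
          · have : i1 = s + (i1 - s) := by omega
            rw [this, h1 _ (by omega)]
            exact suffix_rep (by omega)
          · by_cases c2 : i1 ≤ s + N + L
            · exact (suffix_rep (by omega)).trans (h5 i1 (by omega) c2)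
            · have : i1 = s + N + L + (i1 - (s + N + L)) := by omega
              rw [this, h2 _ (by omega)]
              exact suffix_rep (by omega)
        have hnot : ¬ ((true :: U) <:+ st j) := by
          by_cases c1 : e ≤ j
          · exact h7 j (Or.inr c1) true
          · have : j = s + 3 * N + 2 * L + (j - (s + 3 * N + 2 * L)) := by omega
            rw [this, h4 _ (by omega)]
            exact not_branch (by simp) _ _
        have := near_branch hnear hsuf hnot
        omega
      exact flat_up (a := true) (U := U) (s := s) h1 hf1 (x := N - (2 * C + 1)) (y := N) le_rfl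
        (by omega) (by omega) (by omega)
  | @node l i a1 a2 i1 j1 b1 b2 j hf1 hdA hf2 hd hf3 hdB hf4 hn ihA ih ihB =>
    rintro k s e U hnode hi hj
    obtain ⟨L, he, h1, h2, h3, h4, h5, h6, h7, h8, h9⟩ := hnode
    have l1 := hf1.1
    have l2 := hdA.le
    have l3 := hf2.1
    have l4 := hd.le
    have l5 := hf3.1
    have l6 := hdB.le
    have l7 := hf4.1
    by_cases hb1 : i1 + (2 * C + 1) ≤ s + N
    · by_cases hb2 : e + (2 * C + 1) ≤ j1 + N
      · exact ih k s e U ⟨L, he, h1, h2, h3, h4, h5, h6, h7, h8, h9⟩ hb1 hb2
      · -- right side broken
        have hnear : Near (4 * C) (st j1) (st i) := by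
          have := (((hd.near.symm.trans hf2.near.symm).trans hdA.near.symm).trans hf1.near.symm)
          exact this.mono (by omega)
        have hj1 : j1 + (2 * C + 1) ≤ s + 3 * N + L := by
          by_contra hlt
          have hsuf : (List.replicate (N - (2 * C + 1)) false ++ U) <:+ st j1 := by
            by_cases c1 : j1 ≤ s + 3 * N + L
            · have : j1 = s + 2 * N + L + (j1 - (s + 2 * N + L)) := by omega
              rw [this, h3 _ (by omega)]
              exact suffix_rep (by omega)
            · by_cases c2 : j1 ≤ s + 3 * N + 2 * L
              · exact (suffix_rep (by omega)).trans (h6 j1 (by omega) c2)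
              · have : j1 = s + 3 * N + 2 * L + (j1 - (s + 3 * N + 2 * L)) := by omega
                rw [this, h4 _ (by omega)]
                exact suffix_rep (by omega)
          have hnot : ¬ ((false :: U) <:+ st i) := by
            by_cases c1 : i ≤ s
            · exact h7 i (Or.inl c1) false
            · have : i = s + (i - s) := by omega
              rw [this, h1 _ (by omega)]
              exact not_branch (by simp) _ _
          have := near_branch hnear hsuf hnot
          omega
        -- the small piece contains the second subtree
        have hb1' : b1 ≤ s + 3 * N + L := by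
          by_contra hlt
          exact flat_up (a := false) (U := U) (s := s + 2 * N + L) h3 hf3
            (x := N - (2 * C + 1)) (y := N) le_rfl (by omega) (by omega) (by omega)
        have hb2' : s + 3 * N + 2 * L ≤ b2 := by
          by_contra hlt
          exact flat_down (a := false) (U := U) (s := s + 3 * N + 2 * L) h4 hf4
            (x := 0) (y := 2 * C + 1) (by omega) (by omega) (by omega) (by omega)
        rcases k with _ | k
        · omega
        · have := ihB k _ _ _ h9 (by omega) (by omega)
          omega
    · -- left side broken
      have hnear : Near (4 * C) (st i1) (st j) := by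
        have := (((hd.near.trans hf3.near).trans hdB.near).trans hf4.near)
        exact this.mono (by omega)
      have hi1 : s + N + L + (2 * C + 1) ≤ i1 := by
        by_contra hlt
        have hsuf : (List.replicate (N - (2 * C + 1)) true ++ U) <:+ st i1 := by
          by_cases c1 : i1 ≤ s + N
          · have : i1 = s + (i1 - s) := by omega
            rw [this, h1 _ (by omega)]
            exact suffix_rep (by omega)
          · by_cases c2 : i1 ≤ s + N + L
            · exact (suffix_rep (by omega)).trans (h5 i1 (by omega) c2)
            · have : i1 = s + N + L + (i1 - (s + N + L)) := by omega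
              rw [this, h2 _ (by omega)]
              exact suffix_rep (by omega)
        have hnot : ¬ ((true :: U) <:+ st j) := by
          by_cases c1 : e ≤ j
          · exact h7 j (Or.inr c1) true
          · have : j = s + 3 * N + 2 * L + (j - (s + 3 * N + 2 * L)) := by omega
            rw [this, h4 _ (by omega)]
            exact not_branch (by simp) _ _
        have := near_branch hnear hsuf hnot
        omega
      have ha1' : a1 ≤ s + N := by
        by_contra hlt
        exact flat_up (a := true) (U := U) (s := s) h1 hf1 (x := N - (2 * C + 1)) (y := N) le_rfl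
          (by omega) (by omega) (by omega)
      have ha2' : s + N + L ≤ a2 := by
        by_contra hlt
        exact flat_down (a := true) (U := U) (s := s + N + L) h2 hf2
          (x := 0) (y := 2 * C + 1) (by omega) (by omega) (by omega) (by omega)
      rcases k with _ | k
      · omega
      · have := ihA k _ _ _ h8 (by omega) (by omega)
        omega

end Pool.Agent.H643R2.Q
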