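import Pool.Agent.H643R2.SemiReg

set_option autoImplicit false

/-!
# The language of words with different numbers of the two letters in the cone of a commutative
# language
-/

namespace Pool.Agent.H643R2.Semi

variable {A : Type}

theorem exists_word [Fintype A] (x : A → ℕ) : ∃ w : List A, cnt w = x := by
  classical
  refine ⟨(∑ a, x a • ({a} : Multiset A)).toList, ?_⟩
  funext b
  unfold cnt
  rw [← Multiset.coe_count, Multiset.coe_toList, Multiset.count_sum', Finset.sum_eq_single b]
  · rw [Multiset.count_nsmul, Multiset.count_singleton_self, mul_one]
  · intro a _ hab
    rw [Multiset.count_nsmul, Multiset.count_singleton, if_neg (Ne.symm hab), mul_zero]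
  · intro h; exact absurd (Finset.mem_univ _) h

/-- the control letters: the start letter, the extra letter and the two letters, in two modes -/
abbrev Ctl : Type := Bool × Option (Option Bool)

/-- automaton checking the shape; it also records whether the extra letter was seen -/
def auto (x : Bool) : DFA Ctl (Option (Option (Bool × Bool))) where
  step := fun s c => match s, c with
    | none, _ => none
    | some none, (mode, none) => some (some (mode, false))
    | some none, (_, some _) => none
    | some (some (_, _)), (_, none) => none
    | some (some (mode, _)), (mode', some none) => if mode = mode' then some (some (mode, true)) else none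
    | some (some (mode, seen)), (mode', some (some _)) =>
      if mode = mode' then some (some (mode, seen)) else none
  start := some none
  accept := {s | ∃ mode, s = some (some (mode, x))}

theorem auto_dead (x : Bool) (w : List Ctl) : (auto x).evalFrom none w = none := by
  induction w with
  | nil => rfl
  | cons c w ih =>
    rw [DFA.evalFrom_cons]
    exact ih

theorem auto_run (x mode seen : Bool) (l : List (Option Bool)) :
    (auto x).evalFrom (some (some (mode, seen))) (l.map fun o => (mode, some o)) =
      some (some (mode, seen || decide (none ∈ l))) := by
  induction l generalizing seen with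
  | nil => simp
  | cons o l ih =>
    rw [List.map_cons, DFA.evalFrom_cons]
    cases o with
    | none =>
      have : (auto x).step (some (some (mode, seen))) (mode, some none) =
        some (some (mode, true)) := by simp [auto]
      rw [this, ih]
      simp
    | some b =>
      have : (auto x).step (some (some (mode, seen))) (mode, some (some b)) =
        some (some (mode, seen)) := by simp [auto]
      rw [this, ih]
      simp

theorem auto_inv (x mode seen : Bool) (w : List Ctl) (mode' seen' : Bool)
    (h : (auto x).evalFrom (some (some (mode, seen))) w = some (some (mode', seen'))) :
    ∃ l : List (Option Bool), w = l.map fun o => (mode, some o) := by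
  induction w generalizing seen with
  | nil => exact ⟨[], rfl⟩
  | cons c w ih =>
    rw [DFA.evalFrom_cons] at h
    obtain ⟨m, o⟩ := c
    cases o with
    | none =>
      have : (auto x).step (some (some (mode, seen))) (m, none) = none := by simp [auto]
      rw [this, auto_dead] at h
      simp at h
    | some o =>
      by_cases hm : mode = m
      · subst hm
        cases o with
        | none =>
          have : (auto x).step (some (some (mode, seen))) (mode, some none) =
            some (some (mode, true)) := by simp [auto]
          rw [this] at h
          obtain ⟨l, rfl⟩ := ih _ h
          exact ⟨none :: l, rfl⟩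
        | some b =>
          have : (auto x).step (some (some (mode, seen))) (mode, some (some b)) =
            some (some (mode, seen)) := by simp [auto]
          rw [this] at h
          obtain ⟨l, rfl⟩ := ih _ h
          exact ⟨some b :: l, rfl⟩
      · have : (auto x).step (some (some (mode, seen))) (m, some o) = none := by
          cases o <;> simp [auto, hm]
        rw [this, auto_dead] at h
        simp at h

theorem auto_accepts (x : Bool) (w : List Ctl) : w ∈ (auto x).accepts ↔
    ∃ (mode : Bool) (l : List (Option Bool)), (none ∈ l ↔ x = true) ∧
      w = (mode, none) :: l.map fun o => (mode, some o) := by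
  rw [DFA.mem_accepts, DFA.eval]
  constructor
  · rintro ⟨mode, h⟩
    cases w with
    | nil => simp [auto] at h
    | cons c w =>
      rw [DFA.evalFrom_cons] at h
      obtain ⟨m, o⟩ := c
      cases o with
      | some o =>
        have : (auto x).step (auto x).start (m, some o) = none := by simp [auto]
        rw [this, auto_dead] at h
        simp at h
      | none =>
        have : (auto x).step (auto x).start (m, none) = some (some (m, false)) := by simp [auto]
        rw [this] at h
        obtain ⟨l, rfl⟩ := auto_inv x m false w mode x h
        rw [auto_run] at h
        simp only [Bool.false_or, Option.some.injEq, Prod.mk.injEq] at h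
        refine ⟨m, l, ?_, rfl⟩
        rw [← h.2]
        simp
  · rintro ⟨mode, l, h, rfl⟩
    rw [DFA.evalFrom_cons]
    have : (auto x).step (auto x).start (mode, none) = some (some (mode, false)) := by simp [auto]
    rw [this, auto_run]
    refine ⟨mode, ?_⟩
    rw [Bool.false_or]
    congr 3
    rw [Bool.eq_iff_iff, ← h]
    simp

/-- the image of a control letter in the input alphabet -/
def inp (U V W : List A) : Ctl → List A
  | (_, none) => U
  | (_, some none) => W
  | (mode, some (some b)) => if mode = b then W else V

/-- the image of a control letter in the output alphabet -/
def outp : Ctl → List (Fin 2)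
  | (_, some (some b)) => [if b then 1 else 0]
  | _ => []

theorem cnt_inp (U V W : List A) (mode : Bool) (l : List (Option Bool)) :
    cnt (((mode, none) :: l.map fun o => (mode, some o)).flatMap (inp U V W)) =
      cnt U + (l.count (some (!mode))) • cnt V + (l.count (some mode) + l.count none) • cnt W := by
  rw [List.flatMap_cons, cnt_append]
  have h1 : inp U V W (mode, none) = U := rfl
  rw [h1, add_assoc]
  congr 1
  induction l with
  | nil => simp [cnt_nil]
  | cons o l ih =>
    rw [List.map_cons, List.flatMap_cons, cnt_append, ih]
    cases o with
    | none =>
      have h2 : inp U V W (mode, some none) = W := rfl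
      rw [h2]
      simp only [List.count_cons, beq_self_eq_true, if_true, beq_iff_eq, reduceCtorEq, if_false,
        add_zero]
      rw [add_smul (l.count (some mode)) (l.count none + 1), add_smul (l.count none) 1, one_smul,
        add_smul]
      abel
    | some b =>
      have h2 : inp U V W (mode, some (some b)) = if mode = b then W else V := rfl
      rw [h2]
      by_cases hb : mode = b
      · subst hb
        rw [if_pos rfl]
        have h3 : (some mode : Option Bool) ≠ some (!mode) := by simp
        have h4 : (some mode : Option Bool) ≠ none := by simp
        rw [List.count_cons_of_ne h3, List.count_cons_self, List.count_cons_of_ne h4]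
        rw [show l.count (some mode) + 1 + l.count none = (l.count (some mode) + l.count none) + 1 by
          ring, add_smul (l.count (some mode) + l.count none) 1, one_smul]
        abel
      · rw [if_neg hb]
        have hb' : b = !mode := by
          cases mode <;> cases b <;> simp at hb ⊢
        subst hb'
        have h3 : (some (!mode) : Option Bool) ≠ some mode := by simp
        have h4 : (some (!mode) : Option Bool) ≠ none := by simp
        rw [List.count_cons_self, List.count_cons_of_ne h3, List.count_cons_of_ne h4,
          add_smul (l.count (some (!mode))) 1, one_smul]
        abel

theorem count_outp (mode : Bool) (l : List (Option Bool)) (b : Bool) :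
    (((mode, none) :: l.map fun o => (mode, some o)).flatMap outp).count (if b then 1 else 0) =
      l.count (some b) := by
  rw [List.flatMap_cons]
  have h1 : outp (mode, none) = [] := rfl
  rw [h1, List.nil_append]
  induction l with
  | nil => simp
  | cons o l ih =>
    rw [List.map_cons, List.flatMap_cons, List.count_append, ih]
    cases o with
    | none => simp [outp]
    | some b' => cases b' <;> cases b <;> simp [outp, List.count_cons] <;> ring

/-- a list of letters as a list of control letters -/
def toL (x : List (Fin 2)) (k : ℕ) : List (Option Bool) :=
  (x.map fun i => some (decide (i = 1))) ++ List.replicate k none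

theorem count_toL (x : List (Fin 2)) (k : ℕ) (b : Bool) :
    (toL x k).count (some b) = x.count (if b then 1 else 0) := by
  unfold toL
  rw [List.count_append, List.count_replicate]
  simp only [beq_iff_eq, reduceCtorEq, if_false, add_zero]
  induction x with
  | nil => simp
  | cons i x ih =>
    rw [List.map_cons, List.count_cons, List.count_cons, ih]
    congr 1
    have : i = 0 ∨ i = 1 := by omega
    rcases this with rfl | rfl <;> cases b <;> simp

theorem count_none_toL (x : List (Fin 2)) (k : ℕ) : (toL x k).count none = k := by
  unfold toL
  rw [List.count_append, List.count_replicate]
  simp only [beq_self_eq_true, if_true]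
  have : (x.map fun i => (some (decide (i = 1)) : Option Bool)).count none = 0 := by
    rw [List.count_eq_zero]
    simp
  omega

theorem outp_toL (mode : Bool) (x : List (Fin 2)) (k : ℕ) :
    ((mode, none) :: (toL x k).map fun o => (mode, some o)).flatMap outp = x := by
  rw [List.flatMap_cons]
  have h1 : outp (mode, none) = [] := rfl
  rw [h1, List.nil_append]
  unfold toL
  rw [List.map_append, List.flatMap_append]
  have h2 : ((List.replicate k (none : Option Bool)).map fun o => (mode, some o)).flatMap outp
      = [] := by
    induction k with
    | zero => rfl
    | succ k ih => rw [List.replicate_succ, List.map_cons, List.flatMap_cons, ih]; rfl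
  rw [h2, List.append_nil]
  induction x with
  | nil => rfl
  | cons i x ih =>
    rw [List.map_cons, List.map_cons, List.flatMap_cons, ih]
    have : i = 0 ∨ i = 1 := by omega
    rcases this with rfl | rfl <;> rfl

/-- The cone of a commutative language with a two-dimensional section of one of the three types
contains the language of words with different numbers of the two letters. -/
theorem cone [Fintype A] (S : Set (A → ℕ)) (u v w : A → ℕ)
    (h : (∀ m n : ℕ, u + m • v + n • w ∈ S ↔ n < m) ∨
      (∀ m n : ℕ, u + m • v + n • w ∈ S ↔ m ≠ n) ∨
      (∀ m n : ℕ, u + m • v + n • w ∈ S ↔ m = n)) :
    ∃ (g : Ctl → List A) (o : Ctl → List (Fin 2)) (x : Bool), ∀ y : List (Fin 2),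
      y.count 0 ≠ y.count 1 ↔ ∃ z : List Ctl, z ∈ (auto x).accepts ∧
        cnt (z.flatMap g) ∈ S ∧ z.flatMap o = y := by
  obtain ⟨U, rfl⟩ := exists_word u
  obtain ⟨V, rfl⟩ := exists_word v
  obtain ⟨W, rfl⟩ := exists_word w
  have hb : ∀ (y : List (Fin 2)) (b : Bool), (b = false → y.count (if b then 1 else 0) = y.count 0) ∧
      (b = true → y.count (if b then 1 else 0) = y.count 1) := by
    intro y b
    constructor <;> intro h <;> subst h <;> rfl
  rcases h with h | h | h
  · refine ⟨inp U V W, outp, false, fun y => ?_⟩
    constructor
    · intro hy
      refine ⟨(decide (y.count 1 < y.count 0), none) ::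
        (toL y 0).map fun o => (decide (y.count 1 < y.count 0), some o), ?_, ?_, outp_toL _ _ _⟩
      · rw [auto_accepts]
        refine ⟨_, toL y 0, ?_, rfl⟩
        have := count_none_toL y 0
        rw [List.count_eq_zero] at this
        simp [this]
      · rw [cnt_inp, h, count_toL, count_toL, count_none_toL]
        by_cases hlt : y.count 1 < y.count 0
        · simp [hlt]
        · simp only [hlt, decide_false, Bool.not_false, if_true, Bool.false_eq_true, if_false]
          omega
    · rintro ⟨z, hz, hS, rfl⟩
      obtain ⟨mode, l, hl, rfl⟩ := (auto_accepts _ _).1 hz
      rw [cnt_inp, h] at hS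
      have h0 : l.count none = 0 := by
        rw [List.count_eq_zero]
        intro h'
        exact absurd (hl.1 h') (by simp)
      have h1 := count_outp mode l false
      have h2 := count_outp mode l true
      simp only [Bool.false_eq_true, if_false, if_true] at h1 h2
      rw [h1, h2]
      cases mode <;> simp only [Bool.not_false, Bool.not_true] at hS <;> omega
  · refine ⟨inp U V W, outp, false, fun y => ?_⟩
    constructor
    · intro hy
      refine ⟨(true, none) :: (toL y 0).map fun o => (true, some o), ?_, ?_, outp_toL _ _ _⟩
      · rw [auto_accepts]
        refine ⟨_, toL y 0, ?_, rfl⟩
        have := count_none_toL y 0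
        rw [List.count_eq_zero] at this
        simp [this]
      · rw [cnt_inp, h, count_toL, count_toL, count_none_toL]
        simpa using hy
    · rintro ⟨z, hz, hS, rfl⟩
      obtain ⟨mode, l, hl, rfl⟩ := (auto_accepts _ _).1 hz
      rw [cnt_inp, h] at hS
      have h0 : l.count none = 0 := by
        rw [List.count_eq_zero]
        intro h'
        exact absurd (hl.1 h') (by simp)
      have h1 := count_outp mode l false
      have h2 := count_outp mode l true
      simp only [Bool.false_eq_true, if_false, if_true] at h1 h2
      rw [h1, h2]
      cases mode <;> simp only [Bool.not_false, Bool.not_true] at hS <;> omega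
  · refine ⟨inp U V W, outp, true, fun y => ?_⟩
    constructor
    · intro hy
      obtain ⟨k, hk⟩ : ∃ k, k = (y.count 0 - y.count 1) + (y.count 1 - y.count 0) := ⟨_, rfl⟩
      refine ⟨(decide (y.count 1 < y.count 0), none) ::
        (toL y k).map fun o => (decide (y.count 1 < y.count 0), some o), ?_, ?_, outp_toL _ _ _⟩
      · rw [auto_accepts]
        refine ⟨_, toL y k, ?_, rfl⟩
        have := count_none_toL y k
        have h3 : 0 < (toL y k).count none := by omega
        rw [List.count_pos_iff] at h3
        simp [h3]
      · rw [cnt_inp, h, count_toL, count_toL, count_none_toL]
        by_cases hlt : y.count 1 < y.count 0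
        · simp only [hlt, decide_true, Bool.not_true, if_true, Bool.false_eq_true, if_false]
          omega
        · simp only [hlt, decide_false, Bool.not_false, if_true, Bool.false_eq_true, if_false]
          omega
    · rintro ⟨z, hz, hS, rfl⟩
      obtain ⟨mode, l, hl, rfl⟩ := (auto_accepts _ _).1 hz
      rw [cnt_inp, h] at hS
      have h0 : 0 < l.count none := by
        rw [List.count_pos_iff]
        exact hl.2 rfl
      have h1 := count_outp mode l false
      have h2 := count_outp mode l true
      simp only [Bool.false_eq_true, if_false, if_true] at h1 h2
      rw [h1, h2]
      cases mode <;> simp only [Bool.not_false, Bool.not_true] at hS <;> omega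

end Pool.Agent.H643R2.Semi
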