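import Mathlib

set_option autoImplicit false

/-!
# Semilinear sets are determined by residues and finitely many linear thresholds
-/

namespace Pool.Agent.H643R2.Semi

variable {A : Type} [Fintype A]

/-- integer value of a functional -/
def fv (f : A → ℤ) (x : A → ℕ) : ℤ := ∑ a, f a * (x a : ℤ)

theorem fv_add (f : A → ℤ) (x y : A → ℕ) : fv f (x + y) = fv f x + fv f y := by
  unfold fv
  rw [← Finset.sum_add_distrib]
  refine Finset.sum_congr rfl fun a _ => ?_
  rw [Pi.add_apply]
  push_cast
  ring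

theorem fv_smul (f : A → ℤ) (n : ℕ) (x : A → ℕ) : fv f (n • x) = n * fv f x := by
  unfold fv
  rw [Finset.mul_sum]
  refine Finset.sum_congr rfl fun a _ => ?_
  rw [Pi.smul_apply, smul_eq_mul]
  push_cast
  ring

/-- a set of vectors determined by residues and finitely many thresholds -/
def Det (S : Set (A → ℕ)) : Prop :=
  ∃ (Q : ℕ) (_ : 0 < Q) (J : Type) (_ : Fintype J) (f : J → A → ℤ) (c : J → ℤ),
    ∀ x y : A → ℕ, (∀ a, (Q : ℤ) ∣ (x a : ℤ) - y a) →
      (∀ j, c j ≤ fv (f j) x ↔ c j ≤ fv (f j) y) → (x ∈ S ↔ y ∈ S)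

theorem Det.empty : Det (∅ : Set (A → ℕ)) :=
  ⟨1, one_pos, Empty, inferInstance, fun j => j.elim, fun j => j.elim, by simp⟩

theorem Det.union {S T : Set (A → ℕ)} (hS : Det S) (hT : Det T) : Det (S ∪ T) := by
  obtain ⟨Q, hQ, J, hJ, f, c, h⟩ := hS
  obtain ⟨Q', hQ', J', hJ', f', c', h'⟩ := hT
  refine ⟨Q * Q', Nat.mul_pos hQ hQ', J ⊕ J', inferInstance, Sum.elim f f', Sum.elim c c', ?_⟩
  intro x y h1 h2
  refine or_congr (h x y (fun a => ?_) (fun j => h2 (Sum.inl j)))
    (h' x y (fun a => ?_) (fun j => h2 (Sum.inr j)))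
  · refine dvd_trans ?_ (h1 a)
    push_cast
    exact dvd_mul_right _ _
  · refine dvd_trans ?_ (h1 a)
    push_cast
    exact dvd_mul_left _ _

theorem exists_den {κ : Type} [Fintype κ] (q : κ → ℚ) :
    ∃ (D : ℕ) (_ : 0 < D) (z : κ → ℤ), ∀ k, (z k : ℚ) = D * q k := by
  classical
  refine ⟨∏ k, (q k).den, Finset.prod_pos fun k _ => (q k).den_pos, ?_⟩
  have : ∀ k, ∃ z : ℤ, (z : ℚ) = (∏ k, (q k).den : ℕ) * q k := by
    intro k
    obtain ⟨m, hm⟩ := Finset.dvd_prod_of_mem (fun k => (q k).den) (Finset.mem_univ k)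
    refine ⟨m * (q k).num, ?_⟩
    rw [hm]
    push_cast
    have h1 : ((q k).den : ℚ) * q k = (q k).num := by
      rw [mul_comm]; exact Rat.mul_den_eq_num (q k)
    calc (m : ℚ) * (q k).num = m * ((q k).den * q k) := by rw [h1]
      _ = _ := by ring
  exact ⟨fun k => (this k).choose, fun k => (this k).choose_spec⟩

/-- cast to rational vectors -/
def toQ : (A → ℕ) →+ (A → ℚ) where
  toFun x := fun a => (x a : ℚ)
  map_zero' := by funext a; simp
  map_add' x y := by funext a; simp

omit [Fintype A] in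
theorem toQ_inj : Function.Injective (toQ : (A → ℕ) →+ (A → ℚ)) := by
  intro x y h
  funext a
  have := congrFun h a
  simpa [toQ] using this

theorem linInd_toQ (t : Finset (A → ℕ)) (ht : LinearIndepOn ℕ id (t : Set (A → ℕ))) :
    LinearIndependent ℚ (fun v : t => toQ (v : A → ℕ)) := by
  classical
  rw [← LinearIndependent.iff_fractionRing (R := ℤ) (K := ℚ)]
  rw [Fintype.linearIndependent_iff]
  intro g hg v
  -- split into positive and negative parts
  have h1 : ∑ w : t, ((g w).toNat : ℕ) • (toQ (w : A → ℕ)) =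
      ∑ w : t, ((-g w).toNat : ℕ) • (toQ (w : A → ℕ)) := by
    rw [← sub_eq_zero, ← Finset.sum_sub_distrib]
    rw [← hg]
    refine Finset.sum_congr rfl fun w _ => ?_
    rw [← natCast_zsmul, ← natCast_zsmul, ← sub_smul]
    congr 1
    omega
  have h2 : ∑ w : t, (g w).toNat • (w : A → ℕ) = ∑ w : t, (-g w).toNat • (w : A → ℕ) := by
    apply toQ_inj
    rw [map_sum, map_sum]
    simp only [map_nsmul]
    exact h1
  have h3 : LinearIndependent ℕ (fun w : t => (w : A → ℕ)) := ht
  rw [Fintype.linearIndependent_iffₛ] at h3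
  have h4 := h3 (fun w => (g w).toNat) (fun w => (-g w).toNat) h2 v
  omega

theorem det_proper (a0 : A → ℕ) (t : Finset (A → ℕ))
    (ht : LinearIndepOn ℕ id (t : Set (A → ℕ))) :
    Det {x | ∃ y ∈ AddSubmonoid.closure (t : Set (A → ℕ)), x = a0 + y} := by
  classical
  have hli := linInd_toQ t ht
  -- basis
  have hli' : LinearIndepOn ℚ id (Set.range fun v : t => toQ (v : A → ℕ)) := hli.linearIndepOn_id
  obtain ⟨I, b, hbi, hmemI⟩ : ∃ (I : Set (A → ℚ)) (b : Module.Basis I ℚ (A → ℚ)),
      (∀ i : I, b i = (i : A → ℚ)) ∧ ∀ v : t, toQ (v : A → ℕ) ∈ I :=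
    ⟨hli'.extend (Set.subset_univ _), Module.Basis.extend hli',
      fun i => Module.Basis.extend_apply_self hli' i,
      fun v => hli'.subset_extend (Set.subset_univ _) (Set.mem_range_self v)⟩
  have hfin : Finite I := Module.Finite.finite_basis b
  have : Fintype I := Fintype.ofFinite I
  let ix : t → I := fun v => ⟨toQ (v : A → ℕ), hmemI v⟩
  have hix : Function.Injective ix := by
    intro v w h
    have h1 : toQ (v : A → ℕ) = toQ (w : A → ℕ) := congrArg Subtype.val h
    exact Subtype.ext (toQ_inj h1)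
  -- the coordinates
  let ψ : I → (A → ℚ) →ₗ[ℚ] ℚ := fun i => b.coord i
  have hψ : ∀ (i : I) (x : A → ℕ), ψ i (toQ x) = ∑ a, (x a : ℚ) * ψ i (Pi.single a 1) := by
    intro i x
    have hx : toQ x = ∑ a, (x a : ℚ) • (Pi.single a (1 : ℚ) : A → ℚ) := by
      funext a'
      rw [Finset.sum_apply]
      simp [toQ, Pi.single_apply]
    rw [hx, map_sum]
    simp only [map_smul, smul_eq_mul]
  obtain ⟨D, hD, z, hz⟩ := exists_den (fun k : I × A => ψ k.1 (Pi.single k.2 1))
  let f : I → A → ℤ := fun i a => z (i, a)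
  have hf : ∀ (i : I) (x : A → ℕ), (fv (f i) x : ℚ) = D * ψ i (toQ x) := by
    intro i x
    rw [hψ]
    unfold fv
    push_cast
    rw [Finset.mul_sum]
    refine Finset.sum_congr rfl fun a _ => ?_
    show (z (i, a) : ℚ) * x a = _
    rw [hz]
    ring
  have hmem : ∀ x : A → ℕ, (∃ y ∈ AddSubmonoid.closure (t : Set (A → ℕ)), x = a0 + y) ↔
      ∀ i : I, (i ∈ Set.range ix ∧ fv (f i) a0 ≤ fv (f i) x ∧ (D : ℤ) ∣ fv (f i) x - fv (f i) a0) ∨
        (i ∉ Set.range ix ∧ fv (f i) a0 ≤ fv (f i) x ∧ ¬ (fv (f i) a0 + 1 ≤ fv (f i) x)) := by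
    intro x
    constructor
    · rintro ⟨y, hy, rfl⟩ i
      rw [AddSubmonoid.mem_closure_finset] at hy
      obtain ⟨g, -, rfl⟩ := hy
      have h1 : (fv (f i) (∑ a ∈ t, g a • a) : ℚ) = D * ψ i (toQ (∑ a ∈ t, g a • a)) := hf i _
      have h2 : ψ i (toQ (∑ a ∈ t, g a • a)) = ∑ v : t, (g v : ℚ) * (if ix v = i then 1 else 0) := by
        rw [map_sum, map_sum, ← Finset.sum_coe_sort t (fun a => (ψ i) (toQ (g a • a)))]
        refine Finset.sum_congr rfl fun v _ => ?_
        rw [map_nsmul, map_nsmul]
        have h3 : ψ i (toQ (v : A → ℕ)) = if ix v = i then 1 else 0 := by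
          have h4 : toQ (v : A → ℕ) = b (ix v) := (hbi (ix v)).symm
          rw [h4]
          show b.coord i (b (ix v)) = _
          rw [Module.Basis.coord_apply, Module.Basis.repr_self, Finsupp.single_apply]
        rw [h3, nsmul_eq_mul]
      rw [fv_add]
      by_cases hi : i ∈ Set.range ix
      · left
        obtain ⟨v, rfl⟩ := hi
        have h5 : ψ (ix v) (toQ (∑ a ∈ t, g a • a)) = g v := by
          rw [h2]
          rw [Finset.sum_eq_single v]
          · simp
          · intro w _ hw
            rw [if_neg (fun h => hw (hix h)), mul_zero]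
          · simp
        rw [h5] at h1
        have h6 : fv (f (ix v)) (∑ a ∈ t, g a • a) = (D : ℤ) * (g v : ℤ) := by
          exact_mod_cast h1
        refine ⟨⟨v, rfl⟩, ?_, ?_⟩
        · rw [h6]
          have : (0 : ℤ) ≤ (D : ℤ) * (g v : ℤ) := by positivity
          omega
        · rw [h6]
          exact ⟨g v, by ring⟩
      · right
        have h5 : ψ i (toQ (∑ a ∈ t, g a • a)) = 0 := by
          rw [h2]
          refine Finset.sum_eq_zero fun w _ => ?_
          rw [if_neg (fun h => hi ⟨w, h⟩), mul_zero]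
        rw [h5, mul_zero] at h1
        have h6 : fv (f i) (∑ a ∈ t, g a • a) = 0 := by exact_mod_cast h1
        refine ⟨hi, ?_, ?_⟩
        · rw [h6]; omega
        · rw [h6]; omega
    · intro h
      have hDq : (D : ℚ) ≠ 0 := by positivity
      have h1 : ∀ v : t, ∃ n : ℕ, ψ (ix v) (toQ x) - ψ (ix v) (toQ a0) = n := by
        intro v
        rcases h (ix v) with ⟨-, h2, k, hk⟩ | ⟨h2, -⟩
        · have hk0 : 0 ≤ k := by
            by_contra hneg
            have : (D : ℤ) * k < 0 := by
              apply mul_neg_of_pos_of_neg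
              · exact_mod_cast hD
              · omega
            omega
          refine ⟨k.toNat, ?_⟩
          have h3 : (fv (f (ix v)) x : ℚ) - (fv (f (ix v)) a0 : ℚ) = D * (k : ℚ) := by
            exact_mod_cast hk
          rw [hf, hf, ← mul_sub] at h3
          have h4 := mul_left_cancel₀ hDq h3
          rw [h4]
          have : ((k.toNat : ℤ) : ℚ) = (k : ℚ) := by rw [Int.toNat_of_nonneg hk0]
          exact_mod_cast this.symm
        · exact absurd ⟨v, rfl⟩ h2
      choose n hn using h1
      have h0 : ∀ i : I, i ∉ Set.range ix → ψ i (toQ x) - ψ i (toQ a0) = 0 := by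
        intro i hi
        rcases h i with ⟨h2, -⟩ | ⟨-, h2, h3⟩
        · exact absurd h2 hi
        · have h4 : fv (f i) x = fv (f i) a0 := by omega
          have h5 : (fv (f i) x : ℚ) = (fv (f i) a0 : ℚ) := by rw [h4]
          rw [hf, hf] at h5
          have h6 := mul_left_cancel₀ hDq h5
          rw [h6, sub_self]
      refine ⟨∑ v : t, n v • (v : A → ℕ), ?_, ?_⟩
      · refine AddSubmonoid.sum_mem _ fun v _ => AddSubmonoid.nsmul_mem _ ?_ _
        exact AddSubmonoid.subset_closure v.2
      · apply toQ_inj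
        rw [map_add]
        have h7 : toQ x - toQ a0 = toQ (∑ v : t, n v • (v : A → ℕ)) := by
          apply b.ext_elem
          intro i
          have h8 : b.repr (toQ x - toQ a0) i = ψ i (toQ x) - ψ i (toQ a0) := by
            rw [map_sub]; rfl
          have h9 : b.repr (toQ (∑ v : t, n v • (v : A → ℕ))) i =
              ∑ v : t, (n v : ℚ) * (if ix v = i then 1 else 0) := by
            have : b.repr (toQ (∑ v : t, n v • (v : A → ℕ))) i =
              ψ i (toQ (∑ v : t, n v • (v : A → ℕ))) := rfl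
            rw [this, map_sum, map_sum]
            refine Finset.sum_congr rfl fun v _ => ?_
            rw [map_nsmul, map_nsmul]
            have h3 : ψ i (toQ (v : A → ℕ)) = if ix v = i then 1 else 0 := by
              have h4 : toQ (v : A → ℕ) = b (ix v) := (hbi (ix v)).symm
              rw [h4]
              show b.coord i (b (ix v)) = _
              rw [Module.Basis.coord_apply, Module.Basis.repr_self, Finsupp.single_apply]
            rw [h3, nsmul_eq_mul]
          rw [h8, h9]
          by_cases hi : i ∈ Set.range ix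
          · obtain ⟨v, rfl⟩ := hi
            rw [hn v, Finset.sum_eq_single v]
            · simp
            · intro w _ hw
              rw [if_neg (fun h => hw (hix h)), mul_zero]
            · simp
          · rw [h0 i hi]
            symm
            refine Finset.sum_eq_zero fun w _ => ?_
            rw [if_neg (fun h => hi ⟨w, h⟩), mul_zero]
        rw [← h7]
        abel
  refine ⟨D, hD, I × Bool, inferInstance, fun j => f j.1,
    fun j => if j.2 then fv (f j.1) a0 + 1 else fv (f j.1) a0, ?_⟩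
  intro x y hxy hc
  show (∃ y ∈ AddSubmonoid.closure (t : Set (A → ℕ)), x = a0 + y) ↔
    (∃ y' ∈ AddSubmonoid.closure (t : Set (A → ℕ)), y = a0 + y')
  rw [hmem x, hmem y]
  refine forall_congr' fun i => ?_
  have c1 := hc (i, false)
  have c2 := hc (i, true)
  simp only [Bool.false_eq_true, if_false, if_true] at c1 c2
  have c3 : (D : ℤ) ∣ fv (f i) x - fv (f i) y := by
    unfold fv
    rw [← Finset.sum_sub_distrib]
    refine Finset.dvd_sum fun a _ => ?_
    rw [← mul_sub]
    exact Dvd.dvd.mul_left (hxy a) _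
  have c4 : (D : ℤ) ∣ fv (f i) x - fv (f i) a0 ↔ (D : ℤ) ∣ fv (f i) y - fv (f i) a0 := by
    have e : fv (f i) x - fv (f i) a0 = (fv (f i) x - fv (f i) y) + (fv (f i) y - fv (f i) a0) := by
      ring
    rw [e, dvd_add_right c3]
  rw [c1, c2, c4]

theorem det_of_semilinear (S : Set (A → ℕ)) (hS : IsSemilinearSet S) : Det S := by
  obtain ⟨F, hF, hF', rfl⟩ := hS.isProperSemilinearSet
  induction F, hF using Set.Finite.induction_on with
  | empty => simpa using Det.empty
  | insert _ _ ih =>
    rw [Set.sUnion_insert]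
    refine Det.union ?_ (ih ?_ ?_)
    · obtain ⟨a0, t, ht, h⟩ := isProperLinearSet_iff.1 (hF' _ (Set.mem_insert _ _))
      rw [h]
      convert det_proper a0 t ht using 1
      ext x
      rw [Set.mem_vadd_set]
      constructor
      · rintro ⟨y, hy, rfl⟩; exact ⟨y, hy, rfl⟩
      · rintro ⟨y, hy, rfl⟩; exact ⟨y, hy, rfl⟩
    · exact fun s hs => hF' s (Set.mem_insert_of_mem _ hs)
    · exact IsSemilinearSet.sUnion ‹_› fun s hs =>
        (hF' s (Set.mem_insert_of_mem _ hs)).isProperSemilinearSet.isSemilinearSet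

end Pool.Agent.H643R2.Semi
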