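import Pool.Agent.H643R2.SemiDet

set_option autoImplicit false

/-!
# Two-dimensional sections of non-recognizable sets of vectors
-/

namespace Pool.Agent.H643R2.Semi

variable {A : Type} [Fintype A]

/-- clamping an integer -/
def clamp (B : ℕ) (z : ℤ) : ℤ := max (-(B : ℤ)) (min (B : ℤ) z)

theorem clamp_mem (B : ℕ) (z : ℤ) : clamp B z ∈ Set.Icc (-(B : ℤ)) (B : ℤ) := by
  unfold clamp
  constructor <;> omega

/-- selection of two comparable vectors in a sequence -/
theorem select {J : Type} [Fintype J] (Q : ℕ) (hQ : 0 < Q) (B : ℕ) (f : J → A → ℤ) (c : J → ℤ)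
    (i0 : A) (x : ℕ → A → ℕ) (hx : ∀ t, t ≤ x t i0) :
    ∃ t t' : ℕ, x t ≤ x t' ∧ x t i0 < x t' i0 ∧ (∀ a, (Q : ℤ) ∣ (x t' a : ℤ) - x t a) ∧
      ∀ j, (fv (f j) (x t) - c j).natAbs ≤ (fv (f j) (x t') - c j).natAbs ∧
        clamp B (fv (f j) (x t) - c j) = clamp B (fv (f j) (x t') - c j) := by
  classical
  let T : ℕ → ℕ := fun k => Nat.rec 0 (fun _ m => x m i0 + 1) k
  have hT : ∀ k, T (k + 1) = x (T k) i0 + 1 := fun k => rfl
  let X : ℕ → A → ℕ := fun k => x (T k)
  have hX1 : ∀ k, X k i0 < X (k + 1) i0 := by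
    intro k
    have h1 := hx (T (k + 1))
    have h2 := hT k
    show x (T k) i0 < x (T (k + 1)) i0
    omega
  have hX : StrictMono fun k => X k i0 := strictMono_nat_of_lt_succ hX1
  let G : ℕ → (A ⊕ J → ℕ) := fun k => Sum.elim (X k) (fun j => (fv (f j) (X k) - c j).natAbs)
  obtain ⟨g, hg⟩ := (Set.isPWO_of_wellQuasiOrderedLE (Set.univ : Set (A ⊕ J → ℕ))).exists_monotone_subseq
    (f := G) (fun _ => Set.mem_univ _)
  let col : ℕ → (A → ZMod Q) × (J → Set.Icc (-(B : ℤ)) (B : ℤ)) := fun k =>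
    (fun a => ((X (g k) a : ℕ) : ZMod Q),
      fun j => ⟨clamp B (fv (f j) (X (g k)) - c j), clamp_mem _ _⟩)
  have : NeZero Q := ⟨by omega⟩
  have : Finite (Set.Icc (-(B : ℤ)) (B : ℤ)) := (Set.finite_Icc _ _).to_subtype
  obtain ⟨k, k', hkk, hcol⟩ : ∃ k k' : ℕ, k < k' ∧ col k = col k' := by
    obtain ⟨a, b, hab, h⟩ := Finite.exists_ne_map_eq_of_infinite col
    rcases Nat.lt_or_gt_of_ne hab with h1 | h1
    · exact ⟨a, b, h1, h⟩
    · exact ⟨b, a, h1, h.symm⟩
  have hm := hg hkk.le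
  refine ⟨T (g k), T (g k'), fun a => hm (Sum.inl a), hX (g.strictMono hkk), ?_, ?_⟩
  · intro a
    have h1 := congrFun (congrArg Prod.fst hcol) a
    simp only [col] at h1
    have h2 := (ZMod.natCast_eq_natCast_iff _ _ _).1 h1
    exact (Nat.modEq_iff_dvd.1 h2)
  · intro j
    refine ⟨hm (Sum.inr j), ?_⟩
    have h1 := congrFun (congrArg Prod.snd hcol) j
    exact congrArg Subtype.val h1

open Classical in
theorem pattern (S : Set (A → ℕ)) (hS : Det S) (i0 : A)
    (hinf : ∀ t p : ℕ, 0 < p → ∃ z : A → ℕ, ¬ (z + t • Pi.single i0 1 ∈ S ↔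
      z + (t + p) • Pi.single i0 1 ∈ S)) :
    ∃ u v w : A → ℕ, (∀ m n : ℕ, u + m • v + n • w ∈ S ↔ n < m) ∨
      (∀ m n : ℕ, u + m • v + n • w ∈ S ↔ m ≠ n) ∨
      (∀ m n : ℕ, u + m • v + n • w ∈ S ↔ m = n) := by
  obtain ⟨Q, hQ, J, hJ, f, c, hdet⟩ := hS
  choose z hz using fun t => hinf t Q hQ
  set e : A → ℕ := Pi.single i0 1 with he
  obtain ⟨x, hxd⟩ : ∃ x : ℕ → A → ℕ, ∀ t, x t = z t + t • e := ⟨_, fun _ => rfl⟩
  have hx : ∀ t, t ≤ x t i0 := by
    intro t
    rw [hxd, Pi.add_apply, Pi.smul_apply, he, Pi.single_eq_same]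
    simp
  set e' : A → ℕ := Q • e with he'
  set B : ℕ := 1 + ∑ j, (fv (f j) e').natAbs with hB
  obtain ⟨t, t', hle, hlt, hdvd, hj⟩ := select Q hQ B f c i0 x hx
  set y0 := x t with hy0
  obtain ⟨y1, hy1⟩ : ∃ y1 : A → ℕ, x t' = y0 + y1 := ⟨x t' - y0, by
    funext b
    have h1 : y0 b ≤ x t' b := hle b
    simp only [Pi.add_apply, Pi.sub_apply]
    omega⟩
  rw [hy1] at hle hlt hdvd hj
  have hd1 : ∀ b, (Q : ℤ) ∣ y1 b := by
    intro b
    have := hdvd b
    rw [Pi.add_apply] at this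
    push_cast at this
    rwa [add_sub_cancel_left] at this
  have hy1i : Q ≤ y1 i0 := by
    have h1 : 0 < y1 i0 := by
      rw [Pi.add_apply] at hlt
      omega
    exact Nat.le_of_dvd h1 (by exact_mod_cast hd1 i0)
  obtain ⟨a, ha⟩ : ∃ a : A → ℕ, y1 = a + e' := ⟨y1 - e', by
    funext b
    simp only [Pi.add_apply, Pi.sub_apply, he', he, Pi.smul_apply]
    by_cases hb : b = i0
    · subst hb
      rw [Pi.single_eq_same]
      simp only [smul_eq_mul, mul_one]
      omega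
    · rw [Pi.single_eq_of_ne hb]
      simp⟩
  have hde : ∀ b, (Q : ℤ) ∣ e' b := by
    intro b
    rw [he', Pi.smul_apply, smul_eq_mul]
    push_cast
    exact dvd_mul_right _ _
  have hda : ∀ b, (Q : ℤ) ∣ a b := by
    intro b
    have h1 := hd1 b
    rw [ha, Pi.add_apply] at h1
    push_cast at h1
    exact (dvd_add_left (hde b)).1 h1
  set α : J → ℤ := fun j => fv (f j) y0 - c j with hα
  set β : J → ℤ := fun j => fv (f j) y1 with hβ
  set γ : J → ℤ := fun j => fv (f j) e' with hγ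
  have hγB : ∀ j, (γ j).natAbs < B := by
    intro j
    have := Finset.single_le_sum (f := fun j => (fv (f j) e').natAbs) (fun _ _ => Nat.zero_le _)
      (Finset.mem_univ j)
    rw [hB]
    simp only [hγ]
    omega
  have hαβ : ∀ j, (α j).natAbs ≤ (α j + β j).natAbs ∧ clamp B (α j) = clamp B (α j + β j) := by
    intro j
    have h1 := hj j
    rw [fv_add] at h1
    have h2 : fv (f j) y0 + fv (f j) y1 - c j = α j + β j := by simp only [hα, hβ]; ring
    rw [h2] at h1
    exact h1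
  have hpos : ∀ j, 0 < β j → (B : ℤ) ≤ α j := by
    intro j h0
    obtain ⟨h1, h2⟩ := hαβ j
    unfold clamp at h2
    omega
  have hneg : ∀ j, β j < 0 → α j ≤ -(B : ℤ) := by
    intro j h0
    obtain ⟨h1, h2⟩ := hαβ j
    unfold clamp at h2
    omega
  obtain ⟨F, hF⟩ : ∃ F : ℕ, ∀ j, (γ j).natAbs ≤ F := ⟨B, fun j => (hγB j).le⟩
  let P : ℕ → ℕ → A → ℕ := fun N l => y0 + N • a + l • e'
  have hfvP : ∀ j N l, fv (f j) (P N l) - c j = α j + N * β j + ((l : ℤ) - N) * γ j := by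
    intro j N l
    show fv (f j) (y0 + N • a + l • e') - c j = _
    have hb' : β j = fv (f j) a + fv (f j) e' := by
      simp only [hβ]
      rw [ha, fv_add]
    rw [fv_add, fv_add, fv_smul, fv_smul, hb']
    simp only [hα, hγ]
    ring
  let θ : J → ℤ → Prop := fun j k => 0 < β j ∨ (β j = 0 ∧ 0 ≤ α j + k * γ j)
  have htr : ∀ j (N l : ℕ), (F + 1) * ((l : ℤ) - N).natAbs ≤ N →
      (c j ≤ fv (f j) (P N l) ↔ θ j ((l : ℤ) - N)) := by
    intro j N l hN
    have h1 := hfvP j N l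
    have h2 : |((l : ℤ) - N) * γ j| ≤ N := by
      rw [abs_mul]
      have h3 : |γ j| ≤ F := by
        rw [Int.abs_eq_natAbs]; exact_mod_cast hF j
      have h4 : (((F + 1) * ((l : ℤ) - N).natAbs : ℕ) : ℤ) ≤ N := by exact_mod_cast hN
      push_cast at h4
      have h5 : |(l : ℤ) - N| * |γ j| ≤ |(l : ℤ) - N| * F :=
        mul_le_mul_of_nonneg_left h3 (abs_nonneg _)
      nlinarith [abs_nonneg ((l : ℤ) - N)]
    have h2' := abs_le.1 h2
    show _ ↔ (0 < β j ∨ (β j = 0 ∧ 0 ≤ α j + ((l : ℤ) - N) * γ j))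
    rcases lt_trichotomy (β j) 0 with h3 | h3 | h3
    · have h4 := hneg j h3
      have h5 : (N : ℤ) * β j ≤ -N := by nlinarith
      constructor
      · intro h6
        exfalso
        have : 1 ≤ B := by rw [hB]; exact Nat.le_add_right _ _
        omega
      · intro h6
        omega
    · rw [h3] at h1 ⊢
      constructor
      · intro h6
        exact Or.inr ⟨rfl, by linarith⟩
      · rintro (h6 | ⟨-, h6⟩)
        · omega
        · linarith
    · have h4 := hpos j h3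
      have h5 : (N : ℤ) ≤ (N : ℤ) * β j := by nlinarith
      constructor
      · intro _
        exact Or.inl h3
      · intro _
        have : (0 : ℤ) ≤ B := by positivity
        linarith
  have hres : ∀ (N l N' l' : ℕ) (b : A), (Q : ℤ) ∣ (P N l b : ℤ) - P N' l' b := by
    intro N l N' l' b
    have : (P N l b : ℤ) - P N' l' b = ((N : ℤ) - N') * a b + ((l : ℤ) - l') * e' b := by
      show (((y0 + N • a + l • e') b : ℕ) : ℤ) - ((y0 + N' • a + l' • e') b : ℕ) = _
      simp only [Pi.add_apply, Pi.smul_apply, smul_eq_mul]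
      push_cast
      ring
    rw [this]
    exact dvd_add (Dvd.dvd.mul_left (hda b) _) (Dvd.dvd.mul_left (hde b) _)
  have hsame : ∀ (N l N' l' : ℕ), (F + 1) * ((l : ℤ) - N).natAbs ≤ N →
      (F + 1) * ((l' : ℤ) - N').natAbs ≤ N' → (∀ j, θ j ((l : ℤ) - N) ↔ θ j ((l' : ℤ) - N')) →
      (P N l ∈ S ↔ P N' l' ∈ S) := by
    intro N l N' l' h1 h2 h3
    refine hdet _ _ (hres N l N' l') fun j => ?_
    rw [htr j N l h1, htr j N' l' h2, h3 j]
  let Nk : ℤ → ℕ := fun k => (F + 1) * k.natAbs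
  let V : ℤ → Prop := fun k => P (Nk k) ((Nk k : ℤ) + k).toNat ∈ S
  have hNk : ∀ k, ((((Nk k : ℤ) + k).toNat : ℕ) : ℤ) - Nk k = k := by
    intro k
    have h1 : k.natAbs ≤ Nk k := by
      exact Nat.le_mul_of_pos_left _ (Nat.succ_pos F)
    omega
  have hNk' : ∀ k, (F + 1) * (((((Nk k : ℤ) + k).toNat : ℕ) : ℤ) - Nk k).natAbs ≤ Nk k := by
    intro k
    rw [hNk k]
  have hV : ∀ N l : ℕ, (F + 1) * ((l : ℤ) - N).natAbs ≤ N → (P N l ∈ S ↔ V ((l : ℤ) - N)) := by
    intro N l h1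
    refine hsame N l _ _ h1 (hNk' _) fun j => ?_
    rw [hNk]
  have hVV : ∀ k k' : ℤ, (∀ j, θ j k ↔ θ j k') → (V k ↔ V k') := by
    intro k k' h1
    refine hsame _ _ _ _ (hNk' k) (hNk' k') fun j => ?_
    rw [hNk, hNk]
    exact h1 j
  have hV0 : V 0 ↔ y0 ∈ S := by
    have h1 := hV 0 0 (by simp)
    have h2 : P 0 0 = y0 := by
      show y0 + 0 • a + 0 • e' = y0
      simp
    rw [h2] at h1
    simpa using h1.symm
  have hV1 : V 1 ↔ y0 + e' ∈ S := by
    have h2 : P 0 1 = y0 + e' := by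
      show y0 + 0 • a + 1 • e' = y0 + e'
      simp
    rw [← h2]
    show P (Nk 1) ((Nk 1 : ℤ) + 1).toNat ∈ S ↔ _
    refine hdet _ _ (hres _ _ _ _) fun j => ?_
    rw [htr j _ _ (hNk' 1), hNk]
    have h3 := hfvP j 0 1
    have h4 := hγB j
    show (0 < β j ∨ (β j = 0 ∧ 0 ≤ α j + 1 * γ j)) ↔ _
    rcases lt_trichotomy (β j) 0 with h5 | h5 | h5
    · have h6 := hneg j h5
      push_cast at h3
      constructor
      · intro h7
        omega
      · intro h7
        exfalso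
        simp only [one_mul, zero_mul, add_zero] at h3
        omega
    · push_cast at h3
      simp only [one_mul, zero_mul, add_zero] at h3
      constructor
      · rintro (h7 | ⟨-, h7⟩)
        · omega
        · omega
      · intro h7
        right
        exact ⟨h5, by omega⟩
    · have h6 := hpos j h5
      push_cast at h3
      simp only [one_mul, zero_mul, add_zero] at h3
      constructor
      · intro _
        omega
      · intro _
        exact Or.inl h5
  have hV01 : ¬ (V 0 ↔ V 1) := by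
    rw [hV0, hV1]
    have h1 := hz t
    have h2 : z t + (t + Q) • e = y0 + e' := by
      rw [hy0, hxd, he', add_smul, add_assoc]
    rw [h2, ← hxd] at h1
    exact h1
  set K : ℕ := 1 + ∑ j, (α j).natAbs with hK
  have hαK : ∀ j, (α j).natAbs < K := by
    intro j
    have := Finset.single_le_sum (f := fun j => (α j).natAbs) (fun _ _ => Nat.zero_le _)
      (Finset.mem_univ j)
    rw [hK]
    omega
  have hVp : ∀ k : ℤ, (K : ℤ) ≤ k → (V k ↔ V K) := by
    intro k hk
    apply hVV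
    intro j
    have h1 := hαK j
    show (0 < β j ∨ (β j = 0 ∧ 0 ≤ α j + k * γ j)) ↔ (0 < β j ∨ (β j = 0 ∧ 0 ≤ α j + K * γ j))
    rcases lt_trichotomy (γ j) 0 with h5 | h5 | h5
    · have h6 : k * γ j ≤ -k := by nlinarith
      have h7 : (K : ℤ) * γ j ≤ -K := by nlinarith
      constructor
      · rintro (h | ⟨-, h⟩)
        · exact Or.inl h
        · omega
      · rintro (h | ⟨-, h⟩)
        · exact Or.inl h
        · omega
    · rw [h5]; simp
    · have h6 : k ≤ k * γ j := by nlinarith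
      have h7 : (K : ℤ) ≤ (K : ℤ) * γ j := by nlinarith
      constructor
      · rintro (h | ⟨h, -⟩)
        · exact Or.inl h
        · exact Or.inr ⟨h, by omega⟩
      · rintro (h | ⟨h, -⟩)
        · exact Or.inl h
        · exact Or.inr ⟨h, by omega⟩
  have hVn : ∀ k : ℤ, k ≤ -(K : ℤ) → (V k ↔ V (-(K : ℤ))) := by
    intro k hk
    apply hVV
    intro j
    have h1 := hαK j
    show (0 < β j ∨ (β j = 0 ∧ 0 ≤ α j + k * γ j)) ↔
      (0 < β j ∨ (β j = 0 ∧ 0 ≤ α j + (-(K : ℤ)) * γ j))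
    rcases lt_trichotomy (γ j) 0 with h5 | h5 | h5
    · have h6 : -k ≤ k * γ j := by nlinarith
      have h7 : (K : ℤ) ≤ (-(K : ℤ)) * γ j := by nlinarith
      constructor
      · rintro (h | ⟨h, -⟩)
        · exact Or.inl h
        · exact Or.inr ⟨h, by omega⟩
      · rintro (h | ⟨h, -⟩)
        · exact Or.inl h
        · exact Or.inr ⟨h, by omega⟩
    · rw [h5]; simp
    · have h6 : k * γ j ≤ k := by nlinarith
      have h7 : (-(K : ℤ)) * γ j ≤ -(K : ℤ) := by nlinarith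
      constructor
      · rintro (h | ⟨-, h⟩)
        · exact Or.inl h
        · omega
      · rintro (h | ⟨-, h⟩)
        · exact Or.inl h
        · omega
  -- parametrized sections
  have hpar : ∀ k0 s : ℤ, ∃ u v w : A → ℕ, ∀ m n : ℕ,
      (u + m • v + n • w ∈ S ↔ V (k0 + s * ((m : ℤ) - n))) := by
    intro k0 s
    set C : ℕ := (F + 1) * (s.natAbs + k0.natAbs + 1) with hC
    have hC1 : s.natAbs + k0.natAbs + 1 ≤ C := by rw [hC]; nlinarith
    refine ⟨y0 + C • a + ((C : ℤ) + k0).toNat • e', C • a + ((C : ℤ) + s).toNat • e',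
      C • a + ((C : ℤ) - s).toNat • e', fun m n => ?_⟩
    have e1 : y0 + C • a + ((C : ℤ) + k0).toNat • e' + m • (C • a + ((C : ℤ) + s).toNat • e') +
        n • (C • a + ((C : ℤ) - s).toNat • e') =
        P (C + m * C + n * C) (((C : ℤ) + k0).toNat + m * ((C : ℤ) + s).toNat +
          n * ((C : ℤ) - s).toNat) := by
      show _ = y0 + (C + m * C + n * C) • a + (((C : ℤ) + k0).toNat + m * ((C : ℤ) + s).toNat +
          n * ((C : ℤ) - s).toNat) • e'
      funext b
      simp only [Pi.add_apply, Pi.smul_apply, smul_eq_mul]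
      ring
    have i1 : ((((C : ℤ) + k0).toNat : ℕ) : ℤ) = C + k0 := Int.toNat_of_nonneg (by omega)
    have i2 : ((((C : ℤ) + s).toNat : ℕ) : ℤ) = C + s := Int.toNat_of_nonneg (by omega)
    have i3 : ((((C : ℤ) - s).toNat : ℕ) : ℤ) = C - s := Int.toNat_of_nonneg (by omega)
    have e2 : (((((C : ℤ) + k0).toNat + m * ((C : ℤ) + s).toNat +
          n * ((C : ℤ) - s).toNat : ℕ)) : ℤ) - ((C + m * C + n * C : ℕ) : ℤ) =
          k0 + s * ((m : ℤ) - n) := by
      push_cast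
      rw [i1, i2, i3]
      ring
    rw [e1, hV _ _ ?_, e2]
    rw [e2]
    have h1 : (k0 + s * ((m : ℤ) - n)).natAbs ≤ (s.natAbs + k0.natAbs + 1) * (1 + m + n) := by
      have h2 : |k0 + s * ((m : ℤ) - n)| ≤ |k0| + |s| * (m + n) := by
        refine (abs_add_le _ _).trans ?_
        rw [abs_mul]
        have h3 : |(m : ℤ) - n| ≤ m + n := by
          rw [abs_le]; constructor <;> omega
        have := mul_le_mul_of_nonneg_left h3 (abs_nonneg s)
        linarith
      have h4 : |k0| + |s| * ((m : ℤ) + n) ≤ (|s| + |k0| + 1) * (1 + m + n) := by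
        have h5 : (0 : ℤ) ≤ |k0| := abs_nonneg _
        have h6 : (0 : ℤ) ≤ |s| := abs_nonneg _
        have h7 : (0 : ℤ) ≤ (m : ℤ) + n := by positivity
        nlinarith [mul_nonneg h5 h7]
      have h5 := h2.trans h4
      rw [Int.abs_eq_natAbs, Int.abs_eq_natAbs, Int.abs_eq_natAbs] at h5
      exact_mod_cast h5
    calc (F + 1) * (k0 + s * ((m : ℤ) - n)).natAbs
        ≤ (F + 1) * ((s.natAbs + k0.natAbs + 1) * (1 + m + n)) := Nat.mul_le_mul_left _ h1
      _ = C + m * C + n * C := by rw [hC]; ring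
  by_cases hVK : V K <;> by_cases hVK' : V (-(K : ℤ))
  · -- both ends true
    obtain ⟨k0, hk0, hk1, hk2⟩ : ∃ k0 : ℤ, ¬ V k0 ∧ 0 ≤ k0 ∧ k0 ≤ 1 := by
      by_cases h0 : V 0
      · have : ¬ V 1 := fun h1 => hV01 ⟨fun _ => h1, fun _ => h0⟩
        exact ⟨1, this, by norm_num, le_refl _⟩
      · exact ⟨0, h0, le_refl _, by norm_num⟩
    obtain ⟨u, v, w, h⟩ := hpar k0 (2 * K + 2)
    refine ⟨u, v, w, Or.inr (Or.inl fun m n => ?_)⟩
    rw [h]
    rcases lt_trichotomy m n with hmn | hmn | hmn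
    · have h1 : (2 * (K : ℤ) + 2) * ((m : ℤ) - n) ≤ -(2 * K + 2) := by
        have : (m : ℤ) - n ≤ -1 := by omega
        nlinarith
      rw [hVn _ (by omega)]
      exact ⟨fun _ => by omega, fun _ => hVK'⟩
    · subst hmn
      rw [sub_self, mul_zero, add_zero]
      exact ⟨fun h1 => absurd h1 hk0, fun h1 => absurd rfl h1⟩
    · have h1 : (2 * (K : ℤ) + 2) ≤ (2 * (K : ℤ) + 2) * ((m : ℤ) - n) := by
        have : 1 ≤ (m : ℤ) - n := by omega
        nlinarith
      rw [hVp _ (by omega)]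
      exact ⟨fun _ => by omega, fun _ => hVK⟩
  · -- true at the right
    obtain ⟨u, v, w, h⟩ := hpar (-(K : ℤ)) (2 * K + 2)
    refine ⟨u, v, w, Or.inl fun m n => ?_⟩
    rw [h]
    rcases Nat.lt_or_ge n m with hmn | hmn
    · have h1 : (2 * (K : ℤ) + 2) ≤ (2 * (K : ℤ) + 2) * ((m : ℤ) - n) := by
        have : 1 ≤ (m : ℤ) - n := by omega
        nlinarith
      rw [hVp _ (by omega)]
      exact ⟨fun _ => hmn, fun _ => hVK⟩
    · have h1 : (2 * (K : ℤ) + 2) * ((m : ℤ) - n) ≤ 0 := by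
        have : (m : ℤ) - n ≤ 0 := by omega
        nlinarith
      rw [hVn _ (by omega)]
      exact ⟨fun h2 => absurd h2 hVK', fun h2 => by omega⟩
  · -- true at the left
    obtain ⟨u, v, w, h⟩ := hpar (K : ℤ) (-(2 * K + 2))
    refine ⟨u, v, w, Or.inl fun m n => ?_⟩
    rw [h]
    rcases Nat.lt_or_ge n m with hmn | hmn
    · have h1 : (-(2 * (K : ℤ) + 2)) * ((m : ℤ) - n) ≤ -(2 * (K : ℤ) + 2) := by
        have : 1 ≤ (m : ℤ) - n := by omega
        nlinarith
      rw [hVn _ (by omega)]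
      exact ⟨fun _ => hmn, fun _ => hVK'⟩
    · have h1 : 0 ≤ (-(2 * (K : ℤ) + 2)) * ((m : ℤ) - n) := by
        have : (m : ℤ) - n ≤ 0 := by omega
        nlinarith
      rw [hVp _ (by omega)]
      exact ⟨fun h2 => absurd h2 hVK, fun h2 => by omega⟩
  · -- both ends false
    obtain ⟨k0, hk0, hk1, hk2⟩ : ∃ k0 : ℤ, V k0 ∧ 0 ≤ k0 ∧ k0 ≤ 1 := by
      by_cases h0 : V 0
      · exact ⟨0, h0, le_refl _, by norm_num⟩
      · have : V 1 := by
          by_contra h1
          exact hV01 ⟨fun h => absurd h h0, fun h => absurd h h1⟩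
        exact ⟨1, this, by norm_num, le_refl _⟩
    obtain ⟨u, v, w, h⟩ := hpar k0 (2 * K + 2)
    refine ⟨u, v, w, Or.inr (Or.inr fun m n => ?_)⟩
    rw [h]
    rcases lt_trichotomy m n with hmn | hmn | hmn
    · have h1 : (2 * (K : ℤ) + 2) * ((m : ℤ) - n) ≤ -(2 * K + 2) := by
        have : (m : ℤ) - n ≤ -1 := by omega
        nlinarith
      rw [hVn _ (by omega)]
      exact ⟨fun h2 => absurd h2 hVK', fun h2 => by omega⟩
    · subst hmn
      rw [sub_self, mul_zero, add_zero]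
      exact ⟨fun _ => rfl, fun _ => hk0⟩
    · have h1 : (2 * (K : ℤ) + 2) ≤ (2 * (K : ℤ) + 2) * ((m : ℤ) - n) := by
        have : 1 ≤ (m : ℤ) - n := by omega
        nlinarith
      rw [hVp _ (by omega)]
      exact ⟨fun h2 => absurd h2 hVK, fun h2 => by omega⟩

end Pool.Agent.H643R2.Semi
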