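import Pool.Agent.H643R2.SemiPat
import Pool.Agent.Helper288.ConeSemi

set_option autoImplicit false

/-!
# Parikh images of regular languages; commutative languages with recognizable Parikh image
-/

namespace Pool.Agent.H643R2.Semi

open Pool.Agent.Helper288.Cone

variable {A : Type}

open Classical in
/-- the Parikh vector -/
noncomputable def cnt (w : List A) : A → ℕ := fun a => w.count a

theorem cnt_nil : cnt ([] : List A) = 0 := by
  funext a
  simp [cnt]

theorem cnt_append (u v : List A) : cnt (u ++ v) = cnt u + cnt v := by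
  funext a
  simp [cnt]

open Classical in
theorem cnt_single (a : A) : cnt [a] = Pi.single a 1 := by
  funext b
  by_cases h : b = a
  · subst h; simp [cnt]
  · rw [Pi.single_eq_of_ne h]
    simp only [cnt]
    rw [List.count_eq_zero]
    simpa using h

theorem cnt_cons (a : A) (v : List A) : cnt (a :: v) = cnt [a] + cnt v := by
  rw [← cnt_append]; rfl

theorem perm_iff_cnt (u v : List A) : u.Perm v ↔ cnt u = cnt v := by
  classical
  rw [List.perm_iff_count]
  constructor
  · intro h
    funext a
    have := h a
    unfold cnt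
    convert this
  · intro h a
    have := congrFun h a
    unfold cnt at this
    convert this

theorem semilinear_of_slin {M : Type} [AddCommMonoid M] {Q S : Set M} (h : SLin Q S) :
    IsSemilinearSet S := by
  obtain ⟨F, h1, h2, h3⟩ := h
  refine ⟨F, h1, fun B hB => ?_, h3⟩
  obtain ⟨c, Ω, -, h5⟩ := h2 B hB
  rw [isLinearSet_iff]
  refine ⟨c, Ω, ?_⟩
  ext x
  rw [h5, Set.mem_vadd_set]
  constructor
  · rintro ⟨y, hy, rfl⟩; exact ⟨y, hy, rfl⟩
  · rintro ⟨y, hy, rfl⟩; exact ⟨y, hy, rfl⟩

/-- Parikh's theorem for regular languages. -/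
theorem parikh_semilinear [Fintype A] {σ : Type} [Fintype σ] (M : DFA A σ) :
    IsSemilinearSet {x : A → ℕ | ∃ v ∈ M.accepts, cnt v = x} := by
  classical
  let E : σ → (A → ℕ) → σ → Prop := fun s m t => ∃ a, M.step s a = t ∧ m = cnt [a]
  have hE : ∀ s t, {m | E s m t}.Finite := by
    intro s t
    apply (Set.finite_range (fun a : A => cnt [a])).subset
    rintro m ⟨a, -, rfl⟩
    exact ⟨a, rfl⟩
  have h1 : ∀ (v : List A) (s : σ), v ≠ [] → Wk E Set.univ s (cnt v) (M.evalFrom s v) := by
    intro v
    induction v with
    | nil => intro s h; exact absurd rfl h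
    | cons a v ih =>
      intro s _
      rcases List.eq_nil_or_concat v with rfl | ⟨_, _, hv⟩
      · exact Wk.edge ⟨a, rfl, rfl⟩
      · have hne : v ≠ [] := by rw [hv]; simp
        have h2 := ih (M.step s a) hne
        rw [cnt_cons]
        exact Wk.cons ⟨a, rfl, rfl⟩ (Set.mem_univ _) h2
  have h2 : ∀ {s : σ} {m : A → ℕ} {t : σ}, Wk E Set.univ s m t →
      ∃ v : List A, cnt v = m ∧ M.evalFrom s v = t := by
    intro s m t h
    induction h with
    | edge h =>
      obtain ⟨a, h3, h4⟩ := h
      exact ⟨[a], h4.symm, h3⟩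
    | cons h _ _ ih =>
      obtain ⟨a, h3, h4⟩ := h
      obtain ⟨v, h5, h6⟩ := ih
      refine ⟨a :: v, ?_, ?_⟩
      · rw [cnt_cons, h5, h4]
      · rw [DFA.evalFrom_cons, h3, h6]
  have e : {x : A → ℕ | ∃ v ∈ M.accepts, cnt v = x} =
      (⋃ q ∈ M.accept, {m | Wk E ((Finset.univ : Finset σ) : Set σ) M.start m q}) ∪
        {m | m = 0 ∧ M.start ∈ M.accept} := by
    ext x
    constructor
    · rintro ⟨v, hv, rfl⟩
      by_cases hne : v = []
      · subst hne
        right
        exact ⟨cnt_nil, hv⟩
      · left
        rw [Set.mem_iUnion₂]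
        refine ⟨M.eval v, hv, ?_⟩
        rw [Finset.coe_univ]
        exact h1 v M.start hne
    · rintro (h | ⟨rfl, h⟩)
      · rw [Set.mem_iUnion₂] at h
        obtain ⟨q, hq, h⟩ := h
        rw [Finset.coe_univ] at h
        obtain ⟨v, h3, h4⟩ := h2 h
        refine ⟨v, ?_, h3⟩
        rw [DFA.mem_accepts, DFA.eval, h4]
        exact hq
      · exact ⟨[], h, cnt_nil⟩
  rw [e]
  apply IsSemilinearSet.union
  · apply IsSemilinearSet.biUnion (Set.toFinite _)
    intro q _
    exact semilinear_of_slin (Wk.slin hE Finset.univ _ _)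
  · apply IsSemilinearSet.of_finite
    apply (Set.finite_singleton (0 : A → ℕ)).subset
    rintro m ⟨rfl, -⟩
    rfl

open Classical in
theorem iter_single (S : Set (A → ℕ)) (b : A) (t p : ℕ)
    (h : ∀ z : A → ℕ, z + t • Pi.single b 1 ∈ S ↔ z + (t + p) • Pi.single b 1 ∈ S)
    (n : A → ℕ) (hn : t ≤ n b) (k : ℕ) : n ∈ S ↔ n + Pi.single b (k * p) ∈ S := by
  induction k with
  | zero => simp
  | succ k ih =>
    rw [ih]
    have h1 := h (n + Pi.single b (k * p) - t • Pi.single b 1)
    have h2 : n + Pi.single b (k * p) - t • Pi.single b 1 + t • Pi.single b 1 =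
        n + Pi.single b (k * p) := by
      funext a
      simp only [Pi.add_apply, Pi.sub_apply, Pi.smul_apply, smul_eq_mul]
      by_cases hab : a = b
      · subst hab
        simp only [Pi.single_eq_same]
        omega
      · simp only [Pi.single_eq_of_ne hab]
        omega
    rw [h2] at h1
    rw [h1, add_smul, ← add_assoc, h2]
    have h3 : n + Pi.single b (k * p) + p • Pi.single b 1 = n + Pi.single b ((k + 1) * p) := by
      funext a
      simp only [Pi.add_apply, Pi.smul_apply, smul_eq_mul]
      by_cases hab : a = b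
      · subst hab
        simp only [Pi.single_eq_same]
        ring
      · simp only [Pi.single_eq_of_ne hab]
        omega
    rw [h3]

open Classical in
/-- A commutative language with recognizable Parikh image is regular. -/
theorem regular_of_rec [Fintype A] (S : Set (A → ℕ)) (T M : ℕ) (hM : 0 < M)
    (hrec : ∀ (n : A → ℕ) (b : A) (k : ℕ), T ≤ n b → (n ∈ S ↔ n + Pi.single b (k * M) ∈ S)) :
    Language.IsRegular ({w : List A | cnt w ∈ S} : Language A) := by
  have add_mul' : ∀ (x t : A → ℕ), (∀ b, t b ≠ 0 → T ≤ x b) →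
      (x ∈ S ↔ (fun b => x b + t b * M) ∈ S) := by
    intro x t hx
    have key : ∀ s : Finset A, x ∈ S ↔ x + ∑ b ∈ s, Pi.single b (t b * M) ∈ S := by
      intro s
      induction s using Finset.induction_on with
      | empty => simp
      | insert b s hb ih =>
        rw [ih, Finset.sum_insert hb]
        have e2 : x + (Pi.single b (t b * M) + ∑ b ∈ s, Pi.single b (t b * M)) =
          x + ∑ b ∈ s, Pi.single b (t b * M) + Pi.single b (t b * M) := by abel
        rw [e2]
        by_cases h0 : t b = 0
        · rw [h0]; simp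
        · have h1 : T ≤ (x + ∑ b ∈ s, Pi.single b (t b * M) : A → ℕ) b := by
            rw [Pi.add_apply]; have := hx b h0; omega
          exact hrec _ b (t b) h1
    have h2 := key Finset.univ
    rw [Finset.univ_sum_single] at h2
    exact h2
  set L' : Language A := {w : List A | cnt w ∈ S} with hL'
  apply Language.IsRegular.of_finite_range_leftQuotient
  let red : (A → ℕ) → (A → ℕ) := fun n b => if n b < T then n b else T + (n b - T) % M
  have hred_lt : ∀ n b, red n b < T + M := by
    intro n b
    simp only [red]
    split_ifs with h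
    · omega
    · have := Nat.mod_lt (n b - T) hM
      omega
  have hred : ∀ n m : A → ℕ, n + m ∈ S ↔ red n + m ∈ S := by
    intro n m
    rw [add_mul' (red n + m) (fun b => if n b < T then 0 else (n b - T) / M)]
    · have : (fun b => (red n + m) b + (if n b < T then 0 else (n b - T) / M) * M) = n + m := by
        funext b
        simp only [red, Pi.add_apply]
        split_ifs with h
        · simp
        · have := Nat.mod_add_div (n b - T) M
          have h2 : (n b - T) / M * M = M * ((n b - T) / M) := by ring
          rw [h2]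
          omega
      rw [this]
    · intro b hb
      simp only [red, Pi.add_apply]
      split_ifs at hb ⊢ with h
      · exact absurd rfl hb
      · omega
  let G : (A → Fin (T + M)) → Language A := fun m => {v | (fun b => (m b : ℕ)) + cnt v ∈ S}
  have hsub : Set.range L'.leftQuotient ⊆ Set.range G := by
    rintro Q ⟨u, rfl⟩
    refine ⟨fun b => ⟨red (cnt u) b, hred_lt _ _⟩, ?_⟩
    ext v
    rw [Language.mem_leftQuotient]
    change red (cnt u) + cnt v ∈ S ↔ cnt (u ++ v) ∈ S
    rw [cnt_append, hred (cnt u) (cnt v)]
  exact (Set.finite_range G).subset hsub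

open Classical in
/-- If no direction is of infinite order, the commutative language is regular. -/
theorem exists_inf [Fintype A] (S : Set (A → ℕ))
    (hreg : ¬ Language.IsRegular ({w : List A | cnt w ∈ S} : Language A)) :
    ∃ i0 : A, ∀ t p : ℕ, 0 < p → ∃ z : A → ℕ, ¬ (z + t • Pi.single i0 1 ∈ S ↔
      z + (t + p) • Pi.single i0 1 ∈ S) := by
  by_contra hcon
  push Not at hcon
  choose t p hp h using hcon
  apply hreg
  apply regular_of_rec S (∑ a, t a) (∏ a, p a) (Finset.prod_pos fun a _ => hp a)
  intro n b k hb
  obtain ⟨m, hm⟩ := Finset.dvd_prod_of_mem p (Finset.mem_univ b)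
  have h1 : t b ≤ n b := (Finset.single_le_sum (f := t) (fun _ _ => Nat.zero_le _)
    (Finset.mem_univ b)).trans hb
  have h2 := iter_single S b (t b) (p b) (h b) n h1 (k * m)
  rw [h2, hm]
  have : k * m * p b = k * (p b * m) := by ring
  rw [this]

end Pool.Agent.H643R2.Semi
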